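import Pool.Agent.H85.Fold.Sgn

/-!
# Project FOLD: homology spheres
-/

set_option autoImplicit false

open Finset

namespace Pool.Agent.H85.Fold

variable {V : Type} [DecidableEq V] [Fintype V]

/-- real simplicial chains of degree `j` (on simplices with `j` vertices) of the link of the clique
`ρ` in the clique complex of `G` -/
def LinkChain (G : SimpleGraph V) (ρ : Finset V) (j : ℕ) (z : Finset V → ℝ) : Prop :=
  ∀ σ, z σ ≠ 0 → Disjoint σ ρ ∧ Cl G (σ ∪ ρ) ∧ σ.card = j

/-- The clique complex of `G` is a real homology sphere of dimension `n - 1`: for every clique `ρ`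
(also for `ρ = ∅`) the link of `ρ` has the reduced real homology of the sphere of dimension
`n - 1 - |ρ|`. -/
structure IsHomologySphere (G : SimpleGraph V) (n : ℕ) : Prop where
  dim : ∀ σ, Cl G σ → σ.card ≤ n
  low : ∀ ν : V → ℕ, Function.Injective ν → ∀ ρ, Cl G ρ → ∀ j, j + ρ.card < n →
    ∀ z, LinkChain G ρ j z → bd ν z = 0 → ∃ y, LinkChain G ρ (j + 1) y ∧ bd ν y = z
  top : ∀ ν : V → ℕ, Function.Injective ν → ∀ ρ, Cl G ρ → ∀ j, j + ρ.card = n →
    ∃ o, LinkChain G ρ j o ∧ bd ν o = 0 ∧ o ≠ 0 ∧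
      ∀ z, LinkChain G ρ j z → bd ν z = 0 → ∃ r : ℝ, z = r • o

namespace SphereAux

/-- the twisting sign -/
def tw (ν : V → ℕ) (ρ σ : Finset V) : ℝ := ∏ v ∈ σ, sgn ν v ρ

theorem tw_sq (ν : V → ℕ) (ρ σ : Finset V) : tw ν ρ σ * tw ν ρ σ = 1 := by
  unfold tw
  rw [← Finset.prod_mul_distrib]
  exact Finset.prod_eq_one (fun v _ => sgn_sq ν v ρ)

theorem tw_ne (ν : V → ℕ) (ρ σ : Finset V) : tw ν ρ σ ≠ 0 := by
  intro h
  have h1 := tw_sq ν ρ σ
  rw [h] at h1
  norm_num at h1

theorem tw_insert (ν : V → ℕ) (ρ σ : Finset V) (v : V) (hv : v ∉ σ) :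
    tw ν ρ (insert v σ) = sgn ν v ρ * tw ν ρ σ := Finset.prod_insert hv

theorem sgn_ne (ν : V → ℕ) (v : V) (σ : Finset V) : sgn ν v σ ≠ 0 := by
  intro h
  have h1 := sgn_sq ν v σ
  rw [h] at h1
  norm_num at h1

theorem sgn_union (ν : V → ℕ) (v : V) (σ ρ : Finset V) (h : Disjoint σ ρ) :
    sgn ν v (σ ∪ ρ) = sgn ν v σ * sgn ν v ρ := by
  unfold sgn
  rw [Finset.filter_union, Finset.card_union_of_disjoint (Finset.disjoint_filter_filter h),
    pow_add]

theorem bd_apply (ν : V → ℕ) (c : Finset V → ℝ) (ρ : Finset V) :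
    bd ν c ρ = ∑ v ∈ ρᶜ, sgn ν v ρ * c (insert v ρ) := rfl

/-- from the link to the star -/
def up (ν : V → ℕ) (ρ : Finset V) (y : Finset V → ℝ) : Finset V → ℝ :=
  fun σ => if ρ ⊆ σ then tw ν ρ (σ \ ρ) * y (σ \ ρ) else 0

/-- from the star to the link -/
def dn (ν : V → ℕ) (ρ : Finset V) (z : Finset V → ℝ) : Finset V → ℝ :=
  fun σ => if Disjoint σ ρ then tw ν ρ σ * z (σ ∪ ρ) else 0

theorem bd_up (ν : V → ℕ) (ρ κ : Finset V) (y : Finset V → ℝ)
    (hy : ∀ σ, y σ ≠ 0 → Disjoint σ ρ) (hκ : ρ ⊆ κ) :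
    bd ν (up ν ρ y) κ = tw ν ρ (κ \ ρ) * bd ν y (κ \ ρ) := by
  rw [bd_apply, bd_apply, Finset.mul_sum]
  rw [← Finset.sum_subset (s₁ := κᶜ) (s₂ := (κ \ ρ)ᶜ)]
  · apply Finset.sum_congr rfl
    intro v hv
    rw [Finset.mem_compl] at hv
    have hvρ : v ∉ ρ := fun h => hv (hκ h)
    have h1 : ρ ⊆ insert v κ := hκ.trans (Finset.subset_insert v κ)
    have h2 : insert v κ \ ρ = insert v (κ \ ρ) := Finset.insert_sdiff_of_notMem κ hvρ
    have h3 : v ∉ κ \ ρ := fun h => hv (Finset.mem_sdiff.mp h).1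
    unfold up
    rw [if_pos h1, h2, tw_insert ν ρ _ v h3]
    have h4 : sgn ν v κ = sgn ν v (κ \ ρ) * sgn ν v ρ := by
      rw [← sgn_union ν v _ _ Finset.sdiff_disjoint, Finset.sdiff_union_of_subset hκ]
    rw [h4]
    have h5 := sgn_sq ν v ρ
    linear_combination (sgn ν v (κ \ ρ) * tw ν ρ (κ \ ρ) * y (insert v (κ \ ρ))) * h5
  · intro v hv
    rw [Finset.mem_compl] at hv ⊢
    exact fun h => hv (Finset.mem_sdiff.mp h).1
  · intro v hv1 hv
    rw [Finset.mem_compl, not_not] at hv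
    rw [Finset.mem_compl, Finset.mem_sdiff, not_and_not_right] at hv1
    have h0 : y (insert v (κ \ ρ)) = 0 := by
      by_contra h
      exact (Finset.disjoint_left.mp (hy _ h)) (Finset.mem_insert_self _ _) (hv1 hv)
    rw [h0, mul_zero, mul_zero]

theorem bd_dn (ν : V → ℕ) (ρ κ : Finset V) (z : Finset V → ℝ) (hκ : Disjoint κ ρ) :
    bd ν (dn ν ρ z) κ = tw ν ρ κ * bd ν z (κ ∪ ρ) := by
  rw [bd_apply, bd_apply, Finset.mul_sum]
  rw [← Finset.sum_subset (s₁ := (κ ∪ ρ)ᶜ) (s₂ := κᶜ)]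
  · apply Finset.sum_congr rfl
    intro v hv
    rw [Finset.mem_compl, Finset.mem_union, not_or] at hv
    have h1 : Disjoint (insert v κ) ρ := by
      rw [Finset.disjoint_insert_left]
      exact ⟨hv.2, hκ⟩
    unfold dn
    rw [if_pos h1, tw_insert ν ρ κ v hv.1, Finset.insert_union, sgn_union ν v _ _ hκ]
    ring
  · intro v hv
    rw [Finset.mem_compl] at hv ⊢
    exact fun h => hv (Finset.mem_union_left _ h)
  · intro v hv1 hv
    rw [Finset.mem_compl, not_not, Finset.mem_union] at hv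
    rw [Finset.mem_compl] at hv1
    have hvρ : v ∈ ρ := hv.resolve_left hv1
    unfold dn
    rw [if_neg, mul_zero]
    intro h
    exact (Finset.disjoint_left.mp h) (Finset.mem_insert_self _ _) hvρ

theorem bd_dn' (ν : V → ℕ) (ρ κ : Finset V) (z : Finset V → ℝ) (hκ : ¬ Disjoint κ ρ) :
    bd ν (dn ν ρ z) κ = 0 := by
  rw [bd_apply]
  apply Finset.sum_eq_zero
  intro v _
  unfold dn
  rw [if_neg, mul_zero]
  intro h
  exact hκ (Finset.disjoint_of_subset_left (Finset.subset_insert v κ) h)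

/-- chains of the star -/
def Rel (G : SimpleGraph V) (ρ : Finset V) (j : ℕ) (z : Finset V → ℝ) : Prop :=
  ∀ σ, z σ ≠ 0 → ρ ⊆ σ ∧ Cl G σ ∧ σ.card = j

theorem Rel.linkChain {G : SimpleGraph V} {ρ : Finset V} {j : ℕ} {z : Finset V → ℝ} (ν : V → ℕ)
    (h : Rel G ρ (j + ρ.card) z) : LinkChain G ρ j (dn ν ρ z) := by
  intro σ hσ
  unfold dn at hσ
  by_cases hd : Disjoint σ ρ
  · rw [if_pos hd] at hσ
    obtain ⟨_, h2, h3⟩ := h _ (right_ne_zero_of_mul hσ)
    refine ⟨hd, h2, ?_⟩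
    rw [Finset.card_union_of_disjoint hd] at h3
    omega
  · rw [if_neg hd] at hσ
    exact absurd rfl hσ

theorem rel_up {G : SimpleGraph V} {ρ : Finset V} {j : ℕ} {y : Finset V → ℝ} (ν : V → ℕ)
    (h : LinkChain G ρ j y) : Rel G ρ (j + ρ.card) (up ν ρ y) := by
  intro σ hσ
  unfold up at hσ
  by_cases hd : ρ ⊆ σ
  · rw [if_pos hd] at hσ
    obtain ⟨_, h2, h3⟩ := h _ (right_ne_zero_of_mul hσ)
    rw [Finset.sdiff_union_of_subset hd] at h2
    refine ⟨hd, h2, ?_⟩
    have := Finset.card_sdiff_add_card_eq_card hd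
    omega
  · rw [if_neg hd] at hσ
    exact absurd rfl hσ

theorem up_dn {G : SimpleGraph V} {ρ : Finset V} {j : ℕ} {z : Finset V → ℝ} (ν : V → ℕ)
    (h : Rel G ρ j z) : up ν ρ (dn ν ρ z) = z := by
  funext σ
  unfold up
  by_cases hd : ρ ⊆ σ
  · rw [if_pos hd]
    unfold dn
    rw [if_pos Finset.sdiff_disjoint, Finset.sdiff_union_of_subset hd, ← mul_assoc, tw_sq, one_mul]
  · rw [if_neg hd]
    by_contra hne
    exact hd (h σ (fun h0 => hne h0.symm)).1

theorem dn_cycle {ρ : Finset V} {z : Finset V → ℝ} (ν : V → ℕ)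
    (hc : ∀ κ, ρ ⊆ κ → bd ν z κ = 0) : bd ν (dn ν ρ z) = 0 := by
  funext κ
  by_cases hd : Disjoint κ ρ
  · rw [bd_dn ν ρ κ z hd, hc _ Finset.subset_union_right, mul_zero]
    rfl
  · rw [bd_dn' ν ρ κ z hd]
    rfl

theorem rel_low {G : SimpleGraph V} {n : ℕ} (h : IsHomologySphere G n)
    {ν : V → ℕ} (hν : Function.Injective ν) {ρ : Finset V} (hρ : Cl G ρ) {j : ℕ} (hj : j < n)
    {z : Finset V → ℝ} (hz : Rel G ρ j z) (hc : ∀ κ, ρ ⊆ κ → bd ν z κ = 0) :
    ∃ y, Rel G ρ (j + 1) y ∧ ∀ κ, ρ ⊆ κ → bd ν y κ = z κ := by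
  by_cases hjρ : j < ρ.card
  · have hz0 : z = 0 := by
      funext σ
      by_contra hne
      obtain ⟨h1, _, h3⟩ := hz σ hne
      have := Finset.card_le_card h1
      omega
    refine ⟨0, ?_, ?_⟩
    · intro σ hσ
      exact absurd rfl hσ
    · intro κ _
      rw [hz0, map_zero]
  · obtain ⟨i, rfl⟩ : ∃ i, j = i + ρ.card := ⟨j - ρ.card, by omega⟩
    obtain ⟨y, hy, hyz⟩ := h.low ν hν ρ hρ i hj (dn ν ρ z) (hz.linkChain ν) (dn_cycle ν hc)
    refine ⟨up ν ρ y, ?_, ?_⟩
    · have := rel_up ν hy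
      rwa [show i + 1 + ρ.card = i + ρ.card + 1 by ring] at this
    · intro κ hκ
      rw [bd_up ν ρ κ y (fun σ hσ => (hy σ hσ).1) hκ, hyz]
      have := congrFun (up_dn ν hz) κ
      rw [← this]
      unfold up
      rw [if_pos hκ]

theorem rel_top {G : SimpleGraph V} {n : ℕ} (h : IsHomologySphere G n)
    {ν : V → ℕ} (hν : Function.Injective ν) {ρ : Finset V} (hρ : Cl G ρ) :
    ∃ o, Rel G ρ n o ∧ (∀ κ, ρ ⊆ κ → bd ν o κ = 0) ∧ o ≠ 0 ∧
      ∀ z, Rel G ρ n z → (∀ κ, ρ ⊆ κ → bd ν z κ = 0) → ∃ r : ℝ, z = r • o := by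
  have hn := h.dim ρ hρ
  obtain ⟨i, rfl⟩ : ∃ i, n = i + ρ.card := ⟨n - ρ.card, by omega⟩
  obtain ⟨g, hg, hg0, hg1, hg2⟩ := h.top ν hν ρ hρ i rfl
  refine ⟨up ν ρ g, rel_up ν hg, ?_, ?_, ?_⟩
  · intro κ hκ
    rw [bd_up ν ρ κ g (fun σ hσ => (hg σ hσ).1) hκ, hg0]
    simp
  · intro h0
    apply hg1
    funext σ
    by_contra hne
    obtain ⟨h1, _, _⟩ := hg σ hne
    have h2 := congrFun h0 (σ ∪ ρ)
    unfold up at h2
    rw [if_pos Finset.subset_union_right, Finset.union_sdiff_cancel_right h1] at h2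
    exact (mul_ne_zero (tw_ne ν ρ σ) hne) h2
  · intro z hz hc
    obtain ⟨r, hr⟩ := hg2 _ (hz.linkChain ν) (dn_cycle ν hc)
    refine ⟨r, ?_⟩
    rw [← up_dn ν hz, hr]
    funext σ
    unfold up
    by_cases hd : ρ ⊆ σ
    · simp only [Pi.smul_apply, smul_eq_mul, if_pos hd]
      ring
    · simp [hd]

theorem pure' {G : SimpleGraph V} {n : ℕ} (h : IsHomologySphere G n) {ν : V → ℕ}
    (hν : Function.Injective ν) {ρ : Finset V} (hρ : Cl G ρ) :
    ∃ τ, Cl G τ ∧ τ.card = n ∧ ρ ⊆ τ := by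
  obtain ⟨o, h1, _, h3, _⟩ := rel_top h hν hρ
  obtain ⟨τ, hτ⟩ := Function.ne_iff.mp h3
  obtain ⟨a, b, c⟩ := h1 τ hτ
  exact ⟨τ, b, c, a⟩

theorem anti_sum' (s : Finset V) (F : V → V → ℝ)
    (h : ∀ u ∈ s, ∀ v ∈ s, F u v = - F v u) : ∑ u ∈ s, ∑ v ∈ s, F u v = 0 := by
  have h1 : ∑ u ∈ s, ∑ v ∈ s, F u v = - ∑ u ∈ s, ∑ v ∈ s, F u v := by
    calc ∑ u ∈ s, ∑ v ∈ s, F u v = ∑ u ∈ s, ∑ v ∈ s, - F v u :=
          Finset.sum_congr rfl fun u hu => Finset.sum_congr rfl fun v hv => h u hu v hv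
      _ = - ∑ u ∈ s, ∑ v ∈ s, F v u := by
          simp only [Finset.sum_neg_distrib]
      _ = - ∑ u ∈ s, ∑ v ∈ s, F u v := by rw [Finset.sum_comm]
  linarith

/-- the difference of two simplices which contain `ρ` as a ridge -/
noncomputable def dif (ν : V → ℕ) (ρ : Finset V) (a b : V) : Finset V → ℝ :=
  sgn ν a ρ • Pi.single (insert a ρ) 1 - sgn ν b ρ • Pi.single (insert b ρ) 1

theorem dif_rel {G : SimpleGraph V} (ν : V → ℕ) (ρ : Finset V) (a b : V) (ha : a ∉ ρ)
    (hb : b ∉ ρ) (hca : Cl G (insert a ρ)) (hcb : Cl G (insert b ρ)) :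
    Rel G ρ (ρ.card + 1) (dif ν ρ a b) := by
  intro σ hσ
  by_cases h1 : σ = insert a ρ
  · subst h1
    exact ⟨Finset.subset_insert _ _, hca, Finset.card_insert_of_notMem ha⟩
  · by_cases h2 : σ = insert b ρ
    · subst h2
      exact ⟨Finset.subset_insert _ _, hcb, Finset.card_insert_of_notMem hb⟩
    · exfalso
      apply hσ
      simp [dif, Pi.single_apply, h1, h2]

theorem dif_apply (ν : V → ℕ) (ρ : Finset V) (a b u : V) (ha : a ∉ ρ) (hb : b ∉ ρ) (hu : u ∉ ρ) :
    dif ν ρ a b (insert u ρ) =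
      (if u = a then sgn ν a ρ else 0) - (if u = b then sgn ν b ρ else 0) := by
  have hinj : ∀ x, x ∉ ρ → ((insert u ρ : Finset V) = insert x ρ ↔ u = x) := by
    intro x hx
    constructor
    · intro h
      have : u ∈ insert x ρ := h ▸ Finset.mem_insert_self u ρ
      rcases Finset.mem_insert.mp this with h1 | h1
      · exact h1
      · exact absurd h1 hu
    · rintro rfl
      rfl
  simp only [dif, Pi.sub_apply, Pi.smul_apply, smul_eq_mul, Pi.single_apply, hinj a ha, hinj b hb]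
  split_ifs <;> simp

theorem dif_cycle (ν : V → ℕ) (ρ : Finset V) (a b : V) (ha : a ∉ ρ) (hb : b ∉ ρ) :
    ∀ κ, ρ ⊆ κ → bd ν (dif ν ρ a b) κ = 0 := by
  intro κ hκ
  rw [bd_apply]
  by_cases h : κ = ρ
  · subst h
    have h1 : ∀ v ∈ κᶜ, sgn ν v κ * dif ν κ a b (insert v κ) =
        (if v = a then 1 else 0) - (if v = b then 1 else 0) := by
      intro v hv
      rw [dif_apply ν κ a b v ha hb (Finset.mem_compl.mp hv)]
      have e1 : sgn ν v κ * (if v = a then sgn ν a κ else 0) = if v = a then 1 else 0 := by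
        split_ifs with h1
        · subst h1
          exact sgn_sq ν v κ
        · exact mul_zero _
      have e2 : sgn ν v κ * (if v = b then sgn ν b κ else 0) = if v = b then 1 else 0 := by
        split_ifs with h1
        · subst h1
          exact sgn_sq ν v κ
        · exact mul_zero _
      rw [mul_sub, e1, e2]
    rw [Finset.sum_congr rfl h1, Finset.sum_sub_distrib, Finset.sum_ite_eq', Finset.sum_ite_eq',
      if_pos (Finset.mem_compl.mpr ha), if_pos (Finset.mem_compl.mpr hb), sub_self]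
  · apply Finset.sum_eq_zero
    intro v hv
    rw [Finset.mem_compl] at hv
    have hne : ∀ x, (insert v κ : Finset V) ≠ insert x ρ := by
      intro x hx
      have h1 : (insert v κ : Finset V).card = κ.card + 1 := Finset.card_insert_of_notMem hv
      have h2 : (insert x ρ : Finset V).card ≤ ρ.card + 1 := Finset.card_insert_le x ρ
      have h3 : ρ.card < κ.card := Finset.card_lt_card (hκ.ssubset_of_ne (Ne.symm h))
      rw [hx] at h1
      omega
    simp [dif, Pi.single_apply, hne]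

/-- the restriction of a chain to a star -/
def res (ρ : Finset V) (o : Finset V → ℝ) : Finset V → ℝ := fun σ => if ρ ⊆ σ then o σ else 0

theorem res_cycle {ν : V → ℕ} (ρ : Finset V) {o : Finset V → ℝ} (ho : bd ν o = 0) :
    ∀ κ, ρ ⊆ κ → bd ν (res ρ o) κ = 0 := by
  intro κ hκ
  have h1 := congrFun ho κ
  rw [bd_apply] at h1 ⊢
  refine Eq.trans (Finset.sum_congr rfl ?_) h1
  intro v _
  unfold res
  rw [if_pos (hκ.trans (Finset.subset_insert v κ))]

theorem res_rel {G : SimpleGraph V} {n : ℕ} (ρ : Finset V) {o : Finset V → ℝ}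
    (ho : Rel G ∅ n o) : Rel G ρ n (res ρ o) := by
  intro σ hσ
  unfold res at hσ
  by_cases h : ρ ⊆ σ
  · rw [if_pos h] at hσ
    exact ⟨h, (ho σ hσ).2⟩
  · rw [if_neg h] at hσ
    exact absurd rfl hσ

/-- a top cycle vanishes on all facets which contain `ρ` or on none of them -/
theorem nv {G : SimpleGraph V} {n : ℕ} (h : IsHomologySphere G n) {ν : V → ℕ}
    (hν : Function.Injective ν) {o : Finset V → ℝ} (ho1 : Rel G ∅ n o) (ho2 : bd ν o = 0)
    (d : ℕ) : ∀ ρ, Cl G ρ → d + ρ.card = n →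
      (∀ τ, ρ ⊆ τ → Cl G τ → τ.card = n → o τ = 0) ∨
      (∀ τ, ρ ⊆ τ → Cl G τ → τ.card = n → o τ ≠ 0) := by
  induction d with
  | zero =>
    intro ρ hρ hd
    have key : ∀ τ, ρ ⊆ τ → τ.card = n → τ = ρ := fun τ h1 h2 =>
      (Finset.eq_of_subset_of_card_le h1 (by omega)).symm
    by_cases h0 : o ρ = 0
    · left
      intro τ h1 _ h3
      rw [key τ h1 h3]
      exact h0
    · right
      intro τ h1 _ h3
      rw [key τ h1 h3]
      exact h0
  | succ d ih =>
    intro ρ hρ hd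
    by_contra hcon
    rw [not_or] at hcon
    obtain ⟨hcon1, hcon2⟩ := hcon
    have hcon1' : ∃ τ, ρ ⊆ τ ∧ Cl G τ ∧ τ.card = n ∧ o τ ≠ 0 := by
      by_contra hh
      apply hcon1
      intro τ t1 t2 t3
      by_contra t4
      exact hh ⟨τ, t1, t2, t3, t4⟩
    have hcon2' : ∃ τ, ρ ⊆ τ ∧ Cl G τ ∧ τ.card = n ∧ o τ = 0 := by
      by_contra hh
      apply hcon2
      intro τ t1 t2 t3 t4
      exact hh ⟨τ, t1, t2, t3, t4⟩
    obtain ⟨τ1, a1, a2, a3, a4⟩ := hcon1'
    obtain ⟨τ0, b1, b2, b3, b4⟩ := hcon2'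
    have hlt : ρ.card < n := by omega
    obtain ⟨a, ha, haρ⟩ : ∃ a ∈ τ1, a ∉ ρ :=
      Finset.exists_mem_notMem_of_card_lt_card (by omega)
    obtain ⟨b, hb, hbρ⟩ : ∃ b ∈ τ0, b ∉ ρ :=
      Finset.exists_mem_notMem_of_card_lt_card (by omega)
    have hcl : ∀ (τ σ : Finset V), Cl G τ → σ ⊆ τ → Cl G σ :=
      fun τ σ h1 h2 u hu v hv => h1 u (h2 hu) v (h2 hv)
    have hsa : insert a ρ ⊆ τ1 := Finset.insert_subset ha a1
    have hsb : insert b ρ ⊆ τ0 := Finset.insert_subset hb b1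
    have hca := hcl _ _ a2 hsa
    have hcb := hcl _ _ b2 hsb
    have hka : (insert a ρ).card = ρ.card + 1 := Finset.card_insert_of_notMem haρ
    have hkb : (insert b ρ).card = ρ.card + 1 := Finset.card_insert_of_notMem hbρ
    rcases Nat.eq_zero_or_pos d with hd0 | hdpos
    · subst hd0
      have e1 : insert a ρ = τ1 := Finset.eq_of_subset_of_card_le hsa (by omega)
      have e0 : insert b ρ = τ0 := Finset.eq_of_subset_of_card_le hsb (by omega)
      have hab : a ≠ b := by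
        rintro rfl
        rw [← e1, e0] at a4
        exact a4 b4
      obtain ⟨g, g1, g2, g3, g4⟩ := rel_top h hν hρ
      obtain ⟨r, hr⟩ := g4 (res ρ o) (res_rel ρ ho1) (res_cycle ρ ho2)
      have hr1 := congrFun hr τ1
      have hr0 := congrFun hr τ0
      simp only [res, if_pos a1, if_pos b1, Pi.smul_apply, smul_eq_mul] at hr1 hr0
      have hrne : r ≠ 0 := by
        rintro rfl
        rw [zero_mul] at hr1
        exact a4 hr1
      have hg0 : g τ0 = 0 := by
        rw [b4] at hr0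
        exact (mul_eq_zero.mp hr0.symm).resolve_left hrne
      have hdr := dif_rel ν ρ a b haρ hbρ hca hcb
      rw [show ρ.card + 1 = n by omega] at hdr
      obtain ⟨s, hs⟩ := g4 (dif ν ρ a b) hdr (dif_cycle ν ρ a b haρ hbρ)
      have hs0 := congrFun hs τ0
      rw [← e0, dif_apply ν ρ a b b haρ hbρ hbρ, e0] at hs0
      simp only [if_neg hab.symm, Pi.smul_apply, smul_eq_mul, hg0, mul_zero, if_true,
        zero_sub, neg_eq_zero] at hs0
      exact sgn_ne ν b ρ hs0
    · have hA : ∀ τ, insert a ρ ⊆ τ → Cl G τ → τ.card = n → o τ ≠ 0 := by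
        rcases ih (insert a ρ) hca (by omega) with hh | hh
        · exact absurd (hh τ1 hsa a2 a3) a4
        · exact hh
      have hB : ¬ ∀ τ, insert b ρ ⊆ τ → Cl G τ → τ.card = n → o τ ≠ 0 :=
        fun hh => hh τ0 hsb b2 b3 b4
      obtain ⟨y, y1, y2⟩ := rel_low h hν hρ (j := ρ.card + 1) (by omega)
        (dif_rel ν ρ a b haρ hbρ hca hcb) (dif_cycle ν ρ a b haρ hbρ)
      classical
      let A : Finset V := univ.filter fun u => u ∉ ρ ∧ Cl G (insert u ρ) ∧
        ∀ τ, insert u ρ ⊆ τ → Cl G τ → τ.card = n → o τ ≠ 0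
      have hmem : ∀ u, u ∈ A ↔ (u ∉ ρ ∧ Cl G (insert u ρ) ∧
          ∀ τ, insert u ρ ⊆ τ → Cl G τ → τ.card = n → o τ ≠ 0) := by
        intro u
        simp only [A, Finset.mem_filter, Finset.mem_univ, true_and]
      have haA : a ∈ A := (hmem a).mpr ⟨haρ, hca, hA⟩
      have hbA : b ∉ A := fun hh => hB ((hmem b).mp hh).2.2
      have hsum1 : ∑ u ∈ A, sgn ν u ρ * bd ν y (insert u ρ) = 1 := by
        have e : ∀ u ∈ A, sgn ν u ρ * bd ν y (insert u ρ) =
            (if u = a then 1 else 0) - (if u = b then 1 else 0) := by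
          intro u hu
          rw [y2 _ (Finset.subset_insert u ρ), dif_apply ν ρ a b u haρ hbρ ((hmem u).mp hu).1]
          have e1 : sgn ν u ρ * (if u = a then sgn ν a ρ else 0) = if u = a then 1 else 0 := by
            split_ifs with h1
            · subst h1
              exact sgn_sq ν u ρ
            · exact mul_zero _
          have e2 : sgn ν u ρ * (if u = b then sgn ν b ρ else 0) = if u = b then 1 else 0 := by
            split_ifs with h1
            · subst h1
              exact sgn_sq ν u ρ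
            · exact mul_zero _
          rw [mul_sub, e1, e2]
        rw [Finset.sum_congr rfl e, Finset.sum_sub_distrib, Finset.sum_ite_eq',
          Finset.sum_ite_eq', if_pos haA, if_neg hbA, sub_zero]
      have hsum2 : ∑ u ∈ A, sgn ν u ρ * bd ν y (insert u ρ) =
          ∑ u ∈ A, ∑ w ∈ A, (if u = w then 0 else
            sgn ν u ρ * sgn ν w (insert u ρ) * y (insert w (insert u ρ))) := by
        apply Finset.sum_congr rfl
        intro u hu
        obtain ⟨u1, u2, u3⟩ := (hmem u).mp hu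
        rw [bd_apply, Finset.mul_sum]
        have hleft : ∑ w ∈ (insert u ρ)ᶜ, sgn ν u ρ *
            (sgn ν w (insert u ρ) * y (insert w (insert u ρ))) =
            ∑ w ∈ (insert u ρ)ᶜ ∩ A, (if u = w then 0 else
            sgn ν u ρ * sgn ν w (insert u ρ) * y (insert w (insert u ρ))) := by
          rw [← Finset.sum_subset (Finset.inter_subset_left : (insert u ρ)ᶜ ∩ A ⊆ (insert u ρ)ᶜ)]
          · apply Finset.sum_congr rfl
            intro w hw
            have hwu : u ≠ w := by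
              rintro rfl
              exact (Finset.mem_compl.mp (Finset.mem_inter.mp hw).1) (Finset.mem_insert_self _ _)
            rw [if_neg hwu, mul_assoc]
          · intro w hw hwA
            have hy0 : y (insert w (insert u ρ)) = 0 := by
              by_contra hne
              obtain ⟨_, c2, c3⟩ := y1 _ hne
              apply hwA
              refine Finset.mem_inter.mpr ⟨hw, (hmem w).mpr ?_⟩
              rw [Finset.mem_compl, Finset.mem_insert, not_or] at hw
              have hwsub : insert w ρ ⊆ insert w (insert u ρ) :=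
                Finset.insert_subset_insert w (Finset.subset_insert u ρ)
              have hcw : Cl G (insert w ρ) := hcl _ _ c2 hwsub
              refine ⟨hw.2, hcw, ?_⟩
              obtain ⟨τ, t1, t2, t3⟩ := pure' h hν c2
              have hτ : o τ ≠ 0 := u3 τ ((Finset.subset_insert w _).trans t3) t1 t2
              rcases ih (insert w ρ) hcw
                (by rw [Finset.card_insert_of_notMem hw.2]; omega) with hh | hh
              · exact absurd (hh τ (hwsub.trans t3) t1 t2) hτ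
              · exact hh
            rw [hy0, mul_zero, mul_zero]
        rw [hleft]
        apply Finset.sum_subset Finset.inter_subset_right
        intro w hw hw2
        have hwu : u = w := by
          by_contra hne
          apply hw2
          refine Finset.mem_inter.mpr ⟨?_, hw⟩
          rw [Finset.mem_compl, Finset.mem_insert, not_or]
          exact ⟨fun h => hne h.symm, ((hmem w).mp hw).1⟩
        rw [if_pos hwu]
      have hzero : ∑ u ∈ A, ∑ w ∈ A, (if u = w then 0 else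
            sgn ν u ρ * sgn ν w (insert u ρ) * y (insert w (insert u ρ))) = 0 := by
        apply anti_sum'
        intro u hu w hw
        by_cases huw : u = w
        · subst huw
          simp
        · rw [if_neg huw, if_neg (fun h => huw h.symm), Finset.insert_comm w u ρ]
          have := sgn_swap ν hν u w huw ρ ((hmem u).mp hu).1 ((hmem w).mp hw).1
          linear_combination (y (insert u (insert w ρ))) * this
      rw [hsum1] at hsum2
      rw [hzero] at hsum2
      exact one_ne_zero hsum2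

theorem nonvanishing {G : SimpleGraph V} {n : ℕ} (h : IsHomologySphere G n) {ν : V → ℕ}
    (hν : Function.Injective ν) {o : Finset V → ℝ} (ho1 : Rel G ∅ n o) (ho2 : bd ν o = 0)
    (ho3 : o ≠ 0) : ∀ τ, Cl G τ → τ.card = n → o τ ≠ 0 := by
  have hcl : Cl G (∅ : Finset V) := fun u hu => absurd hu (Finset.notMem_empty u)
  rcases nv h hν ho1 ho2 n ∅ hcl (by simp) with hh | hh
  · exfalso
    apply ho3
    funext σ
    by_contra hne
    obtain ⟨_, c2, c3⟩ := ho1 σ hne
    exact hne (hh σ (Finset.empty_subset σ) c2 c3)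
  · intro τ t1 t2
    exact hh τ (Finset.empty_subset τ) t1 t2

theorem dual_lem {F : Type} [AddCommGroup F] [Module ℝ F] [FiniteDimensional ℝ F]
    (T : F →ₗ[ℝ] (Finset V → ℝ)) (ℓ : F →ₗ[ℝ] ℝ) (h : ∀ z, T z = 0 → ℓ z = 0) :
    ∃ χ : Finset V → ℝ, ∀ z, ℓ z = ∑ κ, T z κ * χ κ := by
  have h1 : ℓ ∈ (LinearMap.ker T).dualAnnihilator := by
    rw [Submodule.mem_dualAnnihilator]
    intro z hz
    exact h z hz
  rw [← LinearMap.range_dualMap_eq_dualAnnihilator_ker] at h1
  obtain ⟨φ, hφ⟩ := h1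
  refine ⟨fun κ => φ (Pi.single κ 1), fun z => ?_⟩
  rw [← hφ, LinearMap.dualMap_apply, LinearMap.pi_apply_eq_sum_univ φ (T z)]
  apply Finset.sum_congr rfl
  intro κ _
  rw [smul_eq_mul]
  congr 2
  funext j
  simp [Pi.single_apply, eq_comm]

theorem adj_lem (ν : V → ℕ) (ρ : Finset V) (p χ : Finset V → ℝ) (hp : ∀ σ, p σ ≠ 0 → ρ ⊆ σ) :
    ∑ κ, (if ρ ⊆ κ then bd ν p κ else 0) * χ κ =
      ∑ σ, p σ * ∑ v ∈ σ \ ρ, sgn ν v σ * χ (σ.erase v) := by
  have hL : ∑ κ, (if ρ ⊆ κ then bd ν p κ else 0) * χ κ =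
      ∑ v : V, ∑ κ ∈ univ.filter (fun κ : Finset V => v ∉ κ),
        (if ρ ⊆ κ then sgn ν v κ * p (insert v κ) * χ κ else 0) := by
    rw [Finset.sum_comm' (t' := univ) (s' := fun κ : Finset V => κᶜ)]
    · apply Finset.sum_congr rfl
      intro κ _
      by_cases h : ρ ⊆ κ
      · simp only [if_pos h]
        rw [bd_apply, Finset.sum_mul]
      · simp only [if_neg h, zero_mul, Finset.sum_const_zero]
    · intro v κ
      simp
  have hR : ∑ σ, p σ * ∑ v ∈ σ \ ρ, sgn ν v σ * χ (σ.erase v) =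
      ∑ v : V, ∑ σ ∈ univ.filter (fun σ : Finset V => v ∈ σ),
        (if v ∈ ρ then 0 else p σ * (sgn ν v σ * χ (σ.erase v))) := by
    rw [Finset.sum_comm' (t' := univ) (s' := fun σ : Finset V => σ)]
    · apply Finset.sum_congr rfl
      intro σ _
      rw [Finset.mul_sum, Finset.sdiff_eq_filter, Finset.sum_filter]
      apply Finset.sum_congr rfl
      intro v _
      by_cases h : v ∈ ρ <;> simp [h]
    · intro v σ
      simp
  rw [hL, hR]
  apply Finset.sum_congr rfl
  intro v _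
  refine Finset.sum_nbij' (fun κ => insert v κ) (fun σ => σ.erase v) ?_ ?_ ?_ ?_ ?_
  · intro κ _
    simp
  · intro σ _
    simp
  · intro κ hκ
    rw [Finset.mem_filter] at hκ
    exact Finset.erase_insert hκ.2
  · intro σ hσ
    rw [Finset.mem_filter] at hσ
    exact Finset.insert_erase hσ.2
  · intro κ hκ
    rw [Finset.mem_filter] at hκ
    rw [Finset.erase_insert hκ.2, sgn_insert_self]
    by_cases hvρ : v ∈ ρ
    · rw [if_pos hvρ, if_neg (fun h => hκ.2 (h hvρ))]
    · rw [if_neg hvρ]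
      by_cases hρκ : ρ ⊆ κ
      · rw [if_pos hρκ]
        ring
      · rw [if_neg hρκ]
        by_cases hp0 : p (insert v κ) = 0
        · rw [hp0, zero_mul]
        · exfalso
          apply hρκ
          intro x hx
          have := hp _ hp0 hx
          rcases Finset.mem_insert.mp this with h1 | h1
          · subst h1
            exact absurd hx hvρ
          · exact h1

open Classical in
/-- the truncation to the cliques with `j` vertices which contain `ρ` -/
noncomputable def tr (G : SimpleGraph V) (ρ : Finset V) (j : ℕ) :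
    (Finset V → ℝ) →ₗ[ℝ] (Finset V → ℝ) where
  toFun z σ := if ρ ⊆ σ ∧ Cl G σ ∧ σ.card = j then z σ else 0
  map_add' c c' := by
    funext σ
    by_cases h : ρ ⊆ σ ∧ Cl G σ ∧ σ.card = j <;> simp [h]
  map_smul' r c := by
    funext σ
    by_cases h : ρ ⊆ σ ∧ Cl G σ ∧ σ.card = j <;> simp [h]

theorem tr_apply (G : SimpleGraph V) (ρ : Finset V) (j : ℕ) (z : Finset V → ℝ) (σ : Finset V)
    (h : ρ ⊆ σ ∧ Cl G σ ∧ σ.card = j) : tr G ρ j z σ = z σ := if_pos h

theorem tr_rel (G : SimpleGraph V) (ρ : Finset V) (j : ℕ) (z : Finset V → ℝ) :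
    Rel G ρ j (tr G ρ j z) := by
  intro σ hσ
  by_contra h
  exact hσ (if_neg h)

/-- the boundary in the star -/
noncomputable def bdr (ν : V → ℕ) (ρ : Finset V) :
    (Finset V → ℝ) →ₗ[ℝ] (Finset V → ℝ) where
  toFun z κ := if ρ ⊆ κ then bd ν z κ else 0
  map_add' c c' := by
    funext κ
    by_cases h : ρ ⊆ κ <;> simp [h]
  map_smul' r c := by
    funext κ
    by_cases h : ρ ⊆ κ <;> simp [h]

/-- duality -/
theorem dual_main {G : SimpleGraph V} {ν : V → ℕ} {ρ : Finset V} (j : ℕ)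
    (ψ : Finset V → ℝ)
    (hψ : ∀ z, Rel G ρ j z → (∀ κ, ρ ⊆ κ → bd ν z κ = 0) → ∑ σ, z σ * ψ σ = 0) :
    ∃ χ : Finset V → ℝ, ∀ σ, Cl G σ → ρ ⊆ σ → σ.card = j →
      ψ σ = ∑ v ∈ σ \ ρ, sgn ν v σ * χ (σ.erase v) := by
  let ℓ : (Finset V → ℝ) →ₗ[ℝ] ℝ :=
    (∑ σ, ψ σ • LinearMap.proj (R := ℝ) (φ := fun _ : Finset V => ℝ) σ) ∘ₗ tr G ρ j
  have hℓ : ∀ z, ℓ z = ∑ σ, tr G ρ j z σ * ψ σ := by
    intro z
    simp only [ℓ, LinearMap.comp_apply, LinearMap.sum_apply, LinearMap.smul_apply,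
      LinearMap.proj_apply, smul_eq_mul]
    apply Finset.sum_congr rfl
    intro σ _
    ring
  obtain ⟨χ, hχ⟩ := dual_lem (bdr ν ρ ∘ₗ tr G ρ j) ℓ (by
    intro z hz
    rw [hℓ]
    apply hψ _ (tr_rel G ρ j z)
    intro κ hκ
    have := congrFun hz κ
    change (if ρ ⊆ κ then bd ν (tr G ρ j z) κ else 0) = 0 at this
    rwa [if_pos hκ] at this)
  refine ⟨χ, ?_⟩
  intro σ h1 h2 h3
  have h4 := hχ (Pi.single σ 1)
  rw [hℓ] at h4
  change _ = ∑ κ, (if ρ ⊆ κ then bd ν (tr G ρ j (Pi.single σ 1)) κ else 0) * χ κ at h4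
  rw [adj_lem ν ρ _ χ (fun σ' hσ' => (tr_rel G ρ j _ σ' hσ').1)] at h4
  have h5 : tr G ρ j (Pi.single σ 1) = Pi.single σ 1 := by
    funext σ'
    by_cases h : σ' = σ
    · subst h
      exact tr_apply G ρ j _ _ ⟨h2, h1, h3⟩
    · have h6 : (Pi.single σ (1 : ℝ) : Finset V → ℝ) σ' = 0 := Pi.single_eq_of_ne h _
      rw [h6]
      by_contra hne
      have := tr_rel G ρ j _ σ' hne
      rw [tr_apply G ρ j _ σ' this, h6] at hne
      exact hne rfl
  rw [h5] at h4
  have h7 : ∀ f : Finset V → ℝ, ∑ σ', (Pi.single σ (1 : ℝ) : Finset V → ℝ) σ' * f σ' = f σ := by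
    intro f
    rw [Finset.sum_eq_single σ]
    · simp
    · intro b _ hb
      rw [Pi.single_eq_of_ne hb, zero_mul]
    · intro h
      exact absurd (Finset.mem_univ σ) h
  rw [h7 ψ, h7 (fun σ' => ∑ v ∈ σ' \ ρ, sgn ν v σ' * χ (σ'.erase v))] at h4
  exact h4

end SphereAux

open SphereAux in
/-- homology spheres are oriented by a nonvanishing cycle -/
theorem IsHomologySphere.isSphere {G : SimpleGraph V} {n : ℕ} (h : IsHomologySphere G n)
    (ν : V → ℕ) (hν : Function.Injective ν) : ∃ o, IsSphere ν G n univ o := by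
  have hcl : Cl G (∅ : Finset V) := fun u hu => absurd hu (Finset.notMem_empty u)
  obtain ⟨o, o1, o2, o3, _⟩ := rel_top h hν hcl
  have o2' : bd ν o = 0 := funext fun κ => o2 κ (Finset.empty_subset κ)
  have hne := nonvanishing h hν o1 o2' o3
  have hfac : ∀ σ, σ ∈ fac G n univ ↔ Cl G σ ∧ σ.card = n := by
    intro σ
    simp [fac]
  refine ⟨o, ?_⟩
  constructor
  · intro σ _ hσ
    exact h.dim σ hσ
  · intro ρ _ hρ
    obtain ⟨τ, t1, t2, t3⟩ := pure' h hν hρ
    exact ⟨τ, Finset.subset_univ τ, t1, t2, t3⟩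
  · intro τ _ h1 h2
    exact hne τ h1 h2
  · intro κ _ _ _
    have h1 := congrFun o2' κ
    rw [bd_apply] at h1
    refine Eq.trans ?_ h1
    rw [← Finset.sum_subset (Finset.subset_univ κᶜ)]
    · apply Finset.sum_congr rfl
      intro v hv
      rw [Finset.mem_compl] at hv
      by_cases h0 : o (insert v κ) = 0
      · simp [h0]
      · obtain ⟨_, c2, c3⟩ := o1 _ h0
        rw [if_pos ⟨hv, (hfac _).mpr ⟨c2, c3⟩⟩]
    · intro v _ hv
      rw [Finset.mem_compl, not_not] at hv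
      rw [if_neg (fun h => h.1 hv)]
  · intro ρ _ hρ j hj ψ hψ
    obtain ⟨χ, hχ⟩ := dual_main (G := G) (ν := ν) (ρ := ρ) j ψ (by
      intro z hz hc
      obtain ⟨y, y1, y2⟩ := rel_low h hν hρ hj hz hc
      have e : ∀ σ, z σ * ψ σ = (if ρ ⊆ σ then bd ν y σ else 0) * ψ σ := by
        intro σ
        by_cases hs : ρ ⊆ σ
        · rw [if_pos hs, y2 σ hs]
        · rw [if_neg hs]
          have : z σ = 0 := by
            by_contra hne
            exact hs (hz σ hne).1
          rw [this]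
      rw [Finset.sum_congr rfl (fun σ _ => e σ), adj_lem ν ρ y ψ (fun σ hσ => (y1 σ hσ).1)]
      apply Finset.sum_eq_zero
      intro σ _
      by_cases h0 : y σ = 0
      · rw [h0, zero_mul]
      · obtain ⟨c1, c2, c3⟩ := y1 σ h0
        rw [hψ σ (Finset.subset_univ σ) c2 c1 c3, mul_zero])
    exact ⟨χ, fun σ _ h1 h2 h3 => hχ σ h1 h2 h3⟩
  · intro ρ _ hρ ψ hψ
    obtain ⟨g, g1, g2, g3, g4⟩ := rel_top h hν hρ
    obtain ⟨r, hr⟩ := g4 (res ρ o) (res_rel ρ o1) (res_cycle ρ o2')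
    have hrne : r ≠ 0 := by
      rintro rfl
      obtain ⟨τ, t1, t2, t3⟩ := pure' h hν hρ
      have := congrFun hr τ
      simp only [res, if_pos t3, Pi.smul_apply, smul_eq_mul, zero_mul] at this
      exact hne τ t1 t2 this
    obtain ⟨χ, hχ⟩ := dual_main (G := G) (ν := ν) (ρ := ρ) n ψ (by
      intro z hz hc
      obtain ⟨s, hs⟩ := g4 z hz hc
      have hz' : ∀ σ, z σ = (s / r) * (if ρ ⊆ σ then o σ else 0) := by
        intro σ
        have h1 := congrFun hr σ
        have h2 := congrFun hs σ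
        simp only [res, Pi.smul_apply, smul_eq_mul] at h1 h2
        rw [h1, h2]
        field_simp
      have e : ∀ σ : Finset V, z σ * ψ σ =
          (s / r) * (if σ ∈ fac G n univ then (if ρ ⊆ σ then o σ * ψ σ else 0) else 0) := by
        intro σ
        rw [hz' σ]
        by_cases h1 : σ ∈ fac G n univ
        · rw [if_pos h1]
          by_cases h2 : ρ ⊆ σ
          · rw [if_pos h2, if_pos h2]
            ring
          · rw [if_neg h2, if_neg h2]
            ring
        · rw [if_neg h1]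
          have : o σ = 0 := by
            by_contra hne'
            exact h1 ((hfac σ).mpr (o1 σ hne').2)
          rw [this]
          simp
      rw [Finset.sum_congr rfl (fun σ _ => e σ), ← Finset.mul_sum, Finset.sum_ite_mem,
        Finset.univ_inter, hψ, mul_zero])
    exact ⟨χ, fun σ _ h1 h2 h3 => hχ σ h1 h2 h3⟩

end Pool.Agent.H85.Fold
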