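import Mathlib

/-!
# Project FOLD: the drop of the rank of an integer matrix modulo a prime
-/

set_option autoImplicit false

open Finset

namespace Pool.Agent.H85.Fold

/-- a determinant is divisible by a power of a prime -/
theorem pow_dvd_det {r : ℕ} (M : Matrix (Fin r) (Fin r) ℤ) (p : ℕ) [Fact p.Prime] :
    (p : ℤ) ^ (r - (M.map (Int.cast : ℤ → ZMod p)).rank) ∣ M.det := by
  classical
  have hp : Nat.Prime p := Fact.out
  set Mp : Matrix (Fin r) (Fin r) (ZMod p) := M.map (Int.cast : ℤ → ZMod p) with hMp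
  obtain ⟨W, Q, e, hW, hQ, hWQ⟩ := Matrix.exists_rank_normal_form Mp
  -- the lift of `Q`
  set Qt : Matrix (Fin r) (Fin r) ℤ := Matrix.of fun i j => ((Q i j).val : ℤ) with hQt
  have hQmap : Qt.map (Int.cast : ℤ → ZMod p) = Q := by
    ext i j
    simp [hQt]
  set J : Finset (Fin r) := Finset.univ.filter fun j => (e j).isRight = true with hJ
  have hJc : J.card = r - Mp.rank := by
    have h1 : J.card = (Finset.univ.filter fun x : Fin Mp.rank ⊕ Fin (Fintype.card (Fin r) - Mp.rank) =>
        x.isRight = true).card := by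
      rw [hJ]
      refine Finset.card_bij (fun j _ => e j) (fun j hj => ?_) (fun a _ b _ h => e.injective h)
        (fun x hx => ⟨e.symm x, ?_, e.apply_symm_apply x⟩)
      · simpa using hj
      · simpa using hx
    rw [h1]
    have h2 : (Finset.univ.filter fun x : Fin Mp.rank ⊕ Fin (Fintype.card (Fin r) - Mp.rank) =>
        x.isRight = true) = Finset.univ.map Function.Embedding.inr := by
      ext x
      rcases x with x | x <;> simp
    rw [h2, Finset.card_map, Finset.card_univ, Fintype.card_fin, Fintype.card_fin]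
  -- the columns in `J` of `Mp * Q` vanish
  have hcol : ∀ j ∈ J, ∀ i, (Mp * Q) i j = 0 := by
    intro j hj i
    have hj' : (e j).isRight = true := by simpa [hJ] using hj
    have h1 : ∀ i, (W * (Mp * Q)) i j = 0 := by
      intro i
      rw [← mul_assoc, hWQ, Matrix.submatrix_apply]
      rcases hx : e j with x | x
      · rw [hx] at hj'; simp at hj'
      · rcases e i with z | z <;> simp [Matrix.fromBlocks]
    have h2 : W.mulVec (fun i => (Mp * Q) i j) = 0 := by
      funext i
      exact h1 i
    have h3 : (fun i => (Mp * Q) i j) = 0 := by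
      have h4 := congrArg (fun v => (W⁻¹).mulVec v) h2
      simp only [Matrix.mulVec_mulVec, Matrix.mulVec_zero] at h4
      rw [Matrix.nonsing_inv_mul W ((Matrix.isUnit_iff_isUnit_det _).1 hW), Matrix.one_mulVec] at h4
      exact h4
    exact congrFun h3 i
  have hdvd : ∀ j ∈ J, ∀ i, (p : ℤ) ∣ (M * Qt) i j := by
    intro j hj i
    rw [← ZMod.intCast_zmod_eq_zero_iff_dvd]
    have h1 : (((M * Qt) i j : ℤ) : ZMod p) = (Mp * Q) i j := by
      rw [← hQmap, hMp]
      simp only [Matrix.mul_apply, Matrix.map_apply, Int.cast_sum, Int.cast_mul]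
    rw [h1, hcol j hj i]
  -- factor the columns
  set v : Fin r → ℤ := fun j => if j ∈ J then (p : ℤ) else 1 with hv
  have hdiv : ∀ i j, ∃ x : ℤ, (M * Qt) i j = v j * x := by
    intro i j
    by_cases hj : j ∈ J
    · obtain ⟨x, hx⟩ := hdvd j hj i
      exact ⟨x, by rw [hx, hv]; simp [hj]⟩
    · exact ⟨(M * Qt) i j, by rw [hv]; simp [hj]⟩
  choose N hN using hdiv
  have hdet : (M * Qt).det = (p : ℤ) ^ (r - Mp.rank) * (Matrix.of N).det := by
    have h1 : M * Qt = Matrix.of fun i j => v j * (Matrix.of N) i j := by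
      ext i j
      rw [hN i j]
      rfl
    rw [h1, Matrix.det_mul_row]
    congr 1
    rw [hv, Finset.prod_ite_mem, Finset.univ_inter, Finset.prod_const, hJc]
  rw [Matrix.det_mul] at hdet
  have hcop : IsCoprime ((p : ℤ) ^ (r - Mp.rank)) Qt.det := by
    apply IsCoprime.pow_left
    rw [Int.isCoprime_iff_gcd_eq_one]
    have h1 : ¬ (p : ℤ) ∣ Qt.det := by
      rw [← ZMod.intCast_zmod_eq_zero_iff_dvd]
      have h2 : ((Qt.det : ℤ) : ZMod p) = Q.det := by
        rw [← hQmap]
        have := (Int.castRingHom (ZMod p)).map_det Qt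
        simpa using this
      rw [h2]
      exact ((Matrix.isUnit_iff_isUnit_det _).1 hQ).ne_zero
    have h3 := (Int.prime_iff_natAbs_prime.2 (by simpa using hp) : Prime (p : ℤ))
    exact Int.isCoprime_iff_gcd_eq_one.1 ((Prime.coprime_iff_not_dvd h3).2 h1)
  exact hcop.dvd_of_dvd_mul_right (Dvd.intro _ hdet.symm)

/-- a bound for determinants -/
theorem det_le_prod {r : ℕ} (M : Matrix (Fin r) (Fin r) ℤ) :
    |M.det| ≤ ∏ i, ∑ j, |M i j| := by
  classical
  rw [← Matrix.det_transpose, Matrix.det_apply]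
  calc |∑ σ : Equiv.Perm (Fin r), Equiv.Perm.sign σ • ∏ i, M.transpose (σ i) i|
      ≤ ∑ σ : Equiv.Perm (Fin r), |Equiv.Perm.sign σ • ∏ i, M.transpose (σ i) i| :=
        Finset.abs_sum_le_sum_abs _ _
    _ = ∑ σ : Equiv.Perm (Fin r), ∏ i, |M i (σ i)| := by
        refine Finset.sum_congr rfl fun σ _ => ?_
        rw [← Finset.abs_prod]
        rcases Int.units_eq_one_or (Equiv.Perm.sign σ) with h | h <;> simp [h, Matrix.transpose]
    _ ≤ ∑ f : Fin r → Fin r, ∏ i, |M i (f i)| := by
        have h1 : ∑ σ : Equiv.Perm (Fin r), ∏ i, |M i (σ i)| =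
            ∑ f ∈ Finset.univ.image (fun σ : Equiv.Perm (Fin r) => (σ : Fin r → Fin r)),
              ∏ i, |M i (f i)| := by
          rw [Finset.sum_image]
          intro σ _ τ _ h
          exact DFunLike.coe_injective h
        rw [h1]
        exact Finset.sum_le_sum_of_subset_of_nonneg (Finset.subset_univ _)
          fun f _ _ => Finset.prod_nonneg fun i _ => abs_nonneg _
    _ = ∏ i, ∑ j, |M i j| := by
        rw [Finset.prod_univ_sum, Fintype.piFinset_univ]

private lemma RankDrop_fun {K E : Type} [Field K] [AddCommGroup E] [Module K E]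
    [FiniteDimensional K E] (s : Set E) (k : ℕ)
    (hk : Module.finrank K (Submodule.span K s) = k) :
    ∃ f : Fin k → E, (∀ i, f i ∈ s) ∧ LinearIndependent K f := by
  subst hk
  obtain ⟨f, h1, _, h3⟩ := Submodule.exists_fun_fin_finrank_span_eq K s
  exact ⟨f, h1, h3⟩

/-- **The drop of the rank.** -/
theorem rank_drop {m n : Type} [Fintype m] [Fintype n] (A : Matrix m n ℤ) (C : ℕ) (hC1 : 1 ≤ C)
    (hC : ∀ i, ∑ j, |A i j| ≤ (C : ℤ)) (p : ℕ) [Fact p.Prime] :
    p ^ ((A.map (Int.cast : ℤ → ℝ)).rank - (A.map (Int.cast : ℤ → ZMod p)).rank) ≤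
      C ^ Fintype.card m := by
  classical
  have hp : Nat.Prime p := Fact.out
  set AR : Matrix m n ℝ := A.map (Int.cast : ℤ → ℝ) with hAR
  set r := AR.rank with hr
  -- rows
  obtain ⟨f, hf1, hf2⟩ := RankDrop_fun (K := ℝ) (Set.range AR.row) r
    (by rw [hr, Matrix.rank_eq_finrank_span_row])
  choose a ha using hf1
  have hBrow : LinearIndependent ℝ (AR.submatrix a id).row := by
    have h1 : (AR.submatrix a id).row = f := by
      funext i
      rw [← ha i]
      rfl
    rw [h1]
    exact hf2
  have hB : (AR.submatrix a id).rank = r := by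
    rw [hBrow.rank_matrix, Fintype.card_fin]
  -- columns
  obtain ⟨g, hg1, hg2⟩ := RankDrop_fun (K := ℝ) (Set.range (AR.submatrix a id).col) r
    (by rw [← Matrix.rank_eq_finrank_span_cols, hB])
  choose c hc using hg1
  have hcols : LinearIndependent ℝ (AR.submatrix a c).col := by
    have h1 : (AR.submatrix a c).col = g := by
      funext i
      rw [← hc i]
      rfl
    rw [h1]
    exact hg2
  have hunit : IsUnit (AR.submatrix a c) := Matrix.linearIndependent_cols_iff_isUnit.1 hcols
  set M : Matrix (Fin r) (Fin r) ℤ := A.submatrix a c with hM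
  have hdet : M.det ≠ 0 := by
    intro h0
    have h1 : (AR.submatrix a c).det = ((M.det : ℤ) : ℝ) := by
      have := (Int.castRingHom ℝ).map_det M
      simp only [Int.coe_castRingHom] at this
      rw [this]
      rfl
    have h2 := (Matrix.isUnit_iff_isUnit_det _).1 hunit
    rw [h1, h0] at h2
    simp at h2
  have hrank : (M.map (Int.cast : ℤ → ZMod p)).rank ≤ (A.map (Int.cast : ℤ → ZMod p)).rank := by
    have h1 : M.map (Int.cast : ℤ → ZMod p) = (A.map (Int.cast : ℤ → ZMod p)).submatrix a c := rfl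
    rw [h1]
    exact Matrix.rank_submatrix_le _ a c
  have hdvd := pow_dvd_det M p
  have hle : (p : ℤ) ^ (r - (M.map (Int.cast : ℤ → ZMod p)).rank) ≤ |M.det| :=
    Int.le_of_dvd (abs_pos.2 hdet) ((dvd_abs _ _).2 hdvd)
  have hb : |M.det| ≤ (C : ℤ) ^ r := by
    refine (det_le_prod M).trans ?_
    have hinj : Function.Injective c := by
      intro x y hxy
      have h1 : g x = g y := by rw [← hc x, ← hc y, hxy]
      exact hg2.injective h1
    calc ∏ i, ∑ j, |M i j| ≤ ∏ _i : Fin r, (C : ℤ) := by
          refine Finset.prod_le_prod (fun i _ => Finset.sum_nonneg fun j _ => abs_nonneg _)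
            fun i _ => ?_
          calc ∑ j, |M i j| = ∑ j ∈ Finset.univ.image c, |A (a i) j| := by
                rw [Finset.sum_image (fun x _ y _ h => hinj h)]
                rfl
            _ ≤ ∑ j, |A (a i) j| :=
                Finset.sum_le_sum_of_subset_of_nonneg (Finset.subset_univ _)
                  fun j _ _ => abs_nonneg _
            _ ≤ C := hC (a i)
      _ = (C : ℤ) ^ r := by rw [Finset.prod_const, Finset.card_univ, Fintype.card_fin]
  have hrm : r ≤ Fintype.card m := Matrix.rank_le_card_height AR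
  have h1 : p ^ (r - (A.map (Int.cast : ℤ → ZMod p)).rank) ≤
      p ^ (r - (M.map (Int.cast : ℤ → ZMod p)).rank) :=
    Nat.pow_le_pow_right hp.pos (by omega)
  have h2 : p ^ (r - (M.map (Int.cast : ℤ → ZMod p)).rank) ≤ C ^ r := by
    have h3 := hle.trans hb
    exact_mod_cast h3
  exact h1.trans (h2.trans (Nat.pow_le_pow_right hC1 hrm))

end Pool.Agent.H85.Fold
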