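import Pool.Agent.H85.Fold.ModDefs
import Pool.Agent.H4.Singer.Levels

/-!
# Project FOLD: finite quotients over which the coefficients are trivial modulo primes
-/

set_option autoImplicit false

open Finset Filter

namespace Pool.Agent.H85.Fold

open Pool.Agent.H4.Singer

/-- a graph with its vertices as colours -/
def selfCol {V : Type} (G : SimpleGraph V) : ColGraph V V where
  adj := G.Adj
  symm _ _ h := h.symm
  col v := v
  ne _ _ h := h.ne

variable {V D : Type} [DecidableEq V] [Fintype V] [Fintype D] [DecidableEq D]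

set_option linter.unusedSectionVars false

private theorem map_intCast_mul {R : Type} [Ring R] (M N : Matrix D D ℤ) :
    (M * N).map (Int.cast : ℤ → R) = M.map (Int.cast : ℤ → R) * N.map (Int.cast : ℤ → R) :=
  Matrix.map_mul (f := Int.castRingHom R)

private theorem map_intCast_one {R : Type} [Ring R] :
    (1 : Matrix D D ℤ).map (Int.cast : ℤ → R) = 1 := by
  rw [Matrix.map_one] <;> simp

/-- the involution modulo a prime as a unit -/
private def lvUnit (R : Type) [Ring R] (G : SimpleGraph V) (A : V → Matrix D D ℤ)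
    (hA : IsInvol G A) (v : V) : (Matrix D D R)ˣ where
  val := (A v).map (Int.cast : ℤ → R)
  inv := (A v).map (Int.cast : ℤ → R)
  val_inv := by rw [← map_intCast_mul, hA.sq, map_intCast_one]
  inv_val := by rw [← map_intCast_mul, hA.sq, map_intCast_one]

/-- the flip of one coordinate -/
private def lvFlip (v : V) : V → Multiplicative (ZMod 2) :=
  Pi.mulSingle v (Multiplicative.ofAdd 1)

private theorem lvFlip_sq (v : V) : (lvFlip v : V → Multiplicative (ZMod 2)) * lvFlip v = 1 := by
  unfold lvFlip
  rw [← Pi.mulSingle_mul]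
  have : (Multiplicative.ofAdd (1 : ZMod 2)) * Multiplicative.ofAdd 1 = 1 := by decide
  rw [this, Pi.mulSingle_one]

private theorem lv_flip_bit (x : Multiplicative (ZMod 2)) :
    decide (x * Multiplicative.ofAdd 1 ≠ 1) = !(decide (x ≠ 1)) := by
  revert x
  decide

theorem exists_levels_p (G : SimpleGraph V) (A : V → Matrix D D ℤ) (hA : IsInvol G A) :
    ∃ (q : ℕ → ℕ) (P : ℕ → Type) (_ : ∀ j, Group (P j)) (_ : ∀ j, Fintype (P j))
      (π : ∀ j, RGrp G →* P j) (XP : ∀ j, InvAct (selfCol G) (P j))
      (r : ∀ j, P j →* Matrix D D (ZMod (q j))),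
      (∀ j, (q j).Prime ∧ j ≤ q j) ∧ (∀ w : RGrp G, w ≠ 1 → ∀ᶠ j in atTop, π j w ≠ 1) ∧
      (∀ j v p, (XP j).s v p = p * π j (gen G v)) ∧
      ∀ j v, r j (π j (gen G v)) = (A v).map (Int.cast : ℤ → ZMod (q j)) := by
  classical
  have h1 := fun L => exists_two_group G L
  choose P₁ grp₁ fin₁ π₁ hP₁ hsep using h1
  have h2 := fun j : ℕ => Nat.exists_infinite_primes j
  choose q hq hprime using h2
  have hne : ∀ j, NeZero (q j) := fun j => ⟨(hprime j).ne_zero⟩
  have h3 : ∀ j, ∃ π : RGrp G →* (Matrix D D (ZMod (q j)))ˣ,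
      ∀ v, π (gen G v) = lvUnit (ZMod (q j)) G A hA v := fun j =>
    exists_lift G (lvUnit (ZMod (q j)) G A hA)
      (fun v => by
        ext1
        change (A v).map (Int.cast : ℤ → ZMod (q j)) * (A v).map (Int.cast : ℤ → ZMod (q j)) = 1
        rw [← map_intCast_mul, hA.sq, map_intCast_one])
      (fun u v h => by
        ext1
        change (A u).map (Int.cast : ℤ → ZMod (q j)) * (A v).map (Int.cast : ℤ → ZMod (q j)) =
          (A v).map (Int.cast : ℤ → ZMod (q j)) * (A u).map (Int.cast : ℤ → ZMod (q j))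
        rw [← map_intCast_mul, hA.comm u v h, map_intCast_mul])
  choose π₂ hπ₂ using h3
  obtain ⟨π₃, hπ₃⟩ : ∃ π : RGrp G →* (V → Multiplicative (ZMod 2)),
      ∀ v, π (gen G v) = lvFlip v :=
    exists_lift G lvFlip lvFlip_sq (fun u v _ => mul_comm _ _)
  have hfin : ∀ j, Fintype ((Matrix D D (ZMod (q j)))ˣ) := fun j => inferInstance
  refine ⟨q, fun j => P₁ j × (Matrix D D (ZMod (q j)))ˣ × (V → Multiplicative (ZMod 2)),
    fun j => inferInstance, fun j => inferInstance,
    fun j => (π₁ j).prod ((π₂ j).prod π₃),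
    fun j => { s := fun v p => p * ((π₁ j).prod ((π₂ j).prod π₃)) (gen G v)
               invol := fun v p => by
                rw [mul_assoc, ← map_mul, gen_mul_gen, map_one, mul_one]
               comm := fun u v h p => by
                rw [mul_assoc, mul_assoc, ← map_mul, ← map_mul, gen_comm G u v h]
               bit := fun p v => decide (p.2.2 v ≠ 1)
               bit_s := fun v p => ?_ },
    fun j => (Units.coeHom _).comp ((MonoidHom.fst _ _).comp (MonoidHom.snd _ _)), ?_, ?_, ?_, ?_⟩
  · change (fun w => decide ((p.2.2 * π₃ (gen G v)) w ≠ 1)) =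
      Function.update (fun w => decide (p.2.2 w ≠ 1)) v (!(decide (p.2.2 v ≠ 1)))
    rw [hπ₃]
    funext w
    by_cases hw : w = v
    · subst hw
      rw [Function.update_self, Pi.mul_apply]
      unfold lvFlip
      rw [Pi.mulSingle_eq_same]
      exact lv_flip_bit _
    · rw [Function.update_of_ne hw, Pi.mul_apply]
      unfold lvFlip
      rw [Pi.mulSingle_eq_of_ne hw, mul_one]
  · intro j
    exact ⟨hprime j, hq j⟩
  · intro w hw
    filter_upwards [eventually_ge_atTop ((racg G).toCoxeterSystem.length w)] with j hj h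
    exact hsep j w hw hj (congrArg Prod.fst h)
  · intro j v p
    rfl
  · intro j v
    simp only [MonoidHom.comp_apply, MonoidHom.prod_apply, MonoidHom.coe_snd, MonoidHom.coe_fst,
      hπ₂]
    rfl

end Pool.Agent.H85.Fold
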