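import Pool.Agent.H85.Fold.Pair

/-!
# Project FOLD: the flux identity
-/

set_option autoImplicit false

open Finset

namespace Pool.Agent.H85.Fold

variable {V : Type} [DecidableEq V] [Fintype V] {S : Type} [AddCommGroup S] [Module ℝ S]
  {ν : V → ℕ} {G : SimpleGraph V} {e : V → S →ₗ[ℝ] S} {ep : Finset V → S →ₗ[ℝ] S}
  {b : V → V → ℝ} {n : ℕ} {U : Finset V} {M : Submodule ℝ S} {β : S →ₗ[ℝ] S →ₗ[ℝ] ℝ}
  {ε κ : ℝ} {o : Finset V → ℝ}

private theorem flux_pr (ν : V → ℕ) (w : V) (B : S →ₗ[ℝ] S →ₗ[ℝ] ℝ)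
    (x : Finset V → Finset V → S) (c : Finset V → S) :
    pr B (comp2 ν w x) (comp ν w c) =
      ∑ σ : Finset V, if w ∈ σ then B (x {w} σ) (c σ) else 0 := by
  have h1 : pr B (comp2 ν w x) (comp ν w c) =
      ∑ κ : Finset V, if w ∉ κ then B (x {w} (insert w κ)) (c (insert w κ)) else 0 := by
    unfold pr
    apply Finset.sum_congr rfl
    intro κ _
    by_cases hw : w ∈ κ
    · rw [if_neg (not_not_intro hw)]
      have : comp ν w c κ = 0 := by
        change (if w ∈ κ then (0 : S) else _) = 0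
        rw [if_pos hw]
      rw [this, map_zero]
    · rw [if_pos hw]
      have e1 : comp ν w c κ = sgn ν w κ • c (insert w κ) := by
        change (if w ∈ κ then (0 : S) else _) = _
        rw [if_neg hw]
      have e2 : comp2 ν w x ∅ κ = (sgn ν w ∅ * sgn ν w κ) • x (insert w ∅) (insert w κ) := by
        change (if w ∈ (∅ : Finset V) ∨ w ∈ κ then (0 : S) else _) = _
        rw [if_neg]
        rintro (h | h)
        · exact absurd h (Finset.notMem_empty _)
        · exact hw h
      have e3 : (insert w ∅ : Finset V) = {w} := rfl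
      rw [e1, e2, sgn_empty, one_mul, e3, map_smul, map_smul, LinearMap.smul_apply, smul_eq_mul,
        smul_eq_mul, ← mul_assoc, sgn_sq, one_mul]
  rw [h1, ← Finset.sum_filter, ← Finset.sum_filter]
  apply Finset.sum_nbij' (fun κ => insert w κ) (fun σ => σ.erase w)
  · intro κ _
    rw [Finset.mem_filter]
    exact ⟨Finset.mem_univ _, Finset.mem_insert_self _ _⟩
  · intro σ _
    rw [Finset.mem_filter]
    exact ⟨Finset.mem_univ _, Finset.notMem_erase _ _⟩
  · intro κ hκ
    exact Finset.erase_insert (Finset.mem_filter.mp hκ).2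
  · intro σ hσ
    exact Finset.insert_erase (Finset.mem_filter.mp hσ).2
  · intro κ _
    rfl

omit [Fintype V] in
private theorem b_nonpos (hs : Sys ν G e ep b n U M β ε κ o) {v w : V} (hv : v ∈ U)
    (hw : w ∈ U) : b v w ≤ 0 := by
  by_cases h : v = w ∨ G.Adj v w
  · exact le_of_eq (hs.b_zero v hv w hw h)
  · push Not at h
    exact le_of_lt (hs.b_neg v hv w hw h.1 h.2)

/-- **The flux identity.** -/
theorem flux (hs : Sys ν G e ep b n U M β ε κ o) (β' : V → S →ₗ[ℝ] S →ₗ[ℝ] ℝ)
    (hβ' : ∀ w ∈ U, IsLF e M w β (β' w)) {T : Finset V} (hT : T ⊆ U) {i j : ℕ}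
    {x : Finset V → Finset V → S} (hx : IsD G e n M U i x) (hcl : d1 ν x = d2 ν G U x)
    {c : Finset V → S} (hc : IsF G e M U j c) (hbd : bd ν c = 0) :
    ∑ w ∈ U, (∑ v ∈ T, b v w) * pr (β' w) (comp2 ν w x) (comp ν w c) = 0 := by
  set u : S →ₗ[ℝ] S := ∑ v ∈ T, e v with hu
  set c' : Finset V → S := fun σ => u (c σ) with hc'
  have hbd' : bd ν c' = 0 := by
    funext ρ
    have := bd_map ν u c ρ
    rw [hbd] at this
    simpa using this
  have hsupp : ∀ σ, c' σ ≠ 0 → σ ⊆ U ∧ Cl G σ := by
    intro σ hσ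
    have : c σ ≠ 0 := by
      intro h
      apply hσ
      simp [hc', h]
    exact ⟨(hc.supp σ this).1, (hc.supp σ this).2.1⟩
  have h0 : pr β (d1 ν x) c' = 0 := by
    rw [hcl, ← pr_bd_right hx hsupp, hbd']
    simp [pr]
  -- the computation for each simplex
  have hkey : ∀ σ : Finset V, β (d1 ν x ∅ σ) (c' σ) =
      ε * ∑ w ∈ U, (∑ v ∈ T, b v w) * (if w ∈ σ then β' w (x {w} σ) (c σ) else 0) := by
    intro σ
    by_cases hσ : c σ = 0
    · simp [hc', hσ]
    obtain ⟨hσU, hσC, hσj⟩ := hc.supp σ hσ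
    have e1 : d1 ν x ∅ σ = ∑ w ∈ σ, x {w} σ := by
      change ∑ v ∈ σ \ ∅, sgn ν v ∅ • x (insert v ∅) σ = _
      rw [Finset.sdiff_empty]
      apply Finset.sum_congr rfl
      intro w _
      rw [sgn_empty, one_smul]
      rfl
    have e2 : ∑ w ∈ U, (∑ v ∈ T, b v w) * (if w ∈ σ then β' w (x {w} σ) (c σ) else 0) =
        ∑ w ∈ σ, (∑ v ∈ T, b v w) * β' w (x {w} σ) (c σ) := by
      have : ∀ w ∈ U, (∑ v ∈ T, b v w) * (if w ∈ σ then β' w (x {w} σ) (c σ) else 0) =
          if w ∈ σ then (∑ v ∈ T, b v w) * β' w (x {w} σ) (c σ) else 0 := by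
        intro w _
        by_cases h : w ∈ σ
        · rw [if_pos h, if_pos h]
        · rw [if_neg h, if_neg h, mul_zero]
      rw [Finset.sum_congr rfl this, ← Finset.sum_filter]
      congr 1
      ext w
      rw [Finset.mem_filter]
      exact ⟨fun h => h.2, fun h => ⟨hσU h, h⟩⟩
    rw [e1, e2, map_sum, LinearMap.sum_apply, Finset.mul_sum]
    apply Finset.sum_congr rfl
    intro w hw
    have hwU : w ∈ U := hσU hw
    have hcM : c σ ∈ M := hc.mem σ
    have hcw : e w (c σ) = 0 := hc.ker σ w hw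
    obtain ⟨m, hm, -, hmx⟩ := hs.lift (σ := ∅) (v := w) (Finset.notMem_empty w)
      (by
        intro a ha
        rw [Finset.mem_insert] at ha
        rcases ha with ha | ha
        · rw [ha]; exact hwU
        · exact absurd ha (Finset.notMem_empty _))
      (by
        intro p hp q hq hpq
        rw [Finset.mem_insert] at hp hq
        rcases hp with hp | hp
        · rcases hq with hq | hq
          · exact absurd (hp.trans hq.symm) hpq
          · exact absurd hq (Finset.notMem_empty _)
        · exact absurd hp (Finset.notMem_empty _))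
      (hx.mem {w} σ)
      (by
        intro a ha
        exact hx.ker {w} σ a ha)
    have huM : u (c σ) ∈ M := by
      rw [hu, LinearMap.sum_apply]
      exact Submodule.sum_mem _ fun v hv => hs.stable v (hT hv) _ hcM
    have hew : e w (u (c σ)) = (∑ v ∈ T, b v w) • c σ := by
      rw [hu, LinearMap.sum_apply, map_sum, Finset.sum_smul]
      apply Finset.sum_congr rfl
      intro v hv
      have h := hs.anti w hwU v (hT hv) (c σ) hcM
      rw [hcw, map_zero, add_zero] at h
      rw [h, hs.b_symm w v]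
    have hlf : β' w (x {w} σ) (c σ) = β m (c σ) := by
      rw [← hmx]
      exact hβ' w hwU m hm (c σ) hcM hcw
    change β (x {w} σ) (u (c σ)) = _
    rw [hlf, ← hmx, hs.adj w hwU m hm _ huM, hew, map_smul, smul_eq_mul]
  have h1 : ε * ∑ w ∈ U, (∑ v ∈ T, b v w) * pr (β' w) (comp2 ν w x) (comp ν w c) = 0 := by
    rw [← h0]
    unfold pr
    rw [Finset.sum_congr rfl (fun σ _ => hkey σ), ← Finset.mul_sum, Finset.sum_comm]
    congr 1
    apply Finset.sum_congr rfl
    intro w _
    rw [← Finset.mul_sum]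
    congr 1
    exact flux_pr ν w (β' w) x c
  have h2 : ε * (ε * ∑ w ∈ U, (∑ v ∈ T, b v w) * pr (β' w) (comp2 ν w x) (comp ν w c)) = 0 := by
    rw [h1, mul_zero]
  rwa [← mul_assoc, hs.ε_sq, one_mul] at h2

/-- the sum of the entries of a row is negative -/
theorem row_neg (hs : Sys ν G e ep b n U M β ε κ o) {w : V} (hw : w ∈ U) :
    ∑ v ∈ U, b v w < 0 := by
  apply Finset.sum_neg'
  · intro v hv
    exact b_nonpos hs hv hw
  · obtain ⟨z, hzU, hzw, hadj, -⟩ := hs.sphere.exists_ne (σ := ∅) (v := w)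
      (Finset.notMem_empty w)
      (by
        intro a ha
        rw [Finset.mem_insert] at ha
        rcases ha with ha | ha
        · rw [ha]; exact hw
        · exact absurd ha (Finset.notMem_empty _))
      (by
        intro p hp q hq hpq
        rw [Finset.mem_insert] at hp hq
        rcases hp with hp | hp
        · rcases hq with hq | hq
          · exact absurd (hp.trans hq.symm) hpq
          · exact absurd hq (Finset.notMem_empty _)
        · exact absurd hp (Finset.notMem_empty _))
    exact ⟨z, hzU, hs.b_neg z hzU w hw hzw (fun h => hadj h.symm)⟩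

/-- the sum over a facet -/
theorem row_facet (hs : Sys ν G e ep b n U M β ε κ o) {τ : Finset V} (hτ : τ ∈ fac G n U)
    {w : V} (hw : w ∈ U) : ∑ v ∈ τ, b v w ≤ 0 ∧ (w ∉ τ → ∑ v ∈ τ, b v w < 0) := by
  classical
  rw [fac, Finset.mem_filter, Finset.mem_powerset] at hτ
  obtain ⟨hτU, hτC, hτn⟩ := hτ
  have hle : ∀ v ∈ τ, b v w ≤ 0 := fun v hv => b_nonpos hs (hτU hv) hw
  refine ⟨Finset.sum_nonpos hle, fun hwτ => ?_⟩
  apply Finset.sum_neg' hle
  by_contra hcon
  push Not at hcon
  have hadj : ∀ v ∈ τ, G.Adj v w := by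
    intro v hv
    by_contra hna
    have hne : v ≠ w := by
      intro h
      exact hwτ (h ▸ hv)
    exact absurd (hs.b_neg v (hτU hv) w hw hne hna) (not_lt.mpr (hcon v hv))
  have hCl : Cl G (insert w τ) := by
    intro p hp q hq hpq
    rw [Finset.mem_insert] at hp hq
    rcases hp with hp | hp
    · rcases hq with hq | hq
      · exact absurd (hp.trans hq.symm) hpq
      · rw [hp]; exact (hadj q hq).symm
    · rcases hq with hq | hq
      · rw [hq]; exact hadj p hp
      · exact hτC p hp q hq hpq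
  have hsub : insert w τ ⊆ U := by
    intro a ha
    rw [Finset.mem_insert] at ha
    rcases ha with ha | ha
    · rw [ha]; exact hw
    · exact hτU ha
  have := hs.sphere.dim _ hsub hCl
  rw [Finset.card_insert_of_notMem hwτ, hτn] at this
  omega

end Pool.Agent.H85.Fold
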