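import Pool.Agent.H85.Fold.Pk
import Pool.Agent.H85.Fold.Flux

/-!
# Project FOLD: odd complexes
-/

set_option autoImplicit false

open Finset

namespace Pool.Agent.H85.Fold

variable {V : Type} [DecidableEq V] [Fintype V] {S : Type} [AddCommGroup S] [Module ℝ S]
  {ν : V → ℕ} {G : SimpleGraph V} {e : V → S →ₗ[ℝ] S} {ep : Finset V → S →ₗ[ℝ] S}
  {b : V → V → ℝ} {n : ℕ} {U : Finset V} {M : Submodule ℝ S} {β : S →ₗ[ℝ] S →ₗ[ℝ] ℝ}
  {ε κ : ℝ} {o : Finset V → ℝ}

private theorem pkc_sgk_sq (ε : ℝ) (hε : ε * ε = 1) : ∀ (k : ℕ) (κ : ℝ), κ * κ = 1 →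
    sgk ε κ k * sgk ε κ k = 1 := by
  intro k
  induction k with
  | zero => intro κ hκ; simpa [sgk] using hκ
  | succ k ih =>
    intro κ hκ
    have h1 := ih (-κ) (by rw [neg_mul_neg]; exact hκ)
    have h2 : ((-1 : ℝ) ^ k) * (-1) ^ k = 1 := by
      rw [← mul_pow]; norm_num
    simp only [sgk]
    calc ε * (-1) ^ k * sgk ε (-κ) k * (ε * (-1) ^ k * sgk ε (-κ) k)
        = (ε * ε) * (((-1 : ℝ) ^ k) * (-1) ^ k) * (sgk ε (-κ) k * sgk ε (-κ) k) := by ring
      _ = 1 := by rw [hε, h1, h2]; norm_num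

/-- a cycle in the middle of an odd complex -/
theorem comp_bounds {k : ℕ} [FiniteDimensional ℝ S]
    (hs : Sys ν G e ep b (2 * k + 1) U M β ε κ o) (hP : Pk ν G e ep b (2 * k))
    {c : Finset V → S} (hc : IsF G e M U (k + 1) c) (hbd : bd ν c = 0) {v : V} (hv : v ∈ U) :
    ∃ g, IsF G e (Mk e M v) (nbr G v U) (k + 1) g ∧ bd ν g = comp ν v c := by
  classical
  obtain ⟨x, hx⟩ := exists_res (ν := ν) (G := G) (n := 2 * k + 1) (U := U) (o := o) (e := e)
    (M := M) hs.inj hs.sphere hc hbd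
  have hlf : ∀ w, ∃ β' : S →ₗ[ℝ] S →ₗ[ℝ] ℝ, w ∈ U → IsLF e M w β β' := by
    intro w
    by_cases hw : w ∈ U
    · obtain ⟨β', h'⟩ := hs.exists_lf hw
      exact ⟨β', fun _ => h'⟩
    · exact ⟨0, fun h => absurd h hw⟩
  choose β' hβ' using hlf
  have hflux := flux hs β' (fun w hw => hβ' w hw) (T := U) subset_rfl hx.isD hx.closed hc hbd
  set s : ℝ := sgk (-ε) (κ * (-1) ^ (2 * k)) k with hs_def
  have hss : s * s = 1 := by
    apply pkc_sgk_sq
    · rw [neg_mul_neg]; exact hs.ε_sq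
    · rw [pow_mul]; norm_num; exact hs.κ_sq
  have hmain : ∀ w ∈ U, 0 ≤ s * pr (β' w) (comp2 ν w x) (comp ν w c) ∧
      (pr (β' w) (comp2 ν w x) (comp ν w c) = 0 →
        ∃ y, IsF G e (Mk e M w) (nbr G w U) (k + 1) y ∧ bd ν y = comp ν w c) := by
    intro w hw
    have hl := Sys.link hs hw (hβ' w hw)
    have hD := (hP _ _ _ _ _ _ hl).2.2 k rfl
    refine hD (comp ν w c) (comp2 ν w x) (isF_comp ν w hc) ?_ (IsRes.comp2 hs.inj hw hx)
    have h1 := comp_bd ν hs.inj w c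
    rw [hbd, map_zero] at h1
    exact (neg_eq_zero.mp h1.symm)
  have hterm : ∀ w ∈ U, (∑ v ∈ U, b v w) * (s * pr (β' w) (comp2 ν w x) (comp ν w c)) ≤ 0 := by
    intro w hw
    exact mul_nonpos_of_nonpos_of_nonneg (row_neg hs hw).le (hmain w hw).1
  have hsum : ∑ w ∈ U, (∑ v ∈ U, b v w) * (s * pr (β' w) (comp2 ν w x) (comp ν w c)) = 0 := by
    have : ∑ w ∈ U, (∑ v ∈ U, b v w) * (s * pr (β' w) (comp2 ν w x) (comp ν w c)) =
        s * ∑ w ∈ U, (∑ v ∈ U, b v w) * pr (β' w) (comp2 ν w x) (comp ν w c) := by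
      rw [Finset.mul_sum]
      apply Finset.sum_congr rfl
      intro w _
      ring
    rw [this, hflux, mul_zero]
  have hz := (Finset.sum_eq_zero_iff_of_nonpos hterm).mp hsum v hv
  have hne : ∑ u ∈ U, b u v ≠ 0 := (row_neg hs hv).ne
  have h1 : s * pr (β' v) (comp2 ν v x) (comp ν v c) = 0 := by
    rcases mul_eq_zero.mp hz with h | h
    · exact absurd h hne
    · exact h
  have hsne : s ≠ 0 := by
    intro h
    rw [h] at hss
    norm_num at hss
  have h2 : pr (β' v) (comp2 ν v x) (comp ν v c) = 0 := by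
    rcases mul_eq_zero.mp h1 with h | h
    · exact absurd h hsne
    · exact h
  exact (hmain v hv).2 h2

/-- vanishing above the middle for induced subgraphs, odd complexes -/
theorem hv_odd {k : ℕ} [FiniteDimensional ℝ S] (hs : Sys ν G e ep b (2 * k + 1) U M β ε κ o)
    (hP : ∀ m, m ≤ 2 * k → Pk ν G e ep b m) {Y : Finset V} (hY : Y ⊆ U) {i : ℕ}
    (hi : k < i) : HV ν G e M Y i := by
  classical
  by_cases hik : i = k + 1
  · subst hik
    refine hv_of_push hs.inj ?_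
    intro Z hZ v hv c hc hbd
    have hvU : v ∈ U := hY (hZ hv)
    obtain ⟨g, hg, hgc⟩ := comp_bounds hs (hP _ le_rfl) (hc.mono (hZ.trans hY)) hbd hvU
    obtain ⟨β', hβ'⟩ := hs.exists_lf hvU
    have hl := Sys.link hs hvU hβ'
    have hsub : nbr G v Z ⊆ nbr G v U := by
      intro u hu
      rw [mem_nbr] at hu ⊢
      exact ⟨hY (hZ hu.1), hu.2⟩
    have hcF := isF_comp ν v hc
    obtain ⟨y', hy', hbd'⟩ := fill_sub_sys hl
      (fun m hm => hP m (by omega)) hsub (i := k) le_rfl hg (by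
        intro σ hσ
        rw [hgc] at hσ
        exact (hcF.supp σ hσ).1)
    exact ⟨y', hy', hbd'.trans hgc⟩
  · obtain ⟨i', rfl⟩ : ∃ i', i = i' + 1 := ⟨i - 1, by omega⟩
    refine hv_of_links hs.inj ?_
    intro Z hZ v hv
    exact link_hv hs (fun m hm => hP m (by omega)) (hY (hZ hv)) (hZ.trans hY) (by omega)

end Pool.Agent.H85.Fold
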