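import Pool.Agent.H85.Fold.EvenD
import Pool.Agent.H85.Fold.PkC

/-!
# Project FOLD: the main theorem on systems
-/

set_option autoImplicit false

open Finset

namespace Pool.Agent.H85.Fold

variable {V : Type} [DecidableEq V] [Fintype V] {S : Type} [AddCommGroup S] [Module ℝ S]
  {ν : V → ℕ} {G : SimpleGraph V} {e : V → S →ₗ[ℝ] S} {ep : Finset V → S →ₗ[ℝ] S}
  {b : V → V → ℝ} {k : ℕ} {U : Finset V} {M : Submodule ℝ S} {β : S →ₗ[ℝ] S →ₗ[ℝ] ℝ}
  {ε κ : ℝ} {o : Finset V → ℝ}

/-- **The main theorem on systems.** -/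
theorem pk_all [FiniteDimensional ℝ S] (ν : V → ℕ) (G : SimpleGraph V) (e : V → S →ₗ[ℝ] S)
    (ep : Finset V → S →ₗ[ℝ] S) (b : V → V → ℝ) (n : ℕ) : Pk ν G e ep b n := by
  induction n using Nat.strong_induction_on with
  | _ n ih =>
    intro U M β ε κ o hs
    have h1 : ∀ Y ⊆ U, ∀ i, n < 2 * i → HV ν G e M Y i := by
      intro Y hY i hi
      rcases Nat.even_or_odd' n with ⟨k, rfl | rfl⟩
      · exact hv_even hs (fun m hm => ih m (by omega)) hY (by omega)
      · exact hv_odd hs (fun m hm => ih m (by omega)) hY (by omega)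
    refine ⟨h1, ?_, ?_⟩
    · intro i hi
      rcases Nat.lt_or_gt_of_ne hi with hlt | hgt
      · exact hv_dual hs (i := i) (j := n - i) (by omega)
          (h1 U (Finset.Subset.refl U) (n - i) (by omega))
      · exact h1 U (Finset.Subset.refl U) i hgt
    · intro k hk
      subst hk
      cases k with
      | zero => exact definite_zero hs
      | succ k => exact definite_even hs (fun m hm => ih m (by omega))

end Pool.Agent.H85.Fold
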