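import Mathlib

/-!
# Project FOLD: products of anticommuting operators
-/

set_option autoImplicit false

open Finset

namespace Pool.Agent.H85.Fold

private def altProd_f {R : Type} [Ring R] [Algebra ℝ R] {n : ℕ} (h : Fin n → R) :
    (Fin n → ℝ) →ₗ[ℝ] R where
  toFun x := ∑ i, x i • h i
  map_add' x y := by simp [add_smul, Finset.sum_add_distrib]
  map_smul' r x := by simp [Finset.smul_sum, mul_smul]

private theorem altProd_sq {R : Type} [Ring R] [Algebra ℝ R] {n : ℕ} (h : Fin n → R)
    (hanti : ∀ i j, h i * h j = -(h j * h i)) (x : Fin n → ℝ) :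
    altProd_f h x * altProd_f h x = 0 := by
  have h1 : altProd_f h x * altProd_f h x = ∑ i, ∑ j, (x i * x j) • (h i * h j) := by
    change (∑ i, x i • h i) * (∑ j, x j • h j) = _
    rw [Finset.sum_mul_sum]
    refine Finset.sum_congr rfl fun i _ => Finset.sum_congr rfl fun j _ => ?_
    rw [smul_mul_smul_comm]
  have h2 : ∑ i, ∑ j, (x i * x j) • (h i * h j) = -∑ i, ∑ j, (x i * x j) • (h i * h j) := by
    conv_lhs => rw [Finset.sum_comm]
    rw [← Finset.sum_neg_distrib]
    refine Finset.sum_congr rfl fun i _ => ?_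
    rw [← Finset.sum_neg_distrib]
    refine Finset.sum_congr rfl fun j _ => ?_
    rw [hanti j i, smul_neg, mul_comm (x j)]
  rw [h1]
  set T := ∑ i, ∑ j, (x i * x j) • (h i * h j) with hT
  have h3 : T + T = 0 := by
    nth_rw 1 [h2]
    exact neg_add_cancel T
  have h4 : T = (1 / 2 : ℝ) • (T + T) := by
    rw [smul_add, ← add_smul]
    norm_num
  rw [h4, h3, smul_zero]

/-- the product of linear combinations of anticommuting elements of square zero -/
theorem prod_alt {R : Type} [Ring R] [Algebra ℝ R] {n : ℕ} (h : Fin n → R)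
    (hanti : ∀ i j, h i * h j = -(h j * h i)) (B : Matrix (Fin n) (Fin n) ℝ) :
    (List.ofFn fun k => ∑ i, B k i • h i).prod = B.det • (List.ofFn h).prod := by
  set F : ExteriorAlgebra ℝ (Fin n → ℝ) →ₐ[ℝ] R :=
    ExteriorAlgebra.lift ℝ ⟨altProd_f h, altProd_sq h hanti⟩ with hF
  set φ : (Fin n → ℝ) [⋀^Fin n]→ₗ[ℝ] R :=
    F.toLinearMap.compAlternatingMap (ExteriorAlgebra.ιMulti ℝ n) with hφ
  have hφa : ∀ v : Fin n → Fin n → ℝ, φ v = (List.ofFn fun k => ∑ i, v k i • h i).prod := by
    intro v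
    change F (ExteriorAlgebra.ιMulti ℝ n v) = _
    rw [ExteriorAlgebra.ιMulti_apply, map_list_prod, List.map_ofFn]
    congr 2
    funext k
    exact ExteriorAlgebra.lift_ι_apply ℝ (altProd_f h) (altProd_sq h hanti) (v k)
  set ψ : (Fin n → ℝ) [⋀^Fin n]→ₗ[ℝ] R :=
    (LinearMap.toSpanSingleton ℝ R (List.ofFn h).prod).compAlternatingMap
      Matrix.detRowAlternating with hψ
  have hψa : ∀ v : Matrix (Fin n) (Fin n) ℝ, ψ v = v.det • (List.ofFn h).prod := fun v => rfl
  have hb : φ (fun i => Pi.basisFun ℝ (Fin n) i) = (List.ofFn h).prod := by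
    rw [hφa]
    congr 2
    funext k
    simp [Pi.basisFun_apply, Pi.single_apply]
  have hb' : ψ (fun i => Pi.basisFun ℝ (Fin n) i) = (List.ofFn h).prod := by
    have h1 : (Matrix.of fun i j => Pi.basisFun ℝ (Fin n) i j) = 1 := by
      ext i j
      rw [Matrix.of_apply, Pi.basisFun_apply, Pi.single_apply, Matrix.one_apply]
      simp only [eq_comm]
    change (Matrix.of fun i j => Pi.basisFun ℝ (Fin n) i j).det • (List.ofFn h).prod = _
    rw [h1, Matrix.det_one, one_smul]
  have hφψ : φ = ψ := by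
    refine Module.Basis.ext_alternating (Pi.basisFun ℝ (Fin n)) fun v hv => ?_
    set σ : Equiv.Perm (Fin n) := Equiv.ofBijective v (Finite.injective_iff_bijective.1 hv)
      with hσ
    have h1 : (fun i => Pi.basisFun ℝ (Fin n) (v i)) =
        (fun i => Pi.basisFun ℝ (Fin n) i) ∘ σ := rfl
    rw [h1, AlternatingMap.map_perm, AlternatingMap.map_perm, hb, hb']
  rw [← hφa B, hφψ, hψa]

end Pool.Agent.H85.Fold
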