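import Mathlib

/-!
# Project FOLD: Clifford modules
-/

set_option autoImplicit false

open Finset

namespace Pool.Agent.H85.Fold

variable {S : Type} [AddCommGroup S] [Module ℝ S] {m₁ m₂ : ℕ}

/-- a Clifford module with an invariant scalar product -/
structure IsClMod (dot : S →ₗ[ℝ] S →ₗ[ℝ] ℝ) (γ : Fin m₁ → S →ₗ[ℝ] S)
    (η : Fin m₂ → S →ₗ[ℝ] S) : Prop where
  symm : ∀ x y, dot x y = dot y x
  pos : ∀ x, x ≠ 0 → 0 < dot x x
  γ_sq : ∀ i x, γ i (γ i x) = x
  η_sq : ∀ i x, η i (η i x) = -x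
  γγ : ∀ i j, i ≠ j → ∀ x, γ i (γ j x) = -γ j (γ i x)
  ηη : ∀ i j, i ≠ j → ∀ x, η i (η j x) = -η j (η i x)
  γη : ∀ i j x, γ i (η j x) = -η j (γ i x)
  γ_adj : ∀ i x y, dot (γ i x) y = dot x (γ i y)
  η_adj : ∀ i x y, dot (η i x) y = -dot x (η i y)

/-- linear combinations of operators -/
noncomputable def lc {m : ℕ} (γ : Fin m → S →ₗ[ℝ] S) (x : Fin m → ℝ) : S →ₗ[ℝ] S :=
  ∑ i, x i • γ i

theorem lc_add {m : ℕ} (γ : Fin m → S →ₗ[ℝ] S) (x y : Fin m → ℝ) :
    lc γ (x + y) = lc γ x + lc γ y := by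
  simp [lc, add_smul, Finset.sum_add_distrib]

theorem lc_smul {m : ℕ} (γ : Fin m → S →ₗ[ℝ] S) (r : ℝ) (x : Fin m → ℝ) :
    lc γ (r • x) = r • lc γ x := by
  simp [lc, Finset.smul_sum, smul_smul]

theorem lc_sum {m : ℕ} (γ : Fin m → S →ₗ[ℝ] S) {ι : Type} (s : Finset ι) (x : ι → Fin m → ℝ) :
    lc γ (∑ i ∈ s, x i) = ∑ i ∈ s, lc γ (x i) := by
  simp only [lc, Finset.sum_apply, Finset.sum_smul]
  exact Finset.sum_comm

private theorem ClMod_lc_apply {m : ℕ} (γ : Fin m → S →ₗ[ℝ] S) (x : Fin m → ℝ) (z : S) :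
    lc γ x z = ∑ i, x i • γ i z := by
  simp [lc, LinearMap.sum_apply]

private theorem ClMod_lc_lc {m m' : ℕ} (γ : Fin m → S →ₗ[ℝ] S) (η : Fin m' → S →ₗ[ℝ] S)
    (x : Fin m → ℝ) (y : Fin m' → ℝ) (z : S) :
    lc γ x (lc η y z) = ∑ i, ∑ j, (x i * y j) • γ i (η j z) := by
  rw [ClMod_lc_apply]
  refine Finset.sum_congr rfl fun i _ => ?_
  rw [ClMod_lc_apply, map_sum, Finset.smul_sum]
  refine Finset.sum_congr rfl fun j _ => ?_
  rw [map_smul, smul_smul]

private theorem ClMod_sum2 {m : ℕ} (x y : Fin m → ℝ) (c : ℝ) (z : S) :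
    ∑ i, ∑ j, (x i * y j) • (if i = j then c • z else 0) = (c * (x ⬝ᵥ y)) • z := by
  have h1 : ∀ i, ∑ j, (x i * y j) • (if i = j then c • z else 0) = (x i * y i) • c • z := by
    intro i
    rw [Finset.sum_eq_single i]
    · rw [if_pos rfl]
    · intro j _ hj
      rw [if_neg (Ne.symm hj), smul_zero]
    · intro h
      exact absurd (Finset.mem_univ i) h
  rw [Finset.sum_congr rfl fun i _ => h1 i, ← Finset.sum_smul, smul_smul]
  congr 1
  rw [mul_comm]
  rfl

variable {dot : S →ₗ[ℝ] S →ₗ[ℝ] ℝ} {γ : Fin m₁ → S →ₗ[ℝ] S} {η : Fin m₂ → S →ₗ[ℝ] S}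

theorem IsClMod.lc_γγ (h : IsClMod dot γ η) (x y : Fin m₁ → ℝ) (z : S) :
    lc γ x (lc γ y z) + lc γ y (lc γ x z) = (2 * (x ⬝ᵥ y)) • z := by
  rw [ClMod_lc_lc, ClMod_lc_lc, Finset.sum_comm (f := fun i j => (y i * x j) • γ i (γ j z)),
    ← Finset.sum_add_distrib, ← ClMod_sum2]
  refine Finset.sum_congr rfl fun i _ => ?_
  rw [← Finset.sum_add_distrib]
  refine Finset.sum_congr rfl fun j _ => ?_
  rw [mul_comm (y j) (x i), ← smul_add]
  congr 1
  by_cases hij : i = j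
  · subst hij
    rw [if_pos rfl, h.γ_sq, two_smul]
  · rw [if_neg hij, h.γγ i j hij, neg_add_cancel]

theorem IsClMod.lc_ηη (h : IsClMod dot γ η) (x y : Fin m₂ → ℝ) (z : S) :
    lc η x (lc η y z) + lc η y (lc η x z) = -((2 * (x ⬝ᵥ y)) • z) := by
  rw [← neg_smul, ← neg_mul, ClMod_lc_lc, ClMod_lc_lc,
    Finset.sum_comm (f := fun i j => (y i * x j) • η i (η j z)),
    ← Finset.sum_add_distrib, ← ClMod_sum2]
  refine Finset.sum_congr rfl fun i _ => ?_
  rw [← Finset.sum_add_distrib]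
  refine Finset.sum_congr rfl fun j _ => ?_
  rw [mul_comm (y j) (x i), ← smul_add]
  congr 1
  by_cases hij : i = j
  · subst hij
    rw [if_pos rfl, h.η_sq, neg_smul, two_smul, neg_add]
  · rw [if_neg hij, h.ηη i j hij, neg_add_cancel]

theorem IsClMod.lc_γη (h : IsClMod dot γ η) (x : Fin m₁ → ℝ) (y : Fin m₂ → ℝ) (z : S) :
    lc γ x (lc η y z) = -lc η y (lc γ x z) := by
  rw [ClMod_lc_lc, ClMod_lc_lc, Finset.sum_comm (f := fun i j => (y i * x j) • η i (γ j z)),
    ← Finset.sum_neg_distrib]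
  refine Finset.sum_congr rfl fun i _ => ?_
  rw [← Finset.sum_neg_distrib]
  refine Finset.sum_congr rfl fun j _ => ?_
  rw [mul_comm (y j) (x i), ← smul_neg, h.γη]

theorem IsClMod.lc_γ_adj (h : IsClMod dot γ η) (x : Fin m₁ → ℝ) (y z : S) :
    dot (lc γ x y) z = dot y (lc γ x z) := by
  rw [ClMod_lc_apply, ClMod_lc_apply, map_sum, map_sum, LinearMap.sum_apply]
  refine Finset.sum_congr rfl fun i _ => ?_
  rw [map_smul, map_smul, LinearMap.smul_apply, h.γ_adj]

theorem IsClMod.lc_η_adj (h : IsClMod dot γ η) (x : Fin m₂ → ℝ) (y z : S) :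
    dot (lc η x y) z = -dot y (lc η x z) := by
  rw [ClMod_lc_apply, ClMod_lc_apply, map_sum, map_sum, LinearMap.sum_apply,
    ← Finset.sum_neg_distrib]
  refine Finset.sum_congr rfl fun i _ => ?_
  rw [map_smul, map_smul, LinearMap.smul_apply, h.η_adj, smul_neg]

/-- the operators of the folding vectors -/
noncomputable def ev {V : Type} (γ : Fin m₁ → S →ₗ[ℝ] S) (η : Fin m₂ → S →ₗ[ℝ] S)
    (p : V → Fin m₁ → ℝ) (a : V → Fin m₂ → ℝ) (v : V) : S →ₗ[ℝ] S :=
  lc γ (p v) + lc η (a v)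

theorem IsClMod.ev_anti (h : IsClMod dot γ η) {V : Type} (p : V → Fin m₁ → ℝ)
    (a : V → Fin m₂ → ℝ) (u v : V) (x : S) :
    ev γ η p a u (ev γ η p a v x) + ev γ η p a v (ev γ η p a u x) =
      (2 * (p u ⬝ᵥ p v - a u ⬝ᵥ a v)) • x := by
  have h1 := h.lc_γγ (p u) (p v) x
  have h2 := h.lc_ηη (a u) (a v) x
  have h3 := h.lc_γη (p u) (a v) x
  have h4 := h.lc_γη (p v) (a u) x
  have e : (2 * (p u ⬝ᵥ p v - a u ⬝ᵥ a v)) • x =
      (2 * (p u ⬝ᵥ p v)) • x + -((2 * (a u ⬝ᵥ a v)) • x) := by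
    rw [mul_sub, sub_smul, sub_eq_add_neg]
  rw [e, ← h1, ← h2]
  simp only [ev, LinearMap.add_apply, map_add]
  rw [h3, h4]
  abel

/-- the product of the operators of an orthonormal basis -/
noncomputable def om {m n : ℕ} (γ : Fin m → S →ₗ[ℝ] S) (q : Fin n → Fin m → ℝ) :
    S →ₗ[ℝ] S :=
  (List.ofFn fun i => (lc γ (q i) : Module.End ℝ S)).prod

private theorem ClMod_om_eq {m n : ℕ} (γ : Fin m → S →ₗ[ℝ] S) (q : Fin n → Fin m → ℝ) :
    om γ q = ((List.finRange n).map fun i => (lc γ (q i) : Module.End ℝ S)).prod := by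
  rw [om, List.ofFn_eq_map]

private theorem ClMod_cons {m n : ℕ} (γ : Fin m → S →ₗ[ℝ] S) (q : Fin n → Fin m → ℝ)
    (i : Fin n) (l : List (Fin n)) (x : S) :
    (((i :: l).map fun i => (lc γ (q i) : Module.End ℝ S)).prod) x =
      lc γ (q i) ((l.map fun i => (lc γ (q i) : Module.End ℝ S)).prod x) := by
  rw [List.map_cons, List.prod_cons]
  rfl

private theorem ClMod_sq (h : IsClMod dot γ η) (y : Fin m₁ → ℝ) (hy : y ⬝ᵥ y = 1) (x : S) :
    lc γ y (lc γ y x) = x := by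
  have h1 := h.lc_γγ y y x
  rw [hy, mul_one, two_smul, ← two_smul ℝ (lc γ y (lc γ y x)), ← two_smul ℝ x] at h1
  exact smul_right_injective S (two_ne_zero : (2 : ℝ) ≠ 0) h1

private theorem ClMod_inj (h : IsClMod dot γ η) {n : ℕ} {q : Fin n → Fin m₁ → ℝ}
    (hq : ∀ i j, q i ⬝ᵥ q j = if i = j then 1 else 0) (l : List (Fin n)) (x : S)
    (hx : (l.map fun i => (lc γ (q i) : Module.End ℝ S)).prod x = 0) : x = 0 := by
  induction l with
  | nil => simpa using hx
  | cons i l ih =>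
    apply ih
    rw [ClMod_cons] at hx
    have h1 := ClMod_sq h (q i) (by rw [hq, if_pos rfl])
      ((l.map fun i => (lc γ (q i) : Module.End ℝ S)).prod x)
    rw [← h1, hx, map_zero]

private theorem ClMod_η (h : IsClMod dot γ η) {n : ℕ} {q : Fin n → Fin m₁ → ℝ}
    (y : Fin m₂ → ℝ) (l : List (Fin n)) (x : S) :
    lc η y ((l.map fun i => (lc γ (q i) : Module.End ℝ S)).prod x) =
      (-1 : ℝ) ^ l.length • (l.map fun i => (lc γ (q i) : Module.End ℝ S)).prod (lc η y x) := by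
  induction l with
  | nil => simp
  | cons i l ih =>
    have h1 := h.lc_γη (q i) y ((l.map fun i => (lc γ (q i) : Module.End ℝ S)).prod x)
    rw [ClMod_cons, ClMod_cons, ← neg_neg (lc η y _), ← h1, ih, map_smul, List.length_cons,
      pow_succ, mul_neg_one, neg_smul]

private theorem ClMod_out (h : IsClMod dot γ η) {n : ℕ} {q : Fin n → Fin m₁ → ℝ}
    (y : Fin m₁ → ℝ) (l : List (Fin n)) (hl : ∀ i ∈ l, q i ⬝ᵥ y = 0) (x : S) :
    lc γ y ((l.map fun i => (lc γ (q i) : Module.End ℝ S)).prod x) =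
      (-1 : ℝ) ^ l.length • (l.map fun i => (lc γ (q i) : Module.End ℝ S)).prod (lc γ y x) := by
  induction l with
  | nil => simp
  | cons i l ih =>
    have h1 := h.lc_γγ (q i) y ((l.map fun i => (lc γ (q i) : Module.End ℝ S)).prod x)
    rw [hl i List.mem_cons_self, mul_zero, zero_smul] at h1
    have h2 := eq_neg_of_add_eq_zero_right h1
    rw [ClMod_cons, ClMod_cons, h2, ih fun j hj => hl j (List.mem_cons_of_mem _ hj), map_smul,
      List.length_cons, pow_succ, mul_neg_one, neg_smul]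

private theorem ClMod_in (h : IsClMod dot γ η) {n : ℕ} {q : Fin n → Fin m₁ → ℝ}
    (hq : ∀ i j, q i ⬝ᵥ q j = if i = j then 1 else 0) (j : Fin n) (l : List (Fin n))
    (hl : l.Nodup) (hj : j ∈ l) (x : S) :
    lc γ (q j) ((l.map fun i => (lc γ (q i) : Module.End ℝ S)).prod x) =
      (-1 : ℝ) ^ (l.length + 1) •
        (l.map fun i => (lc γ (q i) : Module.End ℝ S)).prod (lc γ (q j) x) := by
  induction l with
  | nil => exact absurd hj List.not_mem_nil
  | cons i l ih =>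
    rw [List.nodup_cons] at hl
    by_cases hij : i = j
    · subst hij
      have h1 := ClMod_out h (q := q) (q i) l (fun k hk => by
        rw [hq, if_neg]
        rintro rfl
        exact hl.1 hk) x
      have h2 : (l.map fun i => (lc γ (q i) : Module.End ℝ S)).prod (lc γ (q i) x) =
          (-1 : ℝ) ^ l.length •
            lc γ (q i) ((l.map fun i => (lc γ (q i) : Module.End ℝ S)).prod x) := by
        rw [h1, smul_smul, ← mul_pow]
        norm_num
      rw [ClMod_cons, ClMod_cons, h2, map_smul, smul_smul, List.length_cons, ← pow_add]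
      have h3 : (-1 : ℝ) ^ (l.length + 1 + 1 + l.length) = 1 := by
        rw [show l.length + 1 + 1 + l.length = 2 * (l.length + 1) by ring, pow_mul]
        norm_num
      rw [h3, one_smul]
    · have hj' : j ∈ l := by
        rcases List.mem_cons.mp hj with h1 | h1
        · exact absurd h1.symm hij
        · exact h1
      have h1 := h.lc_γγ (q i) (q j) ((l.map fun i => (lc γ (q i) : Module.End ℝ S)).prod x)
      rw [hq, if_neg hij, mul_zero, zero_smul] at h1
      have h2 := eq_neg_of_add_eq_zero_right h1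
      rw [ClMod_cons, ClMod_cons, h2, ih hl.2 hj', map_smul, List.length_cons,
        pow_succ _ (l.length + 1), mul_neg_one, neg_smul]

theorem IsClMod.om_inj (h : IsClMod dot γ η) {n : ℕ} {q : Fin n → Fin m₁ → ℝ}
    (hq : ∀ i j, q i ⬝ᵥ q j = if i = j then 1 else 0) (x : S) (hx : om γ q x = 0) : x = 0 := by
  rw [ClMod_om_eq] at hx
  exact ClMod_inj h hq _ x hx

/-- moving a vector of the span past the product -/
theorem IsClMod.om_γ (h : IsClMod dot γ η) {n : ℕ} {q : Fin n → Fin m₁ → ℝ}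
    (hq : ∀ i j, q i ⬝ᵥ q j = if i = j then 1 else 0) {y : Fin m₁ → ℝ}
    (hy : y = ∑ j, (y ⬝ᵥ q j) • q j) (x : S) :
    lc γ y (om γ q x) = (-1 : ℝ) ^ (n + 1) • om γ q (lc γ y x) := by
  obtain ⟨c, hc⟩ : ∃ c : Fin n → ℝ, y = ∑ j, c j • q j := ⟨_, hy⟩
  clear hy
  subst hc
  rw [lc_sum, ClMod_om_eq, LinearMap.sum_apply, LinearMap.sum_apply, map_sum, Finset.smul_sum]
  refine Finset.sum_congr rfl fun j _ => ?_
  have h1 := ClMod_in h hq j (List.finRange n) (List.nodup_finRange n) (List.mem_finRange j) x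
  rw [List.length_finRange] at h1
  rw [lc_smul, LinearMap.smul_apply, LinearMap.smul_apply, h1, map_smul, smul_comm]

theorem IsClMod.om_η (h : IsClMod dot γ η) {n : ℕ} {q : Fin n → Fin m₁ → ℝ}
    (y : Fin m₂ → ℝ) (x : S) :
    lc η y (om γ q x) = (-1 : ℝ) ^ n • om γ q (lc η y x) := by
  have h1 := ClMod_η h (q := q) y (List.finRange n) x
  rw [List.length_finRange] at h1
  rw [ClMod_om_eq, h1]

end Pool.Agent.H85.Fold
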