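import Mathlib

/-!
# Project FOLD: a positive operator
-/

set_option autoImplicit false

open Finset

namespace Pool.Agent.H85.Fold

private theorem pp_TT {A : Type*} [Ring A] {g h : A} (hg : g * g = 1) (hh : h * h = -1)
    (hgh : g * h = -(h * g)) : (g * h) * (g * h) = 1 := by
  have h1 : h * g = -(g * h) := by rw [hgh, neg_neg]
  calc (g * h) * (g * h) = g * (h * g) * h := by noncomm_ring
    _ = -((g * g) * (h * h)) := by rw [h1]; noncomm_ring
    _ = 1 := by rw [hg, hh]; noncomm_ring

private theorem pp_Tg {A : Type*} [Ring A] {g h g' : A} (h1 : g * g' = -(g' * g))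
    (h2 : h * g' = -(g' * h)) : (g * h) * g' = g' * (g * h) := by
  calc (g * h) * g' = g * (h * g') := by noncomm_ring
    _ = -((g * g') * h) := by rw [h2]; noncomm_ring
    _ = g' * (g * h) := by rw [h1]; noncomm_ring

private theorem pp_list_anti {ι A : Type*} [Ring A] (f : ι → A) (x : A) (l : List ι)
    (h : ∀ i ∈ l, f i * x = -(x * f i)) :
    (l.map f).prod * x = (-1) ^ l.length * (x * (l.map f).prod) := by
  induction l with
  | nil => simp
  | cons a l ih =>
    have h1 := ih fun i hi => h i (List.mem_cons_of_mem _ hi)
    have h2 := h a List.mem_cons_self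
    rw [List.map_cons, List.prod_cons, mul_assoc, h1, List.length_cons, pow_succ]
    have h3 : f a * ((-1) ^ l.length * (x * (l.map f).prod)) =
        (-1) ^ l.length * ((f a * x) * (l.map f).prod) := by
      rw [← mul_assoc, ((Commute.one_left (f a)).neg_left.pow_left l.length).symm.eq]
      noncomm_ring
    rw [h3, h2]
    noncomm_ring

/-- **Positivity.** -/
theorem omega_prod {S : Type} [AddCommGroup S] [Module ℝ S] (dot : S →ₗ[ℝ] S →ₗ[ℝ] ℝ)
    (hsymm : ∀ x y, dot x y = dot y x) (hpos : ∀ x, x ≠ 0 → 0 < dot x x) {n : ℕ}
    (g h : Fin n → Module.End ℝ S) (hg : ∀ i, g i * g i = 1) (hh : ∀ i, h i * h i = -1)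
    (hgg : ∀ i j, i ≠ j → g i * g j = -(g j * g i))
    (hhh : ∀ i j, i ≠ j → h i * h j = -(h j * h i)) (hgh : ∀ i j, g i * h j = -(h j * g i))
    (hga : ∀ i x y, dot (g i x) y = dot x (g i y))
    (hha : ∀ i x y, dot (h i x) y = -dot x (h i y)) :
    ∃ Q : S → ℝ, (∀ x, 0 ≤ Q x ∧ (Q x = 0 → (List.ofFn fun i => g i + h i).prod x = 0)) ∧
      ∀ x, dot x ((List.ofFn g).prod ((List.ofFn fun i => g i + h i).prod x)) =
        (-1) ^ (n * (n - 1) / 2) * Q x := by
  have hhg : ∀ i j, h i * g j = -(g j * h i) := fun i j => by rw [hgh j i, neg_neg]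
  set T : Fin n → Module.End ℝ S := fun i => g i * h i with hT
  have hTT : ∀ i, T i * T i = 1 := fun i => pp_TT (hg i) (hh i) (hgh i i)
  have hTg : ∀ i j, i ≠ j → T i * g j = g j * T i := fun i j hij =>
    pp_Tg (hgg i j hij) (hhg i j)
  have hTh : ∀ i j, i ≠ j → T i * h j = h j * T i := fun i j hij =>
    pp_Tg (hgh i j) (hhh i j hij)
  have hTcomm : ∀ i j, Commute (1 + T i) (1 + T j) := by
    intro i j
    have h1 : Commute (T i) (T j) := by
      rcases eq_or_ne i j with rfl | hij
      · exact Commute.refl _
      · exact (show Commute (T i) (g j) from hTg i j hij).mul_right (hTh i j hij)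
    exact ((Commute.one_left _).add_left ((Commute.one_right _).add_right h1))
  have hTsymm : ∀ i x y, dot ((1 + T i) x) y = dot x ((1 + T i) y) := by
    intro i x y
    have e : ∀ z, (1 + T i) z = z + g i (h i z) := fun z => rfl
    have e2 : g i (h i y) = -(h i (g i y)) := by
      have := congrArg (fun f : Module.End ℝ S => f y) (hgh i i)
      simpa using this
    rw [e, e, map_add, LinearMap.add_apply, map_add, hga, hha, e2, map_neg]
  -- the factorisation
  have hfac : ∀ l : List (Fin n), l.Nodup → (l.map fun i => g i + h i).prod =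
      (l.map g).prod * (l.map fun i => 1 + T i).prod := by
    intro l hl
    induction l with
    | nil => simp
    | cons a l ih =>
      rw [List.nodup_cons] at hl
      have hc : Commute (1 + T a) (l.map g).prod := by
        refine Commute.list_prod_right _ _ fun y hy => ?_
        obtain ⟨i, hi, rfl⟩ := List.mem_map.1 hy
        have hne : a ≠ i := fun h => hl.1 (h ▸ hi)
        exact (Commute.one_left _).add_left (hTg a i hne)
      have h1 : g a + h a = g a * (1 + T a) := by
        rw [mul_add, mul_one, hT, ← mul_assoc, hg, one_mul]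
      rw [List.map_cons, List.prod_cons, List.map_cons, List.prod_cons, List.map_cons,
        List.prod_cons, ih hl.2, h1]
      calc g a * (1 + T a) * ((l.map g).prod * (l.map fun i => 1 + T i).prod)
          = g a * ((1 + T a) * (l.map g).prod) * (l.map fun i => 1 + T i).prod := by noncomm_ring
        _ = g a * ((l.map g).prod * (1 + T a)) * (l.map fun i => 1 + T i).prod := by rw [hc.eq]
        _ = _ := by noncomm_ring
  -- the square of omega
  have hsq : ∀ l : List (Fin n), l.Nodup → (l.map g).prod * (l.map g).prod =
      (-1) ^ (l.length * (l.length - 1) / 2) := by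
    intro l hl
    induction l with
    | nil => simp
    | cons a l ih =>
      rw [List.nodup_cons] at hl
      have h1 := pp_list_anti g (g a) l fun i hi => hgg i a fun h => hl.1 (h ▸ hi)
      have h2 := ih hl.2
      have h3 : (l.length + 1) * (l.length + 1 - 1) / 2 =
          l.length + l.length * (l.length - 1) / 2 := by
        rw [Nat.triangle_succ, add_comm]
      rw [List.map_cons, List.prod_cons, List.length_cons, h3, pow_add, ← h2]
      calc g a * (l.map g).prod * (g a * (l.map g).prod)
          = g a * ((l.map g).prod * g a) * (l.map g).prod := by noncomm_ring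
        _ = g a * ((-1) ^ l.length * (g a * (l.map g).prod)) * (l.map g).prod := by rw [h1]
        _ = (g a * (-1) ^ l.length) * (g a * (l.map g).prod) * (l.map g).prod := by noncomm_ring
        _ = ((-1) ^ l.length * g a) * (g a * (l.map g).prod) * (l.map g).prod := by
          rw [((Commute.one_left (g a)).neg_left.pow_left l.length).eq]
        _ = (-1) ^ l.length * ((g a * g a) * ((l.map g).prod * (l.map g).prod)) := by
          noncomm_ring
        _ = _ := by rw [hg, one_mul]
  -- the projection
  have hR : ∀ l : List (Fin n), (∀ x y, dot ((l.map fun i => 1 + T i).prod x) y =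
      dot x ((l.map fun i => 1 + T i).prod y)) ∧
      (l.map fun i => 1 + T i).prod * (l.map fun i => 1 + T i).prod =
        (2 : ℝ) ^ l.length • (l.map fun i => 1 + T i).prod := by
    intro l
    induction l with
    | nil =>
      constructor
      · intro x y; simp
      · simp
    | cons a l ih =>
      have hc : Commute (1 + T a) (l.map fun i => 1 + T i).prod := by
        refine Commute.list_prod_right _ _ fun y hy => ?_
        obtain ⟨i, -, rfl⟩ := List.mem_map.1 hy
        exact hTcomm a i
      rw [List.map_cons, List.prod_cons]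
      generalize (l.map fun i => 1 + T i).prod = R at ih hc ⊢
      constructor
      · intro x y
        have e : (1 + T a) * R = R * (1 + T a) := hc.eq
        calc dot (((1 + T a) * R) x) y = dot ((1 + T a) (R x)) y := rfl
          _ = dot (R x) ((1 + T a) y) := hTsymm a _ _
          _ = dot x (R ((1 + T a) y)) := ih.1 _ _
          _ = dot x ((R * (1 + T a)) y) := rfl
          _ = _ := by rw [← e]
      · have h1 : (1 + T a) * (1 + T a) = (2 : ℝ) • (1 + T a) := by
          rw [two_smul]
          calc (1 + T a) * (1 + T a) = 1 + T a + T a + T a * T a := by noncomm_ring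
            _ = _ := by rw [hTT]; abel
        calc (1 + T a) * R * ((1 + T a) * R) = (1 + T a) * (R * (1 + T a)) * R := by
              noncomm_ring
          _ = (1 + T a) * ((1 + T a) * R) * R := by rw [hc.eq]
          _ = ((1 + T a) * (1 + T a)) * (R * R) := by noncomm_ring
          _ = _ := by
            rw [h1, ih.2, List.length_cons, pow_succ, smul_mul_smul_comm, mul_comm (2 : ℝ)]
  set R : Module.End ℝ S := ((List.finRange n).map fun i => 1 + T i).prod with hRdef
  obtain ⟨hRs, hRR⟩ := hR (List.finRange n)
  rw [← hRdef, List.length_finRange] at hRR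
  have hRs' : ∀ x y, dot (R x) y = dot x (R y) := hRs
  have hfac' : (List.ofFn fun i => g i + h i).prod = (List.ofFn g).prod * R := by
    rw [List.ofFn_eq_map, List.ofFn_eq_map]
    exact hfac _ (List.nodup_finRange n)
  have hsq' : (List.ofFn g).prod * (List.ofFn g).prod = (-1) ^ (n * (n - 1) / 2) := by
    rw [List.ofFn_eq_map]
    have := hsq _ (List.nodup_finRange n)
    rwa [List.length_finRange] at this
  have hnn : ∀ x, 0 ≤ dot x x := by
    intro x
    rcases eq_or_ne x 0 with rfl | hx
    · simp
    · exact (hpos x hx).le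
  have hkey : ∀ x, dot (R x) (R x) = 2 ^ n * dot x (R x) := by
    intro x
    have h1 : R (R x) = (2 : ℝ) ^ n • R x := congrArg (fun f : Module.End ℝ S => f x) hRR
    rw [hRs', h1, map_smul, smul_eq_mul]
  have h2n : (0 : ℝ) < 2 ^ n := by positivity
  refine ⟨fun x => dot x (R x), fun x => ⟨?_, fun hx => ?_⟩, fun x => ?_⟩
  · have h1 := hnn (R x)
    rw [hkey] at h1
    exact nonneg_of_mul_nonneg_right h1 h2n
  · have h1 : R x = 0 := by
      by_contra hne
      have h2 := hpos _ hne
      simp only at hx
      rw [hkey, hx, mul_zero] at h2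
      exact lt_irrefl _ h2
    rw [hfac', Module.End.mul_apply, h1, map_zero]
  · rw [hfac', Module.End.mul_apply]
    have h1 : (List.ofFn g).prod ((List.ofFn g).prod (R x)) =
        ((List.ofFn g).prod * (List.ofFn g).prod) (R x) := rfl
    rw [h1, hsq']
    have h2 : ∀ k : ℕ, ((-1 : Module.End ℝ S) ^ k) (R x) = ((-1 : ℝ) ^ k) • R x := by
      intro k
      rcases Nat.even_or_odd k with hk | hk
      · rw [hk.neg_one_pow, hk.neg_one_pow]; simp
      · rw [hk.neg_one_pow, hk.neg_one_pow]; simp
    rw [h2, map_smul, smul_eq_mul]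

end Pool.Agent.H85.Fold
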