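import Pool.Agent.H85.Fold.Vec
import Pool.Agent.H85.Fold.ClMod
import Pool.Agent.H85.Fold.AltProd
import Pool.Agent.H85.Fold.PosProj

/-!
# Project FOLD: the system of folding vectors
-/

set_option autoImplicit false

open Finset

namespace Pool.Agent.H85.Fold

variable {V : Type} [DecidableEq V] [Fintype V] {S : Type} [AddCommGroup S] [Module ℝ S]
  {ν : V → ℕ} {G : SimpleGraph V} {n m₁ m₂ : ℕ} {o : Finset V → ℝ}
  {p : V → Fin m₁ → ℝ} {a : V → Fin m₂ → ℝ} {dot : S →ₗ[ℝ] S →ₗ[ℝ] ℝ}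
  {γ : Fin m₁ → S →ₗ[ℝ] S} {η : Fin m₂ → S →ₗ[ℝ] S}

private theorem sysFold_ofFn {α β : Type*} (l : List α) (k : ℕ) (h : l.length = k) (f : α → β) :
    List.ofFn (fun i : Fin k => f (l.get (Fin.cast h.symm i))) = l.map f := by
  subst h
  apply List.ext_getElem
  · simp
  · intro i h1 h2
    simp

private theorem sysFold_dp {k m : ℕ} (c d : Fin k → ℝ) (x y : Fin k → Fin m → ℝ) :
    (∑ i, c i • x i) ⬝ᵥ (∑ j, d j • y j) = ∑ i, ∑ j, c i * d j * (x i ⬝ᵥ y j) := by
  rw [sum_dotProduct]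
  refine Finset.sum_congr rfl fun i _ => ?_
  rw [dotProduct_sum]
  refine Finset.sum_congr rfl fun j _ => ?_
  rw [smul_dotProduct, dotProduct_smul, smul_eq_mul, smul_eq_mul, mul_assoc]

private theorem sysFold_lc_comb {m k : ℕ} (γ : Fin m → S →ₗ[ℝ] S) (c : Fin k → ℝ)
    (x : Fin k → Fin m → ℝ) : lc γ (∑ i, c i • x i) = ∑ i, c i • lc γ (x i) := by
  rw [lc_sum]
  exact Finset.sum_congr rfl fun i _ => lc_smul γ (c i) (x i)

/-- positivity for a facet -/
theorem facet_pos (hK : IsSphere ν G n univ o) (hf : IsFold G n p a) (hc : IsClMod dot γ η)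
    {q : Fin n → Fin m₁ → ℝ} (hq : ∀ i j, q i ⬝ᵥ q j = if i = j then 1 else 0)
    (hqp : ∀ v, p v = ∑ j, (p v ⬝ᵥ q j) • q j) {srt : Finset V → List V} (hsrt : IsSrt ν srt)
    {τ : Finset V} (hτ : τ ∈ fac G n univ) :
    ∃ Q : S → ℝ, (∀ x, 0 ≤ Q x ∧ (Q x = 0 → epl (ev γ η p a) srt τ x = 0)) ∧
      ∀ x, dot x (om γ q (epl (ev γ η p a) srt τ x)) =
        (-1) ^ (n * (n - 1) / 2) * dtl n q p (srt τ) * Q x := by
  classical
  have hτ' := hτ
  simp only [fac, Finset.mem_filter, Finset.mem_powerset] at hτ'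
  obtain ⟨-, hcl, hcard⟩ := hτ'
  have hlen : (srt τ).length = n := by rw [hsrt.length, hcard]
  set e : Fin n → V := fun i => (srt τ).get (Fin.cast hlen.symm i) with he
  have hemem : ∀ i, e i ∈ τ := by
    intro i
    have h1 : e i ∈ srt τ := List.get_mem _ _
    rw [← hsrt.toFinset τ]
    exact List.mem_toFinset.mpr h1
  set B : Matrix (Fin n) (Fin n) ℝ := fun i j => p (e i) ⬝ᵥ q j with hB
  have hdet : dtl n q p (srt τ) = B.det := by
    unfold dtl
    rw [dif_pos hlen]
  have hdet0 : B.det ≠ 0 := by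
    rw [← hdet]
    exact fold_dtl_ne hK hf hq hqp hsrt hτ
  have hunit : IsUnit B.det := isUnit_iff_ne_zero.mpr hdet0
  set C : Matrix (Fin n) (Fin n) ℝ := B⁻¹ with hC
  have hCB : C * B = 1 := Matrix.nonsing_inv_mul B hunit
  have hBC : B * C = 1 := Matrix.mul_nonsing_inv B hunit
  have hpe : ∀ i, p (e i) = ∑ j, B i j • q j := fun i => hqp (e i)
  have hcomb : ∀ (M N : Matrix (Fin n) (Fin n) ℝ) {m : ℕ} (x : Fin n → Fin m → ℝ) (j : Fin n),
      ∑ i, M j i • ∑ k, N i k • x k = ∑ k, (M * N) j k • x k := by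
    intro M N m x j
    simp only [Finset.smul_sum, smul_smul]
    rw [Finset.sum_comm]
    refine Finset.sum_congr rfl fun k _ => ?_
    rw [Matrix.mul_apply, Finset.sum_smul]
  have hone : ∀ {m : ℕ} (x : Fin n → Fin m → ℝ) (j : Fin n),
      ∑ k, (1 : Matrix (Fin n) (Fin n) ℝ) j k • x k = x j := by
    intro m x j
    rw [Finset.sum_eq_single j]
    · simp
    · intro b _ hb
      rw [Matrix.one_apply_ne hb.symm, zero_smul]
    · intro h
      exact absurd (Finset.mem_univ j) h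
  have hqc : ∀ j, q j = ∑ i, C j i • p (e i) := by
    intro j
    have h1 : ∑ i, C j i • p (e i) = ∑ i, C j i • ∑ k, B i k • q k :=
      Finset.sum_congr rfl fun i _ => by rw [hpe i]
    rw [h1, hcomb, hCB, hone]
  set a' : Fin n → Fin m₂ → ℝ := fun j => ∑ i, C j i • a (e i) with ha'
  have hae : ∀ i, a (e i) = ∑ j, B i j • a' j := by
    intro i
    have h1 : ∑ j, B i j • a' j = ∑ k, (B * C) i k • a (e k) := hcomb B C (fun k => a (e k)) i
    rw [h1, hBC]
    exact (hone (fun k => a (e k)) i).symm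
  have haa : ∀ i j, a' i ⬝ᵥ a' j = if i = j then 1 else 0 := by
    intro i j
    have h1 : a' i ⬝ᵥ a' j = ∑ k, ∑ l, C i k * C j l * (a (e k) ⬝ᵥ a (e l)) :=
      sysFold_dp (C i) (C j) (fun k => a (e k)) (fun l => a (e l))
    have h2 : q i ⬝ᵥ q j = ∑ k, ∑ l, C i k * C j l * (p (e k) ⬝ᵥ p (e l)) := by
      rw [hqc i, hqc j]
      exact sysFold_dp (C i) (C j) (fun k => p (e k)) (fun l => p (e l))
    rw [← hq i j, h1, h2]
    refine Finset.sum_congr rfl fun k _ => Finset.sum_congr rfl fun l _ => ?_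
    rw [hf.zero (e k) (e l)]
    by_cases hkl : e k = e l
    · exact Or.inl hkl
    · exact Or.inr (hcl (e k) (hemem k) (e l) (hemem l) hkl)
  set h : Fin n → Module.End ℝ S := fun j => ev γ η q a' j with hh
  have hanti : ∀ i j, h i * h j = -(h j * h i) := by
    intro i j
    apply LinearMap.ext
    intro x
    have h1 := hc.ev_anti q a' i j x
    rw [hq, haa, sub_self, mul_zero, zero_smul] at h1
    exact eq_neg_of_add_eq_zero_left h1
  have hev : ∀ i, (ev γ η p a (e i) : Module.End ℝ S) = ∑ j, B i j • h j := by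
    intro i
    have h1 : lc γ (p (e i)) = ∑ j, B i j • lc γ (q j) := by
      rw [hpe i]
      exact sysFold_lc_comb γ (B i) q
    have h2 : lc η (a (e i)) = ∑ j, B i j • lc η (a' j) := by
      rw [hae i]
      exact sysFold_lc_comb η (B i) a'
    show lc γ (p (e i)) + lc η (a (e i)) = ∑ j, B i j • (lc γ (q j) + lc η (a' j))
    rw [h1, h2, ← Finset.sum_add_distrib]
    exact Finset.sum_congr rfl fun j _ => (smul_add _ _ _).symm
  have hepl : epl (ev γ η p a) srt τ = B.det • (List.ofFn h).prod := by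
    unfold epl
    rw [← sysFold_ofFn (srt τ) n hlen (fun v => (ev γ η p a v : Module.End ℝ S))]
    rw [← prod_alt h hanti B]
    congr 1
    apply congrArg
    funext i
    exact hev i
  -- squares
  have hg2 : ∀ i, (lc γ (q i) : Module.End ℝ S) * lc γ (q i) = 1 := by
    intro i
    apply LinearMap.ext
    intro x
    have h1 := hc.lc_γγ (q i) (q i) x
    rw [hq, if_pos rfl, mul_one, ← two_smul ℝ] at h1
    exact smul_right_injective S (two_ne_zero) h1
  have hh2 : ∀ i, (lc η (a' i) : Module.End ℝ S) * lc η (a' i) = -1 := by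
    intro i
    apply LinearMap.ext
    intro x
    have h1 := hc.lc_ηη (a' i) (a' i) x
    rw [haa, if_pos rfl, mul_one, ← two_smul ℝ, ← smul_neg] at h1
    exact smul_right_injective S (two_ne_zero) h1
  have hgg : ∀ i j, i ≠ j → (lc γ (q i) : Module.End ℝ S) * lc γ (q j) =
      -((lc γ (q j) : Module.End ℝ S) * lc γ (q i)) := by
    intro i j hij
    apply LinearMap.ext
    intro x
    have h1 := hc.lc_γγ (q i) (q j) x
    rw [hq, if_neg hij, mul_zero, zero_smul] at h1
    exact eq_neg_of_add_eq_zero_left h1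
  have hhh : ∀ i j, i ≠ j → (lc η (a' i) : Module.End ℝ S) * lc η (a' j) =
      -((lc η (a' j) : Module.End ℝ S) * lc η (a' i)) := by
    intro i j hij
    apply LinearMap.ext
    intro x
    have h1 := hc.lc_ηη (a' i) (a' j) x
    rw [haa, if_neg hij, mul_zero, zero_smul, neg_zero] at h1
    exact eq_neg_of_add_eq_zero_left h1
  have hgh : ∀ i j, (lc γ (q i) : Module.End ℝ S) * lc η (a' j) =
      -((lc η (a' j) : Module.End ℝ S) * lc γ (q i)) := by
    intro i j
    apply LinearMap.ext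
    intro x
    exact hc.lc_γη (q i) (a' j) x
  obtain ⟨Q, hQ, hQd⟩ := omega_prod dot hc.symm hc.pos
    (fun i => (lc γ (q i) : Module.End ℝ S)) (fun i => (lc η (a' i) : Module.End ℝ S))
    hg2 hh2 hgg hhh hgh (fun i x y => hc.lc_γ_adj (q i) x y) (fun i x y => hc.lc_η_adj (a' i) x y)
  have hlist : (List.ofFn fun i => (lc γ (q i) : Module.End ℝ S) + lc η (a' i)) = List.ofFn h :=
    rfl
  refine ⟨Q, fun x => ⟨(hQ x).1, fun hx => ?_⟩, fun x => ?_⟩
  · have h1 := (hQ x).2 hx
    rw [hlist] at h1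
    rw [hepl, LinearMap.smul_apply, h1, smul_zero]
  · have h1 := hQd x
    rw [hlist] at h1
    rw [hepl, LinearMap.smul_apply, map_smul, map_smul, smul_eq_mul, hdet]
    have h2 : dot x (om γ q ((List.ofFn h).prod x)) = (-1) ^ (n * (n - 1) / 2) * Q x := h1
    rw [h2]
    ring

/-- **Folding vectors give a system.** -/
theorem exists_sys (hν : Function.Injective ν) (hK : IsSphere ν G n univ o)
    (hf : IsFold G n p a) (hc : IsClMod dot γ η) :
    ∃ (ep : Finset V → S →ₗ[ℝ] S) (β : S →ₗ[ℝ] S →ₗ[ℝ] ℝ) (ε κ : ℝ),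
      Sys ν G (ev γ η p a) ep (fun u v => 2 * (p u ⬝ᵥ p v - a u ⬝ᵥ a v)) n univ ⊤ β ε κ o := by
  classical
  obtain ⟨q, hq, hqp⟩ := fold_basis hK hf
  obtain ⟨srt, hsrt⟩ := exists_srt ν hν
  obtain ⟨s, hs, hsgn⟩ := fold_sign hK hf hq hqp hsrt
  have hneg : ∀ k : ℕ, ((-1 : ℝ) ^ k) * (-1) ^ k = 1 := by
    intro k
    rw [← mul_pow]
    norm_num
  refine ⟨epl (ev γ η p a) srt, dot.compl₂ (om γ q), (-1) ^ (n + 1),
    (-1) ^ (n * (n - 1) / 2) * s, ?_⟩
  have hβ : ∀ x y, dot.compl₂ (om γ q) x y = dot x (om γ q y) := fun x y => rfl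
  refine
    { inj := hν
      ε_sq := hneg _
      κ_sq := by
        calc (-1 : ℝ) ^ (n * (n - 1) / 2) * s * ((-1) ^ (n * (n - 1) / 2) * s)
            = ((-1 : ℝ) ^ (n * (n - 1) / 2) * (-1) ^ (n * (n - 1) / 2)) * (s * s) := by ring
          _ = 1 := by rw [hneg, hs, mul_one]
      stable := fun _ _ _ _ => Submodule.mem_top
      anti := fun u _ v _ x _ => hc.ev_anti p a u v x
      b_symm := fun u v => by rw [dotProduct_comm (p u), dotProduct_comm (a u)]
      b_zero := fun u _ v _ huv => by rw [hf.zero u v huv, sub_self, mul_zero]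
      b_neg := fun u _ v _ hne hadj => by
        have h1 := hf.neg u v hne hadj
        show 2 * (p u ⬝ᵥ p v - a u ⬝ᵥ a v) < 0
        linarith
      adj := ?_
      nondeg := ?_
      sphere := hK
      ep_nil := ?_
      ep_insert := ?_
      pos := ?_ }
  · intro v _ x _ y _
    rw [hβ, hβ]
    have h1 : ev γ η p a v x = lc γ (p v) x + lc η (a v) x := rfl
    have h2 : ev γ η p a v y = lc γ (p v) y + lc η (a v) y := rfl
    rw [h1, h2, map_add, LinearMap.add_apply, hc.lc_γ_adj, hc.lc_η_adj,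
      hc.om_γ hq (hqp v) y, hc.om_η (a v) y, map_smul, map_smul, smul_eq_mul, smul_eq_mul,
      map_add, map_add, pow_succ]
    ring
  · intro y _ hy
    have h1 := hy (om γ q y) Submodule.mem_top
    rw [hβ] at h1
    apply hc.om_inj hq y
    by_contra h2
    exact absurd h1 (ne_of_gt (hc.pos _ h2))
  · intro x
    unfold epl
    rw [hsrt.nil]
    simp
  · intro v τ hv _ hcl x _
    refine epl_insert hsrt (ev γ η p a) hv (fun u hu z => ?_) x
    have hne : v ≠ u := fun h => hv (h ▸ hu)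
    have hadj : G.Adj v u :=
      hcl v (Finset.mem_insert_self _ _) u (Finset.mem_insert_of_mem hu) hne
    have h1 := hc.ev_anti p a v u z
    rw [hf.zero v u (Or.inr hadj), sub_self, mul_zero, zero_smul] at h1
    exact eq_neg_of_add_eq_zero_left h1
  · intro τ hτu hcl hcard x _
    have hτ : τ ∈ fac G n univ := by
      simp only [fac, Finset.mem_filter, Finset.mem_powerset]
      exact ⟨hτu, hcl, hcard⟩
    obtain ⟨Q, hQ, hQd⟩ := facet_pos hK hf hc hq hqp hsrt hτ
    rw [hβ, hQd x]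
    constructor
    · have h1 : (-1 : ℝ) ^ (n * (n - 1) / 2) * s * o τ *
          ((-1) ^ (n * (n - 1) / 2) * dtl n q p (srt τ) * Q x) =
          ((-1 : ℝ) ^ (n * (n - 1) / 2) * (-1) ^ (n * (n - 1) / 2)) *
            (s * (o τ * dtl n q p (srt τ))) * Q x := by ring
      rw [h1, hneg, one_mul]
      exact mul_nonneg (hsgn τ hτ).le (hQ x).1
    · intro h1
      apply (hQ x).2
      have h2 : (-1 : ℝ) ^ (n * (n - 1) / 2) * dtl n q p (srt τ) ≠ 0 :=
        mul_ne_zero (pow_ne_zero _ (by norm_num)) (fold_dtl_ne hK hf hq hqp hsrt hτ)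
      exact (mul_eq_zero.mp h1).resolve_left h2

end Pool.Agent.H85.Fold
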