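import Pool.Agent.H85.Fold.TwB

/-!
# Project FOLD: exactness of the twisted complexes
-/

set_option autoImplicit false

open Finset

namespace Pool.Agent.H85.Fold

variable {V : Type} [DecidableEq V] [Fintype V] {S : Type} [NormedAddCommGroup S]
  [NormedSpace ℝ S] [FiniteDimensional ℝ S] {G : SimpleGraph V} {e g c : V → S →ₗ[ℝ] S}

/-- the submodule of twisted chains -/
private def twSub (G : SimpleGraph V) (A : V → S →ₗ[ℝ] S) {Ω : Type} (s : V → Ω → Ω) (i : ℕ) :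
    Submodule ℝ (Finset V → Ω → S) where
  carrier := {f | IsTw G A s i f}
  zero_mem' := by
    refine ⟨fun σ ω h => absurd rfl h, fun σ v _ ω => ?_⟩
    simp
  add_mem' := by
    intro f f' hf hf'
    refine ⟨fun σ ω h => ?_, fun σ v hv ω => ?_⟩
    · by_cases h1 : f σ ω = 0
      · apply hf'.supp σ ω
        intro h2
        apply h
        show f σ ω + f' σ ω = 0
        rw [h1, h2, add_zero]
      · exact hf.supp σ ω h1
    · show f σ (s v ω) + f' σ (s v ω) = -A v (f σ ω + f' σ ω)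
      rw [hf.tw σ v hv ω, hf'.tw σ v hv ω, map_add, neg_add]
  smul_mem' := by
    intro r f hf
    refine ⟨fun σ ω h => ?_, fun σ v hv ω => ?_⟩
    · apply hf.supp σ ω
      intro h2
      apply h
      show r • f σ ω = 0
      rw [h2, smul_zero]
    · show r • f σ (s v ω) = -A v (r • f σ ω)
      rw [hf.tw σ v hv ω, map_smul, smul_neg]

private theorem mem_twSub {A : V → S →ₗ[ℝ] S} {Ω : Type} {s : V → Ω → Ω} {i : ℕ}
    {f : Finset V → Ω → S} : f ∈ twSub G A s i ↔ IsTw G A s i f := Iff.rfl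

private theorem bd_eval (ν : V → ℕ) {Ω : Type} (f : Finset V → Ω → S) (ρ : Finset V) (ω : Ω) :
    bd ν f ρ ω = bd ν (fun σ => f σ ω) ρ := by
  simp only [bd, LinearMap.coe_mk, AddHom.coe_mk, Finset.sum_apply, Pi.smul_apply]

private theorem isTw_bd (ν : V → ℕ) {A : V → S →ₗ[ℝ] S} {Ω : Type} {s : V → Ω → Ω} {i : ℕ}
    {y : Finset V → Ω → S} (hy : IsTw G A s (i + 1) y) : IsTw G A s i (bd ν y) := by
  refine ⟨fun ρ ω h => ?_, fun ρ v hv ω => ?_⟩
  · rw [bd_eval] at h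
    simp only [bd, LinearMap.coe_mk, AddHom.coe_mk] at h
    obtain ⟨w, hw, hw'⟩ := Finset.exists_ne_zero_of_sum_ne_zero h
    have hne : y (insert w ρ) ω ≠ 0 := by
      intro h0
      exact hw' (by rw [h0, smul_zero])
    obtain ⟨h1, h2⟩ := hy.supp _ _ hne
    refine ⟨fun a ha b hb hab => h1 a (Finset.mem_insert_of_mem ha) b
      (Finset.mem_insert_of_mem hb) hab, ?_⟩
    rw [Finset.card_insert_of_notMem (Finset.mem_compl.mp hw)] at h2
    omega
  · rw [bd_eval, bd_eval]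
    simp only [bd, LinearMap.coe_mk, AddHom.coe_mk]
    rw [map_sum, ← Finset.sum_neg_distrib]
    apply Finset.sum_congr rfl
    intro w _
    rw [hy.tw _ v (Finset.mem_insert_of_mem hv) ω, map_smul, smul_neg]

/-- **Exactness of the twisted complexes** for all large parameters, uniformly in the finite set. -/
theorem tw_exact (ν : V → ℕ) (hν : Function.Injective ν) (h : IsPert G e g c) (i : ℕ)
    (hHV : HV ν G e ⊤ univ i) :
    ∃ t₀ : ℝ, ∀ t : ℝ, t₀ ≤ t → ∀ (Ω : Type) [Fintype Ω] (s : V → Ω → Ω), IsAct G s →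
      ∀ f : Finset V → Ω → S, IsTw G (At e g c t) s i f → bd ν f = 0 →
        ∃ y, IsTw G (At e g c t) s (i + 1) y ∧ bd ν y = f := by
  obtain ⟨H, Φ, hH, hHΦ⟩ := exists_homotopy ν hν G e i hHV
  obtain ⟨CH, hCH0, hCH⟩ := exists_bound H
  obtain ⟨CΦ, hCΦ0, hCΦ⟩ := exists_bound Φ
  obtain ⟨Cb, hCb0, hCb⟩ := exists_bound (bd ν : (Finset V → S) →ₗ[ℝ] (Finset V → S))
  obtain ⟨Cc, hCc0, hCc⟩ := exists_bound (LinearMap.pi c : S →ₗ[ℝ] (V → S))
  obtain ⟨Cg, hCg0, hCg⟩ := exists_bound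
    (LinearMap.pi (fun v => (c v).comp ((g v).comp (c v))) : S →ₗ[ℝ] (V → S))
  obtain ⟨C, hC0, hC⟩ := deform (e := e) (g := g) (c := c) (G := G) h (i + 1)
  have hc : ∀ v x, ‖c v x‖ ≤ Cc * ‖x‖ := fun v x =>
    (norm_le_pi_norm (LinearMap.pi c x) v).trans (hCc x)
  have hg : ∀ v x, ‖c v (g v (c v x))‖ ≤ Cg * ‖x‖ := fun v x =>
    (norm_le_pi_norm (LinearMap.pi (fun v => (c v).comp ((g v).comp (c v))) x) v).trans (hCg x)
  set K : ℝ := CΦ * (Cc + Cg) + Cb * (C * CH) with hK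
  have hK0 : 0 ≤ K := by positivity
  refine ⟨2 * K + 1, ?_⟩
  intro t ht Ω _ s hs f hf hbd
  have ht1 : 1 ≤ t := by linarith
  have ht0 : 0 < t := by linarith
  have hδ1 : t⁻¹ ≤ 1 := inv_le_one_of_one_le₀ ht1
  have hδK : t⁻¹ * K ≤ 1 / 2 := by
    rw [inv_mul_le_iff₀ ht0]
    linarith
  -- the estimate
  have key : ∀ f : Finset V → Ω → S, IsTw G (At e g c t) s i f → bd ν f = 0 →
      ∃ z', IsTw G (At e g c t) s (i + 1) z' ∧ ‖f - bd ν z'‖ ≤ ‖f‖ / 2 := by
    intro f hf hbd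
    have hfn : ∀ σ ω, ‖f σ ω‖ ≤ ‖f‖ := fun σ ω =>
      (norm_le_pi_norm (f σ) ω).trans (norm_le_pi_norm f σ)
    have hev : ∀ σ ω, ∀ v ∈ σ, ‖e v (f σ ω)‖ ≤ t⁻¹ * ((Cc + Cg) * ‖f‖) := by
      intro σ ω v hv
      have h1 := hf.tw σ v hv ω
      have h2 : t • e v (f σ ω) = -(c v (f σ (s v ω)) + c v (g v (c v (f σ ω)))) := by
        have h3 : f σ (s v ω) = -(t • e v (c v (f σ ω)) + g v (c v (f σ ω))) := by
          rw [h1]; rfl
        have h4 : c v (f σ (s v ω)) = -(t • e v (f σ ω) + c v (g v (c v (f σ ω)))) := by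
          rw [h3, map_neg, map_add, map_smul, h.ec, map_neg, h.c_sq, neg_neg]
        rw [h4]
        abel
      have h5 : e v (f σ ω) = t⁻¹ • -(c v (f σ (s v ω)) + c v (g v (c v (f σ ω)))) := by
        rw [← h2, smul_smul, inv_mul_cancel₀ ht0.ne', one_smul]
      rw [h5, norm_smul, norm_neg, Real.norm_of_nonneg (inv_nonneg.mpr ht0.le)]
      apply mul_le_mul_of_nonneg_left _ (inv_nonneg.mpr ht0.le)
      calc ‖c v (f σ (s v ω)) + c v (g v (c v (f σ ω)))‖
          ≤ ‖c v (f σ (s v ω))‖ + ‖c v (g v (c v (f σ ω)))‖ := norm_add_le _ _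
        _ ≤ Cc * ‖f σ (s v ω)‖ + Cg * ‖f σ ω‖ := add_le_add (hc _ _) (hg _ _)
        _ ≤ Cc * ‖f‖ + Cg * ‖f‖ := add_le_add (mul_le_mul_of_nonneg_left (hfn _ _) hCc0)
            (mul_le_mul_of_nonneg_left (hfn _ _) hCg0)
        _ = (Cc + Cg) * ‖f‖ := by ring
    set z : Finset V → Ω → S := fun σ ω => H (fun τ => f τ ω) σ with hz
    have hfω : ∀ ω, ‖(fun τ => f τ ω : Finset V → S)‖ ≤ ‖f‖ := fun ω =>
      (pi_norm_le_iff_of_nonneg (norm_nonneg _)).mpr fun τ => hfn τ ω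
    have hzn : ‖z‖ ≤ CH * ‖f‖ := by
      rw [pi_norm_le_iff_of_nonneg (by positivity)]
      intro σ
      rw [pi_norm_le_iff_of_nonneg (by positivity)]
      intro ω
      calc ‖z σ ω‖ ≤ ‖H (fun τ => f τ ω)‖ := norm_le_pi_norm _ σ
        _ ≤ CH * ‖(fun τ => f τ ω : Finset V → S)‖ := hCH _
        _ ≤ CH * ‖f‖ := mul_le_mul_of_nonneg_left (hfω ω) hCH0
    obtain ⟨z', hz', hzz⟩ := hC Ω s hs t⁻¹ (inv_pos.mpr ht0) hδ1 z (fun ω => hH _)
    rw [inv_inv] at hz'
    refine ⟨z', hz', ?_⟩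
    have hfz : ‖f - bd ν z‖ ≤ CΦ * (t⁻¹ * ((Cc + Cg) * ‖f‖)) := by
      rw [pi_norm_le_iff_of_nonneg (by positivity)]
      intro σ
      rw [pi_norm_le_iff_of_nonneg (by positivity)]
      intro ω
      have h1 := hHΦ (fun τ => f τ ω) (fun τ hτ => hf.supp τ ω hτ)
      have h2 : bd ν (fun τ => f τ ω) = 0 := by
        funext ρ
        rw [← bd_eval, hbd]
        rfl
      rw [h2] at h1
      have h3 : (f - bd ν z) σ ω = Φ (fun τ v => if v ∈ τ then e v (f τ ω) else 0, 0) σ := by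
        have h4 := congrFun h1 σ
        simp only [Pi.add_apply] at h4
        show f σ ω - bd ν z σ ω = _
        rw [bd_eval, h4]
        simp only [hz]
        abel
      rw [h3]
      calc ‖Φ (fun τ v => if v ∈ τ then e v (f τ ω) else 0, 0) σ‖
          ≤ ‖Φ (fun τ v => if v ∈ τ then e v (f τ ω) else 0, 0)‖ := norm_le_pi_norm _ σ
        _ ≤ CΦ * ‖((fun τ v => if v ∈ τ then e v (f τ ω) else 0, 0) :
            (Finset V → V → S) × (Finset V → S))‖ := hCΦ _
        _ ≤ CΦ * (t⁻¹ * ((Cc + Cg) * ‖f‖)) := by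
            apply mul_le_mul_of_nonneg_left _ hCΦ0
            rw [Prod.norm_def]
            apply max_le
            · rw [pi_norm_le_iff_of_nonneg (by positivity)]
              intro τ
              rw [pi_norm_le_iff_of_nonneg (by positivity)]
              intro v
              by_cases hv : v ∈ τ
              · simp only [hv, if_true]
                exact hev τ ω v hv
              · simp only [hv, if_false, norm_zero]
                positivity
            · rw [norm_zero]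
              positivity
    have hbw : ∀ w : Finset V → Ω → S, ‖bd ν w‖ ≤ Cb * ‖w‖ := by
      intro w
      rw [pi_norm_le_iff_of_nonneg (by positivity)]
      intro σ
      rw [pi_norm_le_iff_of_nonneg (by positivity)]
      intro ω
      rw [bd_eval]
      calc ‖bd ν (fun τ => w τ ω) σ‖ ≤ ‖bd ν (fun τ => w τ ω)‖ := norm_le_pi_norm _ σ
        _ ≤ Cb * ‖(fun τ => w τ ω : Finset V → S)‖ := hCb _
        _ ≤ Cb * ‖w‖ := by
            apply mul_le_mul_of_nonneg_left _ hCb0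
            rw [pi_norm_le_iff_of_nonneg (norm_nonneg _)]
            intro τ
            exact (norm_le_pi_norm (w τ) ω).trans (norm_le_pi_norm w τ)
    have e1 : f - bd ν z' = (f - bd ν z) - bd ν (z' - z) := by
      rw [map_sub]; abel
    rw [e1]
    calc ‖(f - bd ν z) - bd ν (z' - z)‖ ≤ ‖f - bd ν z‖ + ‖bd ν (z' - z)‖ := norm_sub_le _ _
      _ ≤ CΦ * (t⁻¹ * ((Cc + Cg) * ‖f‖)) + Cb * (C * t⁻¹ * (CH * ‖f‖)) := by
          apply add_le_add hfz
          refine (hbw _).trans (mul_le_mul_of_nonneg_left ?_ hCb0)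
          exact hzz.trans (mul_le_mul_of_nonneg_left hzn (by positivity))
      _ = (t⁻¹ * K) * ‖f‖ := by rw [hK]; ring
      _ ≤ 1 / 2 * ‖f‖ := mul_le_mul_of_nonneg_right hδK (norm_nonneg _)
      _ = ‖f‖ / 2 := by ring
  -- the subspaces
  set Z : Submodule ℝ (Finset V → Ω → S) :=
    twSub G (At e g c t) s i ⊓ LinearMap.ker (bd ν) with hZ
  set B : Submodule ℝ (Finset V → Ω → S) :=
    (twSub G (At e g c t) s (i + 1)).map (bd ν) with hB
  have hBZ : B ≤ Z := by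
    rintro _ ⟨y, hy, rfl⟩
    exact ⟨isTw_bd ν hy, LinearMap.mem_ker.mpr (bd_bd ν hν y)⟩
  have hZB : Z ≤ B := by
    apply le_of_half Z B hBZ
    rintro f ⟨hf1, hf2⟩
    obtain ⟨z', hz', hn⟩ := key f hf1 hf2
    exact ⟨bd ν z', ⟨z', hz', rfl⟩, hn⟩
  obtain ⟨y, hy, hyf⟩ := hZB (show f ∈ Z from ⟨hf, hbd⟩)
  exact ⟨y, hy, hyf⟩

end Pool.Agent.H85.Fold
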