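import Pool.Agent.H85.Fold.Defs

/-!
# Project FOLD: signs and the relations between the boundary operators
-/

set_option autoImplicit false

open Finset

namespace Pool.Agent.H85.Fold

variable {V : Type} [DecidableEq V] [Fintype V]

private theorem sgn_ins (ν : V → ℕ) (u v : V) (σ : Finset V) (hu : u ∉ σ) :
    sgn ν v (insert u σ) = (if ν u < ν v then -1 else 1) * sgn ν v σ := by
  unfold sgn
  rw [Finset.filter_insert]
  by_cases h : ν u < ν v
  · rw [if_pos h, if_pos h, Finset.card_insert_of_notMem, pow_succ]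
    · ring
    · intro hmem
      exact hu (Finset.mem_filter.mp hmem).1
  · rw [if_neg h, if_neg h, one_mul]

private theorem dlt_sq (a b : ℕ) :
    ((if a < b then -1 else 1 : ℝ)) * (if a < b then -1 else 1) = 1 := by
  by_cases h : a < b <;> simp [h]

private theorem dlt_anti (a b : ℕ) (h : a ≠ b) :
    ((if a < b then -1 else 1 : ℝ)) = -(if b < a then -1 else 1) := by
  rcases lt_or_gt_of_ne h with h1 | h1
  · rw [if_pos h1, if_neg (not_lt.mpr h1.le)]
  · rw [if_neg (not_lt.mpr (le_of_lt h1)), if_pos h1]; norm_num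

private theorem sgn_er (ν : V → ℕ) (u v : V) (σ : Finset V) (hu : u ∈ σ) :
    sgn ν v (σ.erase u) = (if ν u < ν v then -1 else 1) * sgn ν v σ := by
  have h := sgn_ins ν u v (σ.erase u) (Finset.notMem_erase u σ)
  rw [Finset.insert_erase hu] at h
  rw [h, ← mul_assoc, dlt_sq, one_mul]

theorem sgn_sq (ν : V → ℕ) (v : V) (σ : Finset V) : sgn ν v σ * sgn ν v σ = 1 := by
  unfold sgn
  rw [← mul_pow]
  norm_num

theorem sgn_cases (ν : V → ℕ) (v : V) (σ : Finset V) : sgn ν v σ = 1 ∨ sgn ν v σ = -1 := by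
  unfold sgn
  exact neg_one_pow_eq_or ℝ _

theorem sgn_empty (ν : V → ℕ) (v : V) : sgn ν v ∅ = 1 := by
  simp [sgn]

theorem sgn_insert_self (ν : V → ℕ) (v : V) (σ : Finset V) :
    sgn ν v (insert v σ) = sgn ν v σ := by
  unfold sgn
  rw [Finset.filter_insert, if_neg (lt_irrefl _)]

theorem sgn_erase_self (ν : V → ℕ) (v : V) (σ : Finset V) : sgn ν v (σ.erase v) = sgn ν v σ := by
  unfold sgn
  congr 2
  ext u
  rw [Finset.mem_filter, Finset.mem_filter, Finset.mem_erase]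
  constructor
  · rintro ⟨⟨_, h1⟩, h2⟩
    exact ⟨h1, h2⟩
  · rintro ⟨h1, h2⟩
    refine ⟨⟨?_, h1⟩, h2⟩
    rintro rfl
    exact lt_irrefl _ h2

/-- moving a vertex past another one -/
theorem sgn_swap (ν : V → ℕ) (hν : Function.Injective ν) (u v : V) (huv : u ≠ v) (σ : Finset V)
    (hu : u ∉ σ) (hv : v ∉ σ) :
    sgn ν v (insert u σ) * sgn ν u σ = -(sgn ν u (insert v σ) * sgn ν v σ) := by
  rw [sgn_ins ν u v σ hu, sgn_ins ν v u σ hv, dlt_anti (ν u) (ν v) (fun h => huv (hν h))]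
  ring

/-- the form of `sgn_swap` for erased vertices -/
theorem sgn_swap_erase (ν : V → ℕ) (hν : Function.Injective ν) (u v : V) (huv : u ≠ v)
    (σ : Finset V) (hu : u ∈ σ) (hv : v ∈ σ) :
    sgn ν v (σ.erase u) * sgn ν u σ = -(sgn ν u (σ.erase v) * sgn ν v σ) := by
  rw [sgn_er ν u v σ hu, sgn_er ν v u σ hv, dlt_anti (ν u) (ν v) (fun h => huv (hν h))]
  ring

/-- the mixed form -/
theorem sgn_swap_mix (ν : V → ℕ) (hν : Function.Injective ν) (u v : V) (huv : u ≠ v)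
    (σ : Finset V) (hu : u ∈ σ) (hv : v ∉ σ) :
    sgn ν v σ * sgn ν u (insert v σ) = -(sgn ν u σ * sgn ν v (σ.erase u)) := by
  rw [sgn_er ν u v σ hu, sgn_ins ν v u σ hv, dlt_anti (ν u) (ν v) (fun h => huv (hν h))]
  ring

/-- the product form of `sgn_swap` -/
theorem sgn_swap_mul (ν : V → ℕ) (hν : Function.Injective ν) (u v : V) (huv : u ≠ v)
    (σ : Finset V) (hu : u ∉ σ) (hv : v ∉ σ) :
    sgn ν v (insert u σ) * sgn ν u (insert v σ) = -(sgn ν u σ * sgn ν v σ) := by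
  rw [sgn_ins ν u v σ hu, sgn_ins ν v u σ hv, dlt_anti (ν u) (ν v) (fun h => huv (hν h))]
  have h := dlt_sq (ν v) (ν u)
  linear_combination (-(sgn ν u σ * sgn ν v σ)) * h

variable {S : Type} [AddCommGroup S] [Module ℝ S]

private theorem sum_erase_ite (s : Finset V) (v : V) (f : V → S) :
    ∑ u ∈ s.erase v, f u = ∑ u ∈ s, if u ≠ v then f u else 0 := by
  rw [← Finset.filter_ne', Finset.sum_filter]

private theorem anti_sum (s : Finset V) (F : V → V → S)
    (h : ∀ u ∈ s, ∀ v ∈ s, F u v = - F v u) : ∑ u ∈ s, ∑ v ∈ s, F u v = 0 := by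
  have h1 : ∑ u ∈ s, ∑ v ∈ s, F u v = - ∑ u ∈ s, ∑ v ∈ s, F u v := by
    calc ∑ u ∈ s, ∑ v ∈ s, F u v = ∑ u ∈ s, ∑ v ∈ s, - F v u :=
          Finset.sum_congr rfl fun u hu => Finset.sum_congr rfl fun v hv => h u hu v hv
      _ = - ∑ u ∈ s, ∑ v ∈ s, F v u := by
          simp only [Finset.sum_neg_distrib]
      _ = - ∑ u ∈ s, ∑ v ∈ s, F u v := by rw [Finset.sum_comm]
  have h2 : (2 : ℝ) • ∑ u ∈ s, ∑ v ∈ s, F u v = 0 := by
    rw [two_smul]
    exact add_eq_zero_iff_eq_neg.mpr h1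
  exact (smul_eq_zero.mp h2).resolve_left (by norm_num)

theorem bd_bd (ν : V → ℕ) (hν : Function.Injective ν) (c : Finset V → S) :
    bd ν (bd ν c) = 0 := by
  funext ρ
  show ∑ v ∈ ρᶜ, sgn ν v ρ • ∑ u ∈ (insert v ρ)ᶜ,
    sgn ν u (insert v ρ) • c (insert u (insert v ρ)) = 0
  have e : ∀ v ∈ ρᶜ, sgn ν v ρ • ∑ u ∈ (insert v ρ)ᶜ,
      sgn ν u (insert v ρ) • c (insert u (insert v ρ)) =
      ∑ u ∈ ρᶜ, if u ≠ v then
        (sgn ν v ρ * sgn ν u (insert v ρ)) • c (insert u (insert v ρ)) else 0 := by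
    intro v _
    rw [Finset.compl_insert, sum_erase_ite, Finset.smul_sum]
    apply Finset.sum_congr rfl
    intro u _
    rw [smul_ite, smul_zero, smul_smul]
  rw [Finset.sum_congr rfl e]
  apply anti_sum
  intro u hu v hv
  by_cases huv : v = u
  · simp [huv]
  · have huv' : u ≠ v := fun h => huv h.symm
    rw [if_pos huv, if_pos huv', ← neg_smul, Finset.insert_comm]
    congr 1
    have := sgn_swap ν hν u v huv' ρ (by simpa using hu) (by simpa using hv)
    linarith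

theorem d1_d1 (ν : V → ℕ) (hν : Function.Injective ν) (x : Finset V → Finset V → S) :
    d1 ν (d1 ν x) = 0 := by
  funext ρ σ
  show ∑ v ∈ σ \ ρ, sgn ν v ρ • ∑ u ∈ σ \ insert v ρ,
    sgn ν u (insert v ρ) • x (insert u (insert v ρ)) σ = 0
  have e : ∀ v ∈ σ \ ρ, sgn ν v ρ • ∑ u ∈ σ \ insert v ρ,
      sgn ν u (insert v ρ) • x (insert u (insert v ρ)) σ =
      ∑ u ∈ σ \ ρ, if u ≠ v then
        (sgn ν v ρ * sgn ν u (insert v ρ)) • x (insert u (insert v ρ)) σ else 0 := by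
    intro v _
    rw [Finset.sdiff_insert, sum_erase_ite, Finset.smul_sum]
    apply Finset.sum_congr rfl
    intro u _
    rw [smul_ite, smul_zero, smul_smul]
  rw [Finset.sum_congr rfl e]
  apply anti_sum
  intro u hu v hv
  rw [Finset.mem_sdiff] at hu hv
  by_cases huv : v = u
  · simp [huv]
  · have huv' : u ≠ v := fun h => huv h.symm
    rw [if_pos huv, if_pos huv', ← neg_smul, Finset.insert_comm]
    congr 1
    have := sgn_swap ν hν u v huv' ρ hu.2 hv.2
    linarith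

theorem d2_d2 (ν : V → ℕ) (hν : Function.Injective ν) (G : SimpleGraph V) (U : Finset V)
    (x : Finset V → Finset V → S) : d2 ν G U (d2 ν G U x) = 0 := by
  classical
  funext ρ σ
  show (if σ ⊆ U ∧ Cl G σ then ∑ v ∈ σ \ ρ, sgn ν v σ •
    (if σ.erase v ⊆ U ∧ Cl G (σ.erase v) then
      ∑ u ∈ σ.erase v \ ρ, sgn ν u (σ.erase v) • x ρ ((σ.erase v).erase u) else 0) else 0) = 0
  by_cases hσ : σ ⊆ U ∧ Cl G σ
  · rw [if_pos hσ]
    have e : ∀ v ∈ σ \ ρ, sgn ν v σ •
        (if σ.erase v ⊆ U ∧ Cl G (σ.erase v) then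
          ∑ u ∈ σ.erase v \ ρ, sgn ν u (σ.erase v) • x ρ ((σ.erase v).erase u) else 0) =
        ∑ u ∈ σ \ ρ, if u ≠ v then
          (sgn ν v σ * sgn ν u (σ.erase v)) • x ρ ((σ.erase v).erase u) else 0 := by
      intro v _
      have h2 : σ.erase v ⊆ U ∧ Cl G (σ.erase v) :=
        ⟨(Finset.erase_subset v σ).trans hσ.1, fun a ha b hb hab =>
          hσ.2 a (Finset.mem_of_mem_erase ha) b (Finset.mem_of_mem_erase hb) hab⟩
      rw [if_pos h2, Finset.erase_sdiff_comm, sum_erase_ite, Finset.smul_sum]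
      apply Finset.sum_congr rfl
      intro u _
      rw [smul_ite, smul_zero, smul_smul]
    rw [Finset.sum_congr rfl e]
    apply anti_sum
    intro u hu v hv
    rw [Finset.mem_sdiff] at hu hv
    by_cases huv : v = u
    · simp [huv]
    · have huv' : u ≠ v := fun h => huv h.symm
      rw [if_pos huv, if_pos huv', ← neg_smul, Finset.erase_right_comm]
      congr 1
      have := sgn_swap_erase ν hν u v huv' σ hu.1 hv.1
      linarith
  · rw [if_neg hσ]

theorem d1_d2 (ν : V → ℕ) (G : SimpleGraph V) (U : Finset V) (x : Finset V → Finset V → S) :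
    d1 ν (d2 ν G U x) = d2 ν G U (d1 ν x) := by
  classical
  funext ρ σ
  show (∑ v ∈ σ \ ρ, sgn ν v ρ • (if σ ⊆ U ∧ Cl G σ then
      ∑ u ∈ σ \ insert v ρ, sgn ν u σ • x (insert v ρ) (σ.erase u) else 0)) =
    (if σ ⊆ U ∧ Cl G σ then ∑ u ∈ σ \ ρ, sgn ν u σ •
      ∑ v ∈ σ.erase u \ ρ, sgn ν v ρ • x (insert v ρ) (σ.erase u) else 0)
  by_cases hσ : σ ⊆ U ∧ Cl G σ
  · simp only [if_pos hσ]
    have e1 : ∀ v ∈ σ \ ρ, sgn ν v ρ •
        ∑ u ∈ σ \ insert v ρ, sgn ν u σ • x (insert v ρ) (σ.erase u) =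
        ∑ u ∈ σ \ ρ, if u ≠ v then
          (sgn ν v ρ * sgn ν u σ) • x (insert v ρ) (σ.erase u) else 0 := by
      intro v _
      rw [Finset.sdiff_insert, sum_erase_ite, Finset.smul_sum]
      apply Finset.sum_congr rfl
      intro u _
      rw [smul_ite, smul_zero, smul_smul]
    have e2 : ∀ u ∈ σ \ ρ, sgn ν u σ •
        ∑ v ∈ σ.erase u \ ρ, sgn ν v ρ • x (insert v ρ) (σ.erase u) =
        ∑ v ∈ σ \ ρ, if u ≠ v then
          (sgn ν v ρ * sgn ν u σ) • x (insert v ρ) (σ.erase u) else 0 := by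
      intro u _
      rw [Finset.erase_sdiff_comm, sum_erase_ite, Finset.smul_sum]
      apply Finset.sum_congr rfl
      intro v _
      rw [smul_ite, smul_zero, smul_smul, mul_comm (sgn ν u σ)]
      by_cases h : u = v
      · subst h; simp
      · rw [if_pos h, if_pos (fun h' => h h'.symm)]
    rw [Finset.sum_congr rfl e1, Finset.sum_congr rfl e2, Finset.sum_comm]
  · simp only [if_neg hσ, smul_zero, Finset.sum_const_zero]

/-- the operators commute with linear maps of the coefficients -/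
theorem bd_map (ν : V → ℕ) (f : S →ₗ[ℝ] S) (c : Finset V → S) (ρ : Finset V) :
    bd ν (fun σ => f (c σ)) ρ = f (bd ν c ρ) := by
  show ∑ v ∈ ρᶜ, sgn ν v ρ • f (c (insert v ρ)) = f (∑ v ∈ ρᶜ, sgn ν v ρ • c (insert v ρ))
  rw [map_sum]
  exact Finset.sum_congr rfl fun v _ => (map_smul f _ _).symm

theorem d1_map (ν : V → ℕ) (f : S →ₗ[ℝ] S) (x : Finset V → Finset V → S) (ρ σ : Finset V) :
    d1 ν (fun ρ σ => f (x ρ σ)) ρ σ = f (d1 ν x ρ σ) := by
  show ∑ v ∈ σ \ ρ, sgn ν v ρ • f (x (insert v ρ) σ) =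
    f (∑ v ∈ σ \ ρ, sgn ν v ρ • x (insert v ρ) σ)
  rw [map_sum]
  exact Finset.sum_congr rfl fun v _ => (map_smul f _ _).symm

theorem d2_map (ν : V → ℕ) (G : SimpleGraph V) (U : Finset V) (f : S →ₗ[ℝ] S)
    (x : Finset V → Finset V → S) (ρ σ : Finset V) :
    d2 ν G U (fun ρ σ => f (x ρ σ)) ρ σ = f (d2 ν G U x ρ σ) := by
  classical
  show (if σ ⊆ U ∧ Cl G σ then ∑ v ∈ σ \ ρ, sgn ν v σ • f (x ρ (σ.erase v)) else 0) =
    f (if σ ⊆ U ∧ Cl G σ then ∑ v ∈ σ \ ρ, sgn ν v σ • x ρ (σ.erase v) else 0)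
  by_cases hσ : σ ⊆ U ∧ Cl G σ
  · rw [if_pos hσ, if_pos hσ, map_sum]
    exact Finset.sum_congr rfl fun v _ => (map_smul f _ _).symm
  · rw [if_neg hσ, if_neg hσ, map_zero]

theorem aug_map (G : SimpleGraph V) (n : ℕ) (U : Finset V) (o : Finset V → ℝ) (f : S →ₗ[ℝ] S)
    (x : Finset V → Finset V → S) (ρ : Finset V) :
    aug G n U o (fun ρ σ => f (x ρ σ)) ρ = f (aug G n U o x ρ) := by
  show ∑ σ ∈ fac G n U, o σ • f (x ρ σ) = f (∑ σ ∈ fac G n U, o σ • x ρ σ)
  rw [map_sum]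
  exact Finset.sum_congr rfl fun v _ => (map_smul f _ _).symm

/-- the coboundary does not raise the augmentation -/
theorem aug_d1 (ν : V → ℕ) (G : SimpleGraph V) (n : ℕ) (U : Finset V) (o : Finset V → ℝ)
    (x : Finset V → Finset V → S) (hx : ∀ ρ σ, x ρ σ ≠ 0 → ρ ⊆ σ) :
    aug G n U o (d1 ν x) = bd ν (aug G n U o x) := by
  funext ρ
  show ∑ σ ∈ fac G n U, o σ • ∑ v ∈ σ \ ρ, sgn ν v ρ • x (insert v ρ) σ =
    ∑ v ∈ ρᶜ, sgn ν v ρ • ∑ σ ∈ fac G n U, o σ • x (insert v ρ) σ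
  have e1 : ∀ σ ∈ fac G n U, o σ • ∑ v ∈ σ \ ρ, sgn ν v ρ • x (insert v ρ) σ =
      ∑ v ∈ ρᶜ, (sgn ν v ρ * o σ) • x (insert v ρ) σ := by
    intro σ _
    rw [Finset.smul_sum]
    have hsub : σ \ ρ ⊆ ρᶜ := by
      intro v hv
      rw [Finset.mem_compl]
      exact (Finset.mem_sdiff.mp hv).2
    rw [← Finset.sum_subset hsub]
    · apply Finset.sum_congr rfl
      intro v _
      rw [smul_smul, mul_comm]
    · intro v hv hv2
      have : x (insert v ρ) σ = 0 := by
        by_contra hne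
        have h1 := hx _ _ hne (Finset.mem_insert_self v ρ)
        exact hv2 (Finset.mem_sdiff.mpr ⟨h1, Finset.mem_compl.mp hv⟩)
      rw [this, smul_zero]
  rw [Finset.sum_congr rfl e1, Finset.sum_comm]
  apply Finset.sum_congr rfl
  intro v _
  rw [Finset.smul_sum]
  apply Finset.sum_congr rfl
  intro σ _
  rw [smul_smul]

theorem aug_d2 (ν : V → ℕ) (G : SimpleGraph V) (n : ℕ) (U : Finset V) (o : Finset V → ℝ)
    (hK : IsSphere ν G n U o) (x : Finset V → Finset V → S)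
    (hx : ∀ ρ σ, x ρ σ ≠ 0 → ρ ⊆ σ ∧ σ ⊆ U ∧ Cl G σ) :
    aug G n U o (d2 ν G U x) = 0 := by
  classical
  funext ρ
  show ∑ σ ∈ fac G n U, o σ • (if σ ⊆ U ∧ Cl G σ then
    ∑ v ∈ σ \ ρ, sgn ν v σ • x ρ (σ.erase v) else 0) = 0
  have hfac : ∀ σ, σ ∈ fac G n U ↔ σ ⊆ U ∧ Cl G σ ∧ σ.card = n := by
    intro σ
    unfold fac
    rw [Finset.mem_filter, Finset.mem_powerset]
  have e1 : ∀ σ ∈ fac G n U, o σ • (if σ ⊆ U ∧ Cl G σ then
      ∑ v ∈ σ \ ρ, sgn ν v σ • x ρ (σ.erase v) else 0) =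
      ∑ v : V, if v ∈ σ ∧ v ∉ ρ then (o σ * sgn ν v σ) • x ρ (σ.erase v) else 0 := by
    intro σ hσ
    rw [hfac] at hσ
    rw [if_pos ⟨hσ.1, hσ.2.1⟩, Finset.smul_sum, ← Finset.sum_filter]
    have : (Finset.univ : Finset V).filter (fun v => v ∈ σ ∧ v ∉ ρ) = σ \ ρ := by
      ext v
      simp
    rw [this]
    apply Finset.sum_congr rfl
    intro v _
    rw [smul_smul]
  rw [Finset.sum_congr rfl e1, Finset.sum_comm]
  have e2 : ∀ v : V, ∑ σ ∈ fac G n U,
      (if v ∈ σ ∧ v ∉ ρ then (o σ * sgn ν v σ) • x ρ (σ.erase v) else 0) =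
      ∑ κ : Finset V, if v ∉ κ ∧ insert v κ ∈ fac G n U then
        (sgn ν v κ * o (insert v κ)) • x ρ κ else 0 := by
    intro v
    by_cases hvρ : v ∈ ρ
    · have h1 : ∀ σ ∈ fac G n U,
          (if v ∈ σ ∧ v ∉ ρ then (o σ * sgn ν v σ) • x ρ (σ.erase v) else 0) = 0 := by
        intro σ _
        rw [if_neg (fun h => h.2 hvρ)]
      rw [Finset.sum_eq_zero h1]
      symm
      apply Finset.sum_eq_zero
      intro κ _
      by_cases h : v ∉ κ ∧ insert v κ ∈ fac G n U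
      · rw [if_pos h]
        have : x ρ κ = 0 := by
          by_contra hne
          exact h.1 ((hx _ _ hne).1 hvρ)
        rw [this, smul_zero]
      · rw [if_neg h]
    · rw [← Finset.sum_filter, ← Finset.sum_filter]
      apply Finset.sum_nbij' (fun σ => σ.erase v) (fun κ => insert v κ)
      · intro σ hσ
        rw [Finset.mem_filter] at hσ ⊢
        refine ⟨Finset.mem_univ _, Finset.notMem_erase v σ, ?_⟩
        rw [Finset.insert_erase hσ.2.1]
        exact hσ.1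
      · intro κ hκ
        rw [Finset.mem_filter] at hκ ⊢
        exact ⟨hκ.2.2, Finset.mem_insert_self v κ, hvρ⟩
      · intro σ hσ
        exact Finset.insert_erase (Finset.mem_filter.mp hσ).2.1
      · intro κ hκ
        exact Finset.erase_insert (Finset.mem_filter.mp hκ).2.1
      · intro σ hσ
        rw [Finset.insert_erase (Finset.mem_filter.mp hσ).2.1, sgn_erase_self, mul_comm]
  rw [Finset.sum_congr rfl (fun v _ => e2 v), Finset.sum_comm]
  apply Finset.sum_eq_zero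
  intro κ _
  by_cases hne : x ρ κ = 0
  · apply Finset.sum_eq_zero
    intro v _
    rw [hne, smul_zero, ite_self]
  · obtain ⟨_, hκU, hκC⟩ := hx _ _ hne
    have e3 : ∑ v : V, (if v ∉ κ ∧ insert v κ ∈ fac G n U then
        (sgn ν v κ * o (insert v κ)) • x ρ κ else 0) =
        (∑ v ∈ U, if v ∉ κ ∧ insert v κ ∈ fac G n U then
          sgn ν v κ * o (insert v κ) else 0) • x ρ κ := by
      rw [Finset.sum_smul]
      rw [← Finset.sum_subset (Finset.subset_univ U)]
      · apply Finset.sum_congr rfl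
        intro v _
        rw [ite_smul, zero_smul]
      · intro v _ hv
        rw [if_neg]
        rintro ⟨_, h2⟩
        rw [hfac] at h2
        exact hv (h2.1 (Finset.mem_insert_self v κ))
    rw [e3]
    by_cases hc : κ.card + 1 = n
    · have := hK.cyc κ hκU hκC hc
      have e4 : (∑ v ∈ U, if v ∉ κ ∧ insert v κ ∈ fac G n U then
          sgn ν v κ * o (insert v κ) else 0) = 0 := by
        convert this
      rw [e4, zero_smul]
    · have e4 : (∑ v ∈ U, if v ∉ κ ∧ insert v κ ∈ fac G n U then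
          sgn ν v κ * o (insert v κ) else 0) = 0 := by
        apply Finset.sum_eq_zero
        intro v _
        rw [if_neg]
        rintro ⟨h1, h2⟩
        rw [hfac, Finset.card_insert_of_notMem h1] at h2
        exact hc h2.2.2
      rw [e4, zero_smul]

end Pool.Agent.H85.Fold
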