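import Pool.Agent.H85.Fold.Res

/-!
# Project FOLD: the pairing
-/

set_option autoImplicit false

open Finset

namespace Pool.Agent.H85.Fold

variable {V : Type} [DecidableEq V] [Fintype V] {S : Type} [AddCommGroup S] [Module ℝ S]
  {β β' : S →ₗ[ℝ] S →ₗ[ℝ] ℝ} {x x' : Finset V → Finset V → S} {c c' : Finset V → S}

theorem pr_add_left : pr β (x + x') c = pr β x c + pr β x' c := by
  simp [pr, sum_add_distrib]

theorem pr_sub_left : pr β (x - x') c = pr β x c - pr β x' c := by
  simp [pr, sum_sub_distrib]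

theorem pr_neg_left : pr β (-x) c = -pr β x c := by
  simp [pr, sum_neg_distrib]

theorem pr_smul_left (r : ℝ) : pr β (r • x) c = r * pr β x c := by
  simp [pr, mul_sum]

theorem pr_add_right : pr β x (c + c') = pr β x c + pr β x c' := by
  simp [pr, sum_add_distrib]

theorem pr_sub_right : pr β x (c - c') = pr β x c - pr β x c' := by
  simp [pr, sum_sub_distrib]

theorem pr_neg_right : pr β x (-c) = -pr β x c := by
  simp [pr, sum_neg_distrib]

theorem pr_smul_right (r : ℝ) : pr β x (r • c) = r * pr β x c := by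
  simp [pr, mul_sum]

variable {ν : V → ℕ} {G : SimpleGraph V} {e : V → S →ₗ[ℝ] S} {ep : Finset V → S →ₗ[ℝ] S}
  {b : V → V → ℝ} {n : ℕ} {U : Finset V} {M : Submodule ℝ S} {ε κ : ℝ} {o : Finset V → ℝ}

/-- the adjunction between the boundary and the coboundary -/
theorem pr_bd_right {i : ℕ} (hx : IsD G e n M U i x) (hc : ∀ σ, c σ ≠ 0 → σ ⊆ U ∧ Cl G σ) :
    pr β x (bd ν c) = pr β (d2 ν G U x) c := by
  classical
  have h1 : pr β x (bd ν c) = ∑ ρ : Finset V, ∑ v ∈ ρᶜ,
      sgn ν v ρ * β (x ∅ ρ) (c (insert v ρ)) := by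
    refine sum_congr rfl fun ρ _ => ?_
    change β (x ∅ ρ) (∑ v ∈ ρᶜ, sgn ν v ρ • c (insert v ρ)) = _
    rw [map_sum]
    refine sum_congr rfl fun v _ => ?_
    rw [map_smul, smul_eq_mul]
  have h2 : pr β (d2 ν G U x) c = ∑ σ : Finset V, ∑ v ∈ σ,
      sgn ν v σ * β (x ∅ (σ.erase v)) (c σ) := by
    refine sum_congr rfl fun σ _ => ?_
    by_cases h0 : c σ = 0
    · rw [h0, map_zero]
      symm
      refine sum_eq_zero fun v _ => ?_
      rw [map_zero, mul_zero]
    · have h3 : d2 ν G U x ∅ σ = ∑ v ∈ σ \ ∅, sgn ν v σ • x ∅ (σ.erase v) := if_pos (hc σ h0)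
      rw [h3, sdiff_empty, map_sum, LinearMap.sum_apply]
      refine sum_congr rfl fun v _ => ?_
      rw [map_smul, LinearMap.smul_apply, smul_eq_mul]
  rw [h1, h2, sum_sigma', sum_sigma']
  refine sum_bij' (fun z _ => ⟨insert z.2 z.1, z.2⟩) (fun z _ => ⟨z.1.erase z.2, z.2⟩)
    ?_ ?_ ?_ ?_ ?_
  · rintro ⟨ρ, v⟩ h
    simp only [mem_sigma, mem_univ, true_and, mem_insert_self]
  · rintro ⟨σ, v⟩ h
    simp only [mem_sigma, mem_univ, true_and, mem_compl, mem_erase, ne_eq, not_true_eq_false,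
      false_and, not_false_eq_true]
  · rintro ⟨ρ, v⟩ h
    simp only [mem_sigma, mem_univ, true_and, mem_compl] at h
    simp only [erase_insert h]
  · rintro ⟨σ, v⟩ h
    simp only [mem_sigma, mem_univ, true_and] at h
    simp only [insert_erase h]
  · rintro ⟨ρ, v⟩ h
    simp only [mem_sigma, mem_univ, true_and, mem_compl] at h
    simp only [erase_insert h, sgn_insert_self]

/-- `d1` of a double chain is orthogonal to chains with coefficients in the kernels -/
theorem pr_d1 (hs : Sys ν G e ep b n U M β ε κ o) {m i j : ℕ} (hx : IsD G e m M U i x)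
    (hc : IsF G e M U j c) : pr β (d1 ν x) c = 0 := by
  refine sum_eq_zero fun σ _ => ?_
  by_cases h0 : c σ = 0
  · rw [h0, map_zero]
  · have h3 : d1 ν x ∅ σ = ∑ v ∈ σ \ ∅, sgn ν v ∅ • x (insert v ∅) σ := rfl
    rw [h3, map_sum, LinearMap.sum_apply]
    refine sum_eq_zero fun v hv => ?_
    rw [sdiff_empty] at hv
    rw [map_smul, LinearMap.smul_apply,
      hs.orth ((hc.supp σ h0).1 hv) (hx.mem _ _) (hc.mem σ)
        (hx.ker _ _ v (mem_insert_self v ∅)) (hc.ker σ v hv), smul_zero]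

/-- closed double chains are orthogonal to boundaries -/
theorem pr_bd (hs : Sys ν G e ep b n U M β ε κ o) {m i j : ℕ} (hx : IsD G e m M U i x)
    (hcl : d1 ν x = d2 ν G U x) (hc : IsF G e M U (j + 1) c) : pr β x (bd ν c) = 0 := by
  rw [pr_bd_right hx fun σ h => ⟨(hc.supp σ h).1, (hc.supp σ h).2.1⟩, ← hcl]
  exact pr_d1 hs hx hc

/-- the double chains `d1 y + d2 y` are orthogonal to cycles -/
theorem pr_d (hs : Sys ν G e ep b n U M β ε κ o) {m i j : ℕ} (hx : IsD G e m M U (i + 1) x)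
    (hc : IsF G e M U j c) (hbd : bd ν c = 0) : pr β (d1 ν x + d2 ν G U x) c = 0 := by
  rw [pr_add_left, pr_d1 hs hx hc,
    ← pr_bd_right hx fun σ h => ⟨(hc.supp σ h).1, (hc.supp σ h).2.1⟩, hbd, zero_add]
  exact sum_eq_zero fun σ _ => map_zero _

/-- the pairing vanishes on boundaries in the first variable -/
theorem pr_bd_left (hs : Sys ν G e ep b n U M β ε κ o) {i j : ℕ} {g : Finset V → S}
    (hx : IsRes ν G e n M U o i c x) (hg : IsF G e M U (i + 1) g) (hgc : bd ν g = c)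
    (hc' : IsF G e M U j c') (hbd : bd ν c' = 0) : pr β x c' = 0 := by
  obtain ⟨y, hy, rfl⟩ := hx.of_bd hs.inj hs.sphere hg hgc
  exact pr_d hs hy hc' hbd

/-- the pairing does not depend on the resolution -/
theorem pr_congr (hs : Sys ν G e ep b n U M β ε κ o) {i j : ℕ}
    (hx : IsRes ν G e n M U o i c x) (hx' : IsRes ν G e n M U o i c x')
    (hc' : IsF G e M U j c') (hbd : bd ν c' = 0) : pr β x c' = pr β x' c' := by
  have h := hx.sub hx'
  obtain ⟨y, hy, hxy⟩ := exists_prim hs.inj hs.sphere h.isD h.closed (by rw [h.aug_eq, sub_self])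
  have h2 := pr_d hs hy hc' hbd
  rw [← hxy, pr_sub_left] at h2
  exact sub_eq_zero.1 h2

end Pool.Agent.H85.Fold
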