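import Mathlib

/-!
# Project FOLD: Clifford matrices with integer entries
-/

set_option autoImplicit false

namespace Pool.Agent.H85.Fold

section cliff

variable {J : Type} [Fintype J] [DecidableEq J]

/-- flipping one coordinate -/
private def cliffFlip (i : J) (A : J → Bool) : J → Bool := Function.update A i (!A i)

/-- the sign of the coordinates before `j` -/
private def cliffP (mu : J → ℕ) (j : J) (A : J → Bool) : ℤ :=
  ∏ l, (if mu l < mu j ∧ A l = true then -1 else 1)

/-- the coefficients -/
private def cliffK (mu : J → ℕ) (s : J → Bool) (j : J) (A : J → Bool) : ℤ :=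
  cliffP mu j A * (if s j = true ∨ A j = true then 1 else -1)

private theorem cliffFlip_flip (i : J) (A : J → Bool) : cliffFlip i (cliffFlip i A) = A := by
  funext l
  unfold cliffFlip
  by_cases h : l = i
  · subst h
    simp
  · simp [Function.update_of_ne h]

private theorem cliffFlip_comm {i j : J} (h : i ≠ j) (A : J → Bool) :
    cliffFlip i (cliffFlip j A) = cliffFlip j (cliffFlip i A) := by
  funext l
  unfold cliffFlip
  by_cases h1 : l = i
  · subst h1
    simp [Function.update_of_ne h]
  · by_cases h2 : l = j
    · subst h2
      simp [Function.update_of_ne h1]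
    · simp [Function.update_of_ne h1, Function.update_of_ne h2]

private theorem cliffFlip_inj (i : J) (A B : J → Bool) :
    B = cliffFlip i A ↔ A = cliffFlip i B := by
  constructor
  · rintro rfl
    exact (cliffFlip_flip i A).symm
  · rintro rfl
    exact (cliffFlip_flip i B).symm

private theorem cliffP_sq (mu : J → ℕ) (j : J) (A : J → Bool) :
    cliffP mu j A * cliffP mu j A = 1 := by
  unfold cliffP
  rw [← Finset.prod_mul_distrib]
  refine Finset.prod_eq_one fun l _ => ?_
  split_ifs <;> norm_num

private theorem cliffP_flip (mu : J → ℕ) (j i : J) (A : J → Bool) :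
    cliffP mu j (cliffFlip i A) = (if mu i < mu j then -1 else 1) * cliffP mu j A := by
  unfold cliffP
  rw [← Finset.mul_prod_erase Finset.univ _ (Finset.mem_univ i),
    ← Finset.mul_prod_erase Finset.univ (fun l => if mu l < mu j ∧ A l = true then (-1 : ℤ) else 1)
      (Finset.mem_univ i), ← mul_assoc]
  congr 1
  · have h1 : cliffFlip i A i = !A i := by simp [cliffFlip]
    rw [h1]
    by_cases h : mu i < mu j
    · cases hA : A i <;> simp [h]
    · simp [h]
  · refine Finset.prod_congr rfl fun l hl => ?_
    have h1 : cliffFlip i A l = A l := by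
      unfold cliffFlip
      rw [Function.update_of_ne (Finset.ne_of_mem_erase hl)]
    rw [h1]

private theorem cliffK_self (mu : J → ℕ) (s : J → Bool) (j : J) (A : J → Bool) :
    cliffK mu s j (cliffFlip j A) = (if s j = true then 1 else -1) * cliffK mu s j A := by
  unfold cliffK
  rw [cliffP_flip, if_neg (lt_irrefl _), one_mul]
  have h1 : cliffFlip j A j = !A j := by simp [cliffFlip]
  rw [h1]
  cases hs : s j <;> cases hA : A j <;> simp

private theorem cliffK_sq (mu : J → ℕ) (s : J → Bool) (j : J) (A : J → Bool) :
    cliffK mu s j A * cliffK mu s j A = 1 := by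
  unfold cliffK
  have h := cliffP_sq mu j A
  split_ifs
  · simpa using h
  · simpa using h

private theorem cliffK_ne (mu : J → ℕ) (s : J → Bool) {i j : J} (hij : i ≠ j) (A : J → Bool) :
    cliffK mu s j (cliffFlip i A) = (if mu i < mu j then -1 else 1) * cliffK mu s j A := by
  unfold cliffK
  rw [cliffP_flip]
  have h1 : cliffFlip i A j = A j := by
    unfold cliffFlip
    rw [Function.update_of_ne hij.symm]
  rw [h1, mul_assoc]

/-- the matrices -/
private def cliffC (mu : J → ℕ) (s : J → Bool) (j : J) : Matrix (J → Bool) (J → Bool) ℤ :=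
  fun A B => if B = cliffFlip j A then cliffK mu s j A else 0

private theorem cliffC_mul (mu : J → ℕ) (s : J → Bool) (i j : J) (A C : J → Bool) :
    (cliffC mu s i * cliffC mu s j) A C =
      if C = cliffFlip j (cliffFlip i A) then
        cliffK mu s i A * cliffK mu s j (cliffFlip i A) else 0 := by
  rw [Matrix.mul_apply, Finset.sum_eq_single (cliffFlip i A)]
  · unfold cliffC
    rw [if_pos rfl]
    split_ifs <;> simp
  · intro B _ hB
    unfold cliffC
    rw [if_neg hB, zero_mul]
  · intro h
    exact absurd (Finset.mem_univ _) h

end cliff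

/-- integer matrices which generate a Clifford algebra -/
theorem exists_cliff (J : Type) [Fintype J] [DecidableEq J] (s : J → Bool) :
    ∃ (D : Type) (_ : Fintype D) (_ : DecidableEq D) (_ : Nonempty D) (c : J → Matrix D D ℤ),
      (∀ j, c j * c j = if s j = true then 1 else -1) ∧
      (∀ i j, i ≠ j → c i * c j = -(c j * c i)) ∧
      ∀ j, (c j).transpose = if s j = true then c j else -c j := by
  obtain ⟨mu, hmu⟩ : ∃ mu : J → ℕ, Function.Injective mu :=
    ⟨fun j => (Fintype.equivFin J j : ℕ), fun a b h =>
      (Fintype.equivFin J).injective (Fin.ext h)⟩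
  refine ⟨J → Bool, inferInstance, inferInstance, ⟨fun _ => false⟩, cliffC mu s, ?_, ?_, ?_⟩
  · intro j
    ext A C
    rw [cliffC_mul, cliffFlip_flip, cliffK_self]
    by_cases hC : C = A
    · subst hC
      rw [if_pos rfl]
      have h := cliffK_sq mu s j C
      split_ifs
      · rw [one_mul, h]
        simp
      · rw [Matrix.neg_apply, Matrix.one_apply_eq]
        linear_combination -h
    · rw [if_neg hC]
      split_ifs
      · rw [Matrix.one_apply_ne (Ne.symm hC)]
      · rw [Matrix.neg_apply, Matrix.one_apply_ne (Ne.symm hC), neg_zero]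
  · intro i j hij
    ext A C
    rw [Matrix.neg_apply, cliffC_mul, cliffC_mul, cliffFlip_comm hij.symm]
    by_cases hC : C = cliffFlip i (cliffFlip j A)
    · rw [if_pos hC, if_pos hC, cliffK_ne mu s hij, cliffK_ne mu s hij.symm]
      have hne : mu i ≠ mu j := fun h => hij (hmu h)
      rcases lt_or_gt_of_ne hne with h | h
      · rw [if_pos h, if_neg (not_lt.2 h.le)]
        ring
      · rw [if_neg (not_lt.2 h.le), if_pos h]
        ring
    · rw [if_neg hC, if_neg hC, neg_zero]
  · intro j
    ext A C
    rw [Matrix.transpose_apply]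
    have h1 : cliffC mu s j C A = (if s j = true then 1 else -1) * cliffC mu s j A C := by
      unfold cliffC
      by_cases h : A = cliffFlip j C
      · rw [if_pos h, if_pos ((cliffFlip_inj j C A).1 h)]
        rw [h, cliffK_self, ← mul_assoc]
        split_ifs <;> simp
      · rw [if_neg h, if_neg (fun h' => h ((cliffFlip_inj j C A).2 h')), mul_zero]
    rw [h1]
    split_ifs
    · rw [one_mul]
    · rw [Matrix.neg_apply, neg_one_mul]

end Pool.Agent.H85.Fold
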