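import Pool.Agent.H85.Fold.TwDefs

/-!
# Project FOLD: the involutions, and splittings with norm estimates
-/

set_option autoImplicit false

open Finset

namespace Pool.Agent.H85.Fold

variable {V : Type} [DecidableEq V] [Fintype V]

/-- a subspace which is close to a larger one is equal to it -/
theorem le_of_half {E : Type} [NormedAddCommGroup E] [NormedSpace ℝ E] [FiniteDimensional ℝ E]
    (Z B : Submodule ℝ E) (hBZ : B ≤ Z) (h : ∀ f ∈ Z, ∃ y ∈ B, ‖f - y‖ ≤ ‖f‖ / 2) : Z ≤ B := by
  intro z hz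
  have hproper : ProperSpace E := FiniteDimensional.proper ℝ E
  have hcl : IsClosed (B : Set E) := B.closed_of_finiteDimensional
  obtain ⟨y0, hy0, hd⟩ := hcl.exists_infDist_eq_dist ⟨0, B.zero_mem⟩ z
  obtain ⟨y, hy, hle⟩ := h (z - y0) (Z.sub_mem hz (hBZ hy0))
  have h1 : Metric.infDist z (B : Set E) ≤ dist z (y0 + y) :=
    Metric.infDist_le_dist_of_mem (B.add_mem hy0 hy)
  rw [hd, dist_eq_norm, dist_eq_norm, ← sub_sub] at h1
  have h2 : ‖z - y0‖ = 0 := by
    have := norm_nonneg (z - y0)
    linarith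
  rw [norm_eq_zero, sub_eq_zero] at h2
  rw [h2]
  exact hy0

/-- pointwise application of a linear map is bounded uniformly -/
theorem exists_bound {X Y : Type} [NormedAddCommGroup X] [NormedSpace ℝ X]
    [FiniteDimensional ℝ X] [NormedAddCommGroup Y] [NormedSpace ℝ Y] (T : X →ₗ[ℝ] Y) :
    ∃ C : ℝ, 0 ≤ C ∧ ∀ x, ‖T x‖ ≤ C * ‖x‖ :=
  ⟨‖LinearMap.toContinuousLinearMap T‖, norm_nonneg _, fun x =>
    (LinearMap.toContinuousLinearMap T).le_opNorm x⟩

variable {S : Type} [AddCommGroup S] [Module ℝ S] {G : SimpleGraph V}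
  {e g c : V → S →ₗ[ℝ] S}

theorem IsPert.At_sq (h : IsPert G e g c) (t : ℝ) (v : V) (x : S) :
    At e g c t v (At e g c t v x) = x := by
  have hA : ∀ y, At e g c t v y = t • e v (c v y) + g v (c v y) := fun y => rfl
  have h1 : ∀ y, c v (e v y) = -e v (c v y) := fun y => by rw [h.ec, neg_neg]
  have h2 : ∀ y, c v (g v y) = -g v (c v y) := fun y => by rw [h.gc, neg_neg]
  rw [hA, hA, map_add, map_smul, h1, h2, h.c_sq]
  simp only [map_add, map_smul, map_neg, h.e_sq, h.eg, h.g_sq, neg_neg]
  module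

theorem IsPert.At_comm (h : IsPert G e g c) (t : ℝ) (u v : V) (huv : G.Adj u v) (x : S) :
    At e g c t u (At e g c t v x) = At e g c t v (At e g c t u x) := by
  have hA : ∀ w y, At e g c t w y = t • e w (c w y) + g w (c w y) := fun w y => rfl
  have h1 : ∀ a b y, c a (e b y) = -e b (c a y) := fun a b y => by rw [h.ec, neg_neg]
  have h2 : ∀ a b y, c a (g b y) = -g b (c a y) := fun a b y => by rw [h.gc, neg_neg]
  have hne : u ≠ v := huv.ne
  simp only [hA, map_add, map_smul, h1, h2, h.cc u v hne x]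
  generalize c v (c u x) = y
  simp only [map_add, map_smul, map_neg, neg_neg]
  rw [h.ee u v huv y, h.gg u v hne y, h.eg u v y, h.eg v u y]
  module

omit [DecidableEq V] [Fintype V] in
private theorem twA_factor {K X Y : Type} [AddCommGroup K] [Module ℝ K] [AddCommGroup X]
    [Module ℝ X] [AddCommGroup Y] [Module ℝ Y] (f : K →ₗ[ℝ] Y) (g : K →ₗ[ℝ] X)
    (h : ∀ x, f x = 0 → g x = 0) : ∃ Φ : Y →ₗ[ℝ] X, ∀ x, Φ (f x) = g x := by
  obtain ⟨r, hr⟩ := f.rangeRestrict.exists_rightInverse_of_surjective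
    (LinearMap.range_eq_top.2 f.surjective_rangeRestrict)
  obtain ⟨Φ, hΦ⟩ := (g.comp r).exists_extend
  refine ⟨Φ, fun x => ?_⟩
  have h1 : Φ (f x) = g (r (f.rangeRestrict x)) := by
    have := congrArg (fun k => k (f.rangeRestrict x)) hΦ
    simpa using this
  have h2 : f (r (f.rangeRestrict x)) = f x := by
    have := congrArg (fun k => k (f.rangeRestrict x)) hr
    have := congrArg Subtype.val this
    simpa using this
  have h3 : g (r (f.rangeRestrict x) - x) = 0 := h _ (by rw [map_sub, h2, sub_self])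
  rw [h1]
  rw [map_sub, sub_eq_zero] at h3
  exact h3

/-- the homotopy for the exact complex: a linear identity which controls the distance of arbitrary
chains from boundaries -/
theorem exists_homotopy {S : Type} [AddCommGroup S] [Module ℝ S] [FiniteDimensional ℝ S]
    (ν : V → ℕ) (hν : Function.Injective ν) (G : SimpleGraph V) (e : V → S →ₗ[ℝ] S) (i : ℕ)
    (hHV : HV ν G e ⊤ univ i) :
    ∃ (H : (Finset V → S) →ₗ[ℝ] (Finset V → S))
      (Φ : ((Finset V → V → S) × (Finset V → S)) →ₗ[ℝ] (Finset V → S)),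
      (∀ x, IsF G e ⊤ univ (i + 1) (H x)) ∧
      ∀ x : Finset V → S, (∀ σ, x σ ≠ 0 → Cl G σ ∧ σ.card = i) →
        x = bd ν (H x) + Φ (fun σ v => if v ∈ σ then e v (x σ) else 0, bd ν x) := by
  let C : Submodule ℝ (Finset V → S) :=
    { carrier := {y | IsF G e ⊤ univ (i + 1) y}
      add_mem' := fun ha hb => IsF.add ha hb
      zero_mem' := IsF.zero
      smul_mem' := fun r _ ha => IsF.smul ha r }
  let K : Submodule ℝ (Finset V → S) :=
    { carrier := {x | ∀ σ, x σ ≠ 0 → Cl G σ ∧ σ.card = i}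
      add_mem' := by
        intro a b ha hb σ hσ
        by_cases h : a σ = 0
        · refine hb σ fun h' => hσ ?_
          rw [Pi.add_apply, h, h', add_zero]
        · exact ha σ h
      zero_mem' := by
        intro σ hσ
        exact absurd rfl hσ
      smul_mem' := by
        intro r a ha σ hσ
        refine ha σ fun h' => hσ ?_
        rw [Pi.smul_apply, h', smul_zero] }
  let f : C →ₗ[ℝ] (Finset V → S) := (bd ν).comp C.subtype
  obtain ⟨s, hs⟩ := f.rangeRestrict.exists_rightInverse_of_surjective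
    (LinearMap.range_eq_top.2 f.surjective_rangeRestrict)
  obtain ⟨s', hs'⟩ := s.exists_extend
  let H : (Finset V → S) →ₗ[ℝ] (Finset V → S) := C.subtype.comp s'
  have hH : ∀ x, IsF G e ⊤ univ (i + 1) (H x) := fun x => (s' x).2
  have hbd : ∀ z, IsF G e ⊤ univ i z → bd ν z = 0 → bd ν (H z) = z := by
    intro z hz hz0
    obtain ⟨y, hy, hyz⟩ := hHV z hz hz0
    have hmem : z ∈ LinearMap.range f := ⟨⟨y, hy⟩, hyz⟩
    have h1 : s' z = s ⟨z, hmem⟩ := by
      have := congrArg (fun k => k ⟨z, hmem⟩) hs'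
      simpa using this
    have h2 : f (s ⟨z, hmem⟩) = z := by
      have := congrArg (fun k => k ⟨z, hmem⟩) hs
      have := congrArg Subtype.val this
      simpa using this
    show f (s' z) = z
    rw [h1, h2]
  let T : (Finset V → S) →ₗ[ℝ] ((Finset V → V → S) × (Finset V → S)) :=
    { toFun := fun x => (fun σ v => if v ∈ σ then e v (x σ) else 0, bd ν x)
      map_add' := by
        intro x y
        refine Prod.ext ?_ ?_
        · funext σ v
          by_cases h : v ∈ σ <;> simp [h]
        · simp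
      map_smul' := by
        intro r x
        refine Prod.ext ?_ ?_
        · funext σ v
          by_cases h : v ∈ σ <;> simp [h]
        · simp }
  obtain ⟨Φ, hΦ⟩ := twA_factor (T.comp K.subtype)
    ((LinearMap.id - (bd ν).comp H).comp K.subtype) (by
      rintro ⟨x, hx⟩ h0
      have h1 : ∀ σ, ∀ v ∈ σ, e v (x σ) = 0 := by
        intro σ v hv
        have := congrFun (congrFun (congrArg Prod.fst h0) σ) v
        have h2 : (if v ∈ σ then e v (x σ) else 0) = 0 := this
        rwa [if_pos hv] at h2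
      have h2 : bd ν x = 0 := congrArg Prod.snd h0
      have h3 := hbd x ⟨fun _ => Submodule.mem_top, h1, fun σ hσ => ⟨Finset.subset_univ _, hx σ hσ⟩⟩
        h2
      show x - bd ν (H x) = 0
      rw [h3, sub_self])
  refine ⟨H, Φ, hH, fun x hx => ?_⟩
  have h1 : Φ (T x) = x - bd ν (H x) := hΦ ⟨x, hx⟩
  show x = bd ν (H x) + Φ (T x)
  rw [h1]
  abel

end Pool.Agent.H85.Fold
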