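import Pool.Agent.H85.Fold.LinkS

/-!
# Project FOLD: exactness of cochains with values in a vector space
-/

set_option autoImplicit false

open Finset

namespace Pool.Agent.H85.Fold

variable {V : Type} [DecidableEq V] [Fintype V] {S : Type} [AddCommGroup S] [Module ℝ S]
  {ν : V → ℕ} {G : SimpleGraph V} {n : ℕ} {U : Finset V} {o : Finset V → ℝ}

/-- linear choice of preimages -/
private theorem resA_choice {X Y : Type} [AddCommGroup X] [Module ℝ X] [AddCommGroup Y]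
    [Module ℝ Y] (A P : X →ₗ[ℝ] Y) (K : Submodule ℝ X) (hex : ∀ ψ ∈ K, ∃ χ, P ψ = A χ) :
    ∃ h : X →ₗ[ℝ] X, ∀ ψ ∈ K, P ψ = A (h ψ) := by
  obtain ⟨g, hg⟩ := A.rangeRestrict.exists_rightInverse_of_surjective A.range_rangeRestrict
  have hmem : ∀ ψ : K, P ψ ∈ LinearMap.range A := by
    intro ψ
    obtain ⟨χ, hχ⟩ := hex ψ ψ.2
    exact ⟨χ, hχ.symm⟩
  let f : K →ₗ[ℝ] LinearMap.range A := (P.domRestrict K).codRestrict _ hmem
  obtain ⟨h, hh⟩ := LinearMap.exists_extend (g ∘ₗ f)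
  refine ⟨h, fun ψ hψ => ?_⟩
  have h1 : h ψ = g (f ⟨ψ, hψ⟩) := by
    have := congrArg (fun F => F ⟨ψ, hψ⟩) hh
    simpa using this
  have h2 : A.rangeRestrict (g (f ⟨ψ, hψ⟩)) = f ⟨ψ, hψ⟩ := LinearMap.congr_fun hg (f ⟨ψ, hψ⟩)
  have h3 := congrArg Subtype.val h2
  rw [h1]
  exact h3.symm

/-- the general principle -/
private theorem resA_gen (ν : V → ℕ) (ρ : Finset V) (rel : Finset V → Prop)
    (K : Submodule ℝ (Finset V → ℝ))
    (hex : ∀ ψ ∈ K, ∃ χ : Finset V → ℝ, ∀ σ, rel σ →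
      ψ σ = ∑ v ∈ σ \ ρ, sgn ν v σ * χ (σ.erase v))
    (N : Submodule ℝ S) (Ψ : Finset V → S) (hΨ : ∀ σ, Ψ σ ∈ N)
    (hK : ∀ φ : S →ₗ[ℝ] ℝ, (fun t => φ (Ψ t)) ∈ K) :
    ∃ χ : Finset V → S, (∀ σ, χ σ ∈ N) ∧ ∀ σ, rel σ →
      Ψ σ = ∑ v ∈ σ \ ρ, sgn ν v σ • χ (σ.erase v) := by
  classical
  let A : (Finset V → ℝ) →ₗ[ℝ] (Finset V → ℝ) :=
    { toFun := fun χ σ => if rel σ then ∑ v ∈ σ \ ρ, sgn ν v σ * χ (σ.erase v) else 0
      map_add' := by
        intro x y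
        funext σ
        by_cases h : rel σ
        · simp [h, mul_add, Finset.sum_add_distrib]
        · simp [h]
      map_smul' := by
        intro r x
        funext σ
        by_cases h : rel σ
        · simp [h, Finset.mul_sum, mul_left_comm]
        · simp [h] }
  let P : (Finset V → ℝ) →ₗ[ℝ] (Finset V → ℝ) :=
    { toFun := fun ψ σ => if rel σ then ψ σ else 0
      map_add' := by
        intro x y
        funext σ
        by_cases h : rel σ <;> simp [h]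
      map_smul' := by
        intro r x
        funext σ
        by_cases h : rel σ <;> simp [h] }
  obtain ⟨h, hh⟩ := resA_choice A P K (by
    intro ψ hψ
    obtain ⟨χ, hχ⟩ := hex ψ hψ
    refine ⟨χ, ?_⟩
    funext σ
    by_cases hr : rel σ
    · simp [A, P, hr, hχ σ hr]
    · simp [A, P, hr])
  refine ⟨fun s => ∑ t, h (Pi.single t 1) s • Ψ t, ?_, ?_⟩
  · intro σ
    exact Submodule.sum_mem _ fun t _ => Submodule.smul_mem _ _ (hΨ t)
  · intro σ hr
    have key : ∀ (φ : S →ₗ[ℝ] ℝ) (s : Finset V),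
        φ (∑ t, h (Pi.single t 1) s • Ψ t) = h (fun t => φ (Ψ t)) s := by
      intro φ s
      rw [map_sum]
      have h1 : (fun t => φ (Ψ t)) = ∑ t, φ (Ψ t) • (Pi.single t (1 : ℝ) : Finset V → ℝ) := by
        funext t
        rw [Finset.sum_apply]
        simp [Pi.single_apply]
      conv_rhs => rw [h1]
      rw [map_sum, Finset.sum_apply]
      apply Finset.sum_congr rfl
      intro t _
      rw [map_smul, map_smul, Pi.smul_apply, smul_eq_mul, smul_eq_mul, mul_comm]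
    rw [← sub_eq_zero, ← Module.forall_dual_apply_eq_zero_iff ℝ]
    intro φ
    rw [map_sub, map_sum, sub_eq_zero]
    have h2 := congrFun (hh _ (hK φ)) σ
    simp only [A, P, LinearMap.coe_mk, AddHom.coe_mk, if_pos hr] at h2
    rw [h2]
    apply Finset.sum_congr rfl
    intro v _
    rw [map_smul, key, smul_eq_mul]

/-- exactness of the cochains with values in a vector space -/
theorem IsSphere.exactS (hK : IsSphere ν G n U o) (N : Submodule ℝ S) {ρ : Finset V}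
    (hρ : ρ ⊆ U) (hcl : Cl G ρ) {j : ℕ} (hj : j < n) (ψ : Finset V → S) (hψ : ∀ σ, ψ σ ∈ N)
    (h : ∀ σ ⊆ U, Cl G σ → ρ ⊆ σ → σ.card = j + 1 →
      ∑ v ∈ σ \ ρ, sgn ν v σ • ψ (σ.erase v) = 0) :
    ∃ χ : Finset V → S, (∀ σ, χ σ ∈ N) ∧ ∀ σ ⊆ U, Cl G σ → ρ ⊆ σ → σ.card = j →
      ψ σ = ∑ v ∈ σ \ ρ, sgn ν v σ • χ (σ.erase v) := by
  let K : Submodule ℝ (Finset V → ℝ) :=
    { carrier := {f | ∀ σ ⊆ U, Cl G σ → ρ ⊆ σ → σ.card = j + 1 →
        ∑ v ∈ σ \ ρ, sgn ν v σ * f (σ.erase v) = 0}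
      add_mem' := by
        intro x y hx hy σ h1 h2 h3 h4
        simp only [Pi.add_apply, mul_add, Finset.sum_add_distrib]
        rw [hx σ h1 h2 h3 h4, hy σ h1 h2 h3 h4, add_zero]
      zero_mem' := by
        intro σ _ _ _ _
        simp
      smul_mem' := by
        intro r x hx σ h1 h2 h3 h4
        simp only [Pi.smul_apply, smul_eq_mul, mul_left_comm _ r, ← Finset.mul_sum]
        rw [hx σ h1 h2 h3 h4, mul_zero] }
  obtain ⟨χ, h1, h2⟩ := resA_gen ν ρ (fun σ => σ ⊆ U ∧ Cl G σ ∧ ρ ⊆ σ ∧ σ.card = j) K (by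
    intro f hf
    obtain ⟨χ, hχ⟩ := hK.exact ρ hρ hcl j hj f hf
    exact ⟨χ, fun σ hσ => hχ σ hσ.1 hσ.2.1 hσ.2.2.1 hσ.2.2.2⟩) N ψ hψ (by
    intro φ σ a1 a2 a3 a4
    have := congrArg φ (h σ a1 a2 a3 a4)
    rw [map_sum, map_zero] at this
    rw [← this]
    apply Finset.sum_congr rfl
    intro v _
    rw [map_smul, smul_eq_mul])
  exact ⟨χ, h1, fun σ a1 a2 a3 a4 => h2 σ ⟨a1, a2, a3, a4⟩⟩

theorem IsSphere.topS (hK : IsSphere ν G n U o) (N : Submodule ℝ S) {ρ : Finset V}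
    (hρ : ρ ⊆ U) (hcl : Cl G ρ) (ψ : Finset V → S) (hψ : ∀ σ, ψ σ ∈ N)
    (h : ∑ σ ∈ fac G n U, (if ρ ⊆ σ then o σ • ψ σ else 0) = 0) :
    ∃ χ : Finset V → S, (∀ σ, χ σ ∈ N) ∧ ∀ σ ⊆ U, Cl G σ → ρ ⊆ σ → σ.card = n →
      ψ σ = ∑ v ∈ σ \ ρ, sgn ν v σ • χ (σ.erase v) := by
  let K : Submodule ℝ (Finset V → ℝ) :=
    { carrier := {f | ∑ σ ∈ fac G n U, (if ρ ⊆ σ then o σ * f σ else 0) = 0}
      add_mem' := by
        intro x y hx hy
        have e : ∀ σ, (if ρ ⊆ σ then o σ * (x + y) σ else 0) =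
            (if ρ ⊆ σ then o σ * x σ else 0) + (if ρ ⊆ σ then o σ * y σ else 0) := by
          intro σ
          by_cases hh : ρ ⊆ σ <;> simp [hh, mul_add]
        rw [Set.mem_ofPred_eq] at *
        rw [Finset.sum_congr rfl fun σ _ => e σ, Finset.sum_add_distrib, hx, hy, add_zero]
      zero_mem' := by
        rw [Set.mem_ofPred_eq]
        apply Finset.sum_eq_zero
        intro σ _
        simp
      smul_mem' := by
        intro r x hx
        have e : ∀ σ, (if ρ ⊆ σ then o σ * (r • x) σ else 0) =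
            r * (if ρ ⊆ σ then o σ * x σ else 0) := by
          intro σ
          by_cases hh : ρ ⊆ σ <;> simp [hh, mul_left_comm]
        rw [Set.mem_ofPred_eq] at *
        rw [Finset.sum_congr rfl fun σ _ => e σ, ← Finset.mul_sum, hx, mul_zero] }
  obtain ⟨χ, h1, h2⟩ := resA_gen ν ρ (fun σ => σ ⊆ U ∧ Cl G σ ∧ ρ ⊆ σ ∧ σ.card = n) K (by
    intro f hf
    obtain ⟨χ, hχ⟩ := hK.top ρ hρ hcl f hf
    exact ⟨χ, fun σ hσ => hχ σ hσ.1 hσ.2.1 hσ.2.2.1 hσ.2.2.2⟩) N ψ hψ (by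
    intro φ
    have := congrArg φ h
    rw [map_sum, map_zero] at this
    change ∑ σ ∈ fac G n U, (if ρ ⊆ σ then o σ * φ (ψ σ) else 0) = 0
    refine Eq.trans (Finset.sum_congr rfl fun σ _ => ?_) this
    by_cases hh : ρ ⊆ σ
    · rw [if_pos hh, if_pos hh, map_smul, smul_eq_mul]
    · rw [if_neg hh, if_neg hh, map_zero])
  exact ⟨χ, h1, fun σ a1 a2 a3 a4 => h2 σ ⟨a1, a2, a3, a4⟩⟩

end Pool.Agent.H85.Fold
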