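import Pool.Agent.H85.Fold.Link
import Pool.Agent.H85.Fold.ResA

/-!
# Project FOLD: resolutions
-/

set_option autoImplicit false

open Finset

namespace Pool.Agent.H85.Fold

variable {V : Type} [DecidableEq V] [Fintype V] {S : Type} [AddCommGroup S] [Module ℝ S]
  {ν : V → ℕ} {G : SimpleGraph V} {n : ℕ} {U : Finset V} {o : Finset V → ℝ}

variable {e : V → S →ₗ[ℝ] S} {M : Submodule ℝ S}

private theorem res_cl_sub {σ τ : Finset V} (h : Cl G τ) (hs : σ ⊆ τ) : Cl G σ :=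
  fun u hu v hv huv => h u (hs hu) v (hs hv) huv

private theorem res_d2_pos {x : Finset V → Finset V → S} {ρ σ : Finset V} (h : σ ⊆ U)
    (hc : Cl G σ) : d2 ν G U x ρ σ = ∑ v ∈ σ \ ρ, sgn ν v σ • x ρ (σ.erase v) := by
  classical
  show (if σ ⊆ U ∧ Cl G σ then ∑ v ∈ σ \ ρ, sgn ν v σ • x ρ (σ.erase v) else 0) = _
  rw [if_pos ⟨h, hc⟩]

private theorem res_d2_zero {x : Finset V → Finset V → S} {ρ σ : Finset V}
    (h : σ ⊆ U → Cl G σ → ∀ v ∈ σ \ ρ, x ρ (σ.erase v) = 0) : d2 ν G U x ρ σ = 0 := by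
  classical
  show (if σ ⊆ U ∧ Cl G σ then ∑ v ∈ σ \ ρ, sgn ν v σ • x ρ (σ.erase v) else 0) = _
  split_ifs with h1
  · refine Finset.sum_eq_zero fun v hv => ?_
    rw [h h1.1 h1.2 v hv, smul_zero]
  · rfl

private theorem res_d1_zero {x : Finset V → Finset V → S} {ρ σ : Finset V}
    (h : ∀ v ∈ σ \ ρ, x (insert v ρ) σ = 0) : d1 ν x ρ σ = 0 := by
  show ∑ v ∈ σ \ ρ, sgn ν v ρ • x (insert v ρ) σ = 0
  refine Finset.sum_eq_zero fun v hv => ?_
  rw [h v hv, smul_zero]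

private theorem res_mem_fac {σ : Finset V} {m : ℕ} :
    σ ∈ fac G m U ↔ σ ⊆ U ∧ Cl G σ ∧ σ.card = m := by
  classical
  simp [fac]

/-- the values allowed at `ρ` -/
private def resN (e : V → S →ₗ[ℝ] S) (M : Submodule ℝ S) (ρ : Finset V) : Submodule ℝ S where
  carrier := {y | y ∈ M ∧ ∀ v ∈ ρ, e v y = 0}
  add_mem' := by
    rintro a b ⟨ha, ha'⟩ ⟨hb, hb'⟩
    exact ⟨M.add_mem ha hb, fun v hv => by rw [map_add, ha' v hv, hb' v hv, add_zero]⟩
  zero_mem' := ⟨M.zero_mem, fun v _ => map_zero _⟩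
  smul_mem' := by
    rintro r a ⟨ha, ha'⟩
    exact ⟨M.smul_mem r ha, fun v hv => by rw [map_smul, ha' v hv, smul_zero]⟩

/-- the row lemma -/
private theorem res_row (hK : IsSphere ν G n U o) {ρ : Finset V} (hρ : ρ ⊆ U) (hcl : Cl G ρ)
    {j : ℕ} (hj : j ≤ n) (ψ : Finset V → S) (hψ : ∀ σ, ψ σ ∈ resN e M ρ)
    (h1 : j < n → ∀ σ ⊆ U, Cl G σ → ρ ⊆ σ → σ.card = j + 1 →
      ∑ v ∈ σ \ ρ, sgn ν v σ • ψ (σ.erase v) = 0)
    (h2 : j = n → ∑ σ ∈ fac G n U, (if ρ ⊆ σ then o σ • ψ σ else 0) = 0) :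
    ∃ χ : Finset V → S, (∀ σ, χ σ ∈ resN e M ρ) ∧
      (∀ σ, χ σ ≠ 0 → ρ ⊆ σ ∧ σ ⊆ U ∧ Cl G σ ∧ σ.card + 1 = j) ∧
      ∀ σ ⊆ U, Cl G σ → ρ ⊆ σ → σ.card = j →
        ψ σ = ∑ v ∈ σ \ ρ, sgn ν v σ • χ (σ.erase v) := by
  classical
  obtain ⟨χ, hχ, hχ'⟩ : ∃ χ : Finset V → S, (∀ σ, χ σ ∈ resN e M ρ) ∧
      ∀ σ ⊆ U, Cl G σ → ρ ⊆ σ → σ.card = j →
        ψ σ = ∑ v ∈ σ \ ρ, sgn ν v σ • χ (σ.erase v) := by
    rcases Nat.lt_or_ge j n with hlt | hge
    · exact hK.exactS (resN e M ρ) hρ hcl hlt ψ hψ (h1 hlt)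
    · obtain rfl : j = n := le_antisymm hj hge
      exact hK.topS (resN e M ρ) hρ hcl ψ hψ (h2 rfl)
  refine ⟨fun σ => if ρ ⊆ σ ∧ σ ⊆ U ∧ Cl G σ ∧ σ.card + 1 = j then χ σ else 0, ?_, ?_, ?_⟩
  · intro σ
    dsimp only
    split_ifs
    · exact hχ σ
    · exact (resN e M ρ).zero_mem
  · intro σ hσ
    by_contra hcon
    exact hσ (if_neg hcon)
  · intro σ hσU hσc hσρ hσj
    rw [hχ' σ hσU hσc hσρ hσj]
    refine Finset.sum_congr rfl fun v hv => ?_
    rw [Finset.mem_sdiff] at hv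
    have h3 : ρ ⊆ σ.erase v := fun u hu =>
      Finset.mem_erase.2 ⟨fun h => hv.2 (h ▸ hu), hσρ hu⟩
    have h4 : (σ.erase v).card + 1 = j := by
      rw [Finset.card_erase_add_one hv.1, hσj]
    have h5 : ρ ⊆ σ.erase v ∧ σ.erase v ⊆ U ∧ Cl G (σ.erase v) ∧ (σ.erase v).card + 1 = j :=
      ⟨h3, (Finset.erase_subset _ _).trans hσU, res_cl_sub hσc (Finset.erase_subset _ _), h4⟩
    show _ = sgn ν v σ • (if ρ ⊆ σ.erase v ∧ σ.erase v ⊆ U ∧ Cl G (σ.erase v) ∧
      (σ.erase v).card + 1 = j then χ (σ.erase v) else 0)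
    rw [if_pos h5]

private theorem res_exists_aug (hK : IsSphere ν G n U o) {i : ℕ} {c : Finset V → S}
    (hc : IsF G e M U i c) :
    ∃ y, IsD G e n M U i y ∧ (∀ ρ σ, y ρ σ ≠ 0 → ρ.card = i) ∧ aug G n U o y = c := by
  classical
  have hex : ∀ ρ : Finset V, ∃ τ : Finset V, c ρ ≠ 0 →
      τ ⊆ U ∧ Cl G τ ∧ τ.card = n ∧ ρ ⊆ τ := by
    intro ρ
    by_cases h : c ρ = 0
    · exact ⟨∅, fun h' => absurd h h'⟩
    · obtain ⟨h1, h2, -⟩ := hc.supp ρ h
      obtain ⟨τ, h3, h4⟩ := hK.pure ρ h1 h2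
      exact ⟨τ, fun _ => ⟨h3, h4⟩⟩
  choose τ hτ using hex
  refine ⟨fun ρ σ => if σ = τ ρ then (o (τ ρ))⁻¹ • c ρ else 0, ⟨?_, ?_, ?_⟩, ?_, ?_⟩
  · intro ρ σ
    split_ifs
    · exact M.smul_mem _ (hc.mem ρ)
    · exact M.zero_mem
  · intro ρ σ v hv
    split_ifs
    · rw [map_smul, hc.ker ρ v hv, smul_zero]
    · exact map_zero _
  · intro ρ σ h
    split_ifs at h with h1
    · have h2 : c ρ ≠ 0 := fun h3 => h (by rw [h3, smul_zero])
      obtain ⟨a1, a2, a3, a4⟩ := hτ ρ h2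
      rw [h1]
      refine ⟨a4, a1, a2, ?_⟩
      rw [a3, (hc.supp ρ h2).2.2]
    · exact absurd rfl h
  · intro ρ σ h
    have h2 : c ρ ≠ 0 := by
      intro h3
      apply h
      show (if σ = τ ρ then (o (τ ρ))⁻¹ • c ρ else 0) = 0
      rw [h3, smul_zero, ite_self]
    exact (hc.supp ρ h2).2.2
  · funext ρ
    show ∑ σ ∈ fac G n U, o σ • (if σ = τ ρ then (o (τ ρ))⁻¹ • c ρ else 0) = c ρ
    by_cases h : c ρ = 0
    · rw [h]
      refine Finset.sum_eq_zero fun σ _ => ?_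
      rw [smul_zero, ite_self, smul_zero]
    · obtain ⟨a1, a2, a3, a4⟩ := hτ ρ h
      rw [Finset.sum_eq_single (τ ρ)]
      · rw [if_pos rfl, smul_smul, mul_inv_cancel₀ (hK.ne _ a1 a2 a3), one_smul]
      · intro σ _ hσ
        rw [if_neg hσ, smul_zero]
      · intro hn
        exact absurd (res_mem_fac.2 ⟨a1, a2, a3⟩) hn

/-- every chain is an augmentation -/
theorem exists_aug (hK : IsSphere ν G n U o) {i : ℕ} {c : Finset V → S} (hc : IsF G e M U i c) :
    ∃ y, IsD G e n M U i y ∧ aug G n U o y = c := by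
  obtain ⟨y, h1, -, h2⟩ := res_exists_aug hK hc
  exact ⟨y, h1, h2⟩

/-- `d2` of a double chain composed of rows -/
private theorem res_rows {l j i : ℕ} (hli : j + i = n + l)
    (ψ : Finset V → Finset V → S)
    (hrow : ∀ ρ ⊆ U, Cl G ρ → ρ.card = l → ∃ χ : Finset V → S, (∀ σ, χ σ ∈ resN e M ρ) ∧
      (∀ σ, χ σ ≠ 0 → ρ ⊆ σ ∧ σ ⊆ U ∧ Cl G σ ∧ σ.card + 1 = j) ∧
      ∀ σ ⊆ U, Cl G σ → ρ ⊆ σ → σ.card = j →
        ψ ρ σ = ∑ v ∈ σ \ ρ, sgn ν v σ • χ (σ.erase v))
    (hψ : ∀ ρ σ, ψ ρ σ ≠ 0 → ρ ⊆ σ ∧ σ ⊆ U ∧ Cl G σ ∧ σ.card + i = n + ρ.card) :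
    ∃ y, IsD G e n M U (i + 1) y ∧ (∀ ρ σ, y ρ σ ≠ 0 → ρ.card = l) ∧
      ∀ ρ σ, ρ.card = l → ψ ρ σ = d2 ν G U y ρ σ := by
  classical
  have hrow' : ∀ ρ : Finset V, ∃ χ : Finset V → S, (∀ σ, χ σ ∈ resN e M ρ) ∧
      (∀ σ, χ σ ≠ 0 → ρ.card = l ∧ ρ ⊆ σ ∧ σ ⊆ U ∧ Cl G σ ∧ σ.card + 1 = j) ∧
      (ρ.card = l → ∀ σ ⊆ U, Cl G σ → ρ ⊆ σ → σ.card = j →
        ψ ρ σ = ∑ v ∈ σ \ ρ, sgn ν v σ • χ (σ.erase v)) := by
    intro ρ
    by_cases h : ρ ⊆ U ∧ Cl G ρ ∧ ρ.card = l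
    · obtain ⟨χ, h1, h2, h3⟩ := hrow ρ h.1 h.2.1 h.2.2
      exact ⟨χ, h1, fun σ hσ => ⟨h.2.2, h2 σ hσ⟩, fun _ => h3⟩
    · refine ⟨fun _ => 0, fun _ => (resN e M ρ).zero_mem, fun σ hσ => absurd rfl hσ, ?_⟩
      intro hl σ h1 h2 h3 _
      exact absurd ⟨h3.trans h1, res_cl_sub h2 h3, hl⟩ h
  choose χ hχ1 hχ2 hχ3 using hrow'
  refine ⟨χ, ⟨fun ρ σ => (hχ1 ρ σ).1, fun ρ σ => (hχ1 ρ σ).2, ?_⟩, fun ρ σ h => (hχ2 ρ σ h).1, ?_⟩
  · intro ρ σ h
    obtain ⟨a1, a2, a3, a4, a5⟩ := hχ2 ρ σ h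
    refine ⟨a2, a3, a4, ?_⟩
    omega
  · intro ρ σ hl
    by_cases hgood : ρ ⊆ σ ∧ σ ⊆ U ∧ Cl G σ ∧ σ.card = j
    · obtain ⟨a1, a2, a3, a4⟩ := hgood
      rw [hχ3 ρ hl σ a2 a3 a1 a4, res_d2_pos a2 a3]
    · have h1 : ψ ρ σ = 0 := by
        by_contra hne
        obtain ⟨a1, a2, a3, a4⟩ := hψ ρ σ hne
        exact hgood ⟨a1, a2, a3, by omega⟩
      rw [h1, eq_comm]
      refine res_d2_zero fun h2 h3 v hv => ?_
      by_contra hne
      obtain ⟨-, a2, -, -, a5⟩ := hχ2 ρ _ hne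
      refine hgood ⟨a2.trans (Finset.erase_subset _ _), h2, h3, ?_⟩
      rw [Finset.card_erase_add_one (Finset.mem_sdiff.1 hv).1] at a5
      exact a5

/-- every cycle has a resolution -/
theorem exists_res (hν : Function.Injective ν) (hK : IsSphere ν G n U o) {i : ℕ}
    {c : Finset V → S} (hc : IsF G e M U i c) (hbd : bd ν c = 0) :
    ∃ x, IsRes ν G e n M U o i c x := by
  classical
  rcases Nat.lt_or_ge n i with hni | hin
  · have hc0 : c = 0 := by
      funext σ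
      by_contra hne
      obtain ⟨h1, h2, h3⟩ := hc.supp σ hne
      have := hK.dim σ h1 h2
      omega
    exact ⟨0, IsD.zero, by rw [map_zero, map_zero], by rw [map_zero, hc0]⟩
  have key : ∀ k, k ≤ i → ∃ x, IsD G e n M U i x ∧ (∀ ρ σ, x ρ σ ≠ 0 → i ≤ ρ.card + k) ∧
      aug G n U o x = c ∧ ∀ ρ σ, i ≤ ρ.card + k → d1 ν x ρ σ = d2 ν G U x ρ σ := by
    intro k
    induction k with
    | zero =>
      intro _
      obtain ⟨y, h1, h2, h3⟩ := res_exists_aug hK hc
      refine ⟨y, h1, fun ρ σ h => (h2 ρ σ h).ge, h3, fun ρ σ hρ => ?_⟩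
      rw [res_d1_zero, res_d2_zero]
      · intro h4 h5 v hv
        by_contra hne
        obtain ⟨-, -, -, a4⟩ := h1.supp _ _ hne
        have h6 := h2 _ _ hne
        have h7 := hK.dim σ h4 h5
        have h8 := Finset.card_erase_add_one (Finset.mem_sdiff.1 hv).1
        omega
      · intro v hv
        by_contra hne
        have h6 := h2 _ _ hne
        rw [Finset.card_insert_of_notMem (Finset.mem_sdiff.1 hv).2] at h6
        omega
    | succ k ih =>
      intro hk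
      obtain ⟨x, hx1, hx2, hx3, hx4⟩ := ih (by omega)
      obtain ⟨i', rfl⟩ : ∃ i', i = i' + 1 := ⟨i - 1, by omega⟩
      obtain ⟨l, hl⟩ : ∃ l, i' = l + k := ⟨i' - k, by omega⟩
      have hd1 : IsD G e n M U i' (d1 ν x) := isD_d1 ν hx1
      have hxsub : ∀ ρ σ, x ρ σ ≠ 0 → ρ ⊆ σ := fun ρ σ h => (hx1.supp ρ σ h).1
      -- the rows at level l
      have hj : (n - k) + i' = n + l := by omega
      obtain ⟨y, hy1, hy2, hy3⟩ := res_rows (e := e) (M := M) (ν := ν) (U := U) (G := G) hj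
        (d1 ν x) (by
          intro ρ hρU hρc hρl
          refine res_row hK hρU hρc (Nat.sub_le _ _) (d1 ν x ρ)
            (fun σ => ⟨hd1.mem ρ σ, hd1.ker ρ σ⟩) ?_ ?_
          · intro hlt σ hσU hσc hσρ hσj
            rw [← res_d2_pos hσU hσc, ← d1_d2]
            have h5 : d1 ν (d2 ν G U x) ρ σ = d1 ν (d1 ν x) ρ σ := by
              show ∑ v ∈ σ \ ρ, sgn ν v ρ • (d2 ν G U x) (insert v ρ) σ =
                ∑ v ∈ σ \ ρ, sgn ν v ρ • (d1 ν x) (insert v ρ) σ
              refine Finset.sum_congr rfl fun v hv => ?_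
              rw [hx4]
              rw [Finset.card_insert_of_notMem (Finset.mem_sdiff.1 hv).2]
              omega
            rw [h5, d1_d1 ν hν]
            rfl
          · intro _
            have h5 : aug G n U o (d1 ν x) ρ = 0 := by
              rw [aug_d1 ν G n U o x hxsub, hx3, hbd]
              rfl
            refine Eq.trans ?_ h5
            show _ = ∑ σ ∈ fac G n U, o σ • d1 ν x ρ σ
            refine Finset.sum_congr rfl fun σ _ => ?_
            split_ifs with h6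
            · rfl
            · have : d1 ν x ρ σ = 0 := by
                by_contra hne
                exact h6 (hd1.supp _ _ hne).1
              rw [this, smul_zero])
        hd1.supp
      refine ⟨x + y, hx1.add hy1, ?_, ?_, ?_⟩
      · intro ρ σ h
        by_cases h5 : x ρ σ = 0
        · have h6 : y ρ σ ≠ 0 := by
            intro h7
            apply h
            show x ρ σ + y ρ σ = 0
            rw [h5, h7, add_zero]
          have := hy2 ρ σ h6
          omega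
        · have := hx2 ρ σ h5
          omega
      · rw [map_add, hx3]
        have : aug G n U o y = 0 := by
          funext ρ
          show ∑ σ ∈ fac G n U, o σ • y ρ σ = 0
          refine Finset.sum_eq_zero fun σ hσ => ?_
          have : y ρ σ = 0 := by
            by_contra hne
            obtain ⟨-, -, -, a4⟩ := hy1.supp _ _ hne
            have h6 := hy2 _ _ hne
            have h7 := (res_mem_fac.1 hσ).2.2
            omega
          rw [this, smul_zero]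
        rw [this, add_zero]
      · intro ρ σ hρ
        have hy4 : l ≤ ρ.card → d1 ν y ρ σ = 0 := by
          intro hle
          refine res_d1_zero fun v hv => ?_
          by_contra hne
          have h6 := hy2 _ _ hne
          rw [Finset.card_insert_of_notMem (Finset.mem_sdiff.1 hv).2] at h6
          omega
        rw [map_add, map_add]
        show d1 ν x ρ σ + d1 ν y ρ σ = d2 ν G U x ρ σ + d2 ν G U y ρ σ
        rw [hy4 (by omega), add_zero]
        rcases Nat.lt_or_ge l ρ.card with hlt | hge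
        · rw [hx4 ρ σ (by omega)]
          have : d2 ν G U y ρ σ = 0 := by
            refine res_d2_zero fun _ _ v _ => ?_
            by_contra hne
            have := hy2 _ _ hne
            omega
          rw [this, add_zero]
        · have hρl : ρ.card = l := by omega
          have : d2 ν G U x ρ σ = 0 := by
            refine res_d2_zero fun _ _ v _ => ?_
            by_contra hne
            have := hx2 _ _ hne
            omega
          rw [this, zero_add, hy3 ρ σ hρl]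
  obtain ⟨x, h1, -, h3, h4⟩ := key i le_rfl
  refine ⟨x, h1, ?_, h3⟩
  funext ρ σ
  exact h4 ρ σ (by omega)

/-- one level -/
private theorem res_prim_step (hK : IsSphere ν G n U o) {i l : ℕ}
    (hl : l ≤ i) {x : Finset V → Finset V → S} (hx : IsD G e n M U i x)
    (hcl : d1 ν x = d2 ν G U x) (hs : ∀ ρ σ, x ρ σ ≠ 0 → ρ.card < l + 1)
    (haug : l = i → aug G n U o x = 0) :
    ∃ y, IsD G e n M U (i + 1) y ∧
      ∀ ρ σ, (x - (d1 ν y + d2 ν G U y)) ρ σ ≠ 0 → ρ.card < l := by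
  classical
  rcases Nat.lt_or_ge (n + l) i with hni | hin
  · refine ⟨0, IsD.zero, ?_⟩
    intro ρ σ h
    rw [map_zero, map_zero, add_zero, sub_zero] at h
    have h1 := hs ρ σ h
    obtain ⟨-, -, -, a4⟩ := hx.supp _ _ h
    omega
  obtain ⟨j, hj⟩ : ∃ j, j + i = n + l := ⟨n + l - i, by omega⟩
  obtain ⟨y, hy1, hy2, hy3⟩ := res_rows (e := e) (M := M) (ν := ν) (U := U) (G := G) hj x
    (by
      intro ρ hρU hρc hρl
      refine res_row hK hρU hρc (by omega) (x ρ) (fun σ => ⟨hx.mem ρ σ, hx.ker ρ σ⟩) ?_ ?_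
      · intro hlt σ hσU hσc hσρ hσj
        rw [← res_d2_pos hσU hσc, ← hcl]
        refine res_d1_zero fun v hv => ?_
        by_contra hne
        have h6 := hs _ _ hne
        rw [Finset.card_insert_of_notMem (Finset.mem_sdiff.1 hv).2] at h6
        omega
      · intro hjn
        have h5 : aug G n U o x ρ = 0 := by
          rw [haug (by omega)]
          rfl
        refine Eq.trans ?_ h5
        show _ = ∑ σ ∈ fac G n U, o σ • x ρ σ
        refine Finset.sum_congr rfl fun σ _ => ?_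
        split_ifs with h6
        · rfl
        · have : x ρ σ = 0 := by
            by_contra hne
            exact h6 (hx.supp _ _ hne).1
          rw [this, smul_zero])
    hx.supp
  refine ⟨y, hy1, ?_⟩
  intro ρ σ h
  by_contra hge
  apply h
  have hd1 : d1 ν y ρ σ = 0 := by
    refine res_d1_zero fun v hv => ?_
    by_contra hne
    have h6 := hy2 _ _ hne
    rw [Finset.card_insert_of_notMem (Finset.mem_sdiff.1 hv).2] at h6
    omega
  show x ρ σ - (d1 ν y ρ σ + d2 ν G U y ρ σ) = 0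
  rw [hd1, zero_add]
  rcases Nat.lt_or_ge l ρ.card with hlt | hle
  · have h1 : x ρ σ = 0 := by
      by_contra hne
      have := hs _ _ hne
      omega
    have h2 : d2 ν G U y ρ σ = 0 := by
      refine res_d2_zero fun _ _ v _ => ?_
      by_contra hne
      have := hy2 _ _ hne
      omega
    rw [h1, h2, sub_zero]
  · rw [hy3 ρ σ (by omega), sub_self]

private theorem res_closed (hν : Function.Injective ν) (y : Finset V → Finset V → S) :
    d1 ν (d1 ν y + d2 ν G U y) = d2 ν G U (d1 ν y + d2 ν G U y) := by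
  rw [map_add, map_add, d1_d1 ν hν, d2_d2 ν hν, zero_add, add_zero, d1_d2]

private theorem res_prim_aux (hν : Function.Injective ν) (hK : IsSphere ν G n U o) {i : ℕ} :
    ∀ l, l ≤ i → ∀ x : Finset V → Finset V → S, IsD G e n M U i x → d1 ν x = d2 ν G U x →
      (∀ ρ σ, x ρ σ ≠ 0 → ρ.card < l) →
      ∃ y, IsD G e n M U (i + 1) y ∧ x = d1 ν y + d2 ν G U y := by
  intro l
  induction l with
  | zero =>
    intro _ x _ _ hs
    refine ⟨0, IsD.zero, ?_⟩
    rw [map_zero, map_zero, add_zero]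
    funext ρ σ
    by_contra hne
    exact absurd (hs ρ σ hne) (Nat.not_lt_zero _)
  | succ l ih =>
    intro hl x hx hcl hs
    obtain ⟨y, hy1, hy2⟩ := res_prim_step hK (by omega : l ≤ i) hx hcl hs
      (fun h => absurd h (by omega))
    obtain ⟨y', hy1', hy2'⟩ := ih (by omega) (x - (d1 ν y + d2 ν G U y))
      (hx.sub ((isD_d1 ν hy1).add (isD_d2 ν hy1)))
      (by rw [map_sub, map_sub, hcl, res_closed hν]) hy2
    refine ⟨y + y', hy1.add hy1', ?_⟩
    rw [map_add, map_add, add_add_add_comm, ← hy2', add_sub_cancel]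

/-- closed double chains with augmentation zero -/
theorem exists_prim (hν : Function.Injective ν) (hK : IsSphere ν G n U o) {i : ℕ}
    {x : Finset V → Finset V → S} (hx : IsD G e n M U i x) (hcl : d1 ν x = d2 ν G U x)
    (haug : aug G n U o x = 0) :
    ∃ y, IsD G e n M U (i + 1) y ∧ x = d1 ν y + d2 ν G U y := by
  have hs : ∀ ρ σ, x ρ σ ≠ 0 → ρ.card < i + 1 := by
    intro ρ σ h
    obtain ⟨a1, a2, a3, a4⟩ := hx.supp ρ σ h
    have := hK.dim σ a2 a3
    omega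
  obtain ⟨y, hy1, hy2⟩ := res_prim_step hK le_rfl hx hcl hs (fun _ => haug)
  obtain ⟨y', hy1', hy2'⟩ := res_prim_aux hν hK i le_rfl (x - (d1 ν y + d2 ν G U y))
    (hx.sub ((isD_d1 ν hy1).add (isD_d2 ν hy1)))
    (by rw [map_sub, map_sub, hcl, res_closed hν]) hy2
  refine ⟨y + y', hy1.add hy1', ?_⟩
  rw [map_add, map_add, add_add_add_comm, ← hy2', add_sub_cancel]

/-- the double chains `d1 y + d2 y` are closed, and their augmentation is a boundary -/
theorem isRes_d (hν : Function.Injective ν) (hK : IsSphere ν G n U o) {i : ℕ}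
    {y : Finset V → Finset V → S} (hy : IsD G e n M U (i + 1) y) :
    IsRes ν G e n M U o i (bd ν (aug G n U o y)) (d1 ν y + d2 ν G U y) where
  isD := (isD_d1 ν hy).add (isD_d2 ν hy)
  closed := res_closed hν y
  aug_eq := by
    rw [map_add, aug_d1 ν G n U o y (fun ρ σ h => (hy.supp ρ σ h).1),
      aug_d2 ν G n U o hK y (fun ρ σ h => ⟨(hy.supp ρ σ h).1, (hy.supp ρ σ h).2.1,
        (hy.supp ρ σ h).2.2.1⟩), add_zero]

/-- the resolutions of boundaries -/
theorem IsRes.of_bd (hν : Function.Injective ν) (hK : IsSphere ν G n U o) {i : ℕ}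
    {c g : Finset V → S} {x : Finset V → Finset V → S} (hx : IsRes ν G e n M U o i c x)
    (hg : IsF G e M U (i + 1) g) (hbd : bd ν g = c) :
    ∃ y, IsD G e n M U (i + 1) y ∧ x = d1 ν y + d2 ν G U y := by
  obtain ⟨y, hy1, hy2⟩ := exists_aug hK hg
  have hr := isRes_d hν hK hy1
  obtain ⟨y', hy1', hy2'⟩ := exists_prim hν hK (hx.isD.sub hr.isD)
    (by rw [map_sub, map_sub, hx.closed, hr.closed])
    (by rw [map_sub, hx.aug_eq, hr.aug_eq, hy2, hbd, sub_self])
  refine ⟨y + y', hy1.add hy1', ?_⟩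
  rw [map_add, map_add, add_add_add_comm, ← hy2', add_sub_cancel]

theorem IsRes.add {i : ℕ} {c c' : Finset V → S} {x x' : Finset V → Finset V → S}
    (h : IsRes ν G e n M U o i c x) (h' : IsRes ν G e n M U o i c' x') :
    IsRes ν G e n M U o i (c + c') (x + x') where
  isD := h.isD.add h'.isD
  closed := by rw [map_add, map_add, h.closed, h'.closed]
  aug_eq := by rw [map_add, h.aug_eq, h'.aug_eq]

theorem IsRes.smul {i : ℕ} {c : Finset V → S} {x : Finset V → Finset V → S}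
    (h : IsRes ν G e n M U o i c x) (r : ℝ) : IsRes ν G e n M U o i (r • c) (r • x) where
  isD := h.isD.smul r
  closed := by rw [map_smul, map_smul, h.closed]
  aug_eq := by rw [map_smul, h.aug_eq]

theorem IsRes.sub {i : ℕ} {c c' : Finset V → S} {x x' : Finset V → Finset V → S}
    (h : IsRes ν G e n M U o i c x) (h' : IsRes ν G e n M U o i c' x') :
    IsRes ν G e n M U o i (c - c') (x - x') where
  isD := h.isD.sub h'.isD
  closed := by rw [map_sub, map_sub, h.closed, h'.closed]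
  aug_eq := by rw [map_sub, h.aug_eq, h'.aug_eq]

/-- the component of a resolution is a resolution of the component -/
theorem IsRes.comp2 (hν : Function.Injective ν) {i : ℕ} {c : Finset V → S}
    {x : Finset V → Finset V → S} {v : V} (hv : v ∈ U)
    (h : IsRes ν G e (n + 1) M U o (i + 1) c x) :
    IsRes ν G e n (Mk e M v) (nbr G v U) (linkO ν v o) i (comp ν v c)
      (Pool.Agent.H85.Fold.comp2 ν v x) where
  isD := isD_comp2 ν v h.isD
  closed := by
    have h1 := comp2_d1 ν hν v x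
    have h2 := comp2_d2 ν hν G U v hv x
    rw [h.closed, h2] at h1
    exact (neg_injective h1).symm
  aug_eq := by
    rw [aug_comp2 ν G n U o v hv x (fun ρ σ h' => (h.isD.supp ρ σ h').1), h.aug_eq]

/-- lifting double chains of a link -/
theorem exists_lift2 {ep : Finset V → S →ₗ[ℝ] S} {b : V → V → ℝ} {β : S →ₗ[ℝ] S →ₗ[ℝ] ℝ}
    {ε κ : ℝ} {m : ℕ} (hs : Sys ν G e ep b m U M β ε κ o) {v : V} (hv : v ∈ U) {i : ℕ}
    {r : Finset V → Finset V → S} (hr : IsD G e n (Mk e M v) (nbr G v U) i r) :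
    ∃ r' : Finset V → Finset V → S, IsD G e n M (nbr G v U) i r' ∧
      ∀ ρ σ, e v (r' ρ σ) = r ρ σ := by
  classical
  have hex : ∀ ρ σ : Finset V, ∃ m : S, m ∈ M ∧ (∀ u ∈ ρ, e u m = 0) ∧ e v m = r ρ σ ∧
      (m ≠ 0 → r ρ σ ≠ 0) := by
    intro ρ σ
    by_cases h : r ρ σ = 0
    · exact ⟨0, M.zero_mem, fun u _ => map_zero _, by rw [map_zero, h], fun h' => absurd rfl h'⟩
    · obtain ⟨a1, a2, a3, -⟩ := hr.supp ρ σ h
      obtain ⟨b1, b2, b3⟩ := (cl_insert_iff (G := G) (σ := ρ) hv).2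
        ⟨a1.trans a2, res_cl_sub a3 a1⟩
      have hm := hr.mem ρ σ
      obtain ⟨m, m1, m2, m3⟩ := hs.lift b1 b2 b3 (x := r ρ σ) hm.1 (by
        intro u hu
        rcases Finset.mem_insert.1 hu with rfl | hu
        · exact hm.2
        · exact hr.ker ρ σ u hu)
      exact ⟨m, m1, m2, m3, fun _ => h⟩
  choose r' h1 h2 h3 h4 using hex
  exact ⟨r', ⟨h1, h2, fun ρ σ h => hr.supp ρ σ (h4 ρ σ h)⟩, h3⟩

end Pool.Agent.H85.Fold
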