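import Pool.Agent.H85.Fold.LinkS

/-!
# Project FOLD: signs on the facets of a sphere
-/

set_option autoImplicit false

open Finset

namespace Pool.Agent.H85.Fold

variable {V : Type} [DecidableEq V] [Fintype V]

omit [DecidableEq V] [Fintype V] in
private theorem signS_mem_fac {G : SimpleGraph V} {n : ℕ} {U σ : Finset V} :
    σ ∈ fac G n U ↔ σ ⊆ U ∧ Cl G σ ∧ σ.card = n := by
  classical
  unfold fac
  simp only [Finset.mem_filter, Finset.mem_powerset]

private theorem signS_sgn_ne (ν : V → ℕ) (v : V) (σ : Finset V) : sgn ν v σ ≠ 0 := by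
  rcases sgn_cases ν v σ with h | h <;> rw [h] <;> norm_num

omit [Fintype V] in
private theorem signS_ins_ne {v w : V} {κ : Finset V} (hvw : v ≠ w) (hv : v ∉ κ) :
    insert v κ ≠ insert w κ := by
  intro h
  have h1 : v ∈ insert w κ := h ▸ Finset.mem_insert_self v κ
  rcases Finset.mem_insert.mp h1 with h2 | h2
  · exact hvw h2
  · exact hv h2

/-- a ridge is in two facets, with opposite signs -/
theorem IsSphere.ridge {ν : V → ℕ} {G : SimpleGraph V} {n : ℕ} {U : Finset V}
    {o : Finset V → ℝ} (hK : IsSphere ν G n U o) {κ : Finset V} (hκ : κ ⊆ U) (hcl : Cl G κ)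
    (hn : κ.card + 1 = n) :
    ∃ v w, v ≠ w ∧ v ∉ κ ∧ w ∉ κ ∧ insert v κ ∈ fac G n U ∧ insert w κ ∈ fac G n U ∧
      (∀ u, u ∉ κ → insert u κ ∈ fac G n U → u = v ∨ u = w) ∧
      sgn ν v κ * o (insert v κ) + sgn ν w κ * o (insert w κ) = 0 := by
  classical
  have hone : ∀ τ ∈ fac G n U, o τ ≠ 0 := fun τ hτ => by
    obtain ⟨h1, h2, h3⟩ := signS_mem_fac.mp hτ
    exact hK.ne τ h1 h2 h3
  -- a first vertex
  obtain ⟨τ, hτU, hτc, hτn, hκτ⟩ := hK.pure κ hκ hcl
  have hcd : (τ \ κ).card = 1 := by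
    rw [Finset.card_sdiff_of_subset hκτ]; omega
  obtain ⟨v, hv⟩ := Finset.card_eq_one.mp hcd
  have hvτ : v ∈ τ \ κ := by rw [hv]; exact Finset.mem_singleton_self v
  have hvκ : v ∉ κ := (Finset.mem_sdiff.mp hvτ).2
  have hins : insert v κ = τ := by
    have : τ = κ ∪ (τ \ κ) := (Finset.union_sdiff_of_subset hκτ).symm
    rw [this, hv, Finset.insert_eq, Finset.union_comm]
  have hvf : insert v κ ∈ fac G n U := by
    rw [hins]; exact signS_mem_fac.mpr ⟨hτU, hτc, hτn⟩
  have hvU : v ∈ U := hτU (Finset.mem_sdiff.mp hvτ).1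
  -- the sum
  have hc := hK.cyc κ hκ hcl hn
  -- a second vertex
  have hex : ∃ w ∈ U, w ≠ v ∧ w ∉ κ ∧ insert w κ ∈ fac G n U := by
    by_contra hno
    push Not at hno
    rw [Finset.sum_eq_single v] at hc
    · rw [if_pos ⟨hvκ, hvf⟩] at hc
      exact (mul_ne_zero (signS_sgn_ne ν v κ) (hone _ hvf)) hc
    · intro w hw hwv
      rw [if_neg]
      rintro ⟨h1, h2⟩
      exact hno w hw hwv h1 h2
    · intro h; exact absurd hvU h
  obtain ⟨w, hwU, hwv, hwκ, hwf⟩ := hex
  have hvw : v ≠ w := fun h => hwv h.symm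
  -- no third vertex
  have hthird : ∀ u, u ∉ κ → insert u κ ∈ fac G n U → u = v ∨ u = w := by
    intro u huκ huf
    by_contra hno
    push Not at hno
    obtain ⟨huv, huw⟩ := hno
    set ψ : Finset V → ℝ := fun σ =>
      if σ = insert v κ then (o (insert v κ))⁻¹ else if σ = insert w κ then -(o (insert w κ))⁻¹
        else 0 with hψ
    have hsum : ∑ σ ∈ fac G n U, (if κ ⊆ σ then o σ * ψ σ else 0) = 0 := by
      rw [← Finset.add_sum_erase _ _ hvf]
      have hwf' : insert w κ ∈ (fac G n U).erase (insert v κ) :=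
        Finset.mem_erase.mpr ⟨(signS_ins_ne hvw hvκ).symm, hwf⟩
      rw [← Finset.add_sum_erase _ _ hwf']
      rw [Finset.sum_eq_zero]
      · rw [if_pos (Finset.subset_insert v κ), if_pos (Finset.subset_insert w κ)]
        have e1 : ψ (insert v κ) = (o (insert v κ))⁻¹ := by simp [hψ]
        have e2 : ψ (insert w κ) = -(o (insert w κ))⁻¹ := by
          simp only [hψ]
          rw [if_neg (signS_ins_ne hvw hvκ).symm]
          simp
        rw [e1, e2, mul_inv_cancel₀ (hone _ hvf), mul_neg, mul_inv_cancel₀ (hone _ hwf)]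
        norm_num
      · intro σ hσ
        obtain ⟨h1, h2⟩ := Finset.mem_erase.mp hσ
        obtain ⟨h3, _⟩ := Finset.mem_erase.mp h2
        have e3 : ψ σ = 0 := by
          simp only [hψ]
          rw [if_neg h3, if_neg h1]
        rw [e3, mul_zero]
        split <;> rfl
    obtain ⟨χ, hχ⟩ := hK.top κ hκ hcl ψ hsum
    have key : ∀ x, x ∉ κ → insert x κ ∈ fac G n U →
        ψ (insert x κ) = sgn ν x (insert x κ) * χ κ := by
      intro x hx hxf
      obtain ⟨h1, h2, h3⟩ := signS_mem_fac.mp hxf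
      rw [hχ _ h1 h2 (Finset.subset_insert x κ) h3]
      have : insert x κ \ κ = {x} := by
        ext y
        simp only [Finset.mem_sdiff, Finset.mem_insert, Finset.mem_singleton]
        constructor
        · rintro ⟨h | h, h'⟩
          · exact h
          · exact absurd h h'
        · rintro rfl
          exact ⟨Or.inl rfl, hx⟩
      rw [this, Finset.sum_singleton, Finset.erase_insert hx]
    have hu := key u huκ huf
    have hu0 : ψ (insert u κ) = 0 := by
      simp only [hψ]
      rw [if_neg (signS_ins_ne huv huκ), if_neg (signS_ins_ne huw huκ)]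
    rw [hu0] at hu
    have hχ0 : χ κ = 0 := by
      rcases mul_eq_zero.mp hu.symm with h | h
      · exact absurd h (signS_sgn_ne ν u _)
      · exact h
    have hv1 := key v hvκ hvf
    rw [hχ0, mul_zero] at hv1
    have hv2 : ψ (insert v κ) = (o (insert v κ))⁻¹ := by simp [hψ]
    rw [hv2] at hv1
    exact (inv_ne_zero (hone _ hvf)) hv1
  refine ⟨v, w, hvw, hvκ, hwκ, hvf, hwf, hthird, ?_⟩
  rw [← Finset.add_sum_erase _ _ hvU] at hc
  have hwU' : w ∈ U.erase v := Finset.mem_erase.mpr ⟨hwv, hwU⟩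
  rw [← Finset.add_sum_erase _ _ hwU', Finset.sum_eq_zero, if_pos ⟨hvκ, hvf⟩,
    if_pos ⟨hwκ, hwf⟩, add_zero] at hc
  · exact hc
  · intro u hu
    obtain ⟨h1, h2⟩ := Finset.mem_erase.mp hu
    obtain ⟨h3, _⟩ := Finset.mem_erase.mp h2
    rw [if_neg]
    rintro ⟨h4, h5⟩
    rcases hthird u h4 h5 with h | h
    · exact h3 h
    · exact h1 h

private theorem signS_swap {G : SimpleGraph V} {n : ℕ} {U : Finset V} (ν : V → ℕ)
    (z χ : Finset V → ℝ) :
    ∑ σ ∈ fac G n U, z σ * ∑ v ∈ σ, sgn ν v σ * χ (σ.erase v) =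
      ∑ κ : Finset V, χ κ * ∑ v ∈ Finset.univ.filter (fun v => v ∉ κ ∧ insert v κ ∈ fac G n U),
        sgn ν v κ * z (insert v κ) := by
  classical
  have h1 : ∑ σ ∈ fac G n U, z σ * ∑ v ∈ σ, sgn ν v σ * χ (σ.erase v) =
      ∑ x ∈ (Finset.univ : Finset (Finset V × V)).filter
        (fun x => x.1 ∈ fac G n U ∧ x.2 ∈ x.1), z x.1 * (sgn ν x.2 x.1 * χ (x.1.erase x.2)) := by
    rw [Finset.sum_filter, ← Finset.univ_product_univ, Finset.sum_product]
    rw [← Finset.sum_filter_add_sum_filter_not Finset.univ (fun σ => σ ∈ fac G n U)]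
    rw [Finset.sum_eq_zero (s := Finset.univ.filter (fun σ => ¬ σ ∈ fac G n U)), add_zero]
    · rw [Finset.filter_mem_eq_inter, Finset.univ_inter]
      refine Finset.sum_congr rfl fun σ hσ => ?_
      rw [Finset.mul_sum, ← Finset.sum_filter]
      have : (Finset.univ.filter fun v => σ ∈ fac G n U ∧ v ∈ σ) = σ := by
        ext v; simp [hσ]
      rw [this]
    · intro σ hσ
      have hσ' := (Finset.mem_filter.mp hσ).2
      refine Finset.sum_eq_zero fun v _ => ?_
      rw [if_neg]
      rintro ⟨h, _⟩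
      exact hσ' h
  have h2 : ∑ κ : Finset V, χ κ * ∑ v ∈ Finset.univ.filter
        (fun v => v ∉ κ ∧ insert v κ ∈ fac G n U), sgn ν v κ * z (insert v κ) =
      ∑ x ∈ (Finset.univ : Finset (Finset V × V)).filter
        (fun x => x.2 ∉ x.1 ∧ insert x.2 x.1 ∈ fac G n U),
          χ x.1 * (sgn ν x.2 x.1 * z (insert x.2 x.1)) := by
    rw [Finset.sum_filter, ← Finset.univ_product_univ, Finset.sum_product]
    refine Finset.sum_congr rfl fun κ _ => ?_
    rw [Finset.mul_sum, ← Finset.sum_filter]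
  rw [h1, h2]
  refine Finset.sum_nbij' (fun x => (x.1.erase x.2, x.2)) (fun x => (insert x.2 x.1, x.2))
    ?_ ?_ ?_ ?_ ?_
  · rintro ⟨σ, v⟩ hx
    obtain ⟨h3, h4⟩ := (Finset.mem_filter.mp hx).2
    simp only at h3 h4
    refine Finset.mem_filter.mpr ⟨Finset.mem_univ _, ?_, ?_⟩
    · simp
    · simpa only [Finset.insert_erase h4] using h3
  · rintro ⟨κ, v⟩ hx
    obtain ⟨h3, h4⟩ := (Finset.mem_filter.mp hx).2
    simp only at h3 h4
    exact Finset.mem_filter.mpr ⟨Finset.mem_univ _, h4, Finset.mem_insert_self v κ⟩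
  · rintro ⟨σ, v⟩ hx
    obtain ⟨h3, h4⟩ := (Finset.mem_filter.mp hx).2
    simp only at h3 h4
    simp only [Finset.insert_erase h4]
  · rintro ⟨κ, v⟩ hx
    obtain ⟨h3, h4⟩ := (Finset.mem_filter.mp hx).2
    simp only at h3 h4
    simp only [Finset.erase_insert h3]
  · rintro ⟨σ, v⟩ hx
    obtain ⟨h3, h4⟩ := (Finset.mem_filter.mp hx).2
    simp only at h3 h4
    simp only [Finset.insert_erase h4, sgn_erase_self]
    ring

/-- **Signs.** A function on the facets which changes sign like the orientation is a positive or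
negative multiple of it. -/
theorem IsSphere.sign {ν : V → ℕ} {G : SimpleGraph V} {n : ℕ} {U : Finset V}
    {o : Finset V → ℝ} (hK : IsSphere ν G n U o) (D : Finset V → ℝ)
    (hD : ∀ τ ∈ fac G n U, D τ ≠ 0)
    (hopp : ∀ (κ : Finset V) (v w : V), v ≠ w → v ∉ κ → w ∉ κ → insert v κ ∈ fac G n U →
      insert w κ ∈ fac G n U →
      (sgn ν v κ * D (insert v κ)) * (sgn ν w κ * D (insert w κ)) < 0) :
    ∃ s : ℝ, s * s = 1 ∧ ∀ τ ∈ fac G n U, 0 < s * (o τ * D τ) := by
  classical
  have hone : ∀ τ ∈ fac G n U, o τ ≠ 0 := fun τ hτ => by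
    obtain ⟨h1, h2, h3⟩ := signS_mem_fac.mp hτ
    exact hK.ne τ h1 h2 h3
  have hoD : ∀ τ ∈ fac G n U, o τ * D τ ≠ 0 := fun τ hτ => mul_ne_zero (hone τ hτ) (hD τ hτ)
  set z : Finset V → ℝ := fun σ => if 0 < o σ * D σ then o σ else 0 with hz
  -- the function `z` is a cycle
  have hcyc : ∀ κ : Finset V, ∑ v ∈ Finset.univ.filter
      (fun v => v ∉ κ ∧ insert v κ ∈ fac G n U), sgn ν v κ * z (insert v κ) = 0 := by
    intro κ
    by_cases hne : (Finset.univ.filter (fun v => v ∉ κ ∧ insert v κ ∈ fac G n U)).Nonempty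
    · obtain ⟨x, hx⟩ := hne
      obtain ⟨hxκ, hxf⟩ := (Finset.mem_filter.mp hx).2
      obtain ⟨h1, h2, h3⟩ := signS_mem_fac.mp hxf
      have hκU : κ ⊆ U := (Finset.subset_insert x κ).trans h1
      have hκc : Cl G κ := fun a ha b hb hab =>
        h2 a (Finset.mem_insert_of_mem ha) b (Finset.mem_insert_of_mem hb) hab
      have hκn : κ.card + 1 = n := by rw [← h3, Finset.card_insert_of_notMem hxκ]
      obtain ⟨v, w, hvw, hvκ, hwκ, hvf, hwf, hthird, hrel⟩ := hK.ridge hκU hκc hκn
      have hset : Finset.univ.filter (fun v => v ∉ κ ∧ insert v κ ∈ fac G n U) = {v, w} := by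
        ext u
        simp only [Finset.mem_filter, Finset.mem_univ, true_and, Finset.mem_insert,
          Finset.mem_singleton]
        constructor
        · rintro ⟨h4, h5⟩
          exact hthird u h4 h5
        · rintro (rfl | rfl)
          · exact ⟨hvκ, hvf⟩
          · exact ⟨hwκ, hwf⟩
      rw [hset, Finset.sum_pair hvw]
      have hop := hopp κ v w hvw hvκ hwκ hvf hwf
      -- signs agree
      have hiff : 0 < o (insert v κ) * D (insert v κ) ↔ 0 < o (insert w κ) * D (insert w κ) := by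
        have e1 : sgn ν w κ * o (insert w κ) = -(sgn ν v κ * o (insert v κ)) := by linarith
        have e2 : (o (insert v κ) * D (insert v κ)) * (o (insert w κ) * D (insert w κ)) =
            -((sgn ν v κ * o (insert v κ)) ^ 2 *
              ((sgn ν v κ * D (insert v κ)) * (sgn ν w κ * D (insert w κ)))) := by
          have s1 := sgn_sq ν v κ
          have s2 := sgn_sq ν w κ
          have e3 : o (insert w κ) = sgn ν w κ * (-(sgn ν v κ * o (insert v κ))) := by
            rw [← e1, ← mul_assoc, s2, one_mul]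
          rw [e3]
          have : (sgn ν v κ) ^ 2 = 1 := by rw [sq]; exact s1
          calc (o (insert v κ) * D (insert v κ)) *
                ((sgn ν w κ * (-(sgn ν v κ * o (insert v κ)))) * D (insert w κ))
              = -(sgn ν v κ * sgn ν w κ * o (insert v κ) ^ 2 * D (insert v κ) *
                  D (insert w κ)) := by ring
            _ = -((sgn ν v κ) ^ 2 * (sgn ν v κ * sgn ν w κ * o (insert v κ) ^ 2 *
                  D (insert v κ) * D (insert w κ))) := by rw [this, one_mul]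
            _ = _ := by ring
        have hpos : 0 < (o (insert v κ) * D (insert v κ)) * (o (insert w κ) * D (insert w κ)) := by
          rw [e2]
          have h5 : 0 < (sgn ν v κ * o (insert v κ)) ^ 2 :=
            sq_pos_of_ne_zero (mul_ne_zero (signS_sgn_ne ν v κ) (hone _ hvf))
          have := mul_neg_of_pos_of_neg h5 hop
          linarith
        constructor
        · intro h; exact (pos_iff_pos_of_mul_pos hpos).mp h
        · intro h; exact (pos_iff_pos_of_mul_pos hpos).mpr h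
      by_cases hp : 0 < o (insert v κ) * D (insert v κ)
      · have e1 : z (insert v κ) = o (insert v κ) := by simp only [hz]; rw [if_pos hp]
        have e2 : z (insert w κ) = o (insert w κ) := by simp only [hz]; rw [if_pos (hiff.mp hp)]
        rw [e1, e2]; exact hrel
      · have e1 : z (insert v κ) = 0 := by simp only [hz]; rw [if_neg hp]
        have e2 : z (insert w κ) = 0 := by
          simp only [hz]; rw [if_neg (fun h => hp (hiff.mpr h))]
        rw [e1, e2]; ring
    · rw [Finset.not_nonempty_iff_eq_empty.mp hne, Finset.sum_empty]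
  have hclaim : ∀ ψ : Finset V → ℝ, ∑ σ ∈ fac G n U, o σ * ψ σ = 0 →
      ∑ σ ∈ fac G n U, z σ * ψ σ = 0 := by
    intro ψ hψ
    obtain ⟨χ, hχ⟩ := hK.top ∅ (Finset.empty_subset U)
      (fun a ha => absurd ha (Finset.notMem_empty a)) ψ (by
        rw [← hψ]
        refine Finset.sum_congr rfl fun σ _ => ?_
        rw [if_pos (Finset.empty_subset σ)])
    have : ∑ σ ∈ fac G n U, z σ * ψ σ =
        ∑ σ ∈ fac G n U, z σ * ∑ v ∈ σ, sgn ν v σ * χ (σ.erase v) := by
      refine Finset.sum_congr rfl fun σ hσ => ?_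
      obtain ⟨h1, h2, h3⟩ := signS_mem_fac.mp hσ
      rw [hχ σ h1 h2 (Finset.empty_subset σ) h3, Finset.sdiff_empty]
    rw [this, signS_swap]
    refine Finset.sum_eq_zero fun κ _ => ?_
    rw [hcyc κ, mul_zero]
  -- comparison of two facets
  have hcmp : ∀ σ ∈ fac G n U, ∀ τ ∈ fac G n U, z σ / o σ = z τ / o τ := by
    intro σ hσ τ hτ
    by_cases hst : σ = τ
    · rw [hst]
    set ψ : Finset V → ℝ := fun ρ => if ρ = σ then (o σ)⁻¹ else if ρ = τ then -(o τ)⁻¹ else 0
      with hψ
    have hgen : ∀ f : Finset V → ℝ, ∑ ρ ∈ fac G n U, f ρ * ψ ρ = f σ / o σ - f τ / o τ := by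
      intro f
      rw [← Finset.add_sum_erase _ _ hσ]
      have hτ' : τ ∈ (fac G n U).erase σ := Finset.mem_erase.mpr ⟨fun h => hst h.symm, hτ⟩
      rw [← Finset.add_sum_erase _ _ hτ', Finset.sum_eq_zero]
      · have e1 : ψ σ = (o σ)⁻¹ := by simp [hψ]
        have e2 : ψ τ = -(o τ)⁻¹ := by
          simp only [hψ]
          rw [if_neg (fun h => hst h.symm)]
          simp
        rw [e1, e2, add_zero, div_eq_mul_inv, div_eq_mul_inv]
        ring
      · intro ρ hρ
        obtain ⟨h1, h2⟩ := Finset.mem_erase.mp hρ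
        obtain ⟨h3, _⟩ := Finset.mem_erase.mp h2
        simp only [hψ]
        rw [if_neg h3, if_neg h1, mul_zero]
    have h0 : ∑ ρ ∈ fac G n U, o ρ * ψ ρ = 0 := by
      rw [hgen o, div_self (hone σ hσ), div_self (hone τ hτ), sub_self]
    have h1 := hclaim ψ h0
    rw [hgen z] at h1
    linarith
  have hz1 : ∀ σ ∈ fac G n U, 0 < o σ * D σ → z σ / o σ = 1 := by
    intro σ hσ hp
    have : z σ = o σ := by simp only [hz]; rw [if_pos hp]
    rw [this, div_self (hone σ hσ)]
  have hz0 : ∀ σ ∈ fac G n U, ¬ 0 < o σ * D σ → z σ / o σ = 0 := by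
    intro σ hσ hp
    have : z σ = 0 := by simp only [hz]; rw [if_neg hp]
    rw [this, zero_div]
  by_cases hP : ∃ σ ∈ fac G n U, 0 < o σ * D σ
  · obtain ⟨σ, hσ, hp⟩ := hP
    refine ⟨1, by norm_num, fun τ hτ => ?_⟩
    rw [one_mul]
    by_contra hn
    have h1 := hcmp σ hσ τ hτ
    rw [hz1 σ hσ hp, hz0 τ hτ hn] at h1
    exact one_ne_zero h1
  · push Not at hP
    refine ⟨-1, by norm_num, fun τ hτ => ?_⟩
    have h1 := hP τ hτ
    have h2 := hoD τ hτ
    have h3 : o τ * D τ < 0 := lt_of_le_of_ne h1 h2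
    linarith

end Pool.Agent.H85.Fold
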