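import Pool.Agent.H85.Fold.Sgn

/-!
# Project FOLD: components in links
-/

set_option autoImplicit false
set_option linter.unusedSectionVars false

open Finset

namespace Pool.Agent.H85.Fold

variable {V : Type} [DecidableEq V] [Fintype V]

theorem mem_nbr {G : SimpleGraph V} {v u : V} {U : Finset V} :
    u ∈ nbr G v U ↔ u ∈ U ∧ G.Adj v u := by
  classical
  unfold nbr
  exact Finset.mem_filter

theorem nbr_subset (G : SimpleGraph V) (v : V) (U : Finset V) : nbr G v U ⊆ U :=
  fun _ hu => (mem_nbr.1 hu).1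

/-- the cliques of the link -/
theorem cl_insert_iff {G : SimpleGraph V} {v : V} {U σ : Finset V} (hv : v ∈ U) :
    (v ∉ σ ∧ insert v σ ⊆ U ∧ Cl G (insert v σ)) ↔ (σ ⊆ nbr G v U ∧ Cl G σ) := by
  constructor
  · rintro ⟨h1, h2, h3⟩
    refine ⟨fun u hu => ?_, fun u hu w hw huw =>
      h3 u (Finset.mem_insert_of_mem hu) w (Finset.mem_insert_of_mem hw) huw⟩
    rw [mem_nbr]
    refine ⟨h2 (Finset.mem_insert_of_mem hu), ?_⟩
    refine h3 v (Finset.mem_insert_self v σ) u (Finset.mem_insert_of_mem hu) ?_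
    rintro rfl
    exact h1 hu
  · rintro ⟨h1, h2⟩
    refine ⟨fun h => ?_, ?_, ?_⟩
    · exact G.loopless.irrefl v (mem_nbr.1 (h1 h)).2
    · intro u hu
      rcases Finset.mem_insert.1 hu with rfl | hu
      · exact hv
      · exact (mem_nbr.1 (h1 hu)).1
    · intro u hu w hw huw
      rcases Finset.mem_insert.1 hu with hu | hu
      · rcases Finset.mem_insert.1 hw with hw | hw
        · exact absurd (hu.trans hw.symm) huw
        · rw [hu]
          exact (mem_nbr.1 (h1 hw)).2
      · rcases Finset.mem_insert.1 hw with hw | hw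
        · rw [hw]
          exact (mem_nbr.1 (h1 hu)).2.symm
        · exact h2 u hu w hw huw

theorem nbr_nbr (G : SimpleGraph V) (a b : V) (U : Finset V) :
    nbr G b (nbr G a U) = nbr G a (nbr G b U) := by
  ext u
  simp only [mem_nbr]
  tauto

/-- the orientations of a double link differ by a sign -/
theorem linkO_linkO (ν : V → ℕ) (hν : Function.Injective ν) (a b : V) (hab : a ≠ b)
    (o : Finset V → ℝ) (σ : Finset V) (ha : a ∉ σ) (hb : b ∉ σ) :
    linkO ν b (linkO ν a o) σ = -linkO ν a (linkO ν b o) σ := by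
  unfold linkO
  rw [Finset.insert_comm a b σ]
  have h := sgn_swap ν hν a b hab σ ha hb
  calc sgn ν b σ * (sgn ν a (insert b σ) * o (insert b (insert a σ)))
      = (sgn ν a (insert b σ) * sgn ν b σ) * o (insert b (insert a σ)) := by ring
    _ = -((sgn ν b (insert a σ) * sgn ν a σ)) * o (insert b (insert a σ)) := by
        rw [h]; ring
    _ = -(sgn ν a σ * (sgn ν b (insert a σ) * o (insert b (insert a σ)))) := by ring

variable {S : Type} [AddCommGroup S] [Module ℝ S]

private theorem bd_apply (ν : V → ℕ) (c : Finset V → S) (ρ : Finset V) :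
    bd ν c ρ = ∑ v ∈ ρᶜ, sgn ν v ρ • c (insert v ρ) := rfl

private theorem d1_apply (ν : V → ℕ) (x : Finset V → Finset V → S) (ρ σ : Finset V) :
    d1 ν x ρ σ = ∑ v ∈ σ \ ρ, sgn ν v ρ • x (insert v ρ) σ := rfl

open Classical in
private theorem d2_apply (ν : V → ℕ) (G : SimpleGraph V) (U : Finset V)
    (x : Finset V → Finset V → S) (ρ σ : Finset V) :
    d2 ν G U x ρ σ =
      if σ ⊆ U ∧ Cl G σ then ∑ v ∈ σ \ ρ, sgn ν v σ • x ρ (σ.erase v) else 0 := rfl

private theorem d2_pos (ν : V → ℕ) (G : SimpleGraph V) (U : Finset V)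
    (x : Finset V → Finset V → S) (ρ σ : Finset V) (h : σ ⊆ U ∧ Cl G σ) :
    d2 ν G U x ρ σ = ∑ v ∈ σ \ ρ, sgn ν v σ • x ρ (σ.erase v) := by
  classical
  rw [d2_apply, if_pos h]

private theorem d2_neg (ν : V → ℕ) (G : SimpleGraph V) (U : Finset V)
    (x : Finset V → Finset V → S) (ρ σ : Finset V) (h : ¬ (σ ⊆ U ∧ Cl G σ)) :
    d2 ν G U x ρ σ = 0 := by
  classical
  rw [d2_apply, if_neg h]

private theorem aug_apply (G : SimpleGraph V) (n : ℕ) (U : Finset V) (o : Finset V → ℝ)
    (x : Finset V → Finset V → S) (ρ : Finset V) :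
    aug G n U o x ρ = ∑ σ ∈ fac G n U, o σ • x ρ σ := rfl

private theorem wedge_pos (ν : V → ℕ) (v : V) (g : Finset V → S) (σ : Finset V) (h : v ∈ σ) :
    wedge ν v g σ = sgn ν v σ • g (σ.erase v) := if_pos h

private theorem wedge_neg (ν : V → ℕ) (v : V) (g : Finset V → S) (σ : Finset V) (h : v ∉ σ) :
    wedge ν v g σ = 0 := if_neg h

private theorem comp_pos (ν : V → ℕ) (v : V) (c : Finset V → S) (σ : Finset V) (h : v ∈ σ) :
    comp ν v c σ = 0 := if_pos h

private theorem comp_neg (ν : V → ℕ) (v : V) (c : Finset V → S) (σ : Finset V) (h : v ∉ σ) :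
    comp ν v c σ = sgn ν v σ • c (insert v σ) := if_neg h

private theorem wedge2_pos (ν : V → ℕ) (v : V) (y : Finset V → Finset V → S) (ρ σ : Finset V)
    (h : v ∈ ρ ∧ v ∈ σ) :
    wedge2 ν v y ρ σ = (sgn ν v ρ * sgn ν v σ) • y (ρ.erase v) (σ.erase v) := if_pos h

private theorem wedge2_neg (ν : V → ℕ) (v : V) (y : Finset V → Finset V → S) (ρ σ : Finset V)
    (h : ¬ (v ∈ ρ ∧ v ∈ σ)) : wedge2 ν v y ρ σ = 0 := if_neg h

private theorem comp2_pos (ν : V → ℕ) (v : V) (x : Finset V → Finset V → S) (ρ σ : Finset V)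
    (h : v ∈ ρ ∨ v ∈ σ) : comp2 ν v x ρ σ = 0 := if_pos h

private theorem comp2_neg (ν : V → ℕ) (v : V) (x : Finset V → Finset V → S) (ρ σ : Finset V)
    (h1 : v ∉ ρ) (h2 : v ∉ σ) :
    comp2 ν v x ρ σ = (sgn ν v ρ * sgn ν v σ) • x (insert v ρ) (insert v σ) :=
  if_neg (fun h => h.elim h1 h2)

theorem comp_bd (ν : V → ℕ) (hν : Function.Injective ν) (v : V) (c : Finset V → S) :
    comp ν v (bd ν c) = -bd ν (comp ν v c) := by
  funext σ
  rw [Pi.neg_apply, bd_apply]
  by_cases hv : v ∈ σ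
  · rw [comp_pos _ _ _ _ hv, Finset.sum_eq_zero, neg_zero]
    intro u _
    rw [comp_pos _ _ _ _ (Finset.mem_insert_of_mem hv), smul_zero]
  · rw [comp_neg _ _ _ _ hv, bd_apply, Finset.compl_insert, Finset.smul_sum,
      ← Finset.sum_neg_distrib]
    have h0 : -(sgn ν v σ • comp ν v c (insert v σ)) = 0 := by
      rw [comp_pos _ _ _ _ (Finset.mem_insert_self v σ), smul_zero, neg_zero]
    rw [← Finset.sum_erase σᶜ h0]
    refine Finset.sum_congr rfl ?_
    intro u hu
    rw [Finset.mem_erase, Finset.mem_compl] at hu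
    have hvu : v ∉ insert u σ := by
      rw [Finset.mem_insert]
      rintro (h | h)
      · exact hu.1 h.symm
      · exact hv h
    rw [comp_neg _ _ _ _ hvu, smul_smul, smul_smul, Finset.insert_comm u v σ, ← neg_smul]
    congr 1
    have h := sgn_swap ν hν u v hu.1 σ hu.2 hv
    linear_combination h

theorem comp2_d1 (ν : V → ℕ) (hν : Function.Injective ν) (v : V) (x : Finset V → Finset V → S) :
    comp2 ν v (d1 ν x) = -d1 ν (comp2 ν v x) := by
  funext ρ σ
  rw [Pi.neg_apply, Pi.neg_apply, d1_apply]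
  by_cases h : v ∈ ρ ∨ v ∈ σ
  · rw [comp2_pos _ _ _ _ _ h, Finset.sum_eq_zero, neg_zero]
    intro u _
    rw [comp2_pos _ _ _ _ _ (h.imp (fun h => Finset.mem_insert_of_mem h) id), smul_zero]
  · push Not at h
    obtain ⟨h1, h2⟩ := h
    rw [comp2_neg _ _ _ _ _ h1 h2, d1_apply]
    have e : insert v σ \ insert v ρ = σ \ ρ := by
      ext u
      simp only [Finset.mem_sdiff, Finset.mem_insert]
      constructor
      · rintro ⟨h3, h4⟩
        exact ⟨h3.resolve_left (fun h => h4 (Or.inl h)), fun h => h4 (Or.inr h)⟩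
      · rintro ⟨h3, h4⟩
        refine ⟨Or.inr h3, ?_⟩
        rintro (h | h)
        · exact h2 (h ▸ h3)
        · exact h4 h
    rw [e, Finset.smul_sum, ← Finset.sum_neg_distrib]
    refine Finset.sum_congr rfl ?_
    intro u hu
    rw [Finset.mem_sdiff] at hu
    have huv : u ≠ v := fun h => h2 (h ▸ hu.1)
    have hvu : v ∉ insert u ρ := by
      rw [Finset.mem_insert]
      rintro (h | h)
      · exact huv h.symm
      · exact h1 h
    rw [comp2_neg _ _ _ _ _ hvu h2, smul_smul, smul_smul, Finset.insert_comm u v ρ, ← neg_smul]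
    congr 1
    have h := sgn_swap ν hν u v huv ρ hu.2 h1
    linear_combination sgn ν v σ * h

theorem comp2_d2 (ν : V → ℕ) (hν : Function.Injective ν) (G : SimpleGraph V) (U : Finset V)
    (v : V) (hv : v ∈ U) (x : Finset V → Finset V → S) :
    comp2 ν v (d2 ν G U x) = -d2 ν G (nbr G v U) (comp2 ν v x) := by
  funext ρ σ
  rw [Pi.neg_apply, Pi.neg_apply]
  by_cases h2 : v ∈ σ
  · rw [comp2_pos _ _ _ _ _ (Or.inr h2), d2_neg, neg_zero]
    rintro ⟨h3, _⟩
    exact G.loopless.irrefl v (mem_nbr.1 (h3 h2)).2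
  · by_cases h1 : v ∈ ρ
    · rw [comp2_pos _ _ _ _ _ (Or.inl h1)]
      by_cases h3 : σ ⊆ nbr G v U ∧ Cl G σ
      · rw [d2_pos _ _ _ _ _ _ h3, Finset.sum_eq_zero, neg_zero]
        intro u _
        rw [comp2_pos _ _ _ _ _ (Or.inl h1), smul_zero]
      · rw [d2_neg _ _ _ _ _ _ h3, neg_zero]
    · rw [comp2_neg _ _ _ _ _ h1 h2]
      by_cases h3 : σ ⊆ nbr G v U ∧ Cl G σ
      · have h4 := (cl_insert_iff hv).2 h3
        rw [d2_pos _ _ _ _ _ _ h3, d2_pos _ _ _ _ _ _ h4.2]
        have e : insert v σ \ insert v ρ = σ \ ρ := by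
          ext u
          simp only [Finset.mem_sdiff, Finset.mem_insert]
          constructor
          · rintro ⟨h3, h4⟩
            exact ⟨h3.resolve_left (fun h => h4 (Or.inl h)), fun h => h4 (Or.inr h)⟩
          · rintro ⟨h3, h4⟩
            refine ⟨Or.inr h3, ?_⟩
            rintro (h | h)
            · exact h2 (h ▸ h3)
            · exact h4 h
        rw [e, Finset.smul_sum, ← Finset.sum_neg_distrib]
        refine Finset.sum_congr rfl ?_
        intro u hu
        rw [Finset.mem_sdiff] at hu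
        have huv : u ≠ v := fun h => h2 (h ▸ hu.1)
        have hve : v ∉ σ.erase u := fun h => h2 (Finset.mem_of_mem_erase h)
        rw [comp2_neg _ _ _ _ _ h1 hve, smul_smul, smul_smul,
          Finset.erase_insert_of_ne huv.symm, ← neg_smul]
        congr 1
        have h := sgn_swap_mix ν hν u v huv σ hu.1 h2
        linear_combination sgn ν v ρ * h
      · rw [d2_neg _ _ _ _ _ _ h3, d2_neg, smul_zero, neg_zero]
        intro h4
        exact h3 ((cl_insert_iff hv).1 ⟨h2, h4⟩)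

theorem comp_comp (ν : V → ℕ) (hν : Function.Injective ν) (a b : V) (hab : a ≠ b)
    (c : Finset V → S) : comp ν a (comp ν b c) = -comp ν b (comp ν a c) := by
  funext σ
  rw [Pi.neg_apply]
  by_cases ha : a ∈ σ
  · rw [comp_pos _ _ _ _ ha]
    by_cases hb : b ∈ σ
    · rw [comp_pos _ _ _ _ hb, neg_zero]
    · rw [comp_neg _ _ _ _ hb, comp_pos _ _ _ _ (Finset.mem_insert_of_mem ha), smul_zero,
        neg_zero]
  · rw [comp_neg _ _ _ _ ha]
    by_cases hb : b ∈ σ
    · rw [comp_pos _ _ _ _ hb, comp_pos _ _ _ _ (Finset.mem_insert_of_mem hb), smul_zero,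
        neg_zero]
    · have h1 : b ∉ insert a σ := by
        rw [Finset.mem_insert]
        rintro (h | h)
        · exact hab h.symm
        · exact hb h
      have h2 : a ∉ insert b σ := by
        rw [Finset.mem_insert]
        rintro (h | h)
        · exact hab h
        · exact ha h
      rw [comp_neg _ _ _ _ hb, comp_neg _ _ _ _ h1, comp_neg _ _ _ _ h2, smul_smul, smul_smul,
        Finset.insert_comm a b σ, ← neg_smul]
      congr 1
      have h := sgn_swap ν hν a b hab σ ha hb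
      linear_combination h

theorem comp2_comp2 (ν : V → ℕ) (hν : Function.Injective ν) (a b : V) (hab : a ≠ b)
    (x : Finset V → Finset V → S) : comp2 ν a (comp2 ν b x) = comp2 ν b (comp2 ν a x) := by
  funext ρ σ
  by_cases ha : a ∈ ρ ∨ a ∈ σ
  · rw [comp2_pos _ _ _ _ _ ha]
    by_cases hb : b ∈ ρ ∨ b ∈ σ
    · rw [comp2_pos _ _ _ _ _ hb]
    · push Not at hb
      rw [comp2_neg _ _ _ _ _ hb.1 hb.2, comp2_pos, smul_zero]
      exact ha.imp (fun h => Finset.mem_insert_of_mem h) (fun h => Finset.mem_insert_of_mem h)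
  · by_cases hb : b ∈ ρ ∨ b ∈ σ
    · push Not at ha
      rw [comp2_pos _ _ _ _ _ hb, comp2_neg _ _ _ _ _ ha.1 ha.2, comp2_pos, smul_zero]
      exact hb.imp (fun h => Finset.mem_insert_of_mem h) (fun h => Finset.mem_insert_of_mem h)
    · push Not at ha hb
      obtain ⟨a1, a2⟩ := ha
      obtain ⟨b1, b2⟩ := hb
      have h1 : ∀ τ : Finset V, b ∉ τ → b ∉ insert a τ := by
        intro τ hb
        rw [Finset.mem_insert]
        rintro (h | h)
        · exact hab h.symm
        · exact hb h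
      have h2 : ∀ τ : Finset V, a ∉ τ → a ∉ insert b τ := by
        intro τ ha
        rw [Finset.mem_insert]
        rintro (h | h)
        · exact hab h
        · exact ha h
      rw [comp2_neg _ _ _ _ _ a1 a2, comp2_neg _ _ _ _ _ b1 b2,
        comp2_neg _ _ _ _ _ (h1 ρ b1) (h1 σ b2), comp2_neg _ _ _ _ _ (h2 ρ a1) (h2 σ a2),
        smul_smul, smul_smul, Finset.insert_comm a b ρ, Finset.insert_comm a b σ]
      congr 1
      have e1 := sgn_swap ν hν a b hab ρ a1 b1
      have e2 := sgn_swap ν hν a b hab σ a2 b2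
      calc sgn ν a ρ * sgn ν a σ * (sgn ν b (insert a ρ) * sgn ν b (insert a σ))
          = (sgn ν b (insert a ρ) * sgn ν a ρ) * (sgn ν b (insert a σ) * sgn ν a σ) := by ring
        _ = (-(sgn ν a (insert b ρ) * sgn ν b ρ)) * (-(sgn ν a (insert b σ) * sgn ν b σ)) := by
            rw [e1, e2]
        _ = sgn ν b ρ * sgn ν b σ * (sgn ν a (insert b ρ) * sgn ν a (insert b σ)) := by ring

/-- the boundary of a join -/
theorem bd_wedge (ν : V → ℕ) (hν : Function.Injective ν) (v : V) (g : Finset V → S)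
    (hg : ∀ σ, v ∈ σ → g σ = 0) : bd ν (wedge ν v g) = g - wedge ν v (bd ν g) := by
  funext ρ
  rw [Pi.sub_apply, bd_apply]
  by_cases hv : v ∈ ρ
  · rw [wedge_pos _ _ _ _ hv, hg ρ hv, zero_sub, bd_apply, Finset.compl_erase,
      Finset.sum_insert (by rw [Finset.mem_compl]; exact fun h => h hv),
      hg _ (Finset.mem_insert_self v _), smul_zero, zero_add, Finset.smul_sum,
      ← Finset.sum_neg_distrib]
    refine Finset.sum_congr rfl ?_
    intro u hu
    rw [Finset.mem_compl] at hu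
    have huv : u ≠ v := fun h => hu (h ▸ hv)
    rw [wedge_pos _ _ _ _ (Finset.mem_insert_of_mem hv), Finset.erase_insert_of_ne huv,
      smul_smul, smul_smul, ← neg_smul]
    congr 1
    exact sgn_swap_mix ν hν v u huv.symm ρ hv hu
  · rw [wedge_neg _ _ _ _ hv, sub_zero, Finset.sum_eq_single v]
    · rw [wedge_pos _ _ _ _ (Finset.mem_insert_self v ρ), Finset.erase_insert hv, smul_smul,
        sgn_insert_self, sgn_sq, one_smul]
    · intro u _ huv
      rw [wedge_neg, smul_zero]
      rw [Finset.mem_insert]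
      rintro (h | h)
      · exact huv h.symm
      · exact hv h
    · intro h
      exact absurd (Finset.mem_compl.2 hv) h

theorem comp_wedge_self (ν : V → ℕ) (v : V) (g : Finset V → S) (hg : ∀ σ, v ∈ σ → g σ = 0) :
    comp ν v (wedge ν v g) = g := by
  funext σ
  by_cases hv : v ∈ σ
  · rw [comp_pos _ _ _ _ hv, hg σ hv]
  · rw [comp_neg _ _ _ _ hv, wedge_pos _ _ _ _ (Finset.mem_insert_self v σ),
      Finset.erase_insert hv, smul_smul, sgn_insert_self, sgn_sq, one_smul]

theorem comp_wedge (ν : V → ℕ) (hν : Function.Injective ν) (a b : V) (hab : a ≠ b)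
    (g : Finset V → S) : comp ν b (wedge ν a g) = -wedge ν a (comp ν b g) := by
  funext σ
  rw [Pi.neg_apply]
  by_cases hb : b ∈ σ
  · rw [comp_pos _ _ _ _ hb]
    by_cases ha : a ∈ σ
    · rw [wedge_pos _ _ _ _ ha, comp_pos _ _ _ _ (Finset.mem_erase.2 ⟨hab.symm, hb⟩), smul_zero,
        neg_zero]
    · rw [wedge_neg _ _ _ _ ha, neg_zero]
  · rw [comp_neg _ _ _ _ hb]
    by_cases ha : a ∈ σ
    · have hbe : b ∉ σ.erase a := fun h => hb (Finset.mem_of_mem_erase h)
      rw [wedge_pos _ _ _ _ ha, wedge_pos _ _ _ _ (Finset.mem_insert_of_mem ha),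
        comp_neg _ _ _ _ hbe, Finset.erase_insert_of_ne hab.symm, smul_smul, smul_smul,
        ← neg_smul]
      congr 1
      exact sgn_swap_mix ν hν a b hab σ ha hb
    · have h1 : a ∉ insert b σ := by
        rw [Finset.mem_insert]
        rintro (h | h)
        · exact hab h
        · exact ha h
      rw [wedge_neg _ _ _ _ ha, wedge_neg _ _ _ _ h1, smul_zero, neg_zero]

/-- a chain is the sum of a chain off `v` and of the join of `v` with its component -/
theorem eq_wedge_comp (ν : V → ℕ) (v : V) (c : Finset V → S) (σ : Finset V) :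
    c σ = (if v ∈ σ then 0 else c σ) + wedge ν v (comp ν v c) σ := by
  by_cases hv : v ∈ σ
  · rw [if_pos hv, zero_add, wedge_pos _ _ _ _ hv,
      comp_neg _ _ _ _ (Finset.notMem_erase v σ), Finset.insert_erase hv, smul_smul,
      sgn_erase_self, sgn_sq, one_smul]
  · rw [if_neg hv, wedge_neg _ _ _ _ hv, add_zero]

/-- the boundary of a join of double chains, first variable -/
theorem d1_wedge2 (ν : V → ℕ) (hν : Function.Injective ν) (v : V) (y : Finset V → Finset V → S)
    (ρ σ : Finset V) :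
    d1 ν (wedge2 ν v y) ρ σ =
      (if v ∈ σ ∧ v ∉ ρ then sgn ν v σ • y ρ (σ.erase v) else 0) - wedge2 ν v (d1 ν y) ρ σ := by
  rw [d1_apply]
  by_cases hs : v ∈ σ
  · by_cases hr : v ∈ ρ
    · rw [if_neg (fun h => h.2 hr), zero_sub, wedge2_pos _ _ _ _ _ ⟨hr, hs⟩, d1_apply]
      have e : σ.erase v \ ρ.erase v = σ \ ρ := by
        ext u
        simp only [Finset.mem_sdiff, Finset.mem_erase]
        constructor
        · rintro ⟨⟨h3, h4⟩, h5⟩
          exact ⟨h4, fun h => h5 ⟨h3, h⟩⟩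
        · rintro ⟨h3, h4⟩
          exact ⟨⟨fun h => h4 (h ▸ hr), h3⟩, fun h => h4 h.2⟩
      rw [e, Finset.smul_sum, ← Finset.sum_neg_distrib]
      refine Finset.sum_congr rfl ?_
      intro u hu
      rw [Finset.mem_sdiff] at hu
      have huv : u ≠ v := fun h => hu.2 (h ▸ hr)
      rw [wedge2_pos _ _ _ _ _ ⟨Finset.mem_insert_of_mem hr, hs⟩,
        Finset.erase_insert_of_ne huv, smul_smul, smul_smul, ← neg_smul]
      congr 1
      have h := sgn_swap_mix ν hν v u huv.symm ρ hr hu.2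
      linear_combination sgn ν v σ * h
    · rw [if_pos ⟨hs, hr⟩, wedge2_neg _ _ _ _ _ (fun h => hr h.1), sub_zero,
        Finset.sum_eq_single v]
      · rw [wedge2_pos _ _ _ _ _ ⟨Finset.mem_insert_self v ρ, hs⟩, Finset.erase_insert hr,
          smul_smul, sgn_insert_self, ← mul_assoc, sgn_sq, one_mul]
      · intro u _ huv
        rw [wedge2_neg, smul_zero]
        rintro ⟨h1, _⟩
        rcases Finset.mem_insert.1 h1 with h | h
        · exact huv h.symm
        · exact hr h
      · intro h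
        exact absurd (Finset.mem_sdiff.2 ⟨hs, hr⟩) h
  · rw [if_neg (fun h => hs h.1), wedge2_neg _ _ _ _ _ (fun h => hs h.2), sub_zero,
      Finset.sum_eq_zero]
    intro u _
    rw [wedge2_neg _ _ _ _ _ (fun h => hs h.2), smul_zero]

/-- the coboundary of a join of double chains, second variable -/
theorem d2_wedge2 (ν : V → ℕ) (hν : Function.Injective ν) (G : SimpleGraph V) (U : Finset V)
    (v : V) (hv : v ∈ U) (y : Finset V → Finset V → S) :
    d2 ν G U (wedge2 ν v y) = -wedge2 ν v (d2 ν G (nbr G v U) y) := by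
  funext ρ σ
  rw [Pi.neg_apply, Pi.neg_apply]
  by_cases h : v ∈ ρ ∧ v ∈ σ
  · obtain ⟨hr, hs⟩ := h
    rw [wedge2_pos _ _ _ _ _ ⟨hr, hs⟩]
    have hcond : (σ ⊆ U ∧ Cl G σ) ↔ (σ.erase v ⊆ nbr G v U ∧ Cl G (σ.erase v)) := by
      rw [← cl_insert_iff hv, Finset.insert_erase hs]
      exact ⟨fun h => ⟨Finset.notMem_erase v σ, h⟩, fun h => h.2⟩
    by_cases hc : σ ⊆ U ∧ Cl G σ
    · rw [d2_pos _ _ _ _ _ _ hc, d2_pos _ _ _ _ _ _ (hcond.1 hc)]
      have e : σ.erase v \ ρ.erase v = σ \ ρ := by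
        ext u
        simp only [Finset.mem_sdiff, Finset.mem_erase]
        constructor
        · rintro ⟨⟨h3, h4⟩, h5⟩
          exact ⟨h4, fun h => h5 ⟨h3, h⟩⟩
        · rintro ⟨h3, h4⟩
          exact ⟨⟨fun h => h4 (h ▸ hr), h3⟩, fun h => h4 h.2⟩
      rw [e, Finset.smul_sum, ← Finset.sum_neg_distrib]
      refine Finset.sum_congr rfl ?_
      intro u hu
      rw [Finset.mem_sdiff] at hu
      have huv : u ≠ v := fun h => hu.2 (h ▸ hr)
      rw [wedge2_pos _ _ _ _ _ ⟨hr, Finset.mem_erase.2 ⟨huv.symm, hs⟩⟩, smul_smul, smul_smul,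
        Finset.erase_right_comm, ← neg_smul]
      congr 1
      have h := sgn_swap_erase ν hν u v huv σ hu.1 hs
      linear_combination sgn ν v ρ * h
    · rw [d2_neg _ _ _ _ _ _ hc, d2_neg _ _ _ _ _ _ (fun h => hc (hcond.2 h)), smul_zero,
        neg_zero]
  · rw [wedge2_neg _ _ _ _ _ h, neg_zero]
    by_cases hc : σ ⊆ U ∧ Cl G σ
    · rw [d2_pos _ _ _ _ _ _ hc, Finset.sum_eq_zero]
      intro u _
      rw [wedge2_neg, smul_zero]
      exact fun h' => h ⟨h'.1, Finset.mem_of_mem_erase h'.2⟩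
    · rw [d2_neg _ _ _ _ _ _ hc]

private theorem mem_fac {G : SimpleGraph V} {n : ℕ} {U τ : Finset V} :
    τ ∈ fac G n U ↔ τ ⊆ U ∧ Cl G τ ∧ τ.card = n := by
  classical
  unfold fac
  rw [Finset.mem_filter, Finset.mem_powerset]

private theorem notMem_of_fac {G : SimpleGraph V} {n : ℕ} {U σ : Finset V} {v : V}
    (h : σ ∈ fac G n (nbr G v U)) : v ∉ σ := by
  intro hv
  exact G.loopless.irrefl v (mem_nbr.1 ((mem_fac.1 h).1 hv)).2

private theorem sum_fac {A : Type} [AddCommMonoid A] (G : SimpleGraph V) (n : ℕ) (U : Finset V)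
    (v : V) (hv : v ∈ U) (h : Finset V → A) (hh : ∀ τ, v ∉ τ → h τ = 0) :
    ∑ τ ∈ fac G (n + 1) U, h τ = ∑ σ ∈ fac G n (nbr G v U), h (insert v σ) := by
  have e1 : ∑ τ ∈ (fac G (n + 1) U).filter (fun τ => v ∈ τ), h τ =
      ∑ τ ∈ fac G (n + 1) U, h τ := by
    refine Finset.sum_filter_of_ne ?_
    intro τ _ hne
    by_contra hcon
    exact hne (hh τ hcon)
  rw [← e1]
  symm
  refine Finset.sum_bij' (fun σ _ => insert v σ) (fun τ _ => τ.erase v) ?_ ?_ ?_ ?_ ?_
  · intro σ hσ
    have hvσ := notMem_of_fac hσ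
    have h1 := mem_fac.1 hσ
    have h2 := (cl_insert_iff hv).2 ⟨h1.1, h1.2.1⟩
    rw [Finset.mem_filter, mem_fac]
    exact ⟨⟨h2.2.1, h2.2.2, by rw [Finset.card_insert_of_notMem hvσ, h1.2.2]⟩,
      Finset.mem_insert_self v σ⟩
  · intro τ hτ
    rw [Finset.mem_filter, mem_fac] at hτ
    obtain ⟨⟨h1, h2, h3⟩, h4⟩ := hτ
    rw [mem_fac]
    have h5 := (cl_insert_iff (σ := τ.erase v) hv).1
      ⟨Finset.notMem_erase v τ, by rw [Finset.insert_erase h4]; exact ⟨h1, h2⟩⟩
    refine ⟨h5.1, h5.2, ?_⟩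
    rw [Finset.card_erase_of_mem h4, h3]
    rfl
  · intro σ hσ
    exact Finset.erase_insert (notMem_of_fac hσ)
  · intro τ hτ
    exact Finset.insert_erase (Finset.mem_filter.1 hτ).2
  · intro σ _
    rfl

/-- the augmentation of a component -/
theorem aug_comp2 (ν : V → ℕ) (G : SimpleGraph V) (n : ℕ) (U : Finset V) (o : Finset V → ℝ)
    (v : V) (hv : v ∈ U) (x : Finset V → Finset V → S) (hx : ∀ ρ σ, x ρ σ ≠ 0 → ρ ⊆ σ) :
    aug G n (nbr G v U) (linkO ν v o) (comp2 ν v x) = comp ν v (aug G (n + 1) U o x) := by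
  funext ρ
  rw [aug_apply]
  by_cases hr : v ∈ ρ
  · rw [comp_pos _ _ _ _ hr, Finset.sum_eq_zero]
    intro σ _
    rw [comp2_pos _ _ _ _ _ (Or.inl hr), smul_zero]
  · rw [comp_neg _ _ _ _ hr, aug_apply, sum_fac G n U v hv
      (fun τ => o τ • x (insert v ρ) τ), Finset.smul_sum]
    · refine Finset.sum_congr rfl ?_
      intro σ hσ
      have hvσ := notMem_of_fac hσ
      rw [comp2_neg _ _ _ _ _ hr hvσ, smul_smul, smul_smul]
      congr 1
      unfold linkO
      have h := sgn_sq ν v σ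
      linear_combination o (insert v σ) * sgn ν v ρ * h
    · intro τ hτ
      have h0 : x (insert v ρ) τ = 0 := by
        by_contra hne
        exact hτ (hx _ _ hne (Finset.mem_insert_self v ρ))
      show o τ • x (insert v ρ) τ = 0
      rw [h0, smul_zero]

/-- the augmentation of a join -/
theorem aug_wedge2 (ν : V → ℕ) (G : SimpleGraph V) (n : ℕ) (U : Finset V) (o : Finset V → ℝ)
    (v : V) (hv : v ∈ U) (y : Finset V → Finset V → S) :
    aug G (n + 1) U o (wedge2 ν v y) = wedge ν v (aug G n (nbr G v U) (linkO ν v o) y) := by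
  funext ρ
  rw [aug_apply]
  by_cases hr : v ∈ ρ
  · rw [wedge_pos _ _ _ _ hr, aug_apply, sum_fac G n U v hv
      (fun τ => o τ • wedge2 ν v y ρ τ), Finset.smul_sum]
    · refine Finset.sum_congr rfl ?_
      intro σ hσ
      have hvσ := notMem_of_fac hσ
      show o (insert v σ) • wedge2 ν v y ρ (insert v σ) = _
      rw [wedge2_pos _ _ _ _ _ ⟨hr, Finset.mem_insert_self v σ⟩, Finset.erase_insert hvσ,
        smul_smul, smul_smul, sgn_insert_self]
      congr 1
      unfold linkO
      ring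
    · intro τ hτ
      show o τ • wedge2 ν v y ρ τ = 0
      rw [wedge2_neg _ _ _ _ _ (fun h => hτ h.2), smul_zero]
  · rw [wedge_neg _ _ _ _ hr, Finset.sum_eq_zero]
    intro σ _
    rw [wedge2_neg _ _ _ _ _ (fun h => hr h.1), smul_zero]

end Pool.Agent.H85.Fold
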