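import Pool.Agent.H85.Fold.Alg

/-!
# Project FOLD: pushing chains off vertices
-/

set_option autoImplicit false

open Finset

namespace Pool.Agent.H85.Fold

variable {V : Type} [DecidableEq V] [Fintype V] {S : Type} [AddCommGroup S] [Module ℝ S]
  {ν : V → ℕ} {G : SimpleGraph V} {e : V → S →ₗ[ℝ] S} {M : Submodule ℝ S}

private theorem push_sgn_ne (v : V) (σ : Finset V) : sgn ν v σ ≠ 0 := by
  rcases sgn_cases ν v σ with h | h <;> rw [h] <;> norm_num

/-- a chain with vanishing component vanishes on the simplices which contain the vertex -/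
private theorem push_comp_zero {v : V} {z : Finset V → S} (hz : comp ν v z = 0) {σ : Finset V}
    (hσ : v ∈ σ) : z σ = 0 := by
  have h : comp ν v z (σ.erase v) = 0 := by rw [hz]; rfl
  have h2 : comp ν v z (σ.erase v) = sgn ν v (σ.erase v) • z σ := by
    change (if v ∈ σ.erase v then 0 else sgn ν v (σ.erase v) • z (insert v (σ.erase v))) = _
    rw [if_neg (Finset.notMem_erase v σ), Finset.insert_erase hσ]
  rw [h2] at h
  exact (smul_eq_zero.mp h).resolve_left (push_sgn_ne v _)

/-- pushing a cycle off a vertex, if its component bounds in the link -/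
theorem push_off (hν : Function.Injective ν) {Y : Finset V} {v : V} (hv : v ∈ Y) {i : ℕ}
    {c g : Finset V → S} (hc : IsF G e M Y (i + 1) c)
    (hg : IsF G e (Mk e M v) (nbr G v Y) (i + 1) g) (hgc : bd ν g = comp ν v c) :
    ∃ y, IsF G e M Y (i + 2) y ∧ IsF G e M (Y.erase v) (i + 1) (c + bd ν y) := by
  have hy : IsF G e M Y (i + 2) (wedge ν v g) := isF_wedge ν hv hg
  refine ⟨wedge ν v g, hy, ?_⟩
  have hz : IsF G e M Y (i + 1) (c + bd ν (wedge ν v g)) := hc.add (isF_bd ν hy)
  refine hz.of_supp ?_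
  intro σ hσ
  have hcomp : comp ν v (c + bd ν (wedge ν v g)) = 0 := by
    rw [map_add, comp_bd ν hν, comp_wedge_self ν v g hg.link_off, hgc, add_neg_cancel]
  have hvσ : v ∉ σ := fun h => hσ (push_comp_zero hcomp h)
  intro u hu
  refine Finset.mem_erase.mpr ⟨?_, (hz.supp σ hσ).1 hu⟩
  rintro rfl
  exact hvσ hu

/-- a cycle on `Y` is homologous to zero if it can be pushed off all vertices -/
private theorem hv_of_push_aux (hν : Function.Injective ν) {Y : Finset V} {i : ℕ}
    (h : ∀ Z ⊆ Y, ∀ v ∈ Z, ∀ c, IsF G e M Z (i + 1) c → bd ν c = 0 →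
      ∃ g, IsF G e (Mk e M v) (nbr G v Z) (i + 1) g ∧ bd ν g = comp ν v c) (n : ℕ) :
    ∀ Z ⊆ Y, Z.card = n → HV ν G e M Z (i + 1) := by
  induction n with
  | zero =>
    intro Z _ hcard c hc _
    have hZ : Z = ∅ := Finset.card_eq_zero.mp hcard
    have hc0 : c = 0 := by
      funext σ
      by_contra hne
      obtain ⟨h1, _, h3⟩ := hc.supp σ hne
      rw [hZ, Finset.subset_empty] at h1
      rw [h1, Finset.card_empty] at h3
      exact absurd h3 (by omega)
    refine ⟨0, IsF.zero, ?_⟩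
    rw [map_zero, hc0]
  | succ n ih =>
    intro Z hZ hcard c hc hbc
    obtain ⟨v, hv⟩ : Z.Nonempty := by
      rw [← Finset.card_pos]; omega
    obtain ⟨g, hg, hgc⟩ := h Z hZ v hv c hc hbc
    obtain ⟨y, hy, hcy⟩ := push_off hν hv hc hg hgc
    have hb : bd ν (c + bd ν y) = 0 := by
      rw [map_add, hbc, bd_bd ν hν, add_zero]
    obtain ⟨y', hy', hby'⟩ := ih (Z.erase v) ((Finset.erase_subset v Z).trans hZ)
      (by rw [Finset.card_erase_of_mem hv]; omega) _ hcy hb
    refine ⟨y' - y, (hy'.mono (Finset.erase_subset v Z)).sub hy, ?_⟩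
    rw [map_sub, hby', add_sub_cancel_right]

/-- vanishing from the vanishing of the homology of the links -/
theorem hv_of_links (hν : Function.Injective ν) {Y : Finset V} {i : ℕ}
    (h : ∀ Z ⊆ Y, ∀ v ∈ Z, HV ν G e (Mk e M v) (nbr G v Z) i) : HV ν G e M Y (i + 1) := by
  refine hv_of_push_aux hν ?_ Y.card Y (Finset.Subset.refl Y) rfl
  intro Z hZ v hv c hc hbc
  refine h Z hZ v hv _ (isF_comp ν v hc) ?_
  have h1 : comp ν v (bd ν c) = -bd ν (comp ν v c) := comp_bd ν hν v c
  rw [hbc, map_zero] at h1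
  exact neg_eq_zero.mp h1.symm

/-- a cycle on `Y` is homologous to zero if it can be pushed off all vertices -/
theorem hv_of_push (hν : Function.Injective ν) {Y : Finset V} {i : ℕ}
    (h : ∀ Z ⊆ Y, ∀ v ∈ Z, ∀ c, IsF G e M Z (i + 1) c → bd ν c = 0 →
      ∃ g, IsF G e (Mk e M v) (nbr G v Z) (i + 1) g ∧ bd ν g = comp ν v c) :
    HV ν G e M Y (i + 1) :=
  hv_of_push_aux hν h Y.card Y (Finset.Subset.refl Y) rfl

private theorem fill_sub_aux (hν : Function.Injective ν) {Y : Finset V} {i : ℕ} (n : ℕ) :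
    ∀ U : Finset V, Y ⊆ U → (U \ Y).card = n →
      (∀ Z ⊆ U, ∀ v ∈ Z, HV ν G e (Mk e M v) (nbr G v Z) i) → ∀ y : Finset V → S,
      IsF G e M U (i + 1) y → (∀ σ, bd ν y σ ≠ 0 → σ ⊆ Y) →
      ∃ y', IsF G e M Y (i + 1) y' ∧ bd ν y' = bd ν y := by
  induction n with
  | zero =>
    intro U hY hcard _ y hy _
    have hU : U ⊆ Y := Finset.sdiff_eq_empty_iff_subset.mp (Finset.card_eq_zero.mp hcard)
    exact ⟨y, hy.mono hU, rfl⟩
  | succ n ih =>
    intro U hY hcard h y hy hbd
    obtain ⟨v, hv⟩ : (U \ Y).Nonempty := by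
      rw [← Finset.card_pos]; omega
    have hvU : v ∈ U := (Finset.mem_sdiff.mp hv).1
    have hvY : v ∉ Y := (Finset.mem_sdiff.mp hv).2
    have hcomp0 : comp ν v (bd ν y) = 0 := by
      funext σ
      change (if v ∈ σ then 0 else sgn ν v σ • bd ν y (insert v σ)) = 0
      split_ifs with hσ
      · rfl
      · have hz : bd ν y (insert v σ) = 0 := by
          by_contra hne
          exact hvY (hbd _ hne (Finset.mem_insert_self v σ))
        rw [hz, smul_zero]
    have hcyc : bd ν (comp ν v y) = 0 := by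
      have h1 : comp ν v (bd ν y) = -bd ν (comp ν v y) := comp_bd ν hν v y
      rw [hcomp0] at h1
      exact neg_eq_zero.mp h1.symm
    obtain ⟨g, hg, hgc⟩ := h U (Finset.Subset.refl U) v hvU _ (isF_comp ν v hy) hcyc
    obtain ⟨w, _, hyw⟩ := push_off hν hvU hy hg hgc
    have hb : bd ν (y + bd ν w) = bd ν y := by
      rw [map_add, bd_bd ν hν, add_zero]
    have hcard' : ((U.erase v) \ Y).card = n := by
      have he : (U.erase v) \ Y = (U \ Y).erase v := by
        ext u
        simp only [Finset.mem_sdiff, Finset.mem_erase]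
        tauto
      rw [he, Finset.card_erase_of_mem hv]
      omega
    obtain ⟨y', hy', hby'⟩ := ih (U.erase v)
      (fun u hu => Finset.mem_erase.mpr ⟨fun huv => hvY (huv ▸ hu), hY hu⟩) hcard'
      (fun Z hZ => h Z (hZ.trans (Finset.erase_subset v U))) (y + bd ν w) hyw
      (fun σ hσ => hbd σ (by rwa [hb] at hσ))
    exact ⟨y', hy', hby'.trans hb⟩

/-- replacing a chain by a chain on the support of its boundary -/
theorem fill_sub (hν : Function.Injective ν) {U Y : Finset V} (hY : Y ⊆ U) {i : ℕ}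
    (h : ∀ Z ⊆ U, ∀ v ∈ Z, HV ν G e (Mk e M v) (nbr G v Z) i) {y : Finset V → S}
    (hy : IsF G e M U (i + 1) y) (hbd : ∀ σ, bd ν y σ ≠ 0 → σ ⊆ Y) :
    ∃ y', IsF G e M Y (i + 1) y' ∧ bd ν y' = bd ν y :=
  fill_sub_aux hν (U \ Y).card U hY rfl h y hy hbd

end Pool.Agent.H85.Fold
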