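import Pool.Agent.H85.Fold.Link

/-!
# Project FOLD: the chains of a simplex are exact
-/

set_option autoImplicit false

open Finset

namespace Pool.Agent.H85.Fold

variable {V : Type} [DecidableEq V] [Fintype V] {S : Type} [AddCommGroup S] [Module ℝ S]

private theorem simplex_nbr {G : SimpleGraph V} {v : V} {τ : Finset V} (hv : v ∉ τ)
    (hcl : Cl G (insert v τ)) : nbr G v (insert v τ) = τ := by
  ext u
  rw [mem_nbr]
  constructor
  · rintro ⟨h1, h2⟩
    rcases Finset.mem_insert.mp h1 with h | h
    · exact absurd h2 (by rw [h]; exact G.loopless.irrefl v)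
    · exact h
  · intro hu
    have hne : v ≠ u := fun h => hv (h ▸ hu)
    exact ⟨Finset.mem_insert_of_mem hu, hcl v (Finset.mem_insert_self v τ) u
      (Finset.mem_insert_of_mem hu) hne⟩

private theorem simplex_ofMk {G : SimpleGraph V} {e : V → S →ₗ[ℝ] S} {M : Submodule ℝ S} {v : V}
    {τ : Finset V} {i : ℕ} {g : Finset V → S} (h : IsF G e (Mk e M v) τ i g) :
    IsF G e M τ i g :=
  ⟨fun σ => (Submodule.mem_inf.mp (h.mem σ)).1, h.ker, h.supp⟩

private theorem simplex_neg_self {x : S} (h : x = -x) : x = 0 := by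
  have h2 : (2 : ℝ) • x = 0 := by
    rw [two_smul]
    nth_rewrite 1 [h]
    exact neg_add_cancel x
  exact (smul_eq_zero.mp h2).resolve_left (by norm_num)

/-- the restriction of a chain to the simplices without `v` -/
private theorem simplex_restr {G : SimpleGraph V} {e : V → S →ₗ[ℝ] S} {M : Submodule ℝ S} {v : V}
    {τ : Finset V} {i : ℕ} {c : Finset V → S} (h : IsF G e M (insert v τ) i c) :
    IsF G e M τ i (fun σ => if v ∈ σ then 0 else c σ) := by
  refine ⟨fun σ => ?_, fun σ u hu => ?_, fun σ hσ => ?_⟩
  · by_cases hv : v ∈ σ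
    · simp [hv]
    · simpa [hv] using h.mem σ
  · by_cases hv : v ∈ σ
    · simp [hv]
    · simpa [hv] using h.ker σ u hu
  · by_cases hv : v ∈ σ
    · simp [hv] at hσ
    · simp only [hv, if_false] at hσ
      obtain ⟨h1, h2, h3⟩ := h.supp σ hσ
      refine ⟨fun u hu => ?_, h2, h3⟩
      rcases Finset.mem_insert.mp (h1 hu) with h4 | h4
      · exact absurd (h4 ▸ hu) hv
      · exact h4

/-- **Simplices.** -/
theorem simplex_exact (ν : V → ℕ) (hν : Function.Injective ν) (G : SimpleGraph V)
    (e : V → S →ₗ[ℝ] S) (τ : Finset V) (hcl : Cl G τ) (M : Submodule ℝ S)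
    (hst : ∀ v ∈ τ, ∀ x ∈ M, e v x ∈ M)
    (hanti : ∀ u ∈ τ, ∀ v ∈ τ, ∀ x ∈ M, e u (e v x) = -e v (e u x))
    (hlift : ∀ (σ : Finset V) (v : V), v ∉ σ → insert v σ ⊆ τ → ∀ x ∈ M,
      (∀ u ∈ insert v σ, e u x = 0) → ∃ m ∈ M, (∀ u ∈ σ, e u m = 0) ∧ e v m = x)
    (i : ℕ) (hi : 1 ≤ i) : HV ν G e M τ i := by
  induction τ using Finset.induction_on generalizing M i with
  | empty =>
    intro c hc _
    have h0 : c = 0 := by
      funext σ
      by_contra hne
      obtain ⟨h1, -, h3⟩ := hc.supp σ hne
      rw [Finset.subset_empty.mp h1, Finset.card_empty] at h3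
      omega
    exact ⟨0, IsF.zero, by rw [h0, map_zero]⟩
  | insert v τ hv ih =>
    -- the hypotheses for the smaller simplex
    have hcl' : Cl G τ := fun a ha b hb hab =>
      hcl a (Finset.mem_insert_of_mem ha) b (Finset.mem_insert_of_mem hb) hab
    have hnbr : nbr G v (insert v τ) = τ := simplex_nbr hv hcl
    have hvm : v ∈ insert v τ := Finset.mem_insert_self v τ
    have ihM : ∀ i, 1 ≤ i → HV ν G e M τ i := fun i hi =>
      ih hcl' M (fun u hu x hx => hst u (Finset.mem_insert_of_mem hu) x hx)
        (fun a ha b hb x hx => hanti a (Finset.mem_insert_of_mem ha) b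
          (Finset.mem_insert_of_mem hb) x hx)
        (fun σ w hw hsub x hx hk => hlift σ w hw
          (hsub.trans (Finset.subset_insert v τ)) x hx hk) i hi
    have hsq : ∀ x ∈ M, e v (e v x) = 0 := fun x hx =>
      simplex_neg_self (hanti v hvm v hvm x hx)
    have ihV : ∀ i, 1 ≤ i → HV ν G e (Mk e M v) τ i := fun i hi => by
      refine ih hcl' (Mk e M v) (fun u hu x hx => ?_) (fun a ha b hb x hx => ?_)
        (fun σ w hw hsub x hx hk => ?_) i hi
      · obtain ⟨h1, h2⟩ := Submodule.mem_inf.mp hx
        rw [LinearMap.mem_ker] at h2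
        refine Submodule.mem_inf.mpr ⟨hst u (Finset.mem_insert_of_mem hu) x h1, ?_⟩
        rw [LinearMap.mem_ker, hanti v hvm u (Finset.mem_insert_of_mem hu) x h1, h2, map_zero,
          neg_zero]
      · exact hanti a (Finset.mem_insert_of_mem ha) b (Finset.mem_insert_of_mem hb) x
          (Submodule.mem_inf.mp hx).1
      · obtain ⟨h1, h2⟩ := Submodule.mem_inf.mp hx
        rw [LinearMap.mem_ker] at h2
        have hwτ : w ∈ τ := hsub (Finset.mem_insert_self w σ)
        have hwv : w ≠ v := fun h => hv (h ▸ hwτ)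
        obtain ⟨m, hm, hm1, hm2⟩ := hlift (insert v σ) w
          (by
            rw [Finset.mem_insert]
            rintro (h | h)
            · exact hwv h
            · exact hw h)
          (by
            intro a ha
            rcases Finset.mem_insert.mp ha with h | h
            · rw [h]; exact Finset.mem_insert_of_mem hwτ
            · rcases Finset.mem_insert.mp h with h' | h'
              · rw [h']; exact hvm
              · exact Finset.mem_insert_of_mem (hsub (Finset.mem_insert_of_mem h')))
          x h1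
          (by
            intro a ha
            rcases Finset.mem_insert.mp ha with h | h
            · rw [h]; exact hk w (Finset.mem_insert_self w σ)
            · rcases Finset.mem_insert.mp h with h' | h'
              · rw [h']; exact h2
              · exact hk a (Finset.mem_insert_of_mem h'))
        refine ⟨m, Submodule.mem_inf.mpr ⟨hm, ?_⟩, fun u hu => hm1 u
          (Finset.mem_insert_of_mem hu), hm2⟩
        rw [LinearMap.mem_ker]
        exact hm1 v (Finset.mem_insert_self v σ)
    intro c hc hbd
    obtain ⟨j, rfl⟩ : ∃ j, i = j + 1 := ⟨i - 1, by omega⟩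
    have hg0 : IsF G e (Mk e M v) τ j (comp ν v c) := by
      have := isF_comp ν v hc
      rwa [hnbr] at this
    have hg0c : bd ν (comp ν v c) = 0 := by
      have h := comp_bd ν hν v c
      rw [hbd, map_zero] at h
      have := h.symm
      rwa [neg_eq_zero] at this
    -- the component is a boundary
    have hc' : IsF G e M τ (j + 1) (fun σ => if v ∈ σ then 0 else c σ) := simplex_restr hc
    obtain ⟨g, hg, hgb⟩ : ∃ g : Finset V → S, IsF G e (Mk e M v) τ (j + 1) g ∧
        bd ν g = comp ν v c := by
      rcases Nat.eq_zero_or_pos j with hj | hj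
      · subst hj
        have hlow : ∀ ρ : Finset V, ρ ≠ ∅ →
            bd ν (fun σ => if v ∈ σ then 0 else c σ) ρ = 0 := by
          intro ρ hρ
          change ∑ u ∈ ρᶜ, sgn ν u ρ • (if v ∈ insert u ρ then 0 else c (insert u ρ)) = 0
          refine Finset.sum_eq_zero fun u hu => ?_
          rw [Finset.mem_compl] at hu
          have : (if v ∈ insert u ρ then (0 : S) else c (insert u ρ)) = 0 := by
            by_contra hne
            obtain ⟨-, -, h3⟩ := hc'.supp (insert u ρ) hne
            rw [Finset.card_insert_of_notMem hu] at h3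
            exact hρ (Finset.card_eq_zero.mp (by omega))
          rw [this, smul_zero]
        have hemp : bd ν (fun σ => if v ∈ σ then 0 else c σ) ∅ = -c {v} := by
          have h1 : bd ν c ∅ = 0 := by rw [hbd]; rfl
          change ∑ u ∈ (∅ : Finset V)ᶜ, sgn ν u ∅ • c (insert u ∅) = 0 at h1
          change ∑ u ∈ (∅ : Finset V)ᶜ, sgn ν u ∅ •
            (if v ∈ insert u (∅ : Finset V) then (0 : S) else c (insert u ∅)) = -c {v}
          have hvc : v ∈ (∅ : Finset V)ᶜ := by simp
          rw [← Finset.add_sum_erase _ _ hvc] at h1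
          rw [← Finset.add_sum_erase _ _ hvc]
          have h2 : ∑ u ∈ (∅ : Finset V)ᶜ.erase v, sgn ν u ∅ •
              (if v ∈ insert u (∅ : Finset V) then (0 : S) else c (insert u ∅)) =
              ∑ u ∈ (∅ : Finset V)ᶜ.erase v, sgn ν u ∅ • c (insert u ∅) := by
            refine Finset.sum_congr rfl fun u hu => ?_
            have hne : v ≠ u := fun h => (Finset.mem_erase.mp hu).1 h.symm
            have : v ∉ insert u (∅ : Finset V) := by simpa using hne
            rw [if_neg this]
          rw [h2]
          have h3 : sgn ν v ∅ = 1 := sgn_empty ν v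
          have h4 : (insert v (∅ : Finset V)) = {v} := rfl
          rw [h3, one_smul, h4] at h1
          rw [if_pos (Finset.mem_insert_self v ∅), smul_zero, zero_add]
          exact (neg_eq_of_add_eq_zero_right h1).symm
        -- the chain e_v c'
        have hev : IsF G e (Mk e M v) τ 1 (fun σ => e v (if v ∈ σ then 0 else c σ)) := by
          refine ⟨fun σ => ?_, fun σ u hu => ?_, fun σ hσ => ?_⟩
          · refine Submodule.mem_inf.mpr ⟨hst v hvm _ (hc'.mem σ), ?_⟩
            rw [LinearMap.mem_ker]
            exact hsq _ (hc'.mem σ)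
          · by_cases h0 : (if v ∈ σ then (0 : S) else c σ) = 0
            · rw [h0, map_zero, map_zero]
            · have hsub := (hc'.supp σ h0).1
              rw [hanti u (Finset.mem_insert_of_mem (hsub hu)) v hvm _ (hc'.mem σ),
                hc'.ker σ u hu, map_zero, neg_zero]
          · exact hc'.supp σ (fun h0 => hσ (by rw [h0, map_zero]))
        have hevb : bd ν (fun σ => e v (if v ∈ σ then 0 else c σ)) = 0 := by
          funext ρ
          rw [bd_map ν (e v) (fun σ => if v ∈ σ then 0 else c σ) ρ]
          by_cases hρ : ρ = ∅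
          · rw [hρ, hemp, map_neg, hc.ker {v} v (Finset.mem_singleton_self v), neg_zero]
            rfl
          · rw [hlow ρ hρ, map_zero]
            rfl
        obtain ⟨h, hh, hhb⟩ := ihV 1 le_rfl _ hev hevb
        -- lift
        have hex : ∀ σ : Finset V, ∃ m : S, m ∈ M ∧ (∀ u ∈ σ, e u m = 0) ∧ e v m = h σ ∧
            (h σ = 0 → m = 0) := by
          intro σ
          by_cases h0 : h σ = 0
          · exact ⟨0, M.zero_mem, fun u _ => map_zero _, by rw [map_zero, h0], fun _ => rfl⟩
          · obtain ⟨h1, -, -⟩ := hh.supp σ h0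
            have hvσ : v ∉ σ := fun hh' => hv (h1 hh')
            obtain ⟨m, hm, hm1, hm2⟩ := hlift σ v hvσ (Finset.insert_subset_insert v h1) (h σ)
              (Submodule.mem_inf.mp (hh.mem σ)).1
              (by
                intro u hu
                rcases Finset.mem_insert.mp hu with h' | h'
                · rw [h']
                  exact LinearMap.mem_ker.mp (Submodule.mem_inf.mp (hh.mem σ)).2
                · exact hh.ker σ u h')
            exact ⟨m, hm, hm1, hm2, fun h' => absurd h' h0⟩
        choose h' hh'M hh'k hh'e hh'0 using hex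
        have hh' : IsF G e M τ 2 h' :=
          ⟨hh'M, hh'k, fun σ hσ => hh.supp σ (fun h0 => hσ (hh'0 σ h0))⟩
        have hbh : IsF G e M τ 1 (bd ν h') := isF_bd ν hh'
        have hcc : IsF G e M τ 1 ((fun σ => if v ∈ σ then 0 else c σ) - bd ν h') :=
          IsF.sub hc' hbh
        have hevz : ∀ σ, e v (((fun σ => if v ∈ σ then 0 else c σ) - bd ν h') σ) = 0 := by
          intro σ
          rw [Pi.sub_apply, map_sub, ← bd_map ν (e v) h' σ]
          have h1 : (fun σ => e v (h' σ)) = h := by
            funext σ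
            exact hh'e σ
          rw [h1, hhb, sub_self]
        refine ⟨-((fun σ => if v ∈ σ then 0 else c σ) - bd ν h'), ?_, ?_⟩
        · refine IsF.neg ⟨fun σ => Submodule.mem_inf.mpr ⟨hcc.mem σ, ?_⟩, hcc.ker, hcc.supp⟩
          rw [LinearMap.mem_ker]
          exact hevz σ
        · rw [map_neg, map_sub, bd_bd ν hν, sub_zero]
          funext ρ
          rw [Pi.neg_apply]
          by_cases hρ : ρ = ∅
          · rw [hρ, hemp, neg_neg]
            change c {v} = if v ∈ (∅ : Finset V) then 0 else sgn ν v ∅ • c (insert v ∅)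
            rw [if_neg (Finset.notMem_empty v), sgn_empty, one_smul]
            rfl
          · rw [hlow ρ hρ, neg_zero]
            by_contra hne
            obtain ⟨-, -, h3⟩ := hg0.supp ρ (fun h => hne h.symm)
            exact hρ (Finset.card_eq_zero.mp h3)
      · exact ihV j hj _ hg0 hg0c
    -- subtract the join
    have hgoff : ∀ σ, v ∈ σ → g σ = 0 := by
      intro σ hσ
      by_contra hne
      exact hv ((hg.supp σ hne).1 hσ)
    have hw : IsF G e M (insert v τ) (j + 1 + 1) (wedge ν v g) :=
      isF_wedge ν hvm (by rw [hnbr]; exact hg)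
    have hc1 : c + bd ν (wedge ν v g) = (fun σ => if v ∈ σ then 0 else c σ) + g := by
      rw [bd_wedge ν hν v g hgoff, hgb]
      funext σ
      rw [Pi.add_apply, Pi.add_apply, Pi.sub_apply]
      nth_rewrite 1 [eq_wedge_comp ν v c σ]
      abel
    have hc1F : IsF G e M τ (j + 1) ((fun σ => if v ∈ σ then 0 else c σ) + g) :=
      IsF.add hc' (simplex_ofMk hg)
    have hc1b : bd ν ((fun σ => if v ∈ σ then 0 else c σ) + g) = 0 := by
      rw [← hc1, map_add, hbd, bd_bd ν hν, add_zero]
    obtain ⟨y, hy, hyb⟩ := ihM (j + 1) (by omega) _ hc1F hc1b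
    refine ⟨y - wedge ν v g, IsF.sub (hy.mono (Finset.subset_insert v τ)) hw, ?_⟩
    rw [map_sub, hyb, ← hc1, add_sub_cancel_right]

theorem Sys.simplex {ν : V → ℕ} {G : SimpleGraph V} {e : V → S →ₗ[ℝ] S}
    {ep : Finset V → S →ₗ[ℝ] S} {b : V → V → ℝ} {n : ℕ} {U : Finset V} {M : Submodule ℝ S}
    {β : S →ₗ[ℝ] S →ₗ[ℝ] ℝ} {ε κ : ℝ} {o : Finset V → ℝ}
    (hs : Sys ν G e ep b n U M β ε κ o) {τ : Finset V} (hτ : τ ⊆ U) (hcl : Cl G τ) (i : ℕ)
    (hi : 1 ≤ i) : HV ν G e M τ i := by
  refine simplex_exact ν hs.inj G e τ hcl M (fun v hv x hx => hs.stable v (hτ hv) x hx)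
    (fun u hu v hv x hx => ?_) (fun σ v hv hsub x hx hk => ?_) i hi
  · refine hs.anticomm (hτ hu) (hτ hv) ?_ hx
    by_cases huv : u = v
    · exact Or.inl huv
    · exact Or.inr (hcl u hu v hv huv)
  · exact hs.lift hv (hsub.trans hτ)
      (fun a ha b hb hab => hcl a (hsub ha) b (hsub hb) hab) hx hk

end Pool.Agent.H85.Fold
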