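import Pool.Agent.H85.Fold.Alg

/-!
# Project FOLD: links of spheres
-/

set_option autoImplicit false

open Finset

namespace Pool.Agent.H85.Fold

variable {V : Type} [DecidableEq V] [Fintype V]
  {ν : V → ℕ} {G : SimpleGraph V} {n : ℕ} {U : Finset V} {o : Finset V → ℝ}

omit [DecidableEq V] [Fintype V] in
private theorem ls_mem_fac {G : SimpleGraph V} {n : ℕ} {U σ : Finset V} :
    σ ∈ fac G n U ↔ σ ⊆ U ∧ Cl G σ ∧ σ.card = n := by
  unfold fac
  simp only [Finset.mem_filter, Finset.mem_powerset]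

omit [DecidableEq V] [Fintype V] in
private theorem ls_cl_mono {G : SimpleGraph V} {σ τ : Finset V} (h : Cl G τ) (hs : σ ⊆ τ) :
    Cl G σ := fun a ha b hb hab => h a (hs ha) b (hs hb) hab

/-- in a sphere every vertex of a clique has a non-neighbour in the link of the rest -/
theorem IsSphere.exists_ne (hK : IsSphere ν G n U o) {σ : Finset V} {v : V} (hv : v ∉ σ)
    (hσ : insert v σ ⊆ U) (hcl : Cl G (insert v σ)) :
    ∃ w ∈ U, w ≠ v ∧ ¬ G.Adj v w ∧ ∀ u ∈ σ, G.Adj u w := by
  obtain ⟨τ, hτU, hτc, hτn, hρτ⟩ := hK.pure _ hσ hcl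
  have hvτ : v ∈ τ := hρτ (Finset.mem_insert_self v σ)
  have hvU : v ∈ U := hτU hvτ
  have hκU : τ.erase v ⊆ U := (Finset.erase_subset v τ).trans hτU
  have hκc : Cl G (τ.erase v) := ls_cl_mono hτc (Finset.erase_subset v τ)
  have hκn : (τ.erase v).card + 1 = n := by rw [Finset.card_erase_add_one hvτ, hτn]
  have hcyc := hK.cyc (τ.erase v) hκU hκc hκn
  have hins : insert v (τ.erase v) = τ := Finset.insert_erase hvτ
  have hex : ∃ w ∈ U, w ≠ v ∧ w ∉ τ.erase v ∧ insert w (τ.erase v) ∈ fac G n U := by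
    by_contra hcon
    push Not at hcon
    rw [Finset.sum_eq_single v] at hcyc
    · rw [if_pos ⟨Finset.notMem_erase v τ, by rw [hins]; exact ls_mem_fac.mpr ⟨hτU, hτc, hτn⟩⟩,
        hins] at hcyc
      have h1 := hK.ne τ hτU hτc hτn
      rcases sgn_cases ν v (τ.erase v) with h | h
      · rw [h, one_mul] at hcyc
        exact h1 hcyc
      · rw [h, neg_one_mul, neg_eq_zero] at hcyc
        exact h1 hcyc
    · intro w hw hwv
      exact if_neg fun hh => hcon w hw hwv hh.1 hh.2
    · intro h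
      exact absurd hvU h
  obtain ⟨w, hwU, hwv, hwκ, hwf⟩ := hex
  obtain ⟨hwfU, hwfc, -⟩ := ls_mem_fac.mp hwf
  refine ⟨w, hwU, hwv, ?_, ?_⟩
  · intro hadj
    have hwτ : w ∉ τ := fun h => hwκ (Finset.mem_erase.mpr ⟨hwv, h⟩)
    have hadjw : ∀ b ∈ τ, G.Adj w b := by
      intro b hb
      by_cases hbv : b = v
      · rw [hbv]
        exact hadj.symm
      · have hbκ : b ∈ τ.erase v := Finset.mem_erase.mpr ⟨hbv, hb⟩
        refine hwfc w (Finset.mem_insert_self w _) b (Finset.mem_insert_of_mem hbκ) ?_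
        intro h
        exact hwτ (h ▸ hb)
    have hcl2 : Cl G (insert w τ) := by
      intro a ha b hb hab
      rcases Finset.mem_insert.mp ha with ha | ha <;> rcases Finset.mem_insert.mp hb with hb | hb
      · exact absurd (ha.trans hb.symm) hab
      · rw [ha]
        exact hadjw b hb
      · rw [hb]
        exact (hadjw a ha).symm
      · exact hτc a ha b hb hab
    have h3 := hK.dim (insert w τ) (Finset.insert_subset hwU hτU) hcl2
    rw [Finset.card_insert_of_notMem hwτ, hτn] at h3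
    omega
  · intro u hu
    have huv : u ≠ v := fun h => hv (h ▸ hu)
    have huτ : u ∈ τ := hρτ (Finset.mem_insert_of_mem hu)
    have huκ : u ∈ τ.erase v := Finset.mem_erase.mpr ⟨huv, huτ⟩
    refine hwfc u (Finset.mem_insert_of_mem huκ) w (Finset.mem_insert_self w _) ?_
    intro h
    exact hwκ (h ▸ huκ)

/-- the cochain on the star of `v` which belongs to a cochain of the link -/
private noncomputable def lsUp (ν : V → ℕ) (v : V) (ψ : Finset V → ℝ) (s : Finset V) : ℝ :=
  if v ∈ s then sgn ν v s * ψ (s.erase v) else 0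

omit [Fintype V] in
private theorem ls_sdiff {v : V} {σ ρ : Finset V} (hv : v ∉ σ) :
    insert v σ \ insert v ρ = σ \ ρ := by
  ext a
  simp only [Finset.mem_sdiff, Finset.mem_insert, not_or]
  constructor
  · rintro ⟨h1, h2, h3⟩
    exact ⟨h1.resolve_left h2, h3⟩
  · rintro ⟨h1, h2⟩
    exact ⟨Or.inr h1, fun h => hv (h ▸ h1), h2⟩

private theorem ls_pull (hν : Function.Injective ν) {v : V} (hv : v ∈ U) {ρ : Finset V}
    (ψ χ' : Finset V → ℝ) (j : ℕ)
    (h : ∀ s ⊆ U, Cl G s → insert v ρ ⊆ s → s.card = j + 1 →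
      lsUp ν v ψ s = ∑ u ∈ s \ insert v ρ, sgn ν u s * χ' (s.erase u)) :
    ∃ χ : Finset V → ℝ, ∀ σ ⊆ nbr G v U, Cl G σ → ρ ⊆ σ → σ.card = j →
      ψ σ = ∑ u ∈ σ \ ρ, sgn ν u σ * χ (σ.erase u) := by
  refine ⟨fun s => -sgn ν v s * χ' (insert v s), ?_⟩
  intro σ hσ hc hρ hj
  obtain ⟨hvσ, hsU, hsc⟩ := (cl_insert_iff hv).mpr ⟨hσ, hc⟩
  have h1 := h (insert v σ) hsU hsc (Finset.insert_subset_insert v hρ)
    (by rw [Finset.card_insert_of_notMem hvσ, hj])
  rw [ls_sdiff hvσ] at h1
  unfold lsUp at h1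
  rw [if_pos (Finset.mem_insert_self v σ), Finset.erase_insert hvσ, sgn_insert_self] at h1
  have h2 : ψ σ = sgn ν v σ * (sgn ν v σ * ψ σ) := by
    rw [← mul_assoc, sgn_sq, one_mul]
  rw [h2, h1, Finset.mul_sum]
  refine Finset.sum_congr rfl fun u hu => ?_
  have huσ : u ∈ σ := (Finset.mem_sdiff.mp hu).1
  have huv : u ≠ v := fun h => hvσ (h ▸ huσ)
  rw [Finset.erase_insert_of_ne huv.symm]
  have h3 := sgn_swap_mix ν hν u v huv σ huσ hvσ
  have h4 : sgn ν v σ * (sgn ν u (insert v σ) * χ' (insert v (σ.erase u))) =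
      (sgn ν v σ * sgn ν u (insert v σ)) * χ' (insert v (σ.erase u)) := by ring
  rw [h4, h3]
  ring

/-- the link of a sphere is a sphere -/
theorem IsSphere.link (hν : Function.Injective ν) (hK : IsSphere ν G (n + 1) U o) {v : V}
    (hv : v ∈ U) : IsSphere ν G n (nbr G v U) (linkO ν v o) := by
  have split : ∀ s : Finset V, s ⊆ U → Cl G s → v ∈ s →
      v ∉ s.erase v ∧ insert v (s.erase v) = s ∧ s.erase v ⊆ nbr G v U ∧ Cl G (s.erase v) := by
    intro s hs hc hvs
    have h1 : insert v (s.erase v) = s := Finset.insert_erase hvs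
    have h2 := (cl_insert_iff (G := G) (σ := s.erase v) hv).mp
      ⟨Finset.notMem_erase v s, by rw [h1]; exact hs, by rw [h1]; exact hc⟩
    exact ⟨Finset.notMem_erase v s, h1, h2.1, h2.2⟩
  constructor
  · -- dim
    intro σ hσ hc
    obtain ⟨hvσ, hsU, hsc⟩ := (cl_insert_iff hv).mpr ⟨hσ, hc⟩
    have h := hK.dim _ hsU hsc
    rw [Finset.card_insert_of_notMem hvσ] at h
    omega
  · -- pure
    intro ρ hρ hc
    obtain ⟨hvρ, hsU, hsc⟩ := (cl_insert_iff hv).mpr ⟨hρ, hc⟩
    obtain ⟨τ, hτU, hτc, hτn, hτρ⟩ := hK.pure _ hsU hsc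
    have hvτ : v ∈ τ := hτρ (Finset.mem_insert_self v ρ)
    obtain ⟨-, h1, h2, h3⟩ := split τ hτU hτc hvτ
    refine ⟨τ.erase v, h2, h3, ?_, ?_⟩
    · have := Finset.card_erase_add_one hvτ
      omega
    · intro a ha
      exact Finset.mem_erase.mpr ⟨fun h => hvρ (h ▸ ha), hτρ (Finset.mem_insert_of_mem ha)⟩
  · -- ne
    intro τ hτ hc hn
    obtain ⟨hvτ, hsU, hsc⟩ := (cl_insert_iff hv).mpr ⟨hτ, hc⟩
    have h1 := hK.ne _ hsU hsc (by rw [Finset.card_insert_of_notMem hvτ, hn])
    unfold linkO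
    rcases sgn_cases ν v τ with h | h
    · rw [h, one_mul]
      exact h1
    · rw [h, neg_one_mul]
      exact neg_ne_zero.mpr h1
  · -- cyc
    intro κ hκ hc hn
    obtain ⟨hvκ, hsU, hsc⟩ := (cl_insert_iff hv).mpr ⟨hκ, hc⟩
    have h0 := hK.cyc (insert v κ) hsU hsc (by rw [Finset.card_insert_of_notMem hvκ]; omega)
    have hsub : nbr G v U ⊆ U := nbr_subset G v U
    have hcond : ∀ w ∈ nbr G v U, (w ∉ κ ∧ insert w κ ∈ fac G n (nbr G v U) ↔
        w ∉ insert v κ ∧ insert w (insert v κ) ∈ fac G (n + 1) U) := by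
      intro w hw
      have hwv : w ≠ v := by
        intro h
        have := (mem_nbr.mp hw).2
        rw [h] at this
        exact G.loopless.irrefl v this
      rw [Finset.insert_comm w v κ]
      have e1 := cl_insert_iff (G := G) (σ := insert w κ) hv
      constructor
      · rintro ⟨h1, h2⟩
        obtain ⟨h3, h4, h5⟩ := ls_mem_fac.mp h2
        obtain ⟨g1, g2, g3⟩ := e1.mpr ⟨h3, h4⟩
        refine ⟨?_, ls_mem_fac.mpr ⟨g2, g3, ?_⟩⟩
        · rw [Finset.mem_insert, not_or]
          exact ⟨hwv, h1⟩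
        · rw [Finset.card_insert_of_notMem g1, h5]
      · rintro ⟨h1, h2⟩
        obtain ⟨h3, h4, h5⟩ := ls_mem_fac.mp h2
        rw [Finset.mem_insert, not_or] at h1
        have g1 : v ∉ insert w κ := by
          rw [Finset.mem_insert, not_or]
          exact ⟨hwv.symm, hvκ⟩
        obtain ⟨k1, k2⟩ := e1.mp ⟨g1, h3, h4⟩
        refine ⟨h1.2, ls_mem_fac.mpr ⟨k1, k2, ?_⟩⟩
        rw [Finset.card_insert_of_notMem h1.2]
        exact hn
    have hterm : ∀ w ∈ nbr G v U,
        (if w ∉ κ ∧ insert w κ ∈ fac G n (nbr G v U) then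
          sgn ν w κ * linkO ν v o (insert w κ) else 0) =
        -sgn ν v κ * (if w ∉ insert v κ ∧ insert w (insert v κ) ∈ fac G (n + 1) U then
          sgn ν w (insert v κ) * o (insert w (insert v κ)) else 0) := by
      intro w hw
      by_cases hh : w ∉ κ ∧ insert w κ ∈ fac G n (nbr G v U)
      · rw [if_pos hh, if_pos ((hcond w hw).mp hh)]
        have hwv : w ≠ v := by
          have := ((hcond w hw).mp hh).1
          rw [Finset.mem_insert, not_or] at this
          exact this.1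
        have h3 := sgn_swap ν hν w v hwv κ hh.1 hvκ
        unfold linkO
        rw [Finset.insert_comm w v κ]
        have h4 : sgn ν w κ * (sgn ν v (insert w κ) * o (insert v (insert w κ))) =
            (sgn ν v (insert w κ) * sgn ν w κ) * o (insert v (insert w κ)) := by ring
        rw [h4, h3]
        ring
      · rw [if_neg hh, if_neg (fun h => hh ((hcond w hw).mpr h)), mul_zero]
    rw [Finset.sum_congr rfl hterm, ← Finset.mul_sum]
    have hU : ∑ w ∈ nbr G v U, (if w ∉ insert v κ ∧ insert w (insert v κ) ∈ fac G (n + 1) U then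
          sgn ν w (insert v κ) * o (insert w (insert v κ)) else 0) =
        ∑ w ∈ U, (if w ∉ insert v κ ∧ insert w (insert v κ) ∈ fac G (n + 1) U then
          sgn ν w (insert v κ) * o (insert w (insert v κ)) else 0) := by
      refine Finset.sum_subset hsub ?_
      intro w hwU hwN
      refine if_neg ?_
      rintro ⟨h1, h2⟩
      obtain ⟨-, h4, -⟩ := ls_mem_fac.mp h2
      rw [Finset.mem_insert, not_or] at h1
      apply hwN
      refine mem_nbr.mpr ⟨hwU, ?_⟩
      exact h4 v (Finset.mem_insert_of_mem (Finset.mem_insert_self v κ)) w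
        (Finset.mem_insert_self w _) (Ne.symm h1.1)
    rw [hU, h0, mul_zero]
  · -- exact
    intro ρ hρ hc j hj ψ hψ
    obtain ⟨hvρ, hsU, hsc⟩ := (cl_insert_iff hv).mpr ⟨hρ, hc⟩
    obtain ⟨χ', hχ'⟩ := hK.exact (insert v ρ) hsU hsc (j + 1) (by omega) (lsUp ν v ψ) (by
      intro s hs hsc' hρs hcard
      have hvs : v ∈ s := hρs (Finset.mem_insert_self v ρ)
      obtain ⟨h1, h2, h3, h4⟩ := split s hs hsc' hvs
      have hρs' : ρ ⊆ s.erase v := by
        intro a ha
        exact Finset.mem_erase.mpr ⟨fun h => hvρ (h ▸ ha), hρs (Finset.mem_insert_of_mem ha)⟩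
      have hcard' : (s.erase v).card = j + 1 := by
        have := Finset.card_erase_add_one hvs
        omega
      have h5 := hψ (s.erase v) h3 h4 hρs' hcard'
      have hsd : s \ insert v ρ = s.erase v \ ρ := by
        have h6 := ls_sdiff (ρ := ρ) h1
        rw [h2] at h6
        exact h6
      rw [hsd]
      have hterm : ∀ u ∈ s.erase v \ ρ, sgn ν u s * lsUp ν v ψ (s.erase u) =
          -sgn ν v s * (sgn ν u (s.erase v) * ψ ((s.erase v).erase u)) := by
        intro u hu
        have hue : u ∈ s.erase v := (Finset.mem_sdiff.mp hu).1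
        obtain ⟨huv, hus⟩ := Finset.mem_erase.mp hue
        have hvu : v ∈ s.erase u := Finset.mem_erase.mpr ⟨huv.symm, hvs⟩
        unfold lsUp
        rw [if_pos hvu, Finset.erase_right_comm]
        have h7 := sgn_swap_erase ν hν u v huv s hus hvs
        have h8 : sgn ν u s * (sgn ν v (s.erase u) * ψ ((s.erase v).erase u)) =
            (sgn ν v (s.erase u) * sgn ν u s) * ψ ((s.erase v).erase u) := by ring
        rw [h8, h7]
        ring
      rw [Finset.sum_congr rfl hterm, ← Finset.mul_sum, h5, mul_zero])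
    exact ls_pull hν hv ψ χ' j hχ'
  · -- top
    intro ρ hρ hc ψ hψ
    obtain ⟨hvρ, hsU, hsc⟩ := (cl_insert_iff hv).mpr ⟨hρ, hc⟩
    obtain ⟨χ', hχ'⟩ := hK.top (insert v ρ) hsU hsc (lsUp ν v ψ) (by
      refine Eq.trans ?_ hψ
      rw [← Finset.sum_filter, ← Finset.sum_filter]
      refine Finset.sum_nbij' (fun s => s.erase v) (fun s => insert v s) ?_ ?_ ?_ ?_ ?_
      · intro s hs
        obtain ⟨hs1, hs2⟩ := Finset.mem_filter.mp hs
        obtain ⟨h1, h2, h3⟩ := ls_mem_fac.mp hs1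
        have hvs : v ∈ s := hs2 (Finset.mem_insert_self v ρ)
        obtain ⟨g1, g2, g3, g4⟩ := split s h1 h2 hvs
        refine Finset.mem_filter.mpr ⟨ls_mem_fac.mpr ⟨g3, g4, ?_⟩, ?_⟩
        · have := Finset.card_erase_add_one hvs
          omega
        · intro a ha
          exact Finset.mem_erase.mpr ⟨fun h => hvρ (h ▸ ha), hs2 (Finset.mem_insert_of_mem ha)⟩
      · intro s hs
        obtain ⟨hs1, hs2⟩ := Finset.mem_filter.mp hs
        obtain ⟨h1, h2, h3⟩ := ls_mem_fac.mp hs1
        obtain ⟨g1, g2, g3⟩ := (cl_insert_iff hv).mpr ⟨h1, h2⟩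
        exact Finset.mem_filter.mpr ⟨ls_mem_fac.mpr
          ⟨g2, g3, by rw [Finset.card_insert_of_notMem g1, h3]⟩, Finset.insert_subset_insert v hs2⟩
      · intro s hs
        have hvs : v ∈ s := (Finset.mem_filter.mp hs).2 (Finset.mem_insert_self v ρ)
        exact Finset.insert_erase hvs
      · intro s hs
        obtain ⟨hs1, hs2⟩ := Finset.mem_filter.mp hs
        obtain ⟨h1, h2, h3⟩ := ls_mem_fac.mp hs1
        obtain ⟨g1, g2, g3⟩ := (cl_insert_iff hv).mpr ⟨h1, h2⟩
        exact Finset.erase_insert g1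
      · intro s hs
        have hvs : v ∈ s := (Finset.mem_filter.mp hs).2 (Finset.mem_insert_self v ρ)
        unfold lsUp linkO
        rw [if_pos hvs, Finset.insert_erase hvs, sgn_erase_self]
        ring)
    exact ls_pull hν hv ψ χ' n hχ'

end Pool.Agent.H85.Fold
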