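import Pool.Agent.H85.Fold.Comp

/-!
# Project FOLD: closure properties of chains and double chains
-/

set_option autoImplicit false

open Finset

namespace Pool.Agent.H85.Fold

variable {V : Type} [DecidableEq V] [Fintype V] {S : Type} [AddCommGroup S] [Module ℝ S]
  {G : SimpleGraph V} {e : V → S →ₗ[ℝ] S} {M : Submodule ℝ S} {U Y : Finset V} {i n : ℕ}

theorem IsF.zero : IsF G e M U i 0 := by
  refine ⟨fun σ => M.zero_mem, fun σ v _ => by simp, fun σ h => absurd rfl h⟩

theorem IsF.add {c c' : Finset V → S} (h : IsF G e M U i c) (h' : IsF G e M U i c') :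
    IsF G e M U i (c + c') := by
  refine ⟨fun σ => M.add_mem (h.mem σ) (h'.mem σ), fun σ v hv => ?_, fun σ hne => ?_⟩
  · rw [Pi.add_apply, map_add, h.ker σ v hv, h'.ker σ v hv, add_zero]
  · by_cases h1 : c σ = 0
    · refine h'.supp σ fun h2 => hne ?_
      rw [Pi.add_apply, h1, h2, add_zero]
    · exact h.supp σ h1

theorem IsF.smul {c : Finset V → S} (h : IsF G e M U i c) (r : ℝ) : IsF G e M U i (r • c) := by
  refine ⟨fun σ => M.smul_mem r (h.mem σ), fun σ v hv => ?_, fun σ hne => ?_⟩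
  · rw [Pi.smul_apply, map_smul, h.ker σ v hv, smul_zero]
  · refine h.supp σ fun h2 => hne ?_
    rw [Pi.smul_apply, h2, smul_zero]

theorem IsF.neg {c : Finset V → S} (h : IsF G e M U i c) : IsF G e M U i (-c) := by
  have := h.smul (-1)
  rwa [neg_one_smul] at this

theorem IsF.sub {c c' : Finset V → S} (h : IsF G e M U i c) (h' : IsF G e M U i c') :
    IsF G e M U i (c - c') := by
  rw [sub_eq_add_neg]
  exact h.add h'.neg

theorem IsF.sum {ι : Type} {s : Finset ι} {c : ι → Finset V → S}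
    (h : ∀ j ∈ s, IsF G e M U i (c j)) : IsF G e M U i (∑ j ∈ s, c j) := by
  classical
  induction s using Finset.induction_on with
  | empty => simpa using IsF.zero
  | insert a s ha ih =>
    rw [Finset.sum_insert ha]
    exact (h a (Finset.mem_insert_self a s)).add
      (ih fun j hj => h j (Finset.mem_insert_of_mem hj))

theorem IsF.mono {c : Finset V → S} (h : IsF G e M Y i c) (hY : Y ⊆ U) : IsF G e M U i c := by
  refine ⟨h.mem, h.ker, fun σ hne => ?_⟩
  obtain ⟨h1, h2, h3⟩ := h.supp σ hne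
  exact ⟨h1.trans hY, h2, h3⟩

theorem IsF.of_supp {c : Finset V → S} (h : IsF G e M U i c) (hY : ∀ σ, c σ ≠ 0 → σ ⊆ Y) :
    IsF G e M Y i c := by
  refine ⟨h.mem, h.ker, fun σ hne => ?_⟩
  obtain ⟨h1, h2, h3⟩ := h.supp σ hne
  exact ⟨hY σ hne, h2, h3⟩

private theorem cl_mono {σ τ : Finset V} (h : Cl G τ) (hs : σ ⊆ τ) : Cl G σ :=
  fun u hu v hv huv => h u (hs hu) v (hs hv) huv

theorem isF_bd {c : Finset V → S} (ν : V → ℕ) (h : IsF G e M U (i + 1) c) :
    IsF G e M U i (bd ν c) := by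
  refine ⟨fun σ => ?_, fun σ u hu => ?_, fun σ hne => ?_⟩
  · change ∑ v ∈ σᶜ, sgn ν v σ • c (insert v σ) ∈ M
    exact M.sum_mem fun v _ => M.smul_mem _ (h.mem _)
  · change e u (∑ v ∈ σᶜ, sgn ν v σ • c (insert v σ)) = 0
    rw [map_sum]
    refine Finset.sum_eq_zero fun v _ => ?_
    rw [map_smul, h.ker _ u (Finset.mem_insert_of_mem hu), smul_zero]
  · obtain ⟨v, hv, hv2⟩ := Finset.exists_ne_zero_of_sum_ne_zero
      (show ∑ v ∈ σᶜ, sgn ν v σ • c (insert v σ) ≠ 0 from hne)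
    have hv3 : c (insert v σ) ≠ 0 := fun h0 => hv2 (by rw [h0, smul_zero])
    obtain ⟨h1, h2, h3⟩ := h.supp _ hv3
    rw [Finset.mem_compl] at hv
    rw [Finset.card_insert_of_notMem hv] at h3
    exact ⟨(Finset.subset_insert v σ).trans h1, cl_mono h2 (Finset.subset_insert v σ), by omega⟩

/-- the component of a chain in a link -/
theorem isF_comp {c : Finset V → S} (ν : V → ℕ) (v : V) (h : IsF G e M U (i + 1) c) :
    IsF G e (Mk e M v) (nbr G v U) i (comp ν v c) := by
  have hd : ∀ σ, comp ν v c σ = if v ∈ σ then 0 else sgn ν v σ • c (insert v σ) :=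
    fun σ => rfl
  refine ⟨fun σ => ?_, fun σ u hu => ?_, fun σ hne => ?_⟩
  · rw [hd]
    split_ifs with hv
    · exact Submodule.zero_mem _
    · refine Submodule.smul_mem _ _ ⟨h.mem _, ?_⟩
      change e v (c (insert v σ)) = 0
      exact h.ker _ v (Finset.mem_insert_self v σ)
  · rw [hd]
    split_ifs with hv
    · exact map_zero _
    · rw [map_smul, h.ker _ u (Finset.mem_insert_of_mem hu), smul_zero]
  · rw [hd] at hne
    split_ifs at hne with hv
    · exact absurd rfl hne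
    · have hv3 : c (insert v σ) ≠ 0 := fun h0 => hne (by rw [h0, smul_zero])
      obtain ⟨h1, h2, h3⟩ := h.supp _ hv3
      rw [Finset.card_insert_of_notMem hv] at h3
      have hvU : v ∈ U := h1 (Finset.mem_insert_self v σ)
      obtain ⟨h4, h5⟩ := (cl_insert_iff (G := G) hvU).1 ⟨hv, h1, h2⟩
      exact ⟨h4, h5, by omega⟩

/-- the join of a chain of a link -/
theorem isF_wedge {g : Finset V → S} (ν : V → ℕ) {v : V} (hv : v ∈ U)
    (h : IsF G e (Mk e M v) (nbr G v U) i g) : IsF G e M U (i + 1) (wedge ν v g) := by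
  have hd : ∀ σ, wedge ν v g σ = if v ∈ σ then sgn ν v σ • g (σ.erase v) else 0 :=
    fun σ => rfl
  refine ⟨fun σ => ?_, fun σ u hu => ?_, fun σ hne => ?_⟩
  · rw [hd]
    split_ifs with hvσ
    · exact M.smul_mem _ (h.mem _).1
    · exact M.zero_mem
  · rw [hd]
    split_ifs with hvσ
    · rw [map_smul]
      by_cases huv : u = v
      · subst huv
        have : e u (g (σ.erase u)) = 0 := (h.mem (σ.erase u)).2
        rw [this, smul_zero]
      · rw [h.ker _ u (Finset.mem_erase.2 ⟨huv, hu⟩), smul_zero]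
    · exact map_zero _
  · rw [hd] at hne
    split_ifs at hne with hvσ
    · have hv3 : g (σ.erase v) ≠ 0 := fun h0 => hne (by rw [h0, smul_zero])
      obtain ⟨h1, h2, h3⟩ := h.supp _ hv3
      obtain ⟨h4, h5, h6⟩ := (cl_insert_iff (G := G) hv).2 ⟨h1, h2⟩
      rw [Finset.insert_erase hvσ] at h5 h6
      refine ⟨h5, h6, ?_⟩
      rw [Finset.card_erase_of_mem hvσ] at h3
      have := Finset.card_pos.2 ⟨v, hvσ⟩
      omega
    · exact absurd rfl hne

/-- a chain of a link as a chain -/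
theorem IsF.of_link {g : Finset V → S} {v : V} (h : IsF G e (Mk e M v) (nbr G v U) i g) :
    IsF G e M U i g := by
  refine ⟨fun σ => (h.mem σ).1, h.ker, fun σ hne => ?_⟩
  obtain ⟨h1, h2, h3⟩ := h.supp σ hne
  exact ⟨h1.trans (nbr_subset G v U), h2, h3⟩

theorem IsF.link_off {g : Finset V → S} {v : V} (h : IsF G e (Mk e M v) (nbr G v U) i g) :
    ∀ σ, v ∈ σ → g σ = 0 := by
  intro σ hv
  by_contra hne
  obtain ⟨h1, h2, h3⟩ := h.supp σ hne
  exact G.loopless.irrefl v (mem_nbr.1 (h1 hv)).2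

theorem IsD.zero : IsD G e n M U i 0 := by
  refine ⟨fun ρ σ => M.zero_mem, fun ρ σ v _ => by simp, fun ρ σ h => absurd rfl h⟩

theorem IsD.add {x x' : Finset V → Finset V → S} (h : IsD G e n M U i x)
    (h' : IsD G e n M U i x') : IsD G e n M U i (x + x') := by
  refine ⟨fun ρ σ => M.add_mem (h.mem ρ σ) (h'.mem ρ σ), fun ρ σ v hv => ?_,
    fun ρ σ hne => ?_⟩
  · rw [Pi.add_apply, Pi.add_apply, map_add, h.ker ρ σ v hv, h'.ker ρ σ v hv, add_zero]
  · by_cases h1 : x ρ σ = 0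
    · refine h'.supp ρ σ fun h2 => hne ?_
      rw [Pi.add_apply, Pi.add_apply, h1, h2, add_zero]
    · exact h.supp ρ σ h1

theorem IsD.smul {x : Finset V → Finset V → S} (h : IsD G e n M U i x) (r : ℝ) :
    IsD G e n M U i (r • x) := by
  refine ⟨fun ρ σ => M.smul_mem r (h.mem ρ σ), fun ρ σ v hv => ?_, fun ρ σ hne => ?_⟩
  · rw [Pi.smul_apply, Pi.smul_apply, map_smul, h.ker ρ σ v hv, smul_zero]
  · refine h.supp ρ σ fun h2 => hne ?_
    rw [Pi.smul_apply, Pi.smul_apply, h2, smul_zero]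

theorem IsD.neg {x : Finset V → Finset V → S} (h : IsD G e n M U i x) :
    IsD G e n M U i (-x) := by
  have := h.smul (-1)
  rwa [neg_one_smul] at this

theorem IsD.sub {x x' : Finset V → Finset V → S} (h : IsD G e n M U i x)
    (h' : IsD G e n M U i x') : IsD G e n M U i (x - x') := by
  rw [sub_eq_add_neg]
  exact h.add h'.neg

theorem IsD.sum {ι : Type} {s : Finset ι} {x : ι → Finset V → Finset V → S}
    (h : ∀ j ∈ s, IsD G e n M U i (x j)) : IsD G e n M U i (∑ j ∈ s, x j) := by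
  classical
  induction s using Finset.induction_on with
  | empty => simpa using IsD.zero
  | insert a s ha ih =>
    rw [Finset.sum_insert ha]
    exact (h a (Finset.mem_insert_self a s)).add
      (ih fun j hj => h j (Finset.mem_insert_of_mem hj))

theorem isD_d1 {x : Finset V → Finset V → S} (ν : V → ℕ) (h : IsD G e n M U (i + 1) x) :
    IsD G e n M U i (d1 ν x) := by
  refine ⟨fun ρ σ => ?_, fun ρ σ u hu => ?_, fun ρ σ hne => ?_⟩
  · change ∑ v ∈ σ \ ρ, sgn ν v ρ • x (insert v ρ) σ ∈ M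
    exact M.sum_mem fun v _ => M.smul_mem _ (h.mem _ _)
  · change e u (∑ v ∈ σ \ ρ, sgn ν v ρ • x (insert v ρ) σ) = 0
    rw [map_sum]
    refine Finset.sum_eq_zero fun v _ => ?_
    rw [map_smul, h.ker _ _ u (Finset.mem_insert_of_mem hu), smul_zero]
  · obtain ⟨v, hv, hv2⟩ := Finset.exists_ne_zero_of_sum_ne_zero
      (show ∑ v ∈ σ \ ρ, sgn ν v ρ • x (insert v ρ) σ ≠ 0 from hne)
    have hv3 : x (insert v ρ) σ ≠ 0 := fun h0 => hv2 (by rw [h0, smul_zero])
    obtain ⟨h1, h2, h3, h4⟩ := h.supp _ _ hv3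
    rw [Finset.mem_sdiff] at hv
    rw [Finset.card_insert_of_notMem hv.2] at h4
    exact ⟨(Finset.subset_insert v ρ).trans h1, h2, h3, by omega⟩

theorem isD_d2 {x : Finset V → Finset V → S} (ν : V → ℕ) (h : IsD G e n M U (i + 1) x) :
    IsD G e n M U i (d2 ν G U x) := by
  classical
  have hd : ∀ ρ σ, d2 ν G U x ρ σ =
      if σ ⊆ U ∧ Cl G σ then ∑ v ∈ σ \ ρ, sgn ν v σ • x ρ (σ.erase v) else 0 := by
    intro ρ σ
    unfold d2
    simp only [LinearMap.coe_mk, AddHom.coe_mk]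
  refine ⟨fun ρ σ => ?_, fun ρ σ u hu => ?_, fun ρ σ hne => ?_⟩
  · rw [hd]
    split_ifs
    · exact M.sum_mem fun v _ => M.smul_mem _ (h.mem _ _)
    · exact M.zero_mem
  · rw [hd]
    split_ifs
    · rw [map_sum]
      refine Finset.sum_eq_zero fun v _ => ?_
      rw [map_smul, h.ker _ _ u hu, smul_zero]
    · exact map_zero _
  · rw [hd] at hne
    split_ifs at hne with hσ
    · obtain ⟨v, hv, hv2⟩ := Finset.exists_ne_zero_of_sum_ne_zero hne
      have hv3 : x ρ (σ.erase v) ≠ 0 := fun h0 => hv2 (by rw [h0, smul_zero])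
      obtain ⟨h1, h2, h3, h4⟩ := h.supp _ _ hv3
      rw [Finset.mem_sdiff] at hv
      rw [Finset.card_erase_of_mem hv.1] at h4
      have := Finset.card_pos.2 ⟨v, hv.1⟩
      exact ⟨h1.trans (Finset.erase_subset v σ), hσ.1, hσ.2, by omega⟩
    · exact absurd rfl hne

private theorem mem_fac {k : ℕ} {σ : Finset V} :
    σ ∈ fac G k U ↔ σ ⊆ U ∧ Cl G σ ∧ σ.card = k := by
  classical
  unfold fac
  rw [Finset.mem_filter, Finset.mem_powerset]

theorem isD_aug {x : Finset V → Finset V → S} (h : IsD G e n M U i x) (o : Finset V → ℝ) :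
    IsF G e M U i (aug G n U o x) := by
  refine ⟨fun ρ => ?_, fun ρ u hu => ?_, fun ρ hne => ?_⟩
  · change ∑ σ ∈ fac G n U, o σ • x ρ σ ∈ M
    exact M.sum_mem fun v _ => M.smul_mem _ (h.mem _ _)
  · change e u (∑ σ ∈ fac G n U, o σ • x ρ σ) = 0
    rw [map_sum]
    refine Finset.sum_eq_zero fun v _ => ?_
    rw [map_smul, h.ker _ _ u hu, smul_zero]
  · obtain ⟨σ, hσ, hσ2⟩ := Finset.exists_ne_zero_of_sum_ne_zero
      (show ∑ σ ∈ fac G n U, o σ • x ρ σ ≠ 0 from hne)
    have hv3 : x ρ σ ≠ 0 := fun h0 => hσ2 (by rw [h0, smul_zero])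
    obtain ⟨h1, h2, h3, h4⟩ := h.supp _ _ hv3
    have h5 := (mem_fac.1 hσ).2.2
    exact ⟨h1.trans h2, cl_mono h3 h1, by omega⟩

theorem isD_comp2 {x : Finset V → Finset V → S} (ν : V → ℕ) (v : V)
    (h : IsD G e (n + 1) M U (i + 1) x) : IsD G e n (Mk e M v) (nbr G v U) i (comp2 ν v x) := by
  have hd : ∀ ρ σ, comp2 ν v x ρ σ =
      if v ∈ ρ ∨ v ∈ σ then 0 else (sgn ν v ρ * sgn ν v σ) • x (insert v ρ) (insert v σ) :=
    fun ρ σ => rfl
  refine ⟨fun ρ σ => ?_, fun ρ σ u hu => ?_, fun ρ σ hne => ?_⟩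
  · rw [hd]
    split_ifs with hv
    · exact Submodule.zero_mem _
    · refine Submodule.smul_mem _ _ ⟨h.mem _ _, ?_⟩
      change e v (x (insert v ρ) (insert v σ)) = 0
      exact h.ker _ _ v (Finset.mem_insert_self v ρ)
  · rw [hd]
    split_ifs with hv
    · exact map_zero _
    · rw [map_smul, h.ker _ _ u (Finset.mem_insert_of_mem hu), smul_zero]
  · rw [hd] at hne
    split_ifs at hne with hv
    · exact absurd rfl hne
    · rw [not_or] at hv
      have hv3 : x (insert v ρ) (insert v σ) ≠ 0 := fun h0 => hne (by rw [h0, smul_zero])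
      obtain ⟨h1, h2, h3, h4⟩ := h.supp _ _ hv3
      rw [Finset.card_insert_of_notMem hv.1, Finset.card_insert_of_notMem hv.2] at h4
      have hvU : v ∈ U := h2 (Finset.mem_insert_self v σ)
      obtain ⟨h5, h6⟩ := (cl_insert_iff (G := G) hvU).1 ⟨hv.2, h2, h3⟩
      refine ⟨fun u hu => ?_, h5, h6, by omega⟩
      rcases Finset.mem_insert.1 (h1 (Finset.mem_insert_of_mem hu)) with h7 | h7
      · exact absurd (h7 ▸ hu) hv.1
      · exact h7

theorem isD_wedge2 {y : Finset V → Finset V → S} (ν : V → ℕ) {v : V} (hv : v ∈ U)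
    (h : IsD G e n (Mk e M v) (nbr G v U) i y) : IsD G e (n + 1) M U (i + 1) (wedge2 ν v y) := by
  have hd : ∀ ρ σ, wedge2 ν v y ρ σ =
      if v ∈ ρ ∧ v ∈ σ then (sgn ν v ρ * sgn ν v σ) • y (ρ.erase v) (σ.erase v) else 0 :=
    fun ρ σ => rfl
  refine ⟨fun ρ σ => ?_, fun ρ σ u hu => ?_, fun ρ σ hne => ?_⟩
  · rw [hd]
    split_ifs with hvσ
    · exact M.smul_mem _ (h.mem _ _).1
    · exact M.zero_mem
  · rw [hd]
    split_ifs with hvσ
    · rw [map_smul]
      by_cases huv : u = v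
      · subst huv
        have : e u (y (ρ.erase u) (σ.erase u)) = 0 := (h.mem _ _).2
        rw [this, smul_zero]
      · rw [h.ker _ _ u (Finset.mem_erase.2 ⟨huv, hu⟩), smul_zero]
    · exact map_zero _
  · rw [hd] at hne
    split_ifs at hne with hvσ
    · have hv3 : y (ρ.erase v) (σ.erase v) ≠ 0 := fun h0 => hne (by rw [h0, smul_zero])
      obtain ⟨h1, h2, h3, h4⟩ := h.supp _ _ hv3
      obtain ⟨h5, h6, h7⟩ := (cl_insert_iff (G := G) hv).2 ⟨h2, h3⟩
      rw [Finset.insert_erase hvσ.2] at h6 h7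
      refine ⟨fun u hu => ?_, h6, h7, ?_⟩
      · by_cases huv : u = v
        · exact huv ▸ hvσ.2
        · exact Finset.mem_of_mem_erase (h1 (Finset.mem_erase.2 ⟨huv, hu⟩))
      · rw [Finset.card_erase_of_mem hvσ.1, Finset.card_erase_of_mem hvσ.2] at h4
        have h8 := Finset.card_pos.2 ⟨v, hvσ.1⟩
        have h9 := Finset.card_pos.2 ⟨v, hvσ.2⟩
        omega
    · exact absurd rfl hne

end Pool.Agent.H85.Fold
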