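import Pool.Agent.H85.Fold.Sphere

/-!
# Project FOLD: simplicial arrangements
-/

set_option autoImplicit false
set_option linter.unusedSectionVars false

open Finset

namespace Pool.Agent.H85.Fold

variable {V : Type} [DecidableEq V] [Fintype V]

/-- The vectors `r v` in `ℚⁿ` span the rays of the simplicial arrangement of the hyperplanes
`h i = 0`, and two vertices are adjacent in `G` if no hyperplane separates their rays: cliques are
linearly independent, and every vector is a nonnegative combination of a clique. -/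
structure IsArrangement (G : SimpleGraph V) (n : ℕ) {I : Type} (h : I → Fin n → ℤ)
    (r : V → Fin n → ℤ) : Prop where
  adj : ∀ u v, G.Adj u v ↔ u ≠ v ∧ ∀ i, 0 ≤ (h i ⬝ᵥ r u) * (h i ⬝ᵥ r v)
  indep : ∀ σ : Finset V, Cl G σ → ∀ c : V → ℚ,
    (∑ v ∈ σ, c v • fun j => (r v j : ℚ)) = 0 → ∀ v ∈ σ, c v = 0
  cover : ∀ x : Fin n → ℚ, ∃ (σ : Finset V) (c : V → ℚ), Cl G σ ∧ (∀ v ∈ σ, 0 ≤ c v) ∧
    x = ∑ v ∈ σ, c v • fun j => (r v j : ℚ)

/-! ### Complexes partitioned into intervals -/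

/-- A complex with a partition into intervals `[R, T]`, filtered by a rank. -/
private structure ArrPart (Δ : Finset V → Prop) (m : ℕ) (T R : Finset V → Finset V)
    (rk : Finset V → ℕ) : Prop where
  sub : ∀ σ, Δ σ → R σ ⊆ σ ∧ σ ⊆ T σ
  cls : ∀ σ τ, Δ σ → R σ ⊆ τ → τ ⊆ T σ → Δ τ ∧ T τ = T σ ∧ R τ = R σ ∧ rk τ = rk σ
  down : ∀ σ τ, Δ σ → τ ⊆ σ → Δ τ ∧ rk σ ≤ rk τ
  same : ∀ σ τ, Δ σ → τ ⊆ σ → rk σ = rk τ → T τ = T σ ∧ R τ = R σ
  card : ∀ σ, Δ σ → (T σ).card = m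

private theorem arr_bd (ν : V → ℕ) (c : Finset V → ℝ) (κ : Finset V) :
    bd ν c κ = ∑ v ∈ κᶜ, sgn ν v κ * c (insert v κ) := rfl

private theorem arr_step {Δ : Finset V → Prop} {m : ℕ} {T R : Finset V → Finset V}
    {rk : Finset V → ℕ} (P : ArrPart Δ m T R rk) (ν : V → ℕ) (hν : Function.Injective ν)
    (j : ℕ) (hj : j < m) (k : ℕ) (z : Finset V → ℝ)
    (hz : ∀ σ, z σ ≠ 0 → Δ σ ∧ σ.card = j ∧ k ≤ rk σ) (hb : bd ν z = 0) :
    ∃ y : Finset V → ℝ, (∀ σ, y σ ≠ 0 → Δ σ ∧ σ.card = j + 1 ∧ k ≤ rk σ) ∧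
      ∀ σ, (z - bd ν y) σ ≠ 0 → Δ σ ∧ σ.card = j ∧ k + 1 ≤ rk σ := by
  classical
  by_cases hV : Nonempty V
  swap
  · refine ⟨0, fun σ h => absurd rfl h, fun σ h => ?_⟩
    exfalso
    rw [map_zero, sub_zero] at h
    have h1 := hz σ h
    have h2 := P.card σ h1.1
    have h3 : 0 < (T σ).card := by omega
    obtain ⟨x, _⟩ := Finset.card_pos.mp h3
    exact hV ⟨x⟩
  obtain ⟨p, hp⟩ : ∃ p : Finset V → V, ∀ A : Finset V, A.Nonempty → p A ∈ A :=
    ⟨fun A => if h : A.Nonempty then h.choose else Classical.arbitrary V, fun A hA => by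
      simp only [dif_pos hA]
      exact hA.choose_spec⟩
  let q : Finset V → V := fun σ => p (T σ \ R σ)
  let y : Finset V → ℝ := fun σ =>
    if Δ σ ∧ rk σ = k ∧ q σ ∈ σ then sgn ν (q σ) σ * z (σ.erase (q σ)) else 0
  have hy0 : ∀ σ, ¬ (Δ σ ∧ rk σ = k ∧ q σ ∈ σ) → y σ = 0 := fun σ h => if_neg h
  have hy1 : ∀ σ, (Δ σ ∧ rk σ = k ∧ q σ ∈ σ) → y σ = sgn ν (q σ) σ * z (σ.erase (q σ)) :=
    fun σ h => if_pos h
  have hys : ∀ σ, y σ ≠ 0 → Δ σ ∧ σ.card = j + 1 ∧ rk σ = k := by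
    intro σ h
    by_cases hc : Δ σ ∧ rk σ = k ∧ q σ ∈ σ
    · rw [hy1 σ hc] at h
      have h1 := (hz _ (right_ne_zero_of_mul h)).2.1
      rw [Finset.card_erase_of_mem hc.2.2] at h1
      have h2 : 0 < σ.card := Finset.card_pos.mpr ⟨_, hc.2.2⟩
      exact ⟨hc.1, by omega, hc.2.1⟩
    · exact absurd (hy0 σ hc) h
  -- the main computation
  have main : ∀ κ, Δ κ → κ.card = j → rk κ = k → bd ν y κ = z κ := by
    intro κ hΔ hcard hrk
    have hne : (T κ \ R κ).Nonempty := by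
      rw [Finset.sdiff_nonempty]
      intro hcon
      have h1 := Finset.card_le_card hcon
      have h2 := Finset.card_le_card (P.sub κ hΔ).1
      have h3 := P.card κ hΔ
      omega
    have hv := hp _ hne
    change q κ ∈ T κ \ R κ at hv
    rw [Finset.mem_sdiff] at hv
    have hq : ∀ u, Δ (insert u κ) → rk (insert u κ) = k → q (insert u κ) = q κ := by
      intro u h1 h2
      obtain ⟨h3, h4⟩ := P.same (insert u κ) κ h1 (Finset.subset_insert u κ) (by rw [h2, hrk])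
      change p (T (insert u κ) \ R (insert u κ)) = p (T κ \ R κ)
      rw [h3, h4]
    set v := q κ with hvdef
    rw [arr_bd]
    by_cases hvκ : v ∈ κ
    · -- the vertex is in the face
      have hRκ : R κ ⊆ κ.erase v := fun x hx =>
        Finset.mem_erase.mpr ⟨fun e => hv.2 (e ▸ hx), (P.sub κ hΔ).1 hx⟩
      obtain ⟨a1, a2, a3, a4⟩ := P.cls κ (κ.erase v) hΔ hRκ
        ((Finset.erase_subset v κ).trans (P.sub κ hΔ).2)
      have hyv : ∀ u ∈ κᶜ, y (insert u κ) = sgn ν v (insert u κ) * z (insert u (κ.erase v)) := by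
        intro u hu
        have hu' : u ∉ κ := Finset.mem_compl.mp hu
        have huv : u ≠ v := fun e => hu' (e ▸ hvκ)
        by_cases hc : Δ (insert u κ) ∧ rk (insert u κ) = k
        · have hqu := hq u hc.1 hc.2
          have hmem : q (insert u κ) ∈ insert u κ := by
            rw [hqu]; exact Finset.mem_insert_of_mem hvκ
          rw [hy1 _ ⟨hc.1, hc.2, hmem⟩, hqu, Finset.erase_insert_of_ne huv]
        · rw [hy0 _ fun h => hc ⟨h.1, h.2.1⟩]
          by_cases hz0 : z (insert u (κ.erase v)) = 0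
          · rw [hz0, mul_zero]
          · exfalso
            obtain ⟨b1, _, b3⟩ := hz _ hz0
            have hsub : κ.erase v ⊆ insert u (κ.erase v) := Finset.subset_insert _ _
            obtain ⟨_, b4⟩ := P.down _ _ b1 hsub
            have b5 : rk (insert u (κ.erase v)) = k := by omega
            obtain ⟨b6, b7⟩ := P.same _ _ b1 hsub (by omega)
            obtain ⟨c1, _, _, c4⟩ := P.cls (insert u (κ.erase v)) (insert u κ) b1
              (by
                rw [← b7, a3]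
                exact (P.sub κ hΔ).1.trans (Finset.subset_insert u κ))
              (by
                apply Finset.insert_subset
                · exact (P.sub _ b1).2 (Finset.mem_insert_self _ _)
                · rw [← b6, a2]
                  exact (P.sub κ hΔ).2)
            exact hc ⟨c1, by rw [c4, b5]⟩
      have h0 : bd ν z (κ.erase v) = 0 := by rw [hb]; rfl
      rw [arr_bd] at h0
      have hcompl : (κ.erase v)ᶜ = insert v κᶜ := by
        rw [Finset.compl_erase]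
      rw [hcompl, Finset.sum_insert (by simpa using hvκ), Finset.insert_erase hvκ] at h0
      have h1 : ∑ u ∈ κᶜ, sgn ν u κ * y (insert u κ) =
          -(sgn ν v κ) * ∑ u ∈ κᶜ, sgn ν u (κ.erase v) * z (insert u (κ.erase v)) := by
        rw [Finset.mul_sum]
        apply Finset.sum_congr rfl
        intro u hu
        have hu' : u ∉ κ := Finset.mem_compl.mp hu
        have huv : v ≠ u := fun e => hu' (e ▸ hvκ)
        have hs := sgn_swap_mix ν hν v u huv κ hvκ hu'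
        rw [hyv u hu]
        linear_combination (z (insert u (κ.erase v))) * hs
      rw [h1]
      have h2 := sgn_sq ν v κ
      rw [sgn_erase_self] at h0
      linear_combination (-(sgn ν v κ)) * h0 + z κ * h2
    · -- the vertex is not in the face
      obtain ⟨a1, a2, a3, a4⟩ := P.cls κ (insert v κ) hΔ
        ((P.sub κ hΔ).1.trans (Finset.subset_insert v κ))
        (Finset.insert_subset hv.1 (P.sub κ hΔ).2)
      rw [Finset.sum_eq_single_of_mem v (Finset.mem_compl.mpr hvκ)]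
      · have hqv := hq v a1 (by rw [a4, hrk])
        rw [hy1 (insert v κ) ⟨a1, by rw [a4, hrk], by rw [hqv]; exact Finset.mem_insert_self _ _⟩,
          hqv, Finset.erase_insert hvκ, sgn_insert_self, ← mul_assoc, sgn_sq, one_mul]
      · intro u hu huv
        rw [hy0, mul_zero]
        rintro ⟨b1, b2, b3⟩
        rw [hq u b1 b2, Finset.mem_insert] at b3
        rcases b3 with b3 | b3
        · exact huv b3.symm
        · exact hvκ b3
  refine ⟨y, fun σ h => ?_, fun κ h => ?_⟩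
  · obtain ⟨h1, h2, h3⟩ := hys σ h
    exact ⟨h1, h2, h3.ge⟩
  · have hκ : Δ κ ∧ κ.card = j ∧ k ≤ rk κ := by
      by_cases hz0 : z κ = 0
      · have hb0 : bd ν y κ ≠ 0 := by
          intro hcon
          apply h
          rw [Pi.sub_apply, hz0, hcon, sub_zero]
        rw [arr_bd] at hb0
        obtain ⟨u, hu, hne⟩ := Finset.exists_ne_zero_of_sum_ne_zero hb0
        obtain ⟨b1, b2, b3⟩ := hys _ (right_ne_zero_of_mul hne)
        rw [Finset.card_insert_of_notMem (Finset.mem_compl.mp hu)] at b2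
        obtain ⟨b4, b5⟩ := P.down _ κ b1 (Finset.subset_insert u κ)
        exact ⟨b4, by omega, by omega⟩
      · exact hz κ hz0
    refine ⟨hκ.1, hκ.2.1, ?_⟩
    by_contra hcon
    apply h
    rw [Pi.sub_apply, main κ hκ.1 hκ.2.1 (by omega), sub_self]

private theorem arr_low {Δ : Finset V → Prop} {m : ℕ} {T R : Finset V → Finset V}
    {rk : Finset V → ℕ} (P : ArrPart Δ m T R rk) (ν : V → ℕ) (hν : Function.Injective ν)
    (j : ℕ) (hj : j < m) : ∀ (d k : ℕ) (z : Finset V → ℝ), (∀ σ, rk σ < k + d) →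
    (∀ σ, z σ ≠ 0 → Δ σ ∧ σ.card = j ∧ k ≤ rk σ) → bd ν z = 0 →
    ∃ y : Finset V → ℝ, (∀ σ, y σ ≠ 0 → Δ σ ∧ σ.card = j + 1 ∧ k ≤ rk σ) ∧ bd ν y = z := by
  intro d
  induction d with
  | zero =>
    intro k z hk hz _
    refine ⟨0, fun σ h => absurd rfl h, ?_⟩
    rw [map_zero]
    funext σ
    by_contra hcon
    have h1 := hk σ
    have h2 := (hz σ fun e => hcon e.symm).2.2
    omega
  | succ d ih =>
    intro k z hk hz hb
    obtain ⟨y1, h1, h2⟩ := arr_step P ν hν j hj k z hz hb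
    obtain ⟨y2, h3, h4⟩ := ih (k + 1) (z - bd ν y1) (fun σ => by have := hk σ; omega) h2 (by
      rw [map_sub, hb, bd_bd ν hν, sub_zero])
    refine ⟨y1 + y2, fun σ h => ?_, ?_⟩
    · by_cases h0 : y1 σ = 0
      · have h5 : y2 σ ≠ 0 := by
          intro h6
          apply h
          rw [Pi.add_apply, h0, h6, add_zero]
        obtain ⟨b1, b2, b3⟩ := h3 σ h5
        exact ⟨b1, b2, by omega⟩
      · exact h1 σ h0
    · rw [map_add, h4]
      abel

private theorem arr_top_unique {Δ : Finset V → Prop} {m : ℕ} {T R : Finset V → Finset V}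
    {rk : Finset V → ℕ} (P : ArrPart Δ m T R rk) (ν : V → ℕ) (σ₀ : Finset V)
    (hu : ∀ σ, Δ σ → R σ = T σ → σ = σ₀) (z : Finset V → ℝ)
    (hz : ∀ σ, z σ ≠ 0 → Δ σ ∧ σ.card = m) (hb : bd ν z = 0) (h0 : z σ₀ = 0) : z = 0 := by
  classical
  by_contra hne
  obtain ⟨σ₁, hσ₁⟩ := Function.ne_iff.mp hne
  obtain ⟨σ, hσ, hmin⟩ := Finset.exists_min_image (Finset.univ.filter fun σ => z σ ≠ 0) rk
    ⟨σ₁, Finset.mem_filter.mpr ⟨Finset.mem_univ _, hσ₁⟩⟩
  have hzσ : z σ ≠ 0 := (Finset.mem_filter.mp hσ).2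
  obtain ⟨hΔ, hcard⟩ := hz σ hzσ
  have hT : σ = T σ := Finset.eq_of_subset_of_card_le (P.sub σ hΔ).2 (by
    rw [P.card σ hΔ, hcard])
  have hRT : R σ ≠ T σ := by
    intro h
    exact hzσ (by rw [hu σ hΔ h]; exact h0)
  have hne2 : (T σ \ R σ).Nonempty := by
    rw [Finset.sdiff_nonempty]
    intro hcon
    exact hRT (Finset.Subset.antisymm ((P.sub σ hΔ).1.trans (P.sub σ hΔ).2) hcon)
  obtain ⟨v, hv⟩ := hne2
  rw [Finset.mem_sdiff, ← hT] at hv
  obtain ⟨a1, a2, a3, a4⟩ := P.cls σ (σ.erase v) hΔ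
    (fun x hx => Finset.mem_erase.mpr ⟨fun e => hv.2 (e ▸ hx), (P.sub σ hΔ).1 hx⟩)
    ((Finset.erase_subset v σ).trans (P.sub σ hΔ).2)
  have h1 : bd ν z (σ.erase v) = 0 := by rw [hb]; rfl
  rw [arr_bd, Finset.sum_eq_single_of_mem v (by simp)] at h1
  · rw [Finset.insert_erase hv.1] at h1
    rcases mul_eq_zero.mp h1 with h2 | h2
    · have := sgn_sq ν v (σ.erase v)
      rw [h2] at this
      norm_num at this
    · exact hzσ h2
  · intro u hu' huv
    by_cases hz0 : z (insert u (σ.erase v)) = 0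
    · rw [hz0, mul_zero]
    · exfalso
      obtain ⟨b1, b2⟩ := hz _ hz0
      have hsub : σ.erase v ⊆ insert u (σ.erase v) := Finset.subset_insert _ _
      obtain ⟨_, b3⟩ := P.down _ _ b1 hsub
      have b4 := hmin _ (Finset.mem_filter.mpr ⟨Finset.mem_univ _, hz0⟩)
      obtain ⟨b5, _⟩ := P.same _ _ b1 hsub (by omega)
      have b6 : u ∈ σ := by
        have := (P.sub _ b1).2 (Finset.mem_insert_self u (σ.erase v))
        rw [← b5, a2, ← hT] at this
        exact this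
      rw [Finset.mem_compl, Finset.mem_erase] at hu'
      exact hu' ⟨huv, b6⟩

private theorem arr_top {Δ : Finset V → Prop} {m : ℕ} {T R : Finset V → Finset V}
    {rk : Finset V → ℕ} (P : ArrPart Δ m T R rk) (ν : V → ℕ) (hν : Function.Injective ν)
    (σ₀ : Finset V) (hΔ₀ : Δ σ₀) (hRT : R σ₀ = T σ₀) (hu : ∀ σ, Δ σ → R σ = T σ → σ = σ₀) :
    ∃ o : Finset V → ℝ, (∀ σ, o σ ≠ 0 → Δ σ ∧ σ.card = m) ∧ bd ν o = 0 ∧ o ≠ 0 ∧
      ∀ z : Finset V → ℝ, (∀ σ, z σ ≠ 0 → Δ σ ∧ σ.card = m) → bd ν z = 0 →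
        ∃ r : ℝ, z = r • o := by
  classical
  have hσT : σ₀ = T σ₀ :=
    Finset.Subset.antisymm (P.sub σ₀ hΔ₀).2 (hRT ▸ (P.sub σ₀ hΔ₀).1)
  have hcard : σ₀.card = m := by
    rw [hσT]
    exact P.card σ₀ hΔ₀
  let z0 : Finset V → ℝ := fun σ => if σ = σ₀ then 1 else 0
  have hz0s : ∀ σ, z0 σ ≠ 0 → σ = σ₀ := by
    intro σ h
    by_contra hne
    exact h (if_neg hne)
  have hz00 : z0 σ₀ = 1 := if_pos rfl
  have hbd : ∀ κ, bd ν z0 κ ≠ 0 → Δ κ ∧ κ.card + 1 = m ∧ rk σ₀ + 1 ≤ rk κ := by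
    intro κ h
    rw [arr_bd] at h
    obtain ⟨u, hu1, hne⟩ := Finset.exists_ne_zero_of_sum_ne_zero h
    have h1 := hz0s _ (right_ne_zero_of_mul hne)
    have hu2 : u ∉ κ := Finset.mem_compl.mp hu1
    have hsub : κ ⊆ σ₀ := h1 ▸ Finset.subset_insert u κ
    have huσ : u ∈ σ₀ := h1 ▸ Finset.mem_insert_self u κ
    obtain ⟨b1, b2⟩ := P.down σ₀ κ hΔ₀ hsub
    refine ⟨b1, ?_, ?_⟩
    · rw [← hcard, ← h1, Finset.card_insert_of_notMem hu2]
    · by_contra hcon
      obtain ⟨_, b4⟩ := P.same σ₀ κ hΔ₀ hsub (by omega)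
      have b5 := (P.sub κ b1).1
      rw [b4, hRT, ← hσT] at b5
      exact hu2 (b5 huσ)
  -- the cycle
  obtain ⟨o, ho1, ho2, ho3⟩ : ∃ o : Finset V → ℝ, (∀ σ, o σ ≠ 0 → Δ σ ∧ σ.card = m) ∧
      bd ν o = 0 ∧ o σ₀ = 1 := by
    rcases Nat.eq_zero_or_pos m with hm | hm
    · refine ⟨z0, fun σ h => ?_, ?_, hz00⟩
      · rw [hz0s σ h]
        exact ⟨hΔ₀, hcard⟩
      · funext κ
        by_contra hcon
        have := (hbd κ hcon).2.1
        omega
    · obtain ⟨B, hB⟩ : ∃ B : ℕ, ∀ σ, rk σ < B := by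
        refine ⟨(Finset.univ.sup rk) + 1, fun σ => ?_⟩
        have := Finset.le_sup (f := rk) (Finset.mem_univ σ)
        omega
      obtain ⟨y, hy1, hy2⟩ := arr_low P ν hν (m - 1) (by omega) B (rk σ₀ + 1) (bd ν z0)
        (fun σ => by have := hB σ; omega)
        (fun σ h => by
          obtain ⟨b1, b2, b3⟩ := hbd σ h
          exact ⟨b1, by omega, b3⟩) (bd_bd ν hν z0)
      refine ⟨z0 - y, fun σ h => ?_, ?_, ?_⟩
      · by_cases h0 : z0 σ = 0
        · have h5 : y σ ≠ 0 := by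
            intro h6
            apply h
            rw [Pi.sub_apply, h0, h6, sub_zero]
          obtain ⟨b1, b2, _⟩ := hy1 σ h5
          exact ⟨b1, by omega⟩
        · rw [hz0s σ h0]
          exact ⟨hΔ₀, hcard⟩
      · rw [map_sub, hy2, sub_self]
      · have h5 : y σ₀ = 0 := by
          by_contra h6
          have := (hy1 σ₀ h6).2.2
          omega
        rw [Pi.sub_apply, h5, sub_zero, hz00]
  refine ⟨o, ho1, ho2, fun h => ?_, fun z hz1 hz2 => ⟨z σ₀, ?_⟩⟩
  · rw [h] at ho3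
    exact zero_ne_one ho3
  · have h1 := arr_top_unique P ν σ₀ hu (z - z σ₀ • o) (fun σ h => by
      by_cases h0 : z σ = 0
      · have h5 : o σ ≠ 0 := by
          intro h6
          apply h
          rw [Pi.sub_apply, Pi.smul_apply, h0, h6, smul_zero, sub_zero]
        exact ho1 σ h5
      · exact hz1 σ h0) (by rw [map_sub, map_smul, hz2, ho2, smul_zero, sub_zero]) (by
      rw [Pi.sub_apply, Pi.smul_apply, ho3, smul_eq_mul, mul_one, sub_self])
    exact sub_eq_zero.mp h1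

/-! ### Geometry of the arrangement -/

private structure ArrGeo (G : SimpleGraph V) (n : ℕ) {I : Type} (l : I → (Fin n → ℚ) →ₗ[ℚ] ℚ)
    (r : V → Fin n → ℚ) : Prop where
  cl : ∀ σ, Cl G σ ↔ ∀ u ∈ σ, ∀ v ∈ σ, ∀ i, 0 ≤ l i (r u) * l i (r v)
  indep : ∀ σ : Finset V, Cl G σ → ∀ c : V → ℚ, ∑ v ∈ σ, c v • r v = 0 → ∀ v ∈ σ, c v = 0
  cover : ∀ x, ∃ (σ : Finset V) (c : V → ℚ), Cl G σ ∧ (∀ v ∈ σ, 0 ≤ c v) ∧
    x = ∑ v ∈ σ, c v • r v

section Geo

variable {G : SimpleGraph V} {n : ℕ} {I : Type} {l : I → (Fin n → ℚ) →ₗ[ℚ] ℚ}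
  {r : V → Fin n → ℚ}

private theorem arr_cl_mono {σ τ : Finset V} (h : Cl G σ) (hs : τ ⊆ σ) : Cl G τ :=
  fun u hu v hv huv => h u (hs hu) v (hs hv) huv

private theorem arr_coef (H : ArrGeo G n l r) {σ : Finset V} (hσ : Cl G σ) (c d : V → ℚ)
    (h : ∑ v ∈ σ, c v • r v = ∑ v ∈ σ, d v • r v) : ∀ v ∈ σ, c v = d v := by
  intro v hv
  have := H.indep σ hσ (fun v => c v - d v) (by
    simp only [sub_smul, Finset.sum_sub_distrib]
    rw [h, sub_self]) v hv
  linarith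

private theorem arr_li (H : ArrGeo G n l r) {σ : Finset V} (hσ : Cl G σ) :
    LinearIndependent ℚ (fun v : σ => r v) := by
  rw [Fintype.linearIndependent_iff]
  intro g hg v
  have h1 := H.indep σ hσ (fun v => if h : v ∈ σ then g ⟨v, h⟩ else 0) (by
    rw [← Finset.sum_coe_sort]
    rw [← hg]
    apply Finset.sum_congr rfl
    intro x _
    simp) v v.2
  simpa using h1

private theorem arr_dim (H : ArrGeo G n l r) {σ : Finset V} (hσ : Cl G σ) : σ.card ≤ n := by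
  have := (arr_li H hσ).fintype_card_le_finrank
  rw [Fintype.card_coe, Module.finrank_fin_fun] at this
  exact this

private theorem arr_span (H : ArrGeo G n l r) {S : Finset V} (hS : Cl G S) (hc : S.card = n)
    (x : Fin n → ℚ) : ∃ c : V → ℚ, x = ∑ v ∈ S, c v • r v := by
  have h1 := (arr_li H hS).span_eq_top_of_card_eq_finrank' (by
    rw [Fintype.card_coe, Module.finrank_fin_fun, hc])
  have h2 : x ∈ Submodule.span ℚ (r '' S) := by
    have h3 : Set.range (fun v : S => r v) = r '' S := by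
      ext y
      simp
    rw [← h3, h1]
    exact Submodule.mem_top
  obtain ⟨c, hc⟩ := (Submodule.mem_span_image_finset_iff_exists_fun' ℚ).mp h2
  exact ⟨c, hc.symm⟩

/-- the sign of the functionals at a positive combination -/
private theorem arr_coh (H : ArrGeo G n l r) {σ : Finset V} (hσ : Cl G σ) (c : V → ℚ)
    (hc : ∀ v ∈ σ, 0 ≤ c v) (i : I) : ∀ v ∈ σ,
      c v * (l i (r v)) ^ 2 ≤ l i (∑ v ∈ σ, c v • r v) * l i (r v) := by
  intro v hv
  rw [map_sum, Finset.sum_mul]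
  have h1 := Finset.single_le_sum (f := fun u => l i (c u • r u) * l i (r v)) (s := σ)
    (fun u hu => by
      change 0 ≤ l i (c u • r u) * l i (r v)
      rw [map_smul, smul_eq_mul, mul_assoc]
      exact mul_nonneg (hc u hu) ((H.cl σ).mp hσ u hu v hv i)) hv
  refine le_trans (le_of_eq ?_) h1
  rw [map_smul, smul_eq_mul]
  ring

private theorem arr_coh' (H : ArrGeo G n l r) {σ : Finset V} (hσ : Cl G σ) (c : V → ℚ)
    (hc : ∀ v ∈ σ, 0 < c v) (i : I) : ∀ v ∈ σ,
      0 ≤ l i (∑ v ∈ σ, c v • r v) * l i (r v) ∧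
        (l i (∑ v ∈ σ, c v • r v) = 0 → l i (r v) = 0) := by
  intro v hv
  have h1 := arr_coh H hσ c (fun v hv => (hc v hv).le) i v hv
  have h2 := hc v hv
  refine ⟨le_trans (by positivity) h1, fun h0 => ?_⟩
  rw [h0, zero_mul] at h1
  by_contra hne
  have : 0 < c v * (l i (r v)) ^ 2 := by positivity
  linarith

/-- two vectors which have the signs of `x` -/
private theorem arr_pair (x a b : ℚ) (ha : 0 ≤ x * a) (hb : 0 ≤ x * b) (h0 : x = 0 → a = 0) :
    0 ≤ a * b := by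
  by_cases hx : x = 0
  · rw [h0 hx, zero_mul]
  · have h1 : 0 < x ^ 2 := by positivity
    have h2 : 0 ≤ x ^ 2 * (a * b) := by nlinarith [mul_nonneg ha hb]
    exact nonneg_of_mul_nonneg_right h2 h1

private theorem arr_union (H : ArrGeo G n l r) {σ τ : Finset V} (hσ : Cl G σ) (hτ : Cl G τ)
    (x : Fin n → ℚ) (h1 : ∀ i, ∀ v ∈ σ, 0 ≤ l i x * l i (r v))
    (h2 : ∀ i, ∀ v ∈ τ, 0 ≤ l i x * l i (r v) ∧ (l i x = 0 → l i (r v) = 0)) :
    Cl G (σ ∪ τ) := by
  rw [H.cl]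
  intro u hu v hv i
  rcases Finset.mem_union.mp hu with hu | hu
  · rcases Finset.mem_union.mp hv with hv | hv
    · exact (H.cl σ).mp hσ u hu v hv i
    · rw [mul_comm]
      exact arr_pair (l i x) _ _ (h2 i v hv).1 (h1 i u hu) (h2 i v hv).2
  · rcases Finset.mem_union.mp hv with hv | hv
    · exact arr_pair (l i x) _ _ (h2 i u hu).1 (h1 i v hv) (h2 i u hu).2
    · exact (H.cl τ).mp hτ u hu v hv i

/-- positive combinations of cliques are unique -/
private theorem arr_uniq (H : ArrGeo G n l r) {σ τ : Finset V} (hσ : Cl G σ) (hτ : Cl G τ)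
    (c d : V → ℚ) (hc : ∀ v ∈ σ, 0 < c v) (hd : ∀ v ∈ τ, 0 < d v)
    (h : ∑ v ∈ σ, c v • r v = ∑ v ∈ τ, d v • r v) : σ = τ ∧ ∀ v ∈ σ, c v = d v := by
  have hu : Cl G (σ ∪ τ) := by
    apply arr_union H hσ hτ (∑ v ∈ σ, c v • r v)
    · exact fun i v hv => (arr_coh' H hσ c hc i v hv).1
    · intro i v hv
      rw [h]
      exact arr_coh' H hτ d hd i v hv
  have e1 : ∑ v ∈ σ ∪ τ, (if v ∈ σ then c v else 0) • r v = ∑ v ∈ σ, c v • r v := by
    rw [← Finset.sum_subset Finset.subset_union_left (s₁ := σ)]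
    · apply Finset.sum_congr rfl
      intro v hv
      rw [if_pos hv]
    · intro v _ hv
      rw [if_neg hv, zero_smul]
  have e2 : ∑ v ∈ σ ∪ τ, (if v ∈ τ then d v else 0) • r v = ∑ v ∈ τ, d v • r v := by
    rw [← Finset.sum_subset Finset.subset_union_right (s₁ := τ)]
    · apply Finset.sum_congr rfl
      intro v hv
      rw [if_pos hv]
    · intro v _ hv
      rw [if_neg hv, zero_smul]
  have h1 := arr_coef H hu _ _ (e1.trans (h.trans e2.symm))
  have hs : σ ⊆ τ := by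
    intro v hv
    by_contra hcon
    have h2 := h1 v (Finset.mem_union_left _ hv)
    rw [if_pos hv, if_neg hcon] at h2
    have := hc v hv
    linarith
  have ht : τ ⊆ σ := by
    intro v hv
    by_contra hcon
    have h2 := h1 v (Finset.mem_union_right _ hv)
    rw [if_neg hcon, if_pos hv] at h2
    have := hd v hv
    linarith
  refine ⟨Finset.Subset.antisymm hs ht, fun v hv => ?_⟩
  have h2 := h1 v (Finset.mem_union_left _ hv)
  rwa [if_pos hv, if_pos (hs hv)] at h2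

/-- a nonnegative combination restricted to its support -/
private theorem arr_supp (σ : Finset V) (c : V → ℚ) (hc : ∀ v ∈ σ, 0 ≤ c v) :
    ∑ v ∈ σ, c v • r v = ∑ v ∈ σ.filter (fun v => 0 < c v), c v • r v := by
  rw [Finset.sum_filter]
  apply Finset.sum_congr rfl
  intro v hv
  by_cases h : 0 < c v
  · rw [if_pos h]
  · rw [if_neg h, le_antisymm (not_lt.mp h) (hc v hv), zero_smul]

/-- the cone of a maximal clique is given by its signs -/
private theorem arr_cone (H : ArrGeo G n l r) {S : Finset V} (hS : Cl G S) (hcard : S.card = n)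
    (x : Fin n → ℚ) (hx : ∀ i, ∀ u ∈ S, 0 ≤ l i x * l i (r u)) :
    ∃ c : V → ℚ, (∀ v ∈ S, 0 ≤ c v) ∧ x = ∑ v ∈ S, c v • r v := by
  obtain ⟨σ, c, hσ, hc, rfl⟩ := H.cover x
  set σ' := σ.filter (fun v => 0 < c v) with hσ'
  have hcl : Cl G σ' := arr_cl_mono hσ (Finset.filter_subset _ _)
  have hpos : ∀ v ∈ σ', 0 < c v := fun v hv => (Finset.mem_filter.mp hv).2
  rw [arr_supp σ c hc] at hx ⊢
  have hu : Cl G (S ∪ σ') := arr_union H hS hcl _ hx (fun i v hv => arr_coh' H hcl c hpos i v hv)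
  have h1 := arr_dim H hu
  have h2 : S = S ∪ σ' := Finset.eq_of_subset_of_card_le Finset.subset_union_left (by omega)
  have h3 : σ' ⊆ S := by
    rw [h2]
    exact Finset.subset_union_right
  refine ⟨fun v => if v ∈ σ' then c v else 0, fun v _ => ?_, ?_⟩
  · dsimp only
    by_cases h : v ∈ σ'
    · rw [if_pos h]
      exact (hpos v h).le
    · rw [if_neg h]
  · rw [← Finset.sum_subset h3]
    · apply Finset.sum_congr rfl
      intro v hv
      dsimp only
      rw [if_pos hv]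
    · intro v _ hv
      dsimp only
      rw [if_neg hv, zero_smul]

/-! #### The sum of the absolute values of the functionals -/

/-- the sign of a functional on a maximal clique -/
private noncomputable def arrSgn (l : I → (Fin n → ℚ) →ₗ[ℚ] ℚ) (r : V → Fin n → ℚ)
    (S : Finset V) (i : I) : ℚ := if 0 ≤ l i (∑ v ∈ S, r v) then 1 else -1

private noncomputable def arrF [Fintype I] (l : I → (Fin n → ℚ) →ₗ[ℚ] ℚ) (r : V → Fin n → ℚ)
    (S : Finset V) (x : Fin n → ℚ) : ℚ := ∑ i, arrSgn l r S i * l i x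

private theorem arrF_add [Fintype I] (S : Finset V) (x y : Fin n → ℚ) :
    arrF l r S (x + y) = arrF l r S x + arrF l r S y := by
  unfold arrF
  rw [← Finset.sum_add_distrib]
  apply Finset.sum_congr rfl
  intro i _
  rw [map_add, mul_add]

private theorem arrSgn_le (S : Finset V) (i : I) (x : Fin n → ℚ) :
    arrSgn l r S i * l i x ≤ |l i x| := by
  unfold arrSgn
  split_ifs
  · rw [one_mul]
    exact le_abs_self _
  · rw [neg_one_mul]
    exact neg_le_abs _

private theorem arrSgn_nonneg (H : ArrGeo G n l r) {S : Finset V} (hS : Cl G S) (i : I) :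
    ∀ u ∈ S, 0 ≤ arrSgn l r S i * l i (r u) := by
  intro u hu
  have h1 := arr_coh' H hS (fun _ => 1) (fun _ _ => one_pos) i u hu
  simp only [one_smul] at h1
  unfold arrSgn
  split_ifs with h
  · rw [one_mul]
    rcases h.lt_or_eq with h2 | h2
    · exact nonneg_of_mul_nonneg_right h1.1 h2
    · rw [h1.2 h2.symm]
  · rw [neg_one_mul, neg_nonneg]
    push Not at h
    by_contra hcon
    push Not at hcon
    nlinarith [mul_pos hcon (neg_pos.mpr h)]

private theorem arrF_cone [Fintype I] (H : ArrGeo G n l r) {S : Finset V} (hS : Cl G S)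
    (c : V → ℚ) (hc : ∀ v ∈ S, 0 ≤ c v) :
    arrF l r S (∑ v ∈ S, c v • r v) = ∑ i, |l i (∑ v ∈ S, c v • r v)| := by
  unfold arrF
  apply Finset.sum_congr rfl
  intro i _
  have h1 : 0 ≤ arrSgn l r S i * l i (∑ v ∈ S, c v • r v) := by
    rw [map_sum, Finset.mul_sum]
    apply Finset.sum_nonneg
    intro u hu
    rw [map_smul, smul_eq_mul, mul_left_comm]
    exact mul_nonneg (hc u hu) (arrSgn_nonneg H hS i u hu)
  have h2 : |arrSgn l r S i| = 1 := by
    unfold arrSgn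
    split_ifs <;> norm_num
  rw [← abs_of_nonneg h1, abs_mul, h2, one_mul]

private theorem arrF_lt [Fintype I] (H : ArrGeo G n l r) {S : Finset V} (hS : Cl G S)
    (hcard : S.card = n) (x : Fin n → ℚ)
    (hx : ¬ ∃ c : V → ℚ, (∀ v ∈ S, 0 ≤ c v) ∧ x = ∑ v ∈ S, c v • r v) :
    arrF l r S x < ∑ i, |l i x| := by
  have hle : ∀ i ∈ (Finset.univ : Finset I), arrSgn l r S i * l i x ≤ |l i x| :=
    fun i _ => arrSgn_le S i x
  refine lt_of_le_of_ne (Finset.sum_le_sum hle) fun heq => hx ?_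
  have h1 := (Finset.sum_eq_sum_iff_of_le hle).mp heq
  apply arr_cone H hS hcard
  intro i u hu
  have h2 : 0 ≤ arrSgn l r S i * l i x := by
    rw [h1 i (Finset.mem_univ i)]
    exact abs_nonneg _
  have h3 := arrSgn_nonneg H hS i u hu
  have h4 : arrSgn l r S i * arrSgn l r S i = 1 := by
    unfold arrSgn
    split_ifs <;> norm_num
  have h5 := mul_nonneg h2 h3
  nlinarith

/-! #### Generic vectors -/

/-- generic vectors -/
private def ArrGen (r : V → Fin n → ℚ) (b : Fin n → ℚ) : Prop :=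
  ∀ σ : Finset V, σ.card < n → b ∉ Submodule.span ℚ (r '' σ)

private theorem arr_gen_exists (r : V → Fin n → ℚ) : ∃ b, ArrGen r b := by
  classical
  let s : Finset (Submodule ℚ (Fin n → ℚ)) :=
    ((Finset.univ : Finset (Finset V)).filter fun σ : Finset V => σ.card < n).image
      (fun σ : Finset V => Submodule.span ℚ (r '' (σ : Set V)))
  have hs : ⊤ ∉ s := by
    intro h
    obtain ⟨σ, hσ, he⟩ := Finset.mem_image.mp h
    have hc := (Finset.mem_filter.mp hσ).2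
    have h1 : Module.finrank ℚ (Submodule.span ℚ (r '' σ)) ≤ σ.card := by
      rw [← Finset.coe_image]
      exact (finrank_span_finset_le_card (R := ℚ) (σ.image r)).trans Finset.card_image_le
    rw [he, finrank_top, Module.finrank_fin_fun] at h1
    omega
  have h1 := Subspace.biUnion_ne_univ_of_top_notMem hs
  obtain ⟨b, hb⟩ := (Set.ne_univ_iff_exists_notMem _).mp h1
  refine ⟨b, fun σ hσ hmem => hb ?_⟩
  rw [Set.mem_iUnion₂]
  exact ⟨_, Finset.mem_image.mpr ⟨σ, Finset.mem_filter.mpr ⟨Finset.mem_univ _, hσ⟩, rfl⟩, hmem⟩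

private theorem arr_gen_neg {b : Fin n → ℚ} (hb : ArrGen r b) : ArrGen r (-b) := by
  intro σ hσ hmem
  apply hb σ hσ
  have := Submodule.neg_mem _ hmem
  rwa [neg_neg] at this

private theorem arr_gen_coef {b : Fin n → ℚ} (hb : ArrGen r b) {S : Finset V} (hcard : S.card = n)
    (β : V → ℚ) (h : b = ∑ v ∈ S, β v • r v) : ∀ v ∈ S, β v ≠ 0 := by
  classical
  intro v hv h0
  apply hb (S.erase v)
  · rw [Finset.card_erase_of_mem hv]
    have : 0 < S.card := Finset.card_pos.mpr ⟨v, hv⟩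
    omega
  · rw [Submodule.mem_span_image_finset_iff_exists_fun' ℚ]
    refine ⟨β, ?_⟩
    rw [h, ← Finset.add_sum_erase S _ hv, h0, zero_smul, zero_add]

/-- `S` is the cone which contains the small translates of the cone of `τ` in direction `b` -/
private def ArrSees (G : SimpleGraph V) (r : V → Fin n → ℚ) (b : Fin n → ℚ) (τ S : Finset V) :
    Prop :=
  Cl G S ∧ S.card = n ∧ τ ⊆ S ∧ ∃ β : V → ℚ, b = ∑ v ∈ S, β v • r v ∧ ∀ v ∈ S, v ∉ τ → 0 < β v

private theorem arr_sees_exists (H : ArrGeo G n l r) {b : Fin n → ℚ} (hb : ArrGen r b)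
    {τ : Finset V} (hτ : Cl G τ) : ∃ S, ArrSees G r b τ S := by
  classical
  set xt : Fin n → ℚ := ∑ v ∈ τ, r v with hxt
  have hcov : ∀ k : ℕ, ∃ (σ : Finset V) (c : V → ℚ), Cl G σ ∧ (∀ v ∈ σ, 0 ≤ c v) ∧
      (k : ℚ) • xt + b = ∑ v ∈ σ, c v • r v := fun k => H.cover _
  choose Sg c hcl hc heq using hcov
  obtain ⟨S, hS⟩ := Finite.exists_infinite_fiber Sg
  have hS' : (Sg ⁻¹' {S}).Infinite := Set.infinite_coe_iff.mp hS
  -- two members of the fibre
  obtain ⟨k, hk, -⟩ := hS'.exists_gt 0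
  obtain ⟨k', hk', hkk⟩ := hS'.exists_gt k
  have hk1 : Sg k = S := hk
  have hk1' : Sg k' = S := hk'
  have hclS : Cl G S := hk1 ▸ hcl k
  -- coordinates
  have hne : (k' : ℚ) - k ≠ 0 := by
    have : (k : ℚ) < k' := by exact_mod_cast hkk
    linarith
  set a : V → ℚ := fun v => ((k' : ℚ) - k)⁻¹ * (c k' v - c k v) with ha
  set β : V → ℚ := fun v => c k v - k * a v with hβ
  have ex : xt = ∑ v ∈ S, a v • r v := by
    have h1 := heq k
    have h2 := heq k'
    rw [hk1] at h1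
    rw [hk1'] at h2
    have h3 : ((k' : ℚ) - k) • xt = ∑ v ∈ S, (c k' v - c k v) • r v := by
      simp only [sub_smul, Finset.sum_sub_distrib]
      rw [← h1, ← h2]
      abel
    have h4 : xt = ((k' : ℚ) - k)⁻¹ • (((k' : ℚ) - k) • xt) := by
      rw [smul_smul, inv_mul_cancel₀ hne, one_smul]
    rw [h4, h3, Finset.smul_sum]
    apply Finset.sum_congr rfl
    intro v _
    rw [smul_smul]
  have eb : b = ∑ v ∈ S, β v • r v := by
    have h1 := heq k
    rw [hk1] at h1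
    have h2 : b = ∑ v ∈ S, c k v • r v - (k : ℚ) • xt := by
      rw [← h1]
      abel
    rw [h2, ex, Finset.smul_sum, ← Finset.sum_sub_distrib]
    apply Finset.sum_congr rfl
    intro v _
    rw [hβ]
    dsimp only
    rw [sub_smul, smul_smul]
  have hcard : S.card = n := by
    refine le_antisymm (arr_dim H hclS) ?_
    by_contra hcon
    push Not at hcon
    apply hb S hcon
    rw [Submodule.mem_span_image_finset_iff_exists_fun' ℚ]
    exact ⟨β, eb.symm⟩
  -- all members of the fibre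
  have hall : ∀ m : ℕ, Sg m = S → ∀ v ∈ S, 0 ≤ m * a v + β v := by
    intro m hm v hv
    have h1 := heq m
    rw [hm] at h1
    have h2 : ∑ v ∈ S, c m v • r v = ∑ v ∈ S, ((m : ℚ) * a v + β v) • r v := by
      rw [← h1, ex, eb, Finset.smul_sum, ← Finset.sum_add_distrib]
      apply Finset.sum_congr rfl
      intro v _
      rw [add_smul, mul_smul (m : ℚ) (a v)]
    rw [← arr_coef H hclS _ _ h2 v hv]
    exact hc m v (hm ▸ hv)
  have ha0 : ∀ v ∈ S, 0 ≤ a v := by
    intro v hv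
    by_contra hcon
    push Not at hcon
    obtain ⟨N, hN⟩ := exists_nat_gt (β v / (-a v))
    obtain ⟨m, hm, hmN⟩ := hS'.exists_gt N
    have h1 := hall m hm v hv
    have h2 : β v / (-a v) < m := hN.trans (by exact_mod_cast hmN)
    rw [div_lt_iff₀ (by linarith)] at h2
    linarith
  -- the support of `a`
  have hsupp := arr_supp (r := r) S a ha0
  have hcl2 : Cl G (S.filter fun v => 0 < a v) := arr_cl_mono hclS (Finset.filter_subset _ _)
  have h1 : ∑ v ∈ τ, (1 : ℚ) • r v = ∑ v ∈ S.filter (fun v => 0 < a v), a v • r v := by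
    rw [← hsupp, ← ex, hxt]
    simp
  obtain ⟨h2, -⟩ := arr_uniq H hτ hcl2 (fun _ => 1) a (fun _ _ => one_pos)
    (fun v hv => (Finset.mem_filter.mp hv).2) h1
  refine ⟨S, hclS, hcard, ?_, β, eb, ?_⟩
  · rw [h2]
    exact Finset.filter_subset _ _
  · intro v hv hvτ
    have h3 : a v = 0 := by
      refine le_antisymm ?_ (ha0 v hv)
      by_contra hcon
      push Not at hcon
      apply hvτ
      rw [h2]
      exact Finset.mem_filter.mpr ⟨hv, hcon⟩
    have h4 := hall k hk1 v hv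
    rw [h3, mul_zero, zero_add] at h4
    exact lt_of_le_of_ne h4 (Ne.symm (arr_gen_coef hb hcard β eb v hv))

private theorem arr_sees_lt [Fintype I] (H : ArrGeo G n l r) {b : Fin n → ℚ}
    {τ S S' : Finset V} (hS : Cl G S) (hcard : S.card = n) (hτS : τ ⊆ S)
    (hS' : ArrSees G r b τ S') (hne : S ≠ S') : arrF l r S b < arrF l r S' b := by
  classical
  obtain ⟨hcl', hcard', hτS', β, hb, hβ⟩ := hS'
  -- a large multiple
  obtain ⟨k, hk⟩ : ∃ k : ℕ, ∀ v ∈ S', 0 < (k : ℚ) + β v := by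
    obtain ⟨k, hk⟩ := exists_nat_gt (∑ v ∈ S', |β v|)
    refine ⟨k, fun v hv => ?_⟩
    have h1 := Finset.single_le_sum (f := fun v => |β v|) (fun v _ => abs_nonneg (β v)) hv
    have h2 := neg_abs_le (β v)
    linarith
  set xt : Fin n → ℚ := ∑ v ∈ τ, r v with hxt
  have hxS : ∀ T : Finset V, τ ⊆ T → xt = ∑ v ∈ T, (if v ∈ τ then (1 : ℚ) else 0) • r v := by
    intro T hT
    rw [hxt, ← Finset.sum_subset hT]
    · apply Finset.sum_congr rfl
      intro v hv
      rw [if_pos hv, one_smul]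
    · intro v _ hv
      rw [if_neg hv, zero_smul]
  have hkxS : ∀ T : Finset V, τ ⊆ T → (k : ℚ) • xt =
      ∑ v ∈ T, ((k : ℚ) * if v ∈ τ then (1 : ℚ) else 0) • r v := by
    intro T hT
    rw [hxS T hT, Finset.smul_sum]
    apply Finset.sum_congr rfl
    intro v _
    rw [smul_smul]
  have hnn : ∀ v : V, 0 ≤ ((k : ℚ) * if v ∈ τ then (1 : ℚ) else 0) := by
    intro v
    split_ifs
    · positivity
    · rw [mul_zero]
  set y : Fin n → ℚ := (k : ℚ) • xt + b with hy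
  set γ : V → ℚ := fun v => (k : ℚ) * (if v ∈ τ then (1 : ℚ) else 0) + β v with hγ
  have hy' : y = ∑ v ∈ S', γ v • r v := by
    rw [hy, hkxS S' hτS', hb, ← Finset.sum_add_distrib]
    apply Finset.sum_congr rfl
    intro v _
    rw [← add_smul]
  have hγ0 : ∀ v ∈ S', 0 < γ v := by
    intro v hv
    change 0 < (k : ℚ) * (if v ∈ τ then (1 : ℚ) else 0) + β v
    by_cases hvτ : v ∈ τ
    · rw [if_pos hvτ, mul_one]
      exact hk v hv
    · rw [if_neg hvτ, mul_zero, zero_add]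
      exact hβ v hv hvτ
  have h1 : arrF l r S y < ∑ i, |l i y| := by
    apply arrF_lt H hS hcard
    rintro ⟨c, hc, he⟩
    rw [arr_supp S c hc, hy'] at he
    obtain ⟨h2, -⟩ := arr_uniq H hcl' (arr_cl_mono hS (Finset.filter_subset _ _)) γ c hγ0
      (fun v hv => (Finset.mem_filter.mp hv).2) he
    apply hne
    symm
    apply Finset.eq_of_subset_of_card_le
    · rw [h2]
      exact Finset.filter_subset _ _
    · rw [hcard, hcard']
  have h2 : arrF l r S' y = ∑ i, |l i y| := by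
    rw [hy']
    exact arrF_cone H hcl' γ fun v hv => (hγ0 v hv).le
  have h3 : arrF l r S ((k : ℚ) • xt) = ∑ i, |l i ((k : ℚ) • xt)| := by
    rw [hkxS S hτS]
    exact arrF_cone H hS _ fun v _ => hnn v
  have h4 : arrF l r S' ((k : ℚ) • xt) = ∑ i, |l i ((k : ℚ) • xt)| := by
    rw [hkxS S' hτS']
    exact arrF_cone H hcl' _ fun v _ => hnn v
  rw [← h2, hy, arrF_add, arrF_add, h3, h4] at h1
  linarith

private theorem arr_sees_uniq [Fintype I] (H : ArrGeo G n l r) {b : Fin n → ℚ}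
    {τ S S' : Finset V} (hS : ArrSees G r b τ S) (hS' : ArrSees G r b τ S') : S = S' := by
  by_contra hne
  have h1 := arr_sees_lt H hS.1 hS.2.1 hS.2.2.1 hS' hne
  have h2 := arr_sees_lt H hS'.1 hS'.2.1 hS'.2.2.1 hS (Ne.symm hne)
  exact lt_asymm h1 h2

end Geo

/-! ### The sphere -/

private theorem arr_geo {G : SimpleGraph V} {n : ℕ} {I : Type}
    {h : I → Fin n → ℤ} {r : V → Fin n → ℤ} (H : IsArrangement G n h r) :
    ∃ (l : I → (Fin n → ℚ) →ₗ[ℚ] ℚ), ArrGeo G n l (fun v j => (r v j : ℚ)) := by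
  classical
  let l : I → (Fin n → ℚ) →ₗ[ℚ] ℚ := fun i =>
    { toFun := fun x => ∑ j, (h i j : ℚ) * x j
      map_add' := by
        intro x y
        rw [← Finset.sum_add_distrib]
        apply Finset.sum_congr rfl
        intro j _
        rw [Pi.add_apply, mul_add]
      map_smul' := by
        intro c x
        rw [RingHom.id_apply, smul_eq_mul, Finset.mul_sum]
        apply Finset.sum_congr rfl
        intro j _
        rw [Pi.smul_apply, smul_eq_mul, mul_left_comm] }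
  have hl : ∀ i v, l i (fun j => (r v j : ℚ)) = ((h i ⬝ᵥ r v : ℤ) : ℚ) := by
    intro i v
    change ∑ j, (h i j : ℚ) * (r v j : ℚ) = _
    rw [dotProduct]
    push_cast
    rfl
  refine ⟨l, ?_, H.indep, H.cover⟩
  intro σ
  constructor
  · intro hσ u hu v hv i
    rw [hl, hl, ← Int.cast_mul]
    by_cases huv : u = v
    · subst huv
      exact_mod_cast mul_self_nonneg (h i ⬝ᵥ r u)
    · exact_mod_cast ((H.adj u v).mp (hσ u hu v hv huv)).2 i
  · intro h1 u hu v hv huv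
    rw [H.adj]
    refine ⟨huv, fun i => ?_⟩
    have h2 := h1 u hu v hv i
    rw [hl, hl, ← Int.cast_mul] at h2
    exact_mod_cast h2

private theorem arr_part {G : SimpleGraph V} {n : ℕ} {I : Type} [Fintype I]
    {l : I → (Fin n → ℚ) →ₗ[ℚ] ℚ} {r : V → Fin n → ℚ} (H : ArrGeo G n l r) {ρ : Finset V}
    (hρ : Cl G ρ) : ∃ (T R : Finset V → Finset V) (rk : Finset V → ℕ) (σ₀ : Finset V),
      ArrPart (fun σ => Disjoint σ ρ ∧ Cl G (σ ∪ ρ)) (n - ρ.card) T R rk ∧
      (Disjoint σ₀ ρ ∧ Cl G (σ₀ ∪ ρ)) ∧ R σ₀ = T σ₀ ∧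
      ∀ σ, (Disjoint σ ρ ∧ Cl G (σ ∪ ρ)) → R σ = T σ → σ = σ₀ := by
  classical
  obtain ⟨b, hb⟩ := arr_gen_exists r
  -- the cones
  have hex : ∀ τ : Finset V, ∃ S, Cl G τ → ArrSees G r b τ S := by
    intro τ
    by_cases h : Cl G τ
    · obtain ⟨S, hS⟩ := arr_sees_exists H hb h
      exact ⟨S, fun _ => hS⟩
    · exact ⟨∅, fun h' => absurd h' h⟩
  choose Φ hΦ using hex
  -- the coordinates
  have hcoord : ∀ S : Finset V, ∃ β : V → ℚ, Cl G S → S.card = n → b = ∑ v ∈ S, β v • r v := by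
    intro S
    by_cases h : Cl G S ∧ S.card = n
    · obtain ⟨β, hβ⟩ := arr_span H h.1 h.2 b
      exact ⟨β, fun _ _ => hβ⟩
    · exact ⟨0, fun h1 h2 => absurd ⟨h1, h2⟩ h⟩
  choose B hB using hcoord
  have hB0 : ∀ S, Cl G S → S.card = n → ∀ v ∈ S, B S v ≠ 0 := fun S h1 h2 =>
    arr_gen_coef hb h2 (B S) (hB S h1 h2)
  -- the faces in terms of the coordinates
  have hsees : ∀ τ S, Cl G S → S.card = n → τ ⊆ S →
      (ArrSees G r b τ S ↔ ∀ v ∈ S, B S v < 0 → v ∈ τ) := by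
    intro τ S h1 h2 h3
    constructor
    · rintro ⟨-, -, -, β, h4, h5⟩ v hv hneg
      by_contra hcon
      have h6 := arr_coef H h1 β (B S) (h4.symm.trans (hB S h1 h2)) v hv
      have h7 := h5 v hv hcon
      linarith
    · intro h4
      refine ⟨h1, h2, h3, B S, hB S h1 h2, fun v hv hvτ => ?_⟩
      rcases lt_trichotomy (B S v) 0 with h5 | h5 | h5
      · exact absurd (h4 v hv h5) hvτ
      · exact absurd h5 (hB0 S h1 h2 v hv)
      · exact h5
  let W : Finset V → ℚ := fun S => arrF l r S b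
  let N : Finset V → ℕ := fun S => (Finset.univ.filter fun S' => W S' < W S).card
  have hN : ∀ S S', W S < W S' → N S < N S' := by
    intro S S' hlt
    apply Finset.card_lt_card
    rw [Finset.ssubset_iff_of_subset]
    · exact ⟨S, Finset.mem_filter.mpr ⟨Finset.mem_univ _, hlt⟩, fun hcon =>
        lt_irrefl _ (Finset.mem_filter.mp hcon).2⟩
    · intro S'' h
      exact Finset.mem_filter.mpr ⟨Finset.mem_univ _, (Finset.mem_filter.mp h).2.trans hlt⟩
  let T : Finset V → Finset V := fun σ => Φ (σ ∪ ρ) \ ρ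
  let R : Finset V → Finset V := fun σ => ((Φ (σ ∪ ρ)).filter fun v => B (Φ (σ ∪ ρ)) v < 0) \ ρ
  let rk : Finset V → ℕ := fun σ => N (Φ (σ ∪ ρ))
  -- comparison of a face with a larger one
  have hcomp : ∀ σ τ : Finset V, Cl G σ → τ ⊆ σ → Φ τ = Φ σ ∨ N (Φ σ) < N (Φ τ) := by
    intro σ τ hσ hτσ
    by_cases he : Φ σ = Φ τ
    · exact Or.inl he.symm
    · right
      have hs := hΦ σ hσ
      exact hN _ _ (arr_sees_lt H hs.1 hs.2.1 (hτσ.trans hs.2.2.1)
        (hΦ τ (arr_cl_mono hσ hτσ)) he)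
  have hP : ArrPart (fun σ => Disjoint σ ρ ∧ Cl G (σ ∪ ρ)) (n - ρ.card) T R rk := by
    constructor
    · rintro σ ⟨hd, hcl⟩
      obtain ⟨h1, h2, h3, -⟩ := hΦ (σ ∪ ρ) hcl
      have h5 := (hsees (σ ∪ ρ) _ h1 h2 h3).mp (hΦ (σ ∪ ρ) hcl)
      constructor
      · intro v hv
        obtain ⟨hv1, hv2⟩ := Finset.mem_sdiff.mp hv
        obtain ⟨hv3, hv4⟩ := Finset.mem_filter.mp hv1
        rcases Finset.mem_union.mp (h5 v hv3 hv4) with h6 | h6
        · exact h6
        · exact absurd h6 hv2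
      · intro v hv
        exact Finset.mem_sdiff.mpr ⟨h3 (Finset.mem_union_left _ hv),
          fun hcon => (Finset.disjoint_left.mp hd) hv hcon⟩
    · rintro σ τ ⟨hd, hcl⟩ hRτ hτT
      obtain ⟨h1, h2, h3, -⟩ := hΦ (σ ∪ ρ) hcl
      have hτd : Disjoint τ ρ := Finset.disjoint_left.mpr fun v hv hcon =>
        (Finset.mem_sdiff.mp (hτT hv)).2 hcon
      have hsub : τ ∪ ρ ⊆ Φ (σ ∪ ρ) := Finset.union_subset
        (fun v hv => (Finset.mem_sdiff.mp (hτT hv)).1)
        (fun v hv => h3 (Finset.mem_union_right _ hv))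
      have hτcl : Cl G (τ ∪ ρ) := arr_cl_mono h1 hsub
      have hs : ArrSees G r b (τ ∪ ρ) (Φ (σ ∪ ρ)) := (hsees _ _ h1 h2 hsub).mpr (by
        intro v hv hneg
        by_cases hvρ : v ∈ ρ
        · exact Finset.mem_union_right _ hvρ
        · exact Finset.mem_union_left _ (hRτ (Finset.mem_sdiff.mpr
            ⟨Finset.mem_filter.mpr ⟨hv, hneg⟩, hvρ⟩)))
      have he : Φ (τ ∪ ρ) = Φ (σ ∪ ρ) := arr_sees_uniq H (hΦ _ hτcl) hs
      refine ⟨⟨hτd, hτcl⟩, ?_, ?_, ?_⟩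
      · change Φ (τ ∪ ρ) \ ρ = Φ (σ ∪ ρ) \ ρ
        rw [he]
      · change ((Φ (τ ∪ ρ)).filter fun v => B (Φ (τ ∪ ρ)) v < 0) \ ρ =
          ((Φ (σ ∪ ρ)).filter fun v => B (Φ (σ ∪ ρ)) v < 0) \ ρ
        rw [he]
      · change N (Φ (τ ∪ ρ)) = N (Φ (σ ∪ ρ))
        rw [he]
    · rintro σ τ ⟨hd, hcl⟩ hτσ
      have hsub : τ ∪ ρ ⊆ σ ∪ ρ := Finset.union_subset_union_left hτσ
      refine ⟨⟨Finset.disjoint_of_subset_left hτσ hd, arr_cl_mono hcl hsub⟩, ?_⟩
      change N (Φ (σ ∪ ρ)) ≤ N (Φ (τ ∪ ρ))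
      rcases hcomp (σ ∪ ρ) (τ ∪ ρ) hcl hsub with h | h
      · rw [h]
      · exact h.le
    · rintro σ τ ⟨hd, hcl⟩ hτσ hrk
      have hsub : τ ∪ ρ ⊆ σ ∪ ρ := Finset.union_subset_union_left hτσ
      have he : Φ (τ ∪ ρ) = Φ (σ ∪ ρ) := by
        rcases hcomp (σ ∪ ρ) (τ ∪ ρ) hcl hsub with h | h
        · exact h
        · exact absurd hrk (Nat.ne_of_lt h)
      constructor
      · change Φ (τ ∪ ρ) \ ρ = Φ (σ ∪ ρ) \ ρ
        rw [he]
      · change ((Φ (τ ∪ ρ)).filter fun v => B (Φ (τ ∪ ρ)) v < 0) \ ρ =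
          ((Φ (σ ∪ ρ)).filter fun v => B (Φ (σ ∪ ρ)) v < 0) \ ρ
        rw [he]
    · rintro σ ⟨hd, hcl⟩
      obtain ⟨h1, h2, h3, -⟩ := hΦ (σ ∪ ρ) hcl
      change (Φ (σ ∪ ρ) \ ρ).card = n - ρ.card
      rw [Finset.card_sdiff_of_subset (fun v hv => h3 (Finset.mem_union_right _ hv)), h2]
  -- the top cell
  obtain ⟨S₀, hS1, hS2, hS3, β, hS4, hS5⟩ := arr_sees_exists H (arr_gen_neg hb) hρ
  have hneg : ∀ S, Cl G S → S.card = n → ρ ⊆ S → (∀ v ∈ S, v ∉ ρ → B S v < 0) →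
      ArrSees G r (-b) ρ S := by
    intro S h1 h2 h3 h4
    refine ⟨h1, h2, h3, fun v => -B S v, ?_, fun v hv hvρ => by
      have := h4 v hv hvρ
      dsimp only
      linarith⟩
    conv_lhs => rw [hB S h1 h2]
    rw [← Finset.sum_neg_distrib]
    apply Finset.sum_congr rfl
    intro v _
    rw [neg_smul]
  have hS6 : ∀ v ∈ S₀, v ∉ ρ → B S₀ v < 0 := by
    intro v hv hvρ
    have h1 := arr_coef H hS1 (B S₀) (fun v => -β v) (by
      rw [← hB S₀ hS1 hS2]
      simp only [neg_smul, Finset.sum_neg_distrib]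
      rw [← hS4, neg_neg]) v hv
    have h2 := hS5 v hv hvρ
    rw [h1]
    linarith
  have hun : S₀ \ ρ ∪ ρ = S₀ := Finset.sdiff_union_of_subset hS3
  have hΦS : Φ S₀ = S₀ := arr_sees_uniq H (hΦ S₀ hS1)
    ((hsees S₀ S₀ hS1 hS2 (Finset.Subset.refl _)).mpr fun v hv _ => hv)
  refine ⟨T, R, rk, S₀ \ ρ, hP, ⟨Finset.sdiff_disjoint, by rw [hun]; exact hS1⟩, ?_, ?_⟩
  · change ((Φ (S₀ \ ρ ∪ ρ)).filter fun v => B (Φ (S₀ \ ρ ∪ ρ)) v < 0) \ ρ =
      Φ (S₀ \ ρ ∪ ρ) \ ρ
    rw [hun, hΦS]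
    ext v
    simp only [Finset.mem_sdiff, Finset.mem_filter]
    constructor
    · rintro ⟨⟨h1, _⟩, h2⟩
      exact ⟨h1, h2⟩
    · rintro ⟨h1, h2⟩
      exact ⟨⟨h1, hS6 v h1 h2⟩, h2⟩
  · rintro σ ⟨hd, hcl⟩ hRT
    obtain ⟨h1, h2, h3, -⟩ := hΦ (σ ∪ ρ) hcl
    have hρS : ρ ⊆ Φ (σ ∪ ρ) := fun v hv => h3 (Finset.mem_union_right _ hv)
    have h4 : ArrSees G r (-b) ρ (Φ (σ ∪ ρ)) := by
      apply hneg _ h1 h2 hρS
      intro v hv hvρ
      have h5 : v ∈ T σ := Finset.mem_sdiff.mpr ⟨hv, hvρ⟩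
      rw [← hRT] at h5
      exact (Finset.mem_filter.mp (Finset.mem_sdiff.mp h5).1).2
    have h5 : Φ (σ ∪ ρ) = S₀ := arr_sees_uniq H h4 ⟨hS1, hS2, hS3, β, hS4, hS5⟩
    obtain ⟨h6, h7⟩ := hP.sub σ ⟨hd, hcl⟩
    rw [hRT] at h6
    have h8 : σ = T σ := Finset.Subset.antisymm h7 h6
    rw [h8]
    change Φ (σ ∪ ρ) \ ρ = S₀ \ ρ
    rw [h5]

/-- the complex of a simplicial arrangement is a homology sphere -/
theorem IsArrangement.isHomologySphere {G : SimpleGraph V} {n : ℕ} {I : Type} [Fintype I]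
    {h : I → Fin n → ℤ} {r : V → Fin n → ℤ} (H : IsArrangement G n h r) :
    IsHomologySphere G n := by
  obtain ⟨l, hl⟩ := arr_geo H
  refine ⟨fun σ hσ => arr_dim hl hσ, ?_, ?_⟩
  · intro ν hν ρ hρ j hj z hz hb
    obtain ⟨T, R, rk, σ₀, hP, -, -, -⟩ := arr_part hl hρ
    obtain ⟨y, hy1, hy2⟩ := arr_low hP ν hν j (by omega) (Finset.univ.sup rk + 1) 0 z
      (fun σ => by
        have := Finset.le_sup (f := rk) (Finset.mem_univ σ)
        omega)
      (fun σ hσ => by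
        obtain ⟨h1, h2, h3⟩ := hz σ hσ
        exact ⟨⟨h1, h2⟩, h3, Nat.zero_le _⟩) hb
    refine ⟨y, fun σ hσ => ?_, hy2⟩
    obtain ⟨⟨h1, h2⟩, h3, _⟩ := hy1 σ hσ
    exact ⟨h1, h2, h3⟩
  · intro ν hν ρ hρ j hj
    obtain ⟨T, R, rk, σ₀, hP, h0, hRT, hu⟩ := arr_part hl hρ
    obtain ⟨o, ho1, ho2, ho3, ho4⟩ := arr_top hP ν hν σ₀ h0 hRT hu
    have hj' : n - ρ.card = j := by omega
    rw [hj'] at ho1 ho4
    refine ⟨o, fun σ hσ => ?_, ho2, ho3, fun z hz hb => ho4 z (fun σ hσ => ?_) hb⟩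
    · obtain ⟨⟨h1, h2⟩, h3⟩ := ho1 σ hσ
      exact ⟨h1, h2, h3⟩
    · obtain ⟨h1, h2, h3⟩ := hz σ hσ
      exact ⟨⟨h1, h2⟩, h3⟩


end Pool.Agent.H85.Fold
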