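import Mathlib

/-!
# Project FOLD: definitions

Chains of the clique complex of a graph with coefficients in the kernels of Clifford operators.
-/

set_option autoImplicit false

open Finset

namespace Pool.Agent.H85.Fold

section Basic

variable {V : Type} [DecidableEq V] [Fintype V]

/-- the incidence sign -/
def sgn (ν : V → ℕ) (v : V) (σ : Finset V) : ℝ := (-1) ^ (σ.filter fun u => ν u < ν v).card

/-- cliques -/
def Cl (G : SimpleGraph V) (σ : Finset V) : Prop := ∀ u ∈ σ, ∀ v ∈ σ, u ≠ v → G.Adj u v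

open Classical in
/-- the cliques with `n` vertices in `U` -/
noncomputable def fac (G : SimpleGraph V) (n : ℕ) (U : Finset V) : Finset (Finset V) :=
  U.powerset.filter fun σ => Cl G σ ∧ σ.card = n

/-- the neighbours of `v` in `U` -/
noncomputable def nbr (G : SimpleGraph V) (v : V) (U : Finset V) : Finset V := by
  classical exact U.filter fun u => G.Adj v u

/-- the orientation of the link of `v` -/
def linkO (ν : V → ℕ) (v : V) (o : Finset V → ℝ) (σ : Finset V) : ℝ :=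
  sgn ν v σ * o (insert v σ)

variable {S : Type} [AddCommGroup S] [Module ℝ S]

/-- the boundary of a chain -/
def bd (ν : V → ℕ) : (Finset V → S) →ₗ[ℝ] (Finset V → S) where
  toFun c ρ := ∑ v ∈ ρᶜ, sgn ν v ρ • c (insert v ρ)
  map_add' c c' := by
    funext ρ
    simp [smul_add, Finset.sum_add_distrib]
  map_smul' r c := by
    funext ρ
    simp [Finset.smul_sum, smul_comm r]

/-- the boundary in the first variable of a double chain -/
def d1 (ν : V → ℕ) : (Finset V → Finset V → S) →ₗ[ℝ] (Finset V → Finset V → S) where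
  toFun x ρ σ := ∑ v ∈ σ \ ρ, sgn ν v ρ • x (insert v ρ) σ
  map_add' c c' := by
    funext ρ σ
    simp [smul_add, Finset.sum_add_distrib]
  map_smul' r c := by
    funext ρ σ
    simp [Finset.smul_sum, smul_comm r]

open Classical in
/-- the coboundary in the second variable of a double chain, for the cliques in `U` -/
noncomputable def d2 (ν : V → ℕ) (G : SimpleGraph V) (U : Finset V) :
    (Finset V → Finset V → S) →ₗ[ℝ] (Finset V → Finset V → S) where
  toFun x ρ σ := if σ ⊆ U ∧ Cl G σ then ∑ v ∈ σ \ ρ, sgn ν v σ • x ρ (σ.erase v) else 0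
  map_add' c c' := by
    funext ρ σ
    by_cases h : σ ⊆ U ∧ Cl G σ <;> simp [h, smul_add, Finset.sum_add_distrib]
  map_smul' r c := by
    funext ρ σ
    by_cases h : σ ⊆ U ∧ Cl G σ <;> simp [h, Finset.smul_sum, smul_comm r]

/-- the augmentation of a double chain -/
noncomputable def aug (G : SimpleGraph V) (n : ℕ) (U : Finset V) (o : Finset V → ℝ) :
    (Finset V → Finset V → S) →ₗ[ℝ] (Finset V → S) where
  toFun x ρ := ∑ σ ∈ fac G n U, o σ • x ρ σ
  map_add' c c' := by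
    funext ρ
    simp [smul_add, Finset.sum_add_distrib]
  map_smul' r c := by
    funext ρ
    simp [Finset.smul_sum, smul_comm r]

/-- the join of `v` with a chain of the link of `v` -/
def wedge (ν : V → ℕ) (v : V) : (Finset V → S) →ₗ[ℝ] (Finset V → S) where
  toFun g σ := if v ∈ σ then sgn ν v σ • g (σ.erase v) else 0
  map_add' c c' := by
    funext σ
    by_cases h : v ∈ σ <;> simp [h, smul_add]
  map_smul' r c := by
    funext σ
    by_cases h : v ∈ σ <;> simp [h, smul_comm r]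

/-- the component of a chain in the link of `v` -/
def comp (ν : V → ℕ) (v : V) : (Finset V → S) →ₗ[ℝ] (Finset V → S) where
  toFun c σ := if v ∈ σ then 0 else sgn ν v σ • c (insert v σ)
  map_add' c c' := by
    funext σ
    by_cases h : v ∈ σ <;> simp [h, smul_add]
  map_smul' r c := by
    funext σ
    by_cases h : v ∈ σ <;> simp [h, smul_comm r]

/-- the join of `v` with a double chain of the link of `v` -/
def wedge2 (ν : V → ℕ) (v : V) :
    (Finset V → Finset V → S) →ₗ[ℝ] (Finset V → Finset V → S) where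
  toFun y ρ σ :=
    if v ∈ ρ ∧ v ∈ σ then (sgn ν v ρ * sgn ν v σ) • y (ρ.erase v) (σ.erase v) else 0
  map_add' c c' := by
    funext ρ σ
    by_cases h : v ∈ ρ ∧ v ∈ σ <;> simp [h, smul_add]
  map_smul' r c := by
    funext ρ σ
    by_cases h : v ∈ ρ ∧ v ∈ σ <;> simp [h, smul_comm r]

/-- the component of a double chain in the link of `v` -/
def comp2 (ν : V → ℕ) (v : V) :
    (Finset V → Finset V → S) →ₗ[ℝ] (Finset V → Finset V → S) where
  toFun x ρ σ :=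
    if v ∈ ρ ∨ v ∈ σ then 0 else (sgn ν v ρ * sgn ν v σ) • x (insert v ρ) (insert v σ)
  map_add' c c' := by
    funext ρ σ
    by_cases h : v ∈ ρ ∨ v ∈ σ <;> simp [h, smul_add]
  map_smul' r c := by
    funext ρ σ
    by_cases h : v ∈ ρ ∨ v ∈ σ <;> simp [h, smul_comm r]

/-- The clique complex of the induced subgraph on `U` is an oriented real homology sphere of
dimension `n - 1`, and the same holds for all links: `o` is a nonvanishing cycle on the cliques with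
`n` vertices, and for every clique `ρ` the cochains on the cliques which contain `ρ` are exact below
degree `n`, and in degree `n` the coboundaries are the cochains with integral zero over `o`. -/
structure IsSphere (ν : V → ℕ) (G : SimpleGraph V) (n : ℕ) (U : Finset V) (o : Finset V → ℝ) :
    Prop where
  dim : ∀ σ ⊆ U, Cl G σ → σ.card ≤ n
  pure : ∀ ρ ⊆ U, Cl G ρ → ∃ τ ⊆ U, Cl G τ ∧ τ.card = n ∧ ρ ⊆ τ
  ne : ∀ τ ⊆ U, Cl G τ → τ.card = n → o τ ≠ 0
  cyc : ∀ κ ⊆ U, Cl G κ → κ.card + 1 = n →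
    ∑ v ∈ U, (if v ∉ κ ∧ insert v κ ∈ fac G n U then sgn ν v κ * o (insert v κ) else 0) = 0
  exact : ∀ ρ ⊆ U, Cl G ρ → ∀ j, j < n → ∀ ψ : Finset V → ℝ,
    (∀ σ ⊆ U, Cl G σ → ρ ⊆ σ → σ.card = j + 1 →
      ∑ v ∈ σ \ ρ, sgn ν v σ * ψ (σ.erase v) = 0) →
    ∃ χ : Finset V → ℝ, ∀ σ ⊆ U, Cl G σ → ρ ⊆ σ → σ.card = j →
      ψ σ = ∑ v ∈ σ \ ρ, sgn ν v σ * χ (σ.erase v)
  top : ∀ ρ ⊆ U, Cl G ρ → ∀ ψ : Finset V → ℝ,
    ∑ σ ∈ fac G n U, (if ρ ⊆ σ then o σ * ψ σ else 0) = 0 →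
    ∃ χ : Finset V → ℝ, ∀ σ ⊆ U, Cl G σ → ρ ⊆ σ → σ.card = n →
      ψ σ = ∑ v ∈ σ \ ρ, sgn ν v σ * χ (σ.erase v)

/-- chains of degree `i` on `U` with coefficients in the kernels -/
structure IsF (G : SimpleGraph V) (e : V → S →ₗ[ℝ] S) (M : Submodule ℝ S) (U : Finset V) (i : ℕ)
    (c : Finset V → S) : Prop where
  mem : ∀ σ, c σ ∈ M
  ker : ∀ σ, ∀ v ∈ σ, e v (c σ) = 0
  supp : ∀ σ, c σ ≠ 0 → σ ⊆ U ∧ Cl G σ ∧ σ.card = i

/-- double chains of type `i` (for complexes of dimension `n - 1`) -/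
structure IsD (G : SimpleGraph V) (e : V → S →ₗ[ℝ] S) (n : ℕ) (M : Submodule ℝ S) (U : Finset V)
    (i : ℕ) (x : Finset V → Finset V → S) : Prop where
  mem : ∀ ρ σ, x ρ σ ∈ M
  ker : ∀ ρ σ, ∀ v ∈ ρ, e v (x ρ σ) = 0
  supp : ∀ ρ σ, x ρ σ ≠ 0 → ρ ⊆ σ ∧ σ ⊆ U ∧ Cl G σ ∧ σ.card + i = n + ρ.card

/-- the homology with coefficients in the kernels vanishes in degree `i` on `Y` -/
def HV (ν : V → ℕ) (G : SimpleGraph V) (e : V → S →ₗ[ℝ] S) (M : Submodule ℝ S) (Y : Finset V)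
    (i : ℕ) : Prop :=
  ∀ c : Finset V → S, IsF G e M Y i c → bd ν c = 0 →
    ∃ y : Finset V → S, IsF G e M Y (i + 1) y ∧ bd ν y = c

/-- `x` is a resolution of the cycle `c` -/
structure IsRes (ν : V → ℕ) (G : SimpleGraph V) (e : V → S →ₗ[ℝ] S) (n : ℕ) (M : Submodule ℝ S)
    (U : Finset V) (o : Finset V → ℝ) (i : ℕ) (c : Finset V → S)
    (x : Finset V → Finset V → S) : Prop where
  isD : IsD G e n M U i x
  closed : d1 ν x = d2 ν G U x
  aug_eq : aug G n U o x = c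

/-- the pairing of a double chain with a chain -/
noncomputable def pr (β : S →ₗ[ℝ] S →ₗ[ℝ] ℝ) (x : Finset V → Finset V → S) (c : Finset V → S) :
    ℝ := ∑ σ : Finset V, β (x ∅ σ) (c σ)

/-- the kernel of `e v` in `M` -/
def Mk (e : V → S →ₗ[ℝ] S) (M : Submodule ℝ S) (v : V) : Submodule ℝ S :=
  M ⊓ LinearMap.ker (e v)

/-- `β'` is the form on the kernel of `e v` in `M` induced by `β` -/
def IsLF (e : V → S →ₗ[ℝ] S) (M : Submodule ℝ S) (v : V) (β β' : S →ₗ[ℝ] S →ₗ[ℝ] ℝ) : Prop :=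
  ∀ m ∈ M, ∀ y ∈ M, e v y = 0 → β' (e v m) y = β m y

/-- Clifford systems -/
structure Sys (ν : V → ℕ) (G : SimpleGraph V) (e : V → S →ₗ[ℝ] S) (ep : Finset V → S →ₗ[ℝ] S)
    (b : V → V → ℝ) (n : ℕ) (U : Finset V) (M : Submodule ℝ S) (β : S →ₗ[ℝ] S →ₗ[ℝ] ℝ)
    (ε κ : ℝ) (o : Finset V → ℝ) : Prop where
  inj : Function.Injective ν
  ε_sq : ε * ε = 1
  κ_sq : κ * κ = 1
  stable : ∀ v ∈ U, ∀ x ∈ M, e v x ∈ M
  anti : ∀ u ∈ U, ∀ v ∈ U, ∀ x ∈ M, e u (e v x) + e v (e u x) = b u v • x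
  b_symm : ∀ u v, b u v = b v u
  b_zero : ∀ u ∈ U, ∀ v ∈ U, u = v ∨ G.Adj u v → b u v = 0
  b_neg : ∀ u ∈ U, ∀ v ∈ U, u ≠ v → ¬ G.Adj u v → b u v < 0
  adj : ∀ v ∈ U, ∀ x ∈ M, ∀ y ∈ M, β (e v x) y = ε * β x (e v y)
  nondeg : ∀ y ∈ M, (∀ x ∈ M, β x y = 0) → y = 0
  sphere : IsSphere ν G n U o
  ep_nil : ∀ x, ep ∅ x = x
  ep_insert : ∀ v τ, v ∉ τ → insert v τ ⊆ U → Cl G (insert v τ) → ∀ x ∈ M,
    e v (ep τ x) = sgn ν v τ • ep (insert v τ) x
  pos : ∀ τ ⊆ U, Cl G τ → τ.card = n → ∀ x ∈ M,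
    0 ≤ κ * o τ * β x (ep τ x) ∧ (β x (ep τ x) = 0 → ep τ x = 0)

/-- the sign of the form on the middle homology -/
def sgk (ε : ℝ) (κ : ℝ) : ℕ → ℝ
  | 0 => κ
  | k + 1 => ε * (-1) ^ k * sgk ε (-κ) k

/-- the form on the middle homology is definite -/
def Definite (ν : V → ℕ) (G : SimpleGraph V) (e : V → S →ₗ[ℝ] S) (k : ℕ) (U : Finset V)
    (M : Submodule ℝ S) (β : S →ₗ[ℝ] S →ₗ[ℝ] ℝ) (ε κ : ℝ) (o : Finset V → ℝ) : Prop :=
  ∀ c x, IsF G e M U k c → bd ν c = 0 → IsRes ν G e (2 * k) M U o k c x →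
    0 ≤ sgk ε κ k * pr β x c ∧ (pr β x c = 0 → ∃ y, IsF G e M U (k + 1) y ∧ bd ν y = c)

end Basic

end Pool.Agent.H85.Fold
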