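import Pool.Agent.H85.Fold.Pair

/-!
# Project FOLD: duality
-/

set_option autoImplicit false

open Finset

namespace Pool.Agent.H85.Fold

variable {V : Type} [DecidableEq V] [Fintype V] {S : Type} [AddCommGroup S] [Module ℝ S]
  {β : S →ₗ[ℝ] S →ₗ[ℝ] ℝ} {x : Finset V → Finset V → S} {c : Finset V → S}
  {ν : V → ℕ} {G : SimpleGraph V} {e : V → S →ₗ[ℝ] S} {ep : Finset V → S →ₗ[ℝ] S}
  {b : V → V → ℝ} {n : ℕ} {U : Finset V} {M : Submodule ℝ S} {ε κ : ℝ} {o : Finset V → ℝ}

/-- a functional on a subspace which vanishes on the kernel of a linear map factors -/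
private theorem dualB_factor {E F : Type} [AddCommGroup E] [Module ℝ E] [AddCommGroup F]
    [Module ℝ F] (T : E →ₗ[ℝ] F) (L : E →ₗ[ℝ] ℝ) (C : Submodule ℝ E)
    (h : ∀ c ∈ C, T c = 0 → L c = 0) : ∃ μ : F →ₗ[ℝ] ℝ, ∀ c ∈ C, L c = μ (T c) := by
  have hmem : (L.domRestrict C) ∈ (LinearMap.ker (T.domRestrict C)).dualAnnihilator := by
    rw [Submodule.mem_dualAnnihilator]
    intro w hw
    have hw' : T (w : E) = 0 := by
      simpa using hw
    simpa using h w w.2 hw'
  rw [← LinearMap.range_dualMap_eq_dualAnnihilator_ker] at hmem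
  obtain ⟨μ, hμ⟩ := hmem
  refine ⟨μ, fun c hc => ?_⟩
  have := congrArg (fun f => f ⟨c, hc⟩) hμ
  simpa using this.symm

/-- a form which is nondegenerate in the second variable on a finite-dimensional space is
nondegenerate in the first variable -/
private theorem dualB_left [FiniteDimensional ℝ S]
    (hnd : ∀ y ∈ M, (∀ x ∈ M, β x y = 0) → y = 0) {y : S} (hy : y ∈ M)
    (h : ∀ m ∈ M, β y m = 0) : y = 0 := by
  let Ψ : M →ₗ[ℝ] Module.Dual ℝ M :=
    { toFun := fun m => (β.flip (m : S)).domRestrict M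
      map_add' := by
        intro a b
        ext t
        simp
      map_smul' := by
        intro r a
        ext t
        simp }
  have hΨ : ∀ m t : M, Ψ m t = β (t : S) (m : S) := by
    intro m t
    rfl
  have hinj : Function.Injective Ψ := by
    rw [← LinearMap.ker_eq_bot, LinearMap.ker_eq_bot']
    intro m hm
    apply Subtype.ext
    refine hnd m m.2 fun t ht => ?_
    have := congrArg (fun f => f ⟨t, ht⟩) hm
    simpa [hΨ] using this
  have hsurj : Function.Surjective Ψ :=
    (LinearMap.injective_iff_surjective_of_finrank_eq_finrank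
      (Subspace.dual_finrank_eq).symm).1 hinj
  have hz : (⟨y, hy⟩ : M) = 0 := by
    refine (Module.forall_dual_apply_eq_zero_iff ℝ _).1 fun f => ?_
    obtain ⟨m, rfl⟩ := hsurj f
    rw [hΨ]
    exact h m m.2
  exact congrArg Subtype.val hz

/-- functionals are represented in the first variable -/
private theorem dualB_repr [FiniteDimensional ℝ S]
    (hnd : ∀ y ∈ M, (∀ x ∈ M, β x y = 0) → y = 0) (f : S →ₗ[ℝ] ℝ) :
    ∃ y ∈ M, ∀ m ∈ M, β y m = f m := by
  let Φ : M →ₗ[ℝ] Module.Dual ℝ M :=
    { toFun := fun m => (β (m : S)).domRestrict M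
      map_add' := by
        intro a b
        ext t
        simp
      map_smul' := by
        intro r a
        ext t
        simp }
  have hΦ : ∀ m t : M, Φ m t = β (m : S) (t : S) := by
    intro m t
    rfl
  have hinj : Function.Injective Φ := by
    rw [← LinearMap.ker_eq_bot, LinearMap.ker_eq_bot']
    intro m hm
    apply Subtype.ext
    refine dualB_left hnd m.2 fun t ht => ?_
    have := congrArg (fun f => f ⟨t, ht⟩) hm
    simpa [hΦ] using this
  have hsurj : Function.Surjective Φ :=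
    (LinearMap.injective_iff_surjective_of_finrank_eq_finrank
      (Subspace.dual_finrank_eq).symm).1 hinj
  obtain ⟨y, hy⟩ := hsurj (f.domRestrict M)
  refine ⟨y, y.2, fun m hm => ?_⟩
  have := congrArg (fun g => g ⟨m, hm⟩) hy
  simpa [hΦ] using this

/-- the orthogonal complement of the kernel of a clique -/
theorem perp_kernel [FiniteDimensional ℝ S] (hs : Sys ν G e ep b n U M β ε κ o) {σ : Finset V}
    (hσ : σ ⊆ U) (hcl : Cl G σ) {m₀ : S} (hm₀ : m₀ ∈ M)
    (h : ∀ m ∈ M, (∀ v ∈ σ, e v m = 0) → β m₀ m = 0) :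
    ∃ y : V → S, (∀ v ∈ σ, y v ∈ M ∧ e v (y v) = 0) ∧ m₀ = ∑ v ∈ σ, y v := by
  let T : S →ₗ[ℝ] (V → S) := LinearMap.pi fun v => if v ∈ σ then e v else 0
  have hT : ∀ m v, T m v = if v ∈ σ then e v m else 0 := by
    intro m v
    simp only [T, LinearMap.pi_apply]
    split_ifs <;> rfl
  obtain ⟨μ, hμ⟩ := dualB_factor T (β m₀) M (by
    intro m hm hTm
    refine h m hm fun v hv => ?_
    have := congrFun hTm v
    rw [hT, if_pos hv] at this
    exact this)
  have hdec : ∀ m ∈ M, β m₀ m = ∑ v ∈ σ, μ (Pi.single v (e v m)) := by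
    intro m hm
    rw [hμ m hm, ← map_sum]
    congr 1
    funext w
    rw [hT, Finset.sum_apply]
    by_cases hw : w ∈ σ
    · rw [if_pos hw, Finset.sum_eq_single w]
      · simp
      · intro v _ hvw
        exact Pi.single_eq_of_ne (Ne.symm hvw) _
      · intro hw'
        exact absurd hw hw'
    · rw [if_neg hw]
      symm
      refine Finset.sum_eq_zero fun v hv => ?_
      refine Pi.single_eq_of_ne ?_ _
      rintro rfl
      exact hw hv
  have hrep : ∀ v : V, ∃ y ∈ M, ∀ m ∈ M, β y m = μ (Pi.single v (e v m)) := by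
    intro v
    exact dualB_repr hs.nondeg ((μ.comp (LinearMap.single ℝ (fun _ : V => S) v)).comp (e v))
  choose y hyM hy using hrep
  refine ⟨y, fun v hv => ⟨hyM v, ?_⟩, ?_⟩
  · have hvU := hσ hv
    refine dualB_left hs.nondeg (hs.stable v hvU _ (hyM v)) fun m hm => ?_
    have hsq : e v (e v m) = 0 := by
      have h1 := hs.anti v hvU v hvU m hm
      rw [hs.b_zero v hvU v hvU (Or.inl rfl), zero_smul] at h1
      have h2 : (2 : ℝ) • e v (e v m) = 0 := by
        rw [two_smul]
        exact h1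
      exact (smul_eq_zero.1 h2).resolve_left two_ne_zero
    rw [hs.adj v hvU _ (hyM v) m hm, hy v _ (hs.stable v hvU m hm), hsq]
    simp
  · have hsum : ∑ v ∈ σ, y v ∈ M := Submodule.sum_mem _ fun v _ => hyM v
    have hz : m₀ - ∑ v ∈ σ, y v = 0 := by
      refine dualB_left hs.nondeg (M.sub_mem hm₀ hsum) fun m hm => ?_
      rw [map_sub, LinearMap.sub_apply, hdec m hm, map_sum, LinearMap.sum_apply, sub_eq_zero]
      exact Finset.sum_congr rfl fun v _ => (hy v m hm).symm
    exact sub_eq_zero.1 hz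

/-- functionals on the chains which vanish on the cycles -/
theorem exists_cob [FiniteDimensional ℝ S] (hs : Sys ν G e ep b n U M β ε κ o) {i j : ℕ}
    (hij : i + j = n) (hx : IsD G e n M U i x)
    (h : ∀ c, IsF G e M U j c → bd ν c = 0 → pr β x c = 0) :
    ∃ z : Finset V → Finset V → S, IsD G e n M U (i + 1) z ∧
      ∀ c, IsF G e M U j c → pr β x c = pr β (d2 ν G U z) c := by
  classical
  let C : Submodule ℝ (Finset V → S) :=
    { carrier := {c | IsF G e M U j c}
      add_mem' := fun ha hb => IsF.add ha hb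
      zero_mem' := IsF.zero
      smul_mem' := fun r _ ha => IsF.smul ha r }
  let L : (Finset V → S) →ₗ[ℝ] ℝ :=
    { toFun := fun c => pr β x c
      map_add' := fun c c' => pr_add_right
      map_smul' := fun r c => pr_smul_right r }
  obtain ⟨μ, hμ⟩ := dualB_factor (bd ν) L C (fun c hc hbd => h c hc hbd)
  have hrep : ∀ ρ : Finset V, ∃ y ∈ M, ∀ m ∈ M, β y m = μ (Pi.single ρ m) := by
    intro ρ
    exact dualB_repr hs.nondeg (μ.comp (LinearMap.single ℝ (fun _ : Finset V => S) ρ))
  choose y hyM hy using hrep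
  let z : Finset V → Finset V → S := fun ρ τ =>
    if ρ = ∅ ∧ τ ⊆ U ∧ Cl G τ ∧ τ.card + (i + 1) = n then y τ else 0
  have hz : IsD G e n M U (i + 1) z := by
    refine ⟨fun ρ τ => ?_, fun ρ τ v hv => ?_, fun ρ τ hne => ?_⟩
    · simp only [z]
      split_ifs
      · exact hyM τ
      · exact M.zero_mem
    · simp only [z]
      rw [if_neg, map_zero]
      rintro ⟨rfl, -⟩
      exact absurd hv (Finset.notMem_empty v)
    · simp only [z] at hne
      split_ifs at hne with hc
      · obtain ⟨rfl, h1, h2, h3⟩ := hc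
        exact ⟨Finset.empty_subset _, h1, h2, by simpa using h3⟩
      · exact absurd rfl hne
  refine ⟨z, hz, fun c hc => ?_⟩
  rw [← pr_bd_right hz (fun σ hσ => ⟨(hc.supp σ hσ).1, (hc.supp σ hσ).2.1⟩)]
  have hL : pr β x c = μ (bd ν c) := hμ c hc
  have hbd : bd ν c = ∑ τ : Finset V, Pi.single τ (bd ν c τ) := by
    funext ρ
    rw [Finset.sum_apply, Finset.sum_eq_single ρ]
    · simp
    · intro τ _ hτ
      exact Pi.single_eq_of_ne (Ne.symm hτ) _
    · intro hρ
      exact absurd (Finset.mem_univ ρ) hρ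
  rw [hL, hbd, map_sum]
  unfold pr
  rw [← hbd]
  refine Finset.sum_congr rfl fun τ _ => ?_
  have hmem : bd ν c τ ∈ M :=
    Submodule.sum_mem _ fun v _ => M.smul_mem _ (hc.mem _)
  by_cases hcond : τ ⊆ U ∧ Cl G τ ∧ τ.card + (i + 1) = n
  · have : z ∅ τ = y τ := if_pos ⟨rfl, hcond⟩
    rw [this, hy τ _ hmem]
  · have h0 : bd ν c τ = 0 := by
      show ∑ v ∈ τᶜ, sgn ν v τ • c (insert v τ) = 0
      refine Finset.sum_eq_zero fun v hv => ?_
      rw [Finset.mem_compl] at hv
      by_cases hc0 : c (insert v τ) = 0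
      · rw [hc0, smul_zero]
      · exfalso
        obtain ⟨h1, h2, h3⟩ := hc.supp _ hc0
        apply hcond
        refine ⟨fun w hw => h1 (Finset.mem_insert_of_mem hw), fun a ha b hb hab =>
          h2 a (Finset.mem_insert_of_mem ha) b (Finset.mem_insert_of_mem hb) hab, ?_⟩
        rw [Finset.card_insert_of_notMem hv] at h3
        omega
    rw [h0]
    simp

end Pool.Agent.H85.Fold
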