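import Pool.Agent.H85.Fold.DualA
import Pool.Agent.H85.Fold.DualB

/-!
# Project FOLD: duality
-/

set_option autoImplicit false

open Finset

namespace Pool.Agent.H85.Fold

variable {V : Type} [DecidableEq V] [Fintype V] {S : Type} [AddCommGroup S] [Module ℝ S]
  {β : S →ₗ[ℝ] S →ₗ[ℝ] ℝ} {x : Finset V → Finset V → S} {c : Finset V → S}
  {ν : V → ℕ} {G : SimpleGraph V} {e : V → S →ₗ[ℝ] S} {ep : Finset V → S →ₗ[ℝ] S}
  {b : V → V → ℝ} {n : ℕ} {U : Finset V} {M : Submodule ℝ S} {ε κ : ℝ} {o : Finset V → ℝ}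

private theorem dual_d2_level (z z' : Finset V → Finset V → S) (h : ∀ σ, z ∅ σ = z' ∅ σ)
    (σ : Finset V) : d2 ν G U z ∅ σ = d2 ν G U z' ∅ σ := by
  simp only [d2, LinearMap.coe_mk, AddHom.coe_mk, h]

private theorem dual_pr_level (z z' : Finset V → Finset V → S) (h : ∀ σ, z ∅ σ = z' ∅ σ)
    (c : Finset V → S) : pr β z c = pr β z' c := by
  simp only [pr, h]

/-- the level zero part -/
private def lev0 (z : Finset V → Finset V → S) : Finset V → Finset V → S :=
  fun ρ σ => if ρ = ∅ then z ρ σ else 0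

private theorem lev0_empty (z : Finset V → Finset V → S) (σ : Finset V) :
    lev0 z ∅ σ = z ∅ σ := by
  simp [lev0]

private theorem isD_lev0 {z : Finset V → Finset V → S} {i : ℕ} (hz : IsD G e n M U i z) :
    IsD G e n M U i (lev0 z) where
  mem ρ σ := by
    by_cases h : ρ = ∅
    · simp only [lev0, h, if_true]; exact hz.mem _ _
    · simp only [lev0, h, if_false]; exact M.zero_mem
  ker ρ σ v hv := by
    by_cases h : ρ = ∅
    · rw [h] at hv; simp at hv
    · simp [lev0, h]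
  supp ρ σ h := by
    by_cases h' : ρ = ∅
    · simp only [lev0, h', if_true] at h
      subst h'
      exact hz.supp _ _ h
    · simp [lev0, h'] at h

private theorem d1_lev0 (z : Finset V → Finset V → S) : d1 ν (lev0 z) = 0 := by
  funext ρ σ
  simp [d1, lev0]

private theorem isF_single {j : ℕ} {σ : Finset V} (hσ : σ ⊆ U) (hcl : Cl G σ) (hj : σ.card = j)
    {m : S} (hm : m ∈ M) (hk : ∀ v ∈ σ, e v m = 0) : IsF G e M U j (Pi.single σ m) where
  mem τ := by
    by_cases h : τ = σ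
    · subst h; simpa using hm
    · rw [Pi.single_eq_of_ne h]; exact M.zero_mem
  ker τ v hv := by
    by_cases h : τ = σ
    · subst h; simpa using hk v hv
    · rw [Pi.single_eq_of_ne h]; simp
  supp τ h := by
    by_cases h' : τ = σ
    · subst h'; exact ⟨hσ, hcl, hj⟩
    · rw [Pi.single_eq_of_ne h'] at h; exact absurd rfl h

private theorem pr_single (x : Finset V → Finset V → S) (σ : Finset V) (m : S) :
    pr β x (Pi.single σ m) = β (x ∅ σ) m := by
  unfold pr
  rw [Finset.sum_eq_single σ]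
  · simp
  · intro τ _ hτ
    rw [Pi.single_eq_of_ne hτ]; simp
  · intro h; exact absurd (Finset.mem_univ _) h

/-- **Duality.** A cycle bounds if its resolution is orthogonal to all cycles. -/
theorem duality [FiniteDimensional ℝ S] (hs : Sys ν G e ep b n U M β ε κ o) {i j : ℕ}
    (hij : i + j = n) (hx : IsRes ν G e n M U o i c x)
    (h : ∀ c', IsF G e M U j c' → bd ν c' = 0 → pr β x c' = 0) :
    ∃ y, IsF G e M U (i + 1) y ∧ bd ν y = c := by
  classical
  obtain ⟨z', hz', hzpr'⟩ := exists_cob hs hij hx.isD h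
  set z := lev0 z' with hzdef
  have hz : IsD G e n M U (i + 1) z := isD_lev0 hz'
  have hd1z : d1 ν z = 0 := d1_lev0 z'
  have hzpr : ∀ c', IsF G e M U j c' → pr β x c' = pr β (d2 ν G U z) c' := by
    intro c' hc'
    rw [hzpr' c' hc']
    apply dual_pr_level
    intro σ
    apply dual_d2_level
    intro σ
    exact (lev0_empty z' σ).symm
  have hd2z : IsD G e n M U i (d2 ν G U z) := isD_d2 ν hz
  -- the elements `y`
  have hY : ∀ σ : Finset V, ∃ y : V → S, (σ ⊆ U ∧ Cl G σ ∧ σ.card = j) →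
      (∀ v ∈ σ, y v ∈ M ∧ e v (y v) = 0) ∧ x ∅ σ - d2 ν G U z ∅ σ = ∑ v ∈ σ, y v := by
    intro σ
    by_cases hg : σ ⊆ U ∧ Cl G σ ∧ σ.card = j
    · obtain ⟨hσ, hcl, hj⟩ := hg
      have hm₀ : x ∅ σ - d2 ν G U z ∅ σ ∈ M := M.sub_mem (hx.isD.mem _ _) (hd2z.mem _ _)
      obtain ⟨y, hy⟩ := perp_kernel hs hσ hcl hm₀ (by
        intro m hm hk
        have := hzpr (Pi.single σ m) (isF_single hσ hcl hj hm hk)
        rw [pr_single, pr_single] at this
        rw [map_sub, LinearMap.sub_apply, this, sub_self])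
      exact ⟨y, fun _ => hy⟩
    · exact ⟨0, fun h => absurd h hg⟩
  choose Y hY using hY
  set w : Finset V → Finset V → S := fun ρ σ =>
    if σ ⊆ U ∧ Cl G σ ∧ σ.card = j then ∑ v ∈ σ, (if ρ = {v} then Y σ v else 0) else 0 with hw
  have hwv : ∀ ρ σ, w ρ σ ≠ 0 → (σ ⊆ U ∧ Cl G σ ∧ σ.card = j) ∧ ∃ v ∈ σ, ρ = {v} := by
    intro ρ σ hne
    by_cases hg : σ ⊆ U ∧ Cl G σ ∧ σ.card = j
    · refine ⟨hg, ?_⟩
      simp only [hw, hg, and_self, if_true] at hne
      obtain ⟨v, hv, hv'⟩ := Finset.exists_ne_zero_of_sum_ne_zero hne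
      refine ⟨v, hv, ?_⟩
      by_contra hc
      exact hv' (if_neg hc)
    · exact absurd (by simp only [hw, if_neg hg]) hne
  have hwval : ∀ σ, (σ ⊆ U ∧ Cl G σ ∧ σ.card = j) → ∀ v ∈ σ, w {v} σ = Y σ v := by
    intro σ hg v hv
    simp only [hw]
    rw [if_pos hg, Finset.sum_eq_single v]
    · simp
    · intro u _ hu
      rw [if_neg]
      intro hc
      exact hu (Finset.singleton_injective hc).symm
    · intro hc; exact absurd hv hc
  have hwD : IsD G e n M U (i + 1) w := by
    refine ⟨?_, ?_, ?_⟩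
    · intro ρ σ
      by_cases hne : w ρ σ = 0
      · rw [hne]; exact M.zero_mem
      · obtain ⟨hg, v, hv, rfl⟩ := hwv ρ σ hne
        rw [hwval σ hg v hv]
        exact ((hY σ hg).1 v hv).1
    · intro ρ σ u hu
      by_cases hne : w ρ σ = 0
      · rw [hne]; simp
      · obtain ⟨hg, v, hv, rfl⟩ := hwv ρ σ hne
        rw [hwval σ hg v hv]
        rw [Finset.mem_singleton] at hu
        subst hu
        exact ((hY σ hg).1 u hv).2
    · intro ρ σ hne
      obtain ⟨hg, v, hv, rfl⟩ := hwv ρ σ hne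
      refine ⟨by simpa using hv, hg.1, hg.2.1, ?_⟩
      rw [Finset.card_singleton, hg.2.2]
      omega
  -- the difference
  have hzw : IsD G e n M U (i + 1) (z + w) := hz.add hwD
  have hx'D : IsD G e n M U i (x - (d1 ν (z + w) + d2 ν G U (z + w))) :=
    hx.isD.sub ((isD_d1 ν hzw).add (isD_d2 ν hzw))
  have hcl : d1 ν (x - (d1 ν (z + w) + d2 ν G U (z + w))) =
      d2 ν G U (x - (d1 ν (z + w) + d2 ν G U (z + w))) := by
    rw [map_sub, map_sub, (d1 ν).map_add (d1 ν (z + w)), (d2 ν G U).map_add (d1 ν (z + w)),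
      d1_d1 ν hs.inj, d2_d2 ν hs.inj, hx.closed, d1_d2, zero_add, add_zero]
  have h0 : ∀ σ, (x - (d1 ν (z + w) + d2 ν G U (z + w))) ∅ σ = 0 := by
    intro σ
    by_cases hg : σ ⊆ U ∧ Cl G σ ∧ σ.card = j
    · have e1 : d1 ν w ∅ σ = ∑ v ∈ σ, Y σ v := by
        simp only [d1, LinearMap.coe_mk, AddHom.coe_mk, Finset.sdiff_empty]
        apply Finset.sum_congr rfl
        intro v hv
        rw [sgn_empty, one_smul]
        exact hwval σ hg v hv
      have e2 : d2 ν G U w ∅ σ = 0 := by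
        have hw0 : ∀ τ, w ∅ τ = 0 := by
          intro τ
          by_contra hne
          obtain ⟨_, v, _, hv⟩ := hwv ∅ τ hne
          exact absurd hv.symm (Finset.singleton_ne_empty v)
        simp only [d2, LinearMap.coe_mk, AddHom.coe_mk, hw0, smul_zero, Finset.sum_const_zero,
          ite_self]
      have e3 := (hY σ hg).2
      have e4 : d1 ν z ∅ σ = 0 := by rw [hd1z]; rfl
      simp only [map_add, Pi.sub_apply, Pi.add_apply, e1, e2, e4, zero_add, add_zero]
      rw [← e3]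
      abel
    · by_contra hne
      obtain ⟨_, hσ, hc, hcard⟩ := hx'D.supp _ _ hne
      rw [Finset.card_empty, add_zero] at hcard
      exact hg ⟨hσ, hc, by omega⟩
  obtain ⟨y, hy, hxy⟩ := prim_of_level_zero hs hx'D hcl h0
  have hYD : IsD G e n M U (i + 1) (y + (z + w)) := hy.add hzw
  have hxY : x = d1 ν (y + (z + w)) + d2 ν G U (y + (z + w)) := by
    have : x = (x - (d1 ν (z + w) + d2 ν G U (z + w))) + (d1 ν (z + w) + d2 ν G U (z + w)) := by
      abel
    rw [this, hxy, (d1 ν).map_add y, (d2 ν G U).map_add y]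
    abel
  refine ⟨aug G n U o (y + (z + w)), isD_aug hYD o, ?_⟩
  have ha : aug G n U o x = c := hx.aug_eq
  rw [hxY, map_add, aug_d1 ν G n U o _ (fun ρ σ hne => (hYD.supp ρ σ hne).1),
    aug_d2 ν G n U o hs.sphere _ (fun ρ σ hne => ⟨(hYD.supp ρ σ hne).1, (hYD.supp ρ σ hne).2.1,
      (hYD.supp ρ σ hne).2.2.1⟩), add_zero] at ha
  exact ha

/-- the vanishing of the homology in complementary degrees -/
theorem hv_dual [FiniteDimensional ℝ S] (hs : Sys ν G e ep b n U M β ε κ o) {i j : ℕ}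
    (hij : i + j = n) (h : HV ν G e M U j) : HV ν G e M U i := by
  intro c hc hbd
  obtain ⟨x, hx⟩ := exists_res (ν := ν) (G := G) (n := n) (U := U) (o := o) (e := e) (M := M)
    hs.inj hs.sphere hc hbd
  refine duality hs hij hx ?_
  intro c' hc' hbd'
  obtain ⟨y, hy, rfl⟩ := h c' hc' hbd'
  exact pr_bd hs hx.isD hx.closed hy

end Pool.Agent.H85.Fold
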