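import Pool.Agent.H85.Fold.Pair
import Pool.Agent.H85.Fold.Simplex

/-!
# Project FOLD: duality
-/

set_option autoImplicit false

open Finset

namespace Pool.Agent.H85.Fold

variable {V : Type} [DecidableEq V] [Fintype V] {S : Type} [AddCommGroup S] [Module ℝ S]
  {β : S →ₗ[ℝ] S →ₗ[ℝ] ℝ} {x : Finset V → Finset V → S} {c : Finset V → S}
  {ν : V → ℕ} {G : SimpleGraph V} {e : V → S →ₗ[ℝ] S} {ep : Finset V → S →ₗ[ℝ] S}
  {b : V → V → ℝ} {n : ℕ} {U : Finset V} {M : Submodule ℝ S} {ε κ : ℝ} {o : Finset V → ℝ}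

/-- columns of `d1` are boundaries -/
private theorem bd_col (x : Finset V → Finset V → S) (σ : Finset V)
    (hx : ∀ ρ, x ρ σ ≠ 0 → ρ ⊆ σ) (ρ : Finset V) :
    bd ν (fun τ => x τ σ) ρ = d1 ν x ρ σ := by
  simp only [bd, d1, LinearMap.coe_mk, AddHom.coe_mk]
  symm
  apply Finset.sum_subset
  · intro v hv
    simp only [Finset.mem_sdiff, Finset.mem_compl] at hv ⊢
    exact hv.2
  · intro v hv hv'
    simp only [Finset.mem_sdiff, Finset.mem_compl] at hv hv'
    have h0 : x (insert v ρ) σ = 0 := by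
      by_contra hne
      exact hv' ⟨hx _ hne (Finset.mem_insert_self v ρ), hv⟩
    rw [h0, smul_zero]

private theorem dualA_step (hs : Sys ν G e ep b n U M β ε κ o) {i l : ℕ} (hl : 1 ≤ l)
    {x : Finset V → Finset V → S}
    (hx : IsD G e n M U i x) (hcl : d1 ν x = d2 ν G U x)
    (h0 : ∀ ρ σ, ρ.card < l → x ρ σ = 0) :
    ∃ y, IsD G e n M U (i + 1) y ∧
      ∀ ρ σ, ρ.card < l + 1 → (x - (d1 ν y + d2 ν G U y)) ρ σ = 0 := by
  classical
  have hcol : ∀ σ : Finset V, ∃ z : Finset V → S,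
      (σ ⊆ U ∧ Cl G σ ∧ σ.card + i = n + l →
        IsF G e M σ (l + 1) z ∧ bd ν z = fun ρ => x ρ σ) := by
    intro σ
    by_cases hσ : σ ⊆ U ∧ Cl G σ ∧ σ.card + i = n + l
    · obtain ⟨hU, hC, hc⟩ := hσ
      have hF : IsF G e M σ l (fun ρ => x ρ σ) := by
        refine ⟨fun ρ => hx.mem ρ σ, fun ρ v hv => hx.ker ρ σ v hv, fun ρ hρ => ?_⟩
        obtain ⟨h1, _, _, h4⟩ := hx.supp ρ σ hρ
        refine ⟨h1, fun u hu v hv huv => hC u (h1 hu) v (h1 hv) huv, by omega⟩
      have hb : bd ν (fun ρ => x ρ σ) = 0 := by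
        funext ρ
        rw [bd_col x σ (fun ρ hρ => (hx.supp ρ σ hρ).1) ρ, hcl]
        simp only [d2, LinearMap.coe_mk, AddHom.coe_mk, Pi.zero_apply]
        rw [if_pos ⟨hU, hC⟩]
        apply Finset.sum_eq_zero
        intro v hv
        rw [Finset.mem_sdiff] at hv
        have h0' : x ρ (σ.erase v) = 0 := by
          by_contra hne
          obtain ⟨_, _, _, h4⟩ := hx.supp ρ _ hne
          rw [Finset.card_erase_of_mem hv.1] at h4
          have hpos : 0 < σ.card := Finset.card_pos.mpr ⟨v, hv.1⟩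
          exact hne (h0 ρ _ (by omega))
        rw [h0', smul_zero]
      obtain ⟨z, hz, hz'⟩ := hs.simplex hU hC l hl _ hF hb
      exact ⟨z, fun _ => ⟨hz, hz'⟩⟩
    · exact ⟨0, fun h => absurd h hσ⟩
  choose z hz using hcol
  set y : Finset V → Finset V → S := fun ρ σ =>
    if σ ⊆ U ∧ Cl G σ ∧ σ.card + i = n + l then z σ ρ else 0 with hy
  have hyne : ∀ ρ σ, y ρ σ ≠ 0 →
      (σ ⊆ U ∧ Cl G σ ∧ σ.card + i = n + l) ∧ z σ ρ ≠ 0 := by
    intro ρ σ h
    simp only [hy] at h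
    by_cases hσ : σ ⊆ U ∧ Cl G σ ∧ σ.card + i = n + l
    · rw [if_pos hσ] at h
      exact ⟨hσ, h⟩
    · rw [if_neg hσ] at h
      exact absurd rfl h
  have hycard : ∀ ρ σ, y ρ σ ≠ 0 → ρ.card = l + 1 := by
    intro ρ σ h
    obtain ⟨h1, h2⟩ := hyne ρ σ h
    exact ((hz σ h1).1.supp ρ h2).2.2
  have hyD : IsD G e n M U (i + 1) y := by
    refine ⟨fun ρ σ => ?_, fun ρ σ v hv => ?_, fun ρ σ h => ?_⟩
    · simp only [hy]
      split_ifs with h
      · exact (hz σ h).1.mem ρ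
      · exact M.zero_mem
    · simp only [hy]
      split_ifs with h
      · exact (hz σ h).1.ker ρ v hv
      · exact map_zero _
    · obtain ⟨h1, h2⟩ := hyne ρ σ h
      obtain ⟨h3, _, h5⟩ := (hz σ h1).1.supp ρ h2
      exact ⟨h3, h1.1, h1.2.1, by omega⟩
  refine ⟨y, hyD, fun ρ σ hρ => ?_⟩
  have hd2 : d2 ν G U y ρ σ = 0 := by
    simp only [d2, LinearMap.coe_mk, AddHom.coe_mk]
    split_ifs with h
    · apply Finset.sum_eq_zero
      intro v _
      have : y ρ (σ.erase v) = 0 := by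
        by_contra hne
        have := hycard ρ _ hne
        omega
      rw [this, smul_zero]
    · rfl
  have hd1 : d1 ν y ρ σ = x ρ σ := by
    by_cases hσ : σ ⊆ U ∧ Cl G σ ∧ σ.card + i = n + l
    · rw [← bd_col y σ (fun ρ hρ => (hyD.supp ρ σ hρ).1) ρ]
      have : (fun τ => y τ σ) = z σ := by
        funext τ
        simp only [hy]
        rw [if_pos hσ]
      rw [this, (hz σ hσ).2]
    · have hx0 : x ρ σ = 0 := by
        by_contra hne
        have hge : ¬ ρ.card < l := fun h => hne (h0 ρ σ h)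
        obtain ⟨_, h2, h3, h4⟩ := hx.supp ρ σ hne
        exact hσ ⟨h2, h3, by omega⟩
      rw [hx0]
      simp only [d1, LinearMap.coe_mk, AddHom.coe_mk]
      apply Finset.sum_eq_zero
      intro v _
      have : y (insert v ρ) σ = 0 := by
        simp only [hy]
        rw [if_neg hσ]
      rw [this, smul_zero]
  simp only [Pi.sub_apply, Pi.add_apply, hd1, hd2, add_zero, sub_self]

private theorem dualA_ind (hs : Sys ν G e ep b n U M β ε κ o) {i : ℕ} (k : ℕ) :
    ∀ (l : ℕ) (x : Finset V → Finset V → S), 1 ≤ l → l + k = i + 1 → IsD G e n M U i x →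
      d1 ν x = d2 ν G U x → (∀ ρ σ, ρ.card < l → x ρ σ = 0) →
      ∃ y, IsD G e n M U (i + 1) y ∧ x = d1 ν y + d2 ν G U y := by
  induction k with
  | zero =>
    intro l x _ hk hx _ h0
    refine ⟨0, IsD.zero, ?_⟩
    rw [map_zero, map_zero, add_zero]
    funext ρ σ
    by_contra hne
    have hne' : x ρ σ ≠ 0 := hne
    have hge : ¬ ρ.card < l := fun h => hne' (h0 ρ σ h)
    obtain ⟨_, h2, h3, h4⟩ := hx.supp ρ σ hne'
    have := hs.sphere.dim σ h2 h3
    omega
  | succ k ih =>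
    intro l x hl hk hx hcl h0
    obtain ⟨y, hy, hy'⟩ := dualA_step hs hl hx hcl h0
    have hx' : IsD G e n M U i (x - (d1 ν y + d2 ν G U y)) :=
      hx.sub ((isD_d1 ν hy).add (isD_d2 ν hy))
    have hcl' : d1 ν (x - (d1 ν y + d2 ν G U y)) = d2 ν G U (x - (d1 ν y + d2 ν G U y)) := by
      rw [map_sub, map_sub, map_add, map_add, d1_d1 ν hs.inj, d2_d2 ν hs.inj, d1_d2, hcl]
      abel
    obtain ⟨y', hyD', hxy'⟩ := ih (l + 1) _ (by omega) (by omega) hx' hcl' hy'
    refine ⟨y + y', hy.add hyD', ?_⟩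
    rw [map_add, map_add]
    have := sub_eq_iff_eq_add.mp hxy'
    rw [this]
    abel

/-- a closed double chain whose first level vanishes -/
theorem prim_of_level_zero (hs : Sys ν G e ep b n U M β ε κ o) {i : ℕ}
    (hx : IsD G e n M U i x) (hcl : d1 ν x = d2 ν G U x) (h0 : ∀ σ, x ∅ σ = 0) :
    ∃ y, IsD G e n M U (i + 1) y ∧ x = d1 ν y + d2 ν G U y := by
  refine dualA_ind hs i 1 x le_rfl (by omega) hx hcl fun ρ σ hρ => ?_
  have : ρ = ∅ := by
    rw [← Finset.card_eq_zero]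
    omega
  rw [this]
  exact h0 σ

end Pool.Agent.H85.Fold
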