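import Pool.Agent.H85.Fold.EvenDefs

/-!
# Project FOLD: the even case, the new chain and its resolution
-/

set_option autoImplicit false

open Finset

namespace Pool.Agent.H85.Fold

variable {V : Type} [DecidableEq V] [Fintype V] {S : Type} [AddCommGroup S] [Module ℝ S]
  {ν : V → ℕ} {G : SimpleGraph V} {e : V → S →ₗ[ℝ] S} {ep : Finset V → S →ₗ[ℝ] S}
  {b : V → V → ℝ} {k : ℕ} {U : Finset V} {M : Submodule ℝ S} {β : S →ₗ[ℝ] S →ₗ[ℝ] ℝ}
  {ε κ : ℝ} {o : Finset V → ℝ} {τ : Finset V} {c c' : Finset V → S}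
  {x x' : Finset V → Finset V → S} {r r' : V → Finset V → Finset V → S}

private theorem zero_of_isD {n i : ℕ} (hh : IsD G e n M U i x) : ∀ ρ σ, x ρ σ ≠ 0 → ρ ⊆ σ :=
  fun ρ σ hne => (hh.supp ρ σ hne).1

private theorem bd_of_isRes {n i : ℕ} (hK : IsSphere ν G n U o)
    (hx : IsRes ν G e n M U o i c x) : bd ν c = 0 := by
  rw [← hx.aug_eq, ← aug_d1 ν G n U o x (zero_of_isD hx.isD), hx.closed]
  exact aug_d2 ν G n U o hK x (fun ρ σ hne => ⟨(hx.isD.supp ρ σ hne).1,
    (hx.isD.supp ρ σ hne).2.1, (hx.isD.supp ρ σ hne).2.2.1⟩)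

private theorem er_add (a : V) : er e a (r + r') = er e a r + er e a r' := by
  funext ρ σ
  simp [er]

private theorem er_smul (a : V) (t : ℝ) : er e a (t • r) = t • er e a r := by
  funext ρ σ
  simp [er]

private theorem er_zero (a : V) :
    er e a (0 : V → Finset V → Finset V → S) = 0 := by
  funext ρ σ
  simp [er]

private theorem cor1_add : cor1 ν G b k U τ o (r + r') =
    cor1 ν G b k U τ o r + cor1 ν G b k U τ o r' := by
  simp [cor1, smul_add, Finset.sum_add_distrib]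

private theorem cor1_smul (t : ℝ) : cor1 ν G b k U τ o (t • r) =
    t • cor1 ν G b k U τ o r := by
  simp [cor1, Finset.smul_sum, smul_comm t]

private theorem cor1_zero : cor1 ν G b k U τ o (0 : V → Finset V → Finset V → S) = 0 := by
  simp [cor1]

/-- the data exist -/
theorem exists_rt (hs : Sys ν G e ep b (2 * k + 2) U M β ε κ o)
    (hx : IsRes ν G e (2 * k + 2) M U o (k + 1) c x)
    (hL : ∀ a ∈ U, HV ν G e (Mk e M a) (nbr G a U) k) : ∃ r, IsRt ν G e M U k x r := by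
  have hν := hs.inj
  have hbc : bd ν c = 0 := bd_of_isRes hs.sphere hx
  have hc : IsF G e M U (k + 1) c := by
    have := isD_aug hx.isD o
    rwa [hx.aug_eq] at this
  have key : ∀ a ∈ U, ∃ ra : Finset V → Finset V → S,
      IsD G e (2 * k + 1) M (nbr G a U) (k + 1) ra ∧
      comp2 ν a x = -(d1 ν (fun ρ σ => e a (ra ρ σ)) +
        d2 ν G (nbr G a U) (fun ρ σ => e a (ra ρ σ))) := by
    intro a ha
    have h1 : IsRes ν G e (2 * k + 1) (Mk e M a) (nbr G a U) (linkO ν a o) k (comp ν a c)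
        (comp2 ν a x) := IsRes.comp2 (n := 2 * k + 1) (i := k) hν ha hx
    have h2 : IsF G e (Mk e M a) (nbr G a U) k (comp ν a c) := isF_comp ν a hc
    have h3 : bd ν (comp ν a c) = 0 := by
      have := comp_bd ν hν a c
      rw [hbc, map_zero] at this
      exact (neg_eq_zero.mp this.symm)
    obtain ⟨g, hg, hgc⟩ := hL a ha _ h2 h3
    have hK : IsSphere ν G (2 * k + 1) (nbr G a U) (linkO ν a o) :=
      IsSphere.link (n := 2 * k + 1) hν hs.sphere ha
    obtain ⟨y, hy, hxy⟩ := h1.of_bd hν hK hg hgc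
    obtain ⟨ra, hra, hera⟩ := exists_lift2 hs ha (IsD.neg hy)
    refine ⟨ra, hra, ?_⟩
    have h4 : (fun ρ σ => e a (ra ρ σ)) = -y := by
      funext ρ σ
      exact hera ρ σ
    rw [h4, hxy, map_neg, map_neg]
    abel
  choose! r hr using key
  exact ⟨r, fun a ha => (hr a ha).1, fun a ha => (hr a ha).2⟩

theorem isRt_zero : IsRt ν G e M U k 0 0 := by
  refine ⟨fun a _ => IsD.zero, fun a _ => ?_⟩
  rw [er_zero]
  simp

theorem IsRt.add (h : IsRt ν G e M U k x r) (h' : IsRt ν G e M U k x' r') :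
    IsRt ν G e M U k (x + x') (r + r') := by
  refine ⟨fun a ha => IsD.add (h.isD a ha) (h'.isD a ha), fun a ha => ?_⟩
  rw [er_add, map_add, map_add, map_add, h.eq a ha, h'.eq a ha]
  abel

theorem IsRt.smul (h : IsRt ν G e M U k x r) (t : ℝ) : IsRt ν G e M U k (t • x) (t • r) := by
  refine ⟨fun a ha => IsD.smul (h.isD a ha) t, fun a ha => ?_⟩
  rw [er_smul, map_smul, map_smul, map_smul, h.eq a ha, smul_neg, smul_add]

theorem ct_add : ct ν G e b k U τ o (c + c') (r + r') =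
    ct ν G e b k U τ o c r + ct ν G e b k U τ o c' r' := by
  funext ρ
  simp only [ct, cor1_add, map_add, Pi.add_apply, Pi.sub_apply]
  abel

theorem ct_smul (t : ℝ) : ct ν G e b k U τ o (t • c) (t • r) = t • ct ν G e b k U τ o c r := by
  funext ρ
  simp only [ct, cor1_smul, map_smul, Pi.smul_apply, Pi.sub_apply, smul_sub]

theorem ct_zero : ct ν G e b k U τ o (0 : Finset V → S) 0 = 0 := by
  funext ρ
  simp [ct, cor1_zero]

/-- the double chain `e a (r a)` of the link of `a` -/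
theorem isD_er (hs : Sys ν G e ep b (2 * k + 2) U M β ε κ o) (hr : IsRt ν G e M U k x r)
    {a : V} (ha : a ∈ U) :
    IsD G e (2 * k + 1) (Mk e M a) (nbr G a U) (k + 1) (er e a r) := by
  have hd := hr.isD a ha
  refine ⟨fun ρ σ => ?_, fun ρ σ v hv => ?_, fun ρ σ hne => ?_⟩
  · refine ⟨hs.stable a ha _ (hd.mem ρ σ), ?_⟩
    exact hs.sq ha (hd.mem ρ σ)
  · by_cases h0 : r a ρ σ = 0
    · simp [er, h0]
    · have h1 := hd.supp ρ σ h0
      have hv' : v ∈ nbr G a U := h1.2.1 (h1.1 hv)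
      obtain ⟨hvU, hav⟩ := mem_nbr.mp hv'
      change e v (e a (r a ρ σ)) = 0
      rw [hs.anticomm hvU ha (Or.inr hav.symm) (hd.mem ρ σ), hd.ker ρ σ v hv, map_zero, neg_zero]
  · apply hd.supp ρ σ
    intro h0
    apply hne
    simp [er, h0]

/-- the chains `g a` -/
theorem isF_ga (hs : Sys ν G e ep b (2 * k + 2) U M β ε κ o)
    (hx : IsRes ν G e (2 * k + 2) M U o (k + 1) c x) (hr : IsRt ν G e M U k x r)
    {a : V} (ha : a ∈ U) :
    IsF G e (Mk e M a) (nbr G a U) (k + 1) (ga ν G e k U o r a) ∧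
      bd ν (ga ν G e k U o r a) = -comp ν a c := by
  have hν := hs.inj
  have hd := isD_er hs hr ha
  have hK : IsSphere ν G (2 * k + 1) (nbr G a U) (linkO ν a o) :=
    IsSphere.link (n := 2 * k + 1) hν hs.sphere ha
  refine ⟨isD_aug hd _, ?_⟩
  have hsup : ∀ ρ σ, er e a r ρ σ ≠ 0 → ρ ⊆ σ ∧ σ ⊆ nbr G a U ∧ Cl G σ := fun ρ σ hne =>
    ⟨(hd.supp ρ σ hne).1, (hd.supp ρ σ hne).2.1, (hd.supp ρ σ hne).2.2.1⟩
  have h1 : aug G (2 * k + 1) (nbr G a U) (linkO ν a o) (d2 ν G (nbr G a U) (er e a r)) = 0 :=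
    aug_d2 ν G (2 * k + 1) (nbr G a U) (linkO ν a o) hK (er e a r) hsup
  have h2 := hr.eq a ha
  have h3 : aug G (2 * k + 1) (nbr G a U) (linkO ν a o) (comp2 ν a x) = comp ν a c := by
    rw [aug_comp2 ν G (2 * k + 1) U o a ha x (zero_of_isD hx.isD)]
    have h4 := hx.aug_eq
    rw [show 2 * k + 2 = 2 * k + 1 + 1 from rfl] at h4
    rw [h4]
  rw [ga, ← aug_d1 ν G (2 * k + 1) (nbr G a U) (linkO ν a o) (er e a r)
    (fun ρ σ hne => (hsup ρ σ hne).1), ← h3, h2, map_neg, map_add, h1, add_zero, neg_neg]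

end Pool.Agent.H85.Fold
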