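import Pool.Agent.H85.Fold.EvenA

/-!
# Project FOLD: the even case, the new chain and its resolution
-/

set_option autoImplicit false

open Finset

namespace Pool.Agent.H85.Fold

variable {V : Type} [DecidableEq V] [Fintype V] {S : Type} [AddCommGroup S] [Module ℝ S]
  {ν : V → ℕ} {G : SimpleGraph V} {e : V → S →ₗ[ℝ] S} {ep : Finset V → S →ₗ[ℝ] S}
  {b : V → V → ℝ} {k : ℕ} {U : Finset V} {M : Submodule ℝ S} {β : S →ₗ[ℝ] S →ₗ[ℝ] ℝ}
  {ε κ : ℝ} {o : Finset V → ℝ} {τ : Finset V} {c c' : Finset V → S}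
  {x x' : Finset V → Finset V → S} {r r' : V → Finset V → Finset V → S}

omit [DecidableEq V] [Fintype V] in
/-- chains without the kernel condition -/
private theorem a2_forget {U' : Finset V} {j : ℕ} {d : Finset V → S} (h : IsF G e M U' j d) (v : V) :
    IsF G (fun _ => 0) (Mk (fun _ => (0 : S →ₗ[ℝ] S)) M v) U' j d where
  mem σ := ⟨h.mem σ, by simp⟩
  ker σ v _ := rfl
  supp := h.supp

omit [Fintype V] in
private theorem a2_comp_apply (ν : V → ℕ) (v : V) (d : Finset V → S) (σ : Finset V) :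
    comp ν v d σ = if v ∈ σ then 0 else sgn ν v σ • d (insert v σ) := rfl

omit [Fintype V] in
private theorem a2_comp_map (ν : V → ℕ) (v : V) (f : S →ₗ[ℝ] S) (d : Finset V → S) :
    comp ν v (fun σ => f (d σ)) = fun σ => f (comp ν v d σ) := by
  funext σ
  rw [a2_comp_apply, a2_comp_apply]
  by_cases h : v ∈ σ
  · rw [if_pos h, if_pos h, map_zero]
  · rw [if_neg h, if_neg h, map_smul]

/-- the new chain is a cycle with coefficients in the kernels -/
theorem isF_ct (hs : Sys ν G e ep b (2 * k + 2) U M β ε κ o)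
    (hx : IsRes ν G e (2 * k + 2) M U o (k + 1) c x) (hr : IsRt ν G e M U k x r)
    (hτ : τ ⊆ U) (hc : IsF G e M U (k + 1) c) (hbd : bd ν c = 0) :
    IsF G e M U (k + 1) (ct ν G e b k U τ o c r) ∧ bd ν (ct ν G e b k U τ o c r) = 0 := by
  set h : V → Finset V → S :=
    fun a => aug G (2 * k + 1) (nbr G a U) (linkO ν a o) (r a) with hh
  have hF : ∀ a ∈ U, IsF G e M (nbr G a U) (k + 1) (h a) := fun a ha => isD_aug (hr.isD a ha) _
  have hoff : ∀ a ∈ U, ∀ σ, a ∈ σ → h a σ = 0 := by
    intro a ha σ hσ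
    by_contra hne
    have := (hF a ha).supp σ hne
    exact (mem_nbr.mp (this.1 hσ)).2.ne rfl
  have hga : ∀ a, ∀ σ, e a (h a σ) = ga ν G e k U o r a σ := by
    intro a σ
    exact (aug_map G (2 * k + 1) (nbr G a U) (linkO ν a o) (e a) (r a) σ).symm
  set C1 : Finset V → S := cor1 ν G b k U τ o r with hC1
  have hC1e : C1 = ∑ a ∈ U, wt b τ a • wedge ν a (h a) := rfl
  have hC1F : IsF G (fun _ => (0 : S →ₗ[ℝ] S)) M U (k + 1 + 1) C1 := by
    rw [hC1e]
    apply IsF.sum
    intro a ha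
    exact (isF_wedge ν ha (a2_forget (hF a ha) a)).smul _
  have hB : IsF G (fun _ => (0 : S →ₗ[ℝ] S)) M U (k + 1) (bd ν C1) := isF_bd ν hC1F
  have hct : ∀ ρ, ct ν G e b k U τ o c r ρ = usum e τ (c ρ) - bd ν C1 ρ := fun ρ => rfl
  have huM : ∀ ρ, usum e τ (c ρ) ∈ M := by
    intro ρ
    rw [usum, LinearMap.sum_apply]
    exact Submodule.sum_mem _ fun v hv => hs.stable v (hτ hv) _ (hc.mem ρ)
  have hsupp : ∀ ρ, ct ν G e b k U τ o c r ρ ≠ 0 → ρ ⊆ U ∧ Cl G ρ ∧ ρ.card = k + 1 := by
    intro ρ hρ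
    by_cases h1 : c ρ = 0
    · by_cases h2 : bd ν C1 ρ = 0
      · exact absurd (by rw [hct, h1, h2, map_zero, sub_zero]) hρ
      · exact hB.supp ρ h2
    · exact hc.supp ρ h1
  -- the kernels
  have hker : ∀ ρ, ∀ a ∈ ρ, e a (ct ν G e b k U τ o c r ρ) = 0 := by
    intro ρ a ha
    by_cases hρ : ct ν G e b k U τ o c r ρ = 0
    · rw [hρ, map_zero]
    obtain ⟨hρU, hρC, hρk⟩ := hsupp ρ hρ
    have haU : a ∈ U := hρU ha
    have e1 : e a (usum e τ (c ρ)) = wt b τ a • c ρ := by
      rw [usum, LinearMap.sum_apply, map_sum, wt, Finset.sum_smul]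
      apply Finset.sum_congr rfl
      intro v hv
      have h1 := hs.anti a haU v (hτ hv) (c ρ) (hc.mem ρ)
      rw [hc.ker ρ a ha, map_zero, add_zero] at h1
      rw [h1, hs.b_symm a v]
    -- the component of the correction
    have e2 : comp ν a C1 = wt b τ a • h a +
        ∑ v ∈ U.erase a, wt b τ v • -wedge ν v (comp ν a (h v)) := by
      rw [hC1e, map_sum, ← Finset.add_sum_erase U _ haU, map_smul,
        comp_wedge_self ν a (h a) (hoff a haU)]
      congr 1
      apply Finset.sum_congr rfl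
      intro v hv
      rw [map_smul, comp_wedge ν hs.inj v a (Finset.mem_erase.mp hv).1]
    have e3 : comp ν a (fun σ => e a (C1 σ)) = wt b τ a • ga ν G e k U o r a := by
      rw [a2_comp_map, e2]
      funext σ
      have z : ∀ v ∈ U.erase a, e a ((wt b τ v • -wedge ν v (comp ν a (h v))) σ) = 0 := by
        intro v hv
        have z1 : e a (wedge ν v (comp ν a (h v)) σ) = 0 := by
          change e a (if v ∈ σ then sgn ν v σ • comp ν a (h v) (σ.erase v) else 0) = 0
          by_cases hvσ : v ∈ σ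
          · rw [if_pos hvσ, map_smul, a2_comp_apply]
            by_cases haσ : a ∈ σ.erase v
            · rw [if_pos haσ, map_zero, smul_zero]
            · rw [if_neg haσ, map_smul,
                (hF v (Finset.mem_erase.mp hv).2).ker _ a (Finset.mem_insert_self _ _),
                smul_zero, smul_zero]
          · rw [if_neg hvσ, map_zero]
        rw [Pi.smul_apply, Pi.neg_apply, map_smul, map_neg, z1, neg_zero, smul_zero]
      rw [Pi.add_apply, Finset.sum_apply, map_add, map_sum, Finset.sum_eq_zero z, add_zero,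
        Pi.smul_apply, map_smul, hga, Pi.smul_apply]
    have e4 : comp ν a (bd ν (fun σ => e a (C1 σ))) = wt b τ a • comp ν a c := by
      rw [comp_bd ν hs.inj, e3, map_smul, (isF_ga hs hx hr haU).2, smul_neg, neg_neg]
    have e5 : bd ν (fun σ => e a (C1 σ)) ρ = wt b τ a • c ρ := by
      have h5 := congrFun e4 (ρ.erase a)
      rw [Pi.smul_apply, a2_comp_apply, a2_comp_apply, if_neg (Finset.notMem_erase a ρ),
        if_neg (Finset.notMem_erase a ρ), Finset.insert_erase ha] at h5
      have h6 := congrArg (fun y => sgn ν a (ρ.erase a) • y) h5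
      simp only [smul_smul, sgn_sq, one_smul] at h6
      rw [h6, mul_comm, mul_assoc, sgn_sq, mul_one]
    rw [hct, map_sub, e1, ← bd_map ν (e a) C1 ρ, e5, sub_self]
  refine ⟨⟨?_, hker, hsupp⟩, ?_⟩
  · intro ρ
    rw [hct]
    exact Submodule.sub_mem _ (huM ρ) (hB.mem ρ)
  · change bd ν ((fun ρ => usum e τ (c ρ)) - bd ν C1) = 0
    rw [map_sub, bd_bd ν hs.inj, sub_zero]
    funext ρ
    rw [bd_map, hbd, Pi.zero_apply]
    exact map_zero _

end Pool.Agent.H85.Fold
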