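import Pool.Agent.H85.Fold.EvenA

/-!
# Project FOLD: the even case, the new chain and its resolution
-/

set_option autoImplicit false

open Finset

namespace Pool.Agent.H85.Fold

variable {V : Type} [DecidableEq V] [Fintype V] {S : Type} [AddCommGroup S] [Module ℝ S]
  {ν : V → ℕ} {G : SimpleGraph V} {e : V → S →ₗ[ℝ] S} {ep : Finset V → S →ₗ[ℝ] S}
  {b : V → V → ℝ} {k : ℕ} {U : Finset V} {M : Submodule ℝ S} {β : S →ₗ[ℝ] S →ₗ[ℝ] ℝ}
  {ε κ : ℝ} {o : Finset V → ℝ} {τ : Finset V} {c c' : Finset V → S}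
  {x x' : Finset V → Finset V → S} {r r' : V → Finset V → Finset V → S}

/-- forgetting the operators -/
private theorem ea3_forget {n i : ℕ} {W : Finset V} {y : Finset V → Finset V → S}
    (h : IsD G e n M W i y) : IsD G (fun _ => (0 : S →ₗ[ℝ] S)) n M W i y where
  mem := h.mem
  ker _ _ _ _ := rfl
  supp := h.supp

private theorem ea3_Mk (v : V) : Mk (fun _ : V => (0 : S →ₗ[ℝ] S)) M v = M := by
  unfold Mk
  ext y
  simp

/-- the correction without the operators -/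
private theorem ea3_cor2 (hr : IsRt ν G e M U k x r) :
    IsD G (fun _ => (0 : S →ₗ[ℝ] S)) (2 * k + 2) M U (k + 2) (cor2 ν b U τ r) := by
  unfold cor2
  apply IsD.sum
  intro a ha
  apply IsD.smul
  have h := ea3_forget (hr.isD a ha)
  have h' : IsD G (fun _ => (0 : S →ₗ[ℝ] S)) (2 * k + 1) (Mk (fun _ : V => (0 : S →ₗ[ℝ] S)) M a)
      (nbr G a U) (k + 1) (r a) := by
    rw [ea3_Mk]; exact h
  exact isD_wedge2 ν ha h'

private theorem ea3_usum_mem (hs : Sys ν G e ep b (2 * k + 2) U M β ε κ o) (hτ : τ ⊆ U) {y : S}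
    (hy : y ∈ M) : usum e τ y ∈ M := by
  unfold usum
  rw [LinearMap.sum_apply]
  exact M.sum_mem fun v hv => hs.stable v (hτ hv) y hy

private theorem ea3_usum_comm (hs : Sys ν G e ep b (2 * k + 2) U M β ε κ o) (hτ : τ ⊆ U) {y : S}
    (hy : y ∈ M) {a : V} (ha : a ∈ U) (h0 : e a y = 0) :
    e a (usum e τ y) = wt b τ a • y := by
  unfold usum wt
  rw [LinearMap.sum_apply, map_sum, Finset.sum_smul]
  apply Finset.sum_congr rfl
  intro v hv
  have h := hs.anti v (hτ hv) a ha y hy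
  rw [h0, map_zero, zero_add] at h
  exact h

/-- the operator `e a` on the correction -/
private theorem ea3_e_cor2 (hr : IsRt ν G e M U k x r) {a : V} (ha : a ∈ U) (ρ σ : Finset V)
    (haρ : a ∈ ρ) :
    e a (cor2 ν b U τ r ρ σ) = wt b τ a • wedge2 ν a (er e a r) ρ σ := by
  unfold cor2
  rw [Finset.sum_apply, Finset.sum_apply, map_sum, Finset.sum_eq_single a]
  · rw [Pi.smul_apply, Pi.smul_apply, map_smul]
    congr 1
    simp only [wedge2, LinearMap.coe_mk, AddHom.coe_mk, er]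
    by_cases h : a ∈ ρ ∧ a ∈ σ
    · rw [if_pos h, if_pos h, map_smul]
    · rw [if_neg h, if_neg h, map_zero]
  · intro v hv hva
    rw [Pi.smul_apply, Pi.smul_apply, map_smul]
    have : e a (wedge2 ν v (r v) ρ σ) = 0 := by
      simp only [wedge2, LinearMap.coe_mk, AddHom.coe_mk]
      by_cases h : v ∈ ρ ∧ v ∈ σ
      · rw [if_pos h, map_smul, (hr.isD v hv).ker _ _ a
          (Finset.mem_erase.mpr ⟨fun h => hva h.symm, haρ⟩), smul_zero]
      · rw [if_neg h, map_zero]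
    rw [this, smul_zero]
  · intro h; exact absurd ha h

private theorem ea3_ker (hs : Sys ν G e ep b (2 * k + 2) U M β ε κ o)
    (hx : IsRes ν G e (2 * k + 2) M U o (k + 1) c x) (hr : IsRt ν G e M U k x r)
    (hτ : τ ⊆ U) {ρ σ : Finset V} {a : V} (haρ : a ∈ ρ) (hρσ : ρ ⊆ σ) (hσU : σ ⊆ U)
    (hcl : Cl G σ) : e a (xt ν G e b U τ x r ρ σ) = 0 := by
  have ha : a ∈ U := hσU (hρσ haρ)
  have h1 : e a (usum e τ (x ρ σ)) = wt b τ a • x ρ σ :=
    ea3_usum_comm hs hτ (hx.isD.mem _ _) ha (hx.isD.ker _ _ a haρ)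
  have h2 : e a (d1 ν (cor2 ν b U τ r) ρ σ) = wt b τ a • d1 ν (wedge2 ν a (er e a r)) ρ σ := by
    simp only [d1, LinearMap.coe_mk, AddHom.coe_mk]
    rw [map_sum, Finset.smul_sum]
    apply Finset.sum_congr rfl
    intro v _
    rw [map_smul, ea3_e_cor2 hr ha _ _ (Finset.mem_insert_of_mem haρ), smul_comm]
  have h3 : e a (d2 ν G U (cor2 ν b U τ r) ρ σ) =
      wt b τ a • d2 ν G U (wedge2 ν a (er e a r)) ρ σ := by
    simp only [d2, LinearMap.coe_mk, AddHom.coe_mk]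
    rw [if_pos ⟨hσU, hcl⟩, if_pos ⟨hσU, hcl⟩, map_sum, Finset.smul_sum]
    apply Finset.sum_congr rfl
    intro v _
    rw [map_smul, ea3_e_cor2 hr ha _ _ haρ, smul_comm]
  have h4 : d1 ν (wedge2 ν a (er e a r)) ρ σ + d2 ν G U (wedge2 ν a (er e a r)) ρ σ = x ρ σ := by
    rw [d1_wedge2 ν hs.inj, if_neg (fun h => h.2 haρ), zero_sub, d2_wedge2 ν hs.inj G U a ha]
    have h5 := hr.eq a ha
    have h6 : -wedge2 ν a (d1 ν (er e a r)) ρ σ +
        (-wedge2 ν a (d2 ν G (nbr G a U) (er e a r))) ρ σ = wedge2 ν a (comp2 ν a x) ρ σ := by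
      rw [h5, map_neg, map_add]
      simp only [Pi.neg_apply, Pi.add_apply]
      abel
    rw [h6]
    simp only [wedge2, comp2, LinearMap.coe_mk, AddHom.coe_mk]
    rw [if_pos ⟨haρ, hρσ haρ⟩, if_neg (by simp), sgn_erase_self, sgn_erase_self,
      Finset.insert_erase haρ, Finset.insert_erase (hρσ haρ), smul_smul]
    have : sgn ν a ρ * sgn ν a σ * (sgn ν a ρ * sgn ν a σ) = 1 := by
      calc sgn ν a ρ * sgn ν a σ * (sgn ν a ρ * sgn ν a σ)
          = (sgn ν a ρ * sgn ν a ρ) * (sgn ν a σ * sgn ν a σ) := by ring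
        _ = 1 := by rw [sgn_sq, sgn_sq, one_mul]
    rw [this, one_smul]
  unfold xt
  simp only [Pi.sub_apply, Pi.add_apply, map_sub, map_add]
  rw [h1, h2, h3, ← smul_add, h4, sub_self]

/-- the new double chain is a resolution of the new chain -/
theorem isRes_xt (hs : Sys ν G e ep b (2 * k + 2) U M β ε κ o)
    (hx : IsRes ν G e (2 * k + 2) M U o (k + 1) c x) (hr : IsRt ν G e M U k x r)
    (hτ : τ ⊆ U) :
    IsRes ν G e (2 * k + 2) M U o (k + 1) (ct ν G e b k U τ o c r)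
      (xt ν G e b U τ x r) := by
  have hA : IsD G (fun _ => (0 : S →ₗ[ℝ] S)) (2 * k + 2) M U (k + 2) (cor2 ν b U τ r) :=
    ea3_cor2 hr
  have hux : IsD G (fun _ => (0 : S →ₗ[ℝ] S)) (2 * k + 2) M U (k + 1)
      (fun ρ σ => usum e τ (x ρ σ)) := by
    refine ⟨fun ρ σ => ea3_usum_mem hs hτ (hx.isD.mem _ _), fun _ _ _ _ => rfl, ?_⟩
    intro ρ σ hne
    apply hx.isD.supp
    intro h0
    exact hne (by simp only [h0, map_zero])
  have hX : IsD G (fun _ => (0 : S →ₗ[ℝ] S)) (2 * k + 2) M U (k + 1) (xt ν G e b U τ x r) :=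
    hux.sub ((isD_d1 ν hA).add (isD_d2 ν hA))
  refine ⟨⟨hX.mem, ?_, hX.supp⟩, ?_, ?_⟩
  · intro ρ σ a ha
    by_cases hne : xt ν G e b U τ x r ρ σ = 0
    · rw [hne, map_zero]
    · obtain ⟨h1, h2, h3, _⟩ := hX.supp ρ σ hne
      exact ea3_ker hs hx hr hτ ha h1 h2 h3
  · have h1 : d1 ν (fun ρ σ => usum e τ (x ρ σ)) = d2 ν G U (fun ρ σ => usum e τ (x ρ σ)) := by
      funext ρ σ
      rw [d1_map, d2_map, hx.closed]
    unfold xt
    rw [map_sub, map_sub, h1, map_add, map_add, d1_d1 ν hs.inj, d2_d2 ν hs.inj, d1_d2, zero_add,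
      add_zero]
  · have h1 : aug G (2 * k + 2) U o (fun ρ σ => usum e τ (x ρ σ)) =
        fun ρ => usum e τ (c ρ) := by
      funext ρ
      rw [aug_map, hx.aug_eq]
    have h2 : aug G (2 * k + 2) U o (cor2 ν b U τ r) = cor1 ν G b k U τ o r := by
      unfold cor2 cor1
      rw [map_sum]
      apply Finset.sum_congr rfl
      intro a ha
      rw [map_smul]
      congr 1
      exact aug_wedge2 ν G (2 * k + 1) U o a ha (r a)
    unfold xt ct
    rw [map_sub, map_add, h1, aug_d1 ν G (2 * k + 2) U o _ (fun ρ σ h => (hA.supp ρ σ h).1),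
      aug_d2 ν G (2 * k + 2) U o hs.sphere _ (fun ρ σ h => ⟨(hA.supp ρ σ h).1,
        (hA.supp ρ σ h).2.1, (hA.supp ρ σ h).2.2.1⟩), add_zero, h2]

end Pool.Agent.H85.Fold
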