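import Pool.Agent.H85.Fold.EvenA

/-!
# Project FOLD: the even case, the formula for the form
-/

set_option autoImplicit false

open Finset

namespace Pool.Agent.H85.Fold

variable {V : Type} [DecidableEq V] [Fintype V] {S : Type} [AddCommGroup S] [Module ℝ S]
  {ν : V → ℕ} {G : SimpleGraph V} {e : V → S →ₗ[ℝ] S} {ep : Finset V → S →ₗ[ℝ] S}
  {b : V → V → ℝ} {k : ℕ} {U : Finset V} {M : Submodule ℝ S} {β : S →ₗ[ℝ] S →ₗ[ℝ] ℝ}
  {ε κ : ℝ} {o : Finset V → ℝ} {τ : Finset V} {c : Finset V → S}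
  {x : Finset V → Finset V → S} {r : V → Finset V → Finset V → S}

private theorem evenB1_mk (a a' : V) : Mk e (Mk e M a') a = Mk e (Mk e M a) a' := by
  unfold Mk
  exact inf_right_comm _ _ _

private theorem evenB1_isD_Rr (hs : Sys ν G e ep b (2 * k + 2) U M β ε κ o)
    (hr : IsRt ν G e M U k x r) {a a' : V} (ha : a ∈ U) (ha' : a' ∈ U) :
    IsD G e (2 * k) (Mk e (Mk e M a) a') (nbr G a' (nbr G a U)) k (Rr ν e r a a') := by
  have h1 : IsD G e (2 * k) (Mk e (Mk e M a) a') (nbr G a' (nbr G a U)) k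
      (comp2 ν a' (er e a r)) := isD_comp2 ν a' (isD_er hs hr ha)
  have h2 : IsD G e (2 * k) (Mk e (Mk e M a') a) (nbr G a (nbr G a' U)) k
      (comp2 ν a (er e a' r)) := isD_comp2 ν a (isD_er hs hr ha')
  rw [evenB1_mk, nbr_nbr] at h2
  exact h1.sub h2

private theorem evenB1_closed (hs : Sys ν G e ep b (2 * k + 2) U M β ε κ o)
    (hr : IsRt ν G e M U k x r) {a a' : V} (ha : a ∈ U) (ha' : a' ∈ U) (haa : G.Adj a a') :
    d1 ν (Rr ν e r a a') = -d2 ν G (nbr G a' (nbr G a U)) (Rr ν e r a a') := by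
  have m1 : a' ∈ nbr G a U := mem_nbr.2 ⟨ha', haa⟩
  have m2 : a ∈ nbr G a' U := mem_nbr.2 ⟨ha, haa.symm⟩
  have e1 : comp2 ν a' (comp2 ν a x) = d1 ν (comp2 ν a' (er e a r)) +
      d2 ν G (nbr G a' (nbr G a U)) (comp2 ν a' (er e a r)) := by
    rw [hr.eq a ha, map_neg, map_add, comp2_d1 ν hs.inj, comp2_d2 ν hs.inj G _ a' m1]
    abel
  have e2 : comp2 ν a (comp2 ν a' x) = d1 ν (comp2 ν a (er e a' r)) +
      d2 ν G (nbr G a' (nbr G a U)) (comp2 ν a (er e a' r)) := by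
    rw [hr.eq a' ha', map_neg, map_add, comp2_d1 ν hs.inj, comp2_d2 ν hs.inj G _ a m2,
      nbr_nbr G a' a]
    abel
  rw [comp2_comp2 ν hs.inj a' a haa.ne', e2] at e1
  unfold Rr
  rw [map_sub, map_sub, eq_neg_iff_add_eq_zero]
  have e3 := sub_eq_zero.2 e1
  rw [← neg_eq_zero, ← e3]
  abel

private theorem evenB1_d1_Rs (a a' : V) (ρ σ : Finset V) :
    d1 ν (Rs ν e k r a a') ρ σ = (-1 : ℝ) ^ (ρ.card + 1 + k) • d1 ν (Rr ν e r a a') ρ σ := by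
  change ∑ v ∈ σ \ ρ, sgn ν v ρ • ((-1 : ℝ) ^ ((insert v ρ).card + k) •
    Rr ν e r a a' (insert v ρ) σ) = (-1 : ℝ) ^ (ρ.card + 1 + k) •
    ∑ v ∈ σ \ ρ, sgn ν v ρ • Rr ν e r a a' (insert v ρ) σ
  rw [smul_sum]
  refine sum_congr rfl fun v hv => ?_
  rw [card_insert_of_notMem (mem_sdiff.1 hv).2, smul_comm]

private theorem evenB1_d2_Rs (Y : Finset V) (a a' : V) (ρ σ : Finset V) :
    d2 ν G Y (Rs ν e k r a a') ρ σ = (-1 : ℝ) ^ (ρ.card + k) • d2 ν G Y (Rr ν e r a a') ρ σ := by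
  classical
  change (if σ ⊆ Y ∧ Cl G σ then ∑ v ∈ σ \ ρ, sgn ν v σ • ((-1 : ℝ) ^ (ρ.card + k) •
    Rr ν e r a a' ρ (σ.erase v)) else 0) = (-1 : ℝ) ^ (ρ.card + k) •
    (if σ ⊆ Y ∧ Cl G σ then ∑ v ∈ σ \ ρ, sgn ν v σ • Rr ν e r a a' ρ (σ.erase v) else 0)
  split_ifs with h
  · rw [smul_sum]
    exact sum_congr rfl fun v hv => smul_comm _ _ _
  · rw [smul_zero]

private theorem evenB1_aug_Rs (n : ℕ) (Y : Finset V) (o' : Finset V → ℝ) (a a' : V)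
    (ρ : Finset V) : aug G n Y o' (Rs ν e k r a a') ρ =
      (-1 : ℝ) ^ (ρ.card + k) • aug G n Y o' (Rr ν e r a a') ρ := by
  change ∑ σ ∈ fac G n Y, o' σ • ((-1 : ℝ) ^ (ρ.card + k) • Rr ν e r a a' ρ σ) =
    (-1 : ℝ) ^ (ρ.card + k) • ∑ σ ∈ fac G n Y, o' σ • Rr ν e r a a' ρ σ
  rw [smul_sum]
  exact sum_congr rfl fun v hv => smul_comm _ _ _

private theorem evenB1_off {a a' : V} {n : ℕ} {σ : Finset V}
    (hσ : σ ∈ fac G n (nbr G a' (nbr G a U))) : a ∉ σ ∧ a' ∉ σ := by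
  classical
  have h : σ ⊆ nbr G a' (nbr G a U) := mem_powerset.1 (mem_filter.1 hσ).1
  refine ⟨fun h1 => ?_, fun h1 => ?_⟩
  · exact (mem_nbr.1 (mem_nbr.1 (h h1)).1).2.ne rfl
  · exact (mem_nbr.1 (h h1)).2.ne rfl

private theorem evenB1_aug (hs : Sys ν G e ep b (2 * k + 2) U M β ε κ o)
    (hr : IsRt ν G e M U k x r) {a a' : V} (ha : a ∈ U) (ha' : a' ∈ U) (haa : G.Adj a a') :
    aug G (2 * k) (nbr G a' (nbr G a U)) (linkO ν a' (linkO ν a o)) (Rr ν e r a a') =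
      gam ν G e k U o r a a' := by
  have m1 : a' ∈ nbr G a U := mem_nbr.2 ⟨ha', haa⟩
  have m2 : a ∈ nbr G a' U := mem_nbr.2 ⟨ha, haa.symm⟩
  have s1 : ∀ ρ σ, er e a r ρ σ ≠ 0 → ρ ⊆ σ := fun ρ σ h => ((isD_er hs hr ha).supp ρ σ h).1
  have s2 : ∀ ρ σ, er e a' r ρ σ ≠ 0 → ρ ⊆ σ := fun ρ σ h => ((isD_er hs hr ha').supp ρ σ h).1
  have e1 := aug_comp2 ν G (2 * k) (nbr G a U) (linkO ν a o) a' m1 (er e a r) s1
  have e2 := aug_comp2 ν G (2 * k) (nbr G a' U) (linkO ν a' o) a m2 (er e a' r) s2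
  have e3 : aug G (2 * k) (nbr G a' (nbr G a U)) (linkO ν a' (linkO ν a o))
      (comp2 ν a (er e a' r)) = -aug G (2 * k) (nbr G a (nbr G a' U))
      (linkO ν a (linkO ν a' o)) (comp2 ν a (er e a' r)) := by
    rw [nbr_nbr G a' a]
    funext ρ
    change ∑ σ ∈ fac G (2 * k) (nbr G a' (nbr G a U)), linkO ν a' (linkO ν a o) σ •
      comp2 ν a (er e a' r) ρ σ = -∑ σ ∈ fac G (2 * k) (nbr G a' (nbr G a U)),
      linkO ν a (linkO ν a' o) σ • comp2 ν a (er e a' r) ρ σ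
    rw [← sum_neg_distrib]
    refine sum_congr rfl fun σ hσ => ?_
    rw [linkO_linkO ν hs.inj a a' haa.ne o σ (evenB1_off hσ).1 (evenB1_off hσ).2, neg_smul]
  unfold Rr gam ga
  rw [map_sub, e1, e3, e2, sub_neg_eq_add]

/-- the double chain `Rs` is a resolution of `gam` on the double link -/
theorem isRes_Rs (hs : Sys ν G e ep b (2 * k + 2) U M β ε κ o)
    (hx : IsRes ν G e (2 * k + 2) M U o (k + 1) c x) (hr : IsRt ν G e M U k x r)
    {a a' : V} (ha : a ∈ U) (ha' : a' ∈ U) (haa : G.Adj a a') :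
    IsRes ν G e (2 * k) (Mk e (Mk e M a) a') (nbr G a' (nbr G a U))
      (linkO ν a' (linkO ν a o)) k (gam ν G e k U o r a a') (Rs ν e k r a a') := by
  have hD := evenB1_isD_Rr hs hr ha ha'
  refine ⟨⟨fun ρ σ => ?_, fun ρ σ v hv => ?_, fun ρ σ h => ?_⟩, ?_, ?_⟩
  · exact Submodule.smul_mem _ _ (hD.mem ρ σ)
  · unfold Rs
    rw [map_smul, hD.ker ρ σ v hv, smul_zero]
  · refine hD.supp ρ σ fun h0 => h ?_
    unfold Rs
    rw [h0, smul_zero]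
  · funext ρ σ
    rw [evenB1_d1_Rs, evenB1_d2_Rs, evenB1_closed hs hr ha ha' haa]
    rw [Pi.neg_apply, Pi.neg_apply, show ρ.card + 1 + k = (ρ.card + k) + 1 by ring, pow_succ,
      mul_neg_one, neg_smul_neg]
  · funext ρ
    rw [evenB1_aug_Rs, evenB1_aug hs hr ha ha' haa]
    have hF := isD_aug hD (linkO ν a' (linkO ν a o))
    rw [evenB1_aug hs hr ha ha' haa] at hF
    by_cases h0 : gam ν G e k U o r a a' ρ = 0
    · rw [h0, smul_zero]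
    · rw [(hF.supp ρ h0).2.2, ← two_mul, pow_mul]
      simp

/-- the cycles `gam` -/
theorem bd_gam (hs : Sys ν G e ep b (2 * k + 2) U M β ε κ o)
    (hx : IsRes ν G e (2 * k + 2) M U o (k + 1) c x) (hr : IsRt ν G e M U k x r)
    {a a' : V} (ha : a ∈ U) (ha' : a' ∈ U) (haa : G.Adj a a') :
    IsF G e (Mk e (Mk e M a) a') (nbr G a' (nbr G a U)) k (gam ν G e k U o r a a') ∧
      bd ν (gam ν G e k U o r a a') = 0 := by
  have h := isRes_Rs hs hx hr ha ha' haa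
  have m1 : a' ∈ nbr G a U := mem_nbr.2 ⟨ha', haa⟩
  have hK : IsSphere ν G (2 * k) (nbr G a' (nbr G a U)) (linkO ν a' (linkO ν a o)) :=
    (hs.sphere.link hs.inj ha).link hs.inj m1
  refine ⟨?_, ?_⟩
  · rw [← h.aug_eq]
    exact isD_aug h.isD _
  · rw [← h.aug_eq, ← aug_d1 ν G _ _ _ _ fun ρ σ h1 => (h.isD.supp ρ σ h1).1, h.closed]
    exact aug_d2 ν G _ _ _ hK _ fun ρ σ h1 =>
      ⟨(h.isD.supp ρ σ h1).1, (h.isD.supp ρ σ h1).2.1, (h.isD.supp ρ σ h1).2.2.1⟩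

end Pool.Agent.H85.Fold
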