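import Pool.Agent.H85.Fold.EvenA2
import Pool.Agent.H85.Fold.EvenA3

/-!
# Project FOLD: the even case, the formula for the form
-/

set_option autoImplicit false
set_option linter.unusedSectionVars false

open Finset

namespace Pool.Agent.H85.Fold

variable {V : Type} [DecidableEq V] [Fintype V] {S : Type} [AddCommGroup S] [Module ℝ S]
  {ν : V → ℕ} {G : SimpleGraph V} {e : V → S →ₗ[ℝ] S} {ep : Finset V → S →ₗ[ℝ] S}
  {b : V → V → ℝ} {k : ℕ} {U : Finset V} {M : Submodule ℝ S} {β : S →ₗ[ℝ] S →ₗ[ℝ] ℝ}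
  {ε κ : ℝ} {o : Finset V → ℝ} {τ : Finset V} {c : Finset V → S}
  {x : Finset V → Finset V → S} {r : V → Finset V → Finset V → S}

private theorem comp_ap (v : V) (c : Finset V → S) (σ : Finset V) :
    comp ν v c σ = if v ∈ σ then 0 else sgn ν v σ • c (insert v σ) := rfl

private theorem comp2_ap (v : V) (x : Finset V → Finset V → S) (ρ σ : Finset V) :
    comp2 ν v x ρ σ =
      if v ∈ ρ ∨ v ∈ σ then 0 else (sgn ν v ρ * sgn ν v σ) • x (insert v ρ) (insert v σ) := rfl

private theorem wedge_ap (v : V) (g : Finset V → S) (σ : Finset V) :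
    wedge ν v g σ = if v ∈ σ then sgn ν v σ • g (σ.erase v) else 0 := rfl

private theorem wedge2_ap (v : V) (y : Finset V → Finset V → S) (ρ σ : Finset V) :
    wedge2 ν v y ρ σ =
      if v ∈ ρ ∧ v ∈ σ then (sgn ν v ρ * sgn ν v σ) • y (ρ.erase v) (σ.erase v) else 0 := rfl

private theorem d1_ap (x : Finset V → Finset V → S) (ρ σ : Finset V) :
    d1 ν x ρ σ = ∑ v ∈ σ \ ρ, sgn ν v ρ • x (insert v ρ) σ := rfl

/-- the pairing of a boundary in the first variable, by the components -/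
private theorem pr_d1_comp (X : Finset V → Finset V → S) (c : Finset V → S) :
    pr β (d1 ν X) c = ∑ v : V, pr β (comp2 ν v X) (comp ν v c) := by
  have h1 : pr β (d1 ν X) c = ∑ σ : Finset V, ∑ v ∈ σ, β (X {v} σ) (c σ) := by
    refine sum_congr rfl fun σ _ => ?_
    rw [d1_ap, map_sum, LinearMap.sum_apply, sdiff_empty]
    refine sum_congr rfl fun v _ => ?_
    rw [sgn_empty, one_smul, insert_empty_eq]
  have h2 : ∀ v : V, pr β (comp2 ν v X) (comp ν v c) =
      ∑ σ ∈ univ.filter (fun σ : Finset V => v ∉ σ), β (X {v} (insert v σ)) (c (insert v σ)) := by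
    intro v
    rw [pr, sum_filter]
    refine sum_congr rfl fun σ _ => ?_
    by_cases h : v ∈ σ
    · rw [comp_ap, if_pos h, map_zero, if_neg (fun h' => h' h)]
    · rw [comp_ap, if_neg h, comp2_ap, if_neg (by simp [h]), if_pos h, sgn_empty, one_mul,
        map_smul, map_smul, LinearMap.smul_apply, smul_eq_mul, smul_eq_mul, ← mul_assoc, sgn_sq,
        one_mul, insert_empty_eq]
  rw [h1, sum_congr rfl fun v _ => h2 v, sum_sigma', sum_sigma']
  refine sum_bij' (fun z _ => ⟨z.2, z.1.erase z.2⟩) (fun z _ => ⟨insert z.1 z.2, z.1⟩)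
    ?_ ?_ ?_ ?_ ?_
  · rintro ⟨σ, v⟩ h
    simp
  · rintro ⟨v, σ⟩ h
    simp
  · rintro ⟨σ, v⟩ h
    simp only [mem_sigma, mem_univ, true_and] at h
    simp only [insert_erase h]
  · rintro ⟨v, σ⟩ h
    simp only [mem_sigma, mem_filter, mem_univ, true_and] at h
    simp only [erase_insert h]
  · rintro ⟨σ, v⟩ h
    simp only [mem_sigma, mem_univ, true_and] at h
    simp only [insert_erase h]

/-- the pairing with the boundary of a join -/
private theorem pr_d1_wedge2 (a : V) (Y : Finset V → Finset V → S) (h : Finset V → S) :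
    pr β (d1 ν (wedge2 ν a Y)) h = pr β Y (comp ν a h) := by
  rw [pr_d1_comp, sum_eq_single a]
  · refine sum_congr rfl fun σ _ => ?_
    by_cases hσ : a ∈ σ
    · rw [comp_ap, if_pos hσ, map_zero, map_zero]
    · have h1 : comp2 ν a (wedge2 ν a Y) ∅ σ = Y ∅ σ := by
        rw [comp2_ap, if_neg (by simp [hσ]), wedge2_ap,
          if_pos ⟨mem_insert_self _ _, mem_insert_self _ _⟩,
          erase_insert hσ, erase_insert (notMem_empty a), smul_smul, sgn_insert_self,
          sgn_insert_self, sgn_empty, one_mul, sgn_sq, one_smul]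
      rw [h1]
  · intro v _ hv
    refine sum_eq_zero fun σ _ => ?_
    have h1 : comp2 ν v (wedge2 ν a Y) ∅ σ = 0 := by
      rw [comp2_ap]
      split_ifs with h2
      · rfl
      · rw [wedge2_ap, if_neg, smul_zero]
        intro h'
        have h3 := h'.1
        rw [insert_empty_eq, mem_singleton] at h3
        exact hv h3.symm
    rw [h1, map_zero, LinearMap.zero_apply]
  · intro h
    exact absurd (mem_univ a) h

/-- the component of a join along another vertex -/
private theorem comp2_wedge2 (hν : Function.Injective ν) (a v : V) (hav : a ≠ v)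
    (Y : Finset V → Finset V → S) :
    comp2 ν v (wedge2 ν a Y) = wedge2 ν a (comp2 ν v Y) := by
  funext ρ σ
  rw [comp2_ap, wedge2_ap, wedge2_ap]
  by_cases h1 : v ∈ ρ ∨ v ∈ σ
  · rw [if_pos h1]
    by_cases h2 : a ∈ ρ ∧ a ∈ σ
    · rw [if_pos h2, comp2_ap, if_pos, smul_zero]
      rcases h1 with h1 | h1
      · exact Or.inl (mem_erase.2 ⟨hav.symm, h1⟩)
      · exact Or.inr (mem_erase.2 ⟨hav.symm, h1⟩)
    · rw [if_neg h2]
  · rw [if_neg h1]
    rw [not_or] at h1
    by_cases h2 : a ∈ ρ ∧ a ∈ σ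
    · rw [if_pos ⟨mem_insert_of_mem h2.1, mem_insert_of_mem h2.2⟩, if_pos h2, comp2_ap,
        if_neg (by simp [h1.1, h1.2]), smul_smul, smul_smul, erase_insert_of_ne hav.symm,
        erase_insert_of_ne hav.symm]
      congr 1
      have h3 := sgn_swap_mix ν hν a v hav ρ h2.1 h1.1
      have h4 := sgn_swap_mix ν hν a v hav σ h2.2 h1.2
      linear_combination (sgn ν v σ * sgn ν a (insert v σ)) * h3 -
        (sgn ν a ρ * sgn ν v (ρ.erase a)) * h4
    · rw [if_neg, if_neg h2, smul_zero]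
      rintro ⟨h3, h4⟩
      exact h2 ⟨(mem_insert.1 h3).resolve_left hav, (mem_insert.1 h4).resolve_left hav⟩

/-- the component of a join along its vertex -/
private theorem comp2_wedge2_self (v : V) (Y : Finset V → Finset V → S)
    (hY : ∀ ρ σ, v ∈ ρ ∨ v ∈ σ → Y ρ σ = 0) : comp2 ν v (wedge2 ν v Y) = Y := by
  funext ρ σ
  rw [comp2_ap, wedge2_ap]
  by_cases h1 : v ∈ ρ ∨ v ∈ σ
  · rw [if_pos h1, hY ρ σ h1]
  · rw [if_neg h1]
    rw [not_or] at h1
    rw [if_pos ⟨mem_insert_self _ _, mem_insert_self _ _⟩, erase_insert h1.1, erase_insert h1.2,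
      smul_smul, sgn_insert_self, sgn_insert_self]
    have h2 := sgn_sq ν v ρ
    have h3 := sgn_sq ν v σ
    have h4 : sgn ν v ρ * sgn ν v σ * (sgn ν v ρ * sgn ν v σ) = 1 := by
      linear_combination (sgn ν v σ * sgn ν v σ) * h2 + h3
    rw [h4, one_smul]

private theorem comp2_comp2_self (v : V) (Y : Finset V → Finset V → S)
    (hY : ∀ ρ σ, v ∈ σ → Y ρ σ = 0) : comp2 ν v Y = 0 := by
  funext ρ σ
  rw [comp2_ap]
  split_ifs with h
  · rfl
  · rw [hY _ _ (mem_insert_self v σ), smul_zero]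
    rfl

/-! ### the operator `usum` -/

private theorem usum_ap (y : S) : usum e τ y = ∑ v ∈ τ, e v y := by
  rw [usum, LinearMap.sum_apply]

variable {n : ℕ}

private theorem usum_mem (hs : Sys ν G e ep b n U M β ε κ o) (hτ : τ ⊆ U) {y : S} (hy : y ∈ M) :
    usum e τ y ∈ M := by
  rw [usum_ap]
  exact M.sum_mem fun v hv => hs.stable v (hτ hv) y hy

private theorem usum_comm (hs : Sys ν G e ep b n U M β ε κ o) (hτ : τ ⊆ U) {w : V} (hw : w ∈ U)
    {y : S} (hy : y ∈ M) : e w (usum e τ y) = wt b τ w • y - usum e τ (e w y) := by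
  rw [usum_ap, usum_ap, map_sum, wt, sum_smul, ← sum_sub_distrib]
  refine sum_congr rfl fun v hv => ?_
  rw [← hs.anti v (hτ hv) w hw y hy]
  abel

private theorem usum_adj (hs : Sys ν G e ep b n U M β ε κ o) (hτ : τ ⊆ U) {y z : S} (hy : y ∈ M)
    (hz : z ∈ M) : β (usum e τ y) z = ε * β y (usum e τ z) := by
  rw [usum_ap, usum_ap, map_sum, map_sum, LinearMap.sum_apply, mul_sum]
  exact sum_congr rfl fun v hv => hs.adj v (hτ hv) y hy z hz

private theorem usum_sq (hs : Sys ν G e ep b n U M β ε κ o) (hτ : τ ⊆ U) (hcl : Cl G τ) {y : S}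
    (hy : y ∈ M) : usum e τ (usum e τ y) = 0 := by
  have h1 : usum e τ (usum e τ y) = ∑ v ∈ τ, ∑ w ∈ τ, e v (e w y) := by
    rw [usum_ap (y := usum e τ y)]
    refine sum_congr rfl fun v _ => ?_
    rw [usum_ap, map_sum]
  have h2 : usum e τ (usum e τ y) = ∑ v ∈ τ, ∑ w ∈ τ, e w (e v y) := by
    rw [h1, sum_comm]
  have h3 : (2 : ℝ) • usum e τ (usum e τ y) = 0 := by
    rw [two_smul]
    nth_rewrite 1 [h1]
    rw [h2, ← sum_add_distrib]
    refine sum_eq_zero fun v hv => ?_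
    rw [← sum_add_distrib]
    refine sum_eq_zero fun w hw => ?_
    rw [hs.anti v (hτ hv) w (hτ hw) y hy, hs.b_zero v (hτ hv) w (hτ hw), zero_smul]
    by_cases h : v = w
    · exact Or.inl h
    · exact Or.inr (hcl v hv w hw h)
  have h4 := smul_eq_zero.1 h3
  exact h4.resolve_left two_ne_zero

private theorem lf_lift (hs : Sys ν G e ep b n U M β ε κ o) {w : V} (hw : w ∈ U) {y : S}
    (hy : y ∈ M) (h0 : e w y = 0) : ∃ m ∈ M, e w m = y := by
  obtain ⟨m, hm, _, h⟩ := hs.lift (σ := ∅) (v := w) (notMem_empty w)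
    (by simpa using hw)
    (by
      intro u hu v hv huv
      rw [insert_empty_eq, mem_singleton] at hu hv
      exact absurd (hu.trans hv.symm) huv) hy
    (by
      intro u hu
      rw [insert_empty_eq, mem_singleton] at hu
      rw [hu]
      exact h0)
  exact ⟨m, hm, h⟩

/-- the form `β (u y) z` on the kernel of `e w` -/
private theorem lf_u (hs : Sys ν G e ep b n U M β ε κ o) (hτ : τ ⊆ U)
    {β' : S →ₗ[ℝ] S →ₗ[ℝ] ℝ} {w : V} (hw : w ∈ U) (h1 : IsLF e M w β β') {y z : S}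
    (hy : y ∈ M) (hy0 : e w y = 0) (hz : z ∈ M) (hz0 : e w z = 0) :
    β (usum e τ y) z = wt b τ w * β' y z := by
  obtain ⟨m, hm, rfl⟩ := lf_lift hs hw hy hy0
  have h2 := usum_comm hs hτ hw hm
  have h3 : usum e τ (e w m) = wt b τ w • m - e w (usum e τ m) := by
    rw [h2]
    abel
  rw [h3, map_sub, LinearMap.sub_apply, map_smul, LinearMap.smul_apply, smul_eq_mul,
    hs.adj w hw _ (usum_mem hs hτ hm) z hz, hz0, map_zero, mul_zero, sub_zero, h1 m hm z hz hz0]

/-- the form `β y h` for `y` in the kernel of `e w` -/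
private theorem lf_h (hs : Sys ν G e ep b n U M β ε κ o)
    {β' : S →ₗ[ℝ] S →ₗ[ℝ] ℝ} {w : V} (hw : w ∈ U) (h1 : IsLF e M w β β') {y h : S}
    (hy : y ∈ M) (hy0 : e w y = 0) (hh : h ∈ M) :
    β y h = ε * β' y (e w h) := by
  obtain ⟨m, hm, rfl⟩ := lf_lift hs hw hy hy0
  rw [hs.adj w hw m hm h hh, h1 m hm (e w h) (hs.stable w hw h hh) (hs.sq hw hh)]

/-! ### the pieces -/

/-- the chain `h a` -/
private noncomputable def ha (ν : V → ℕ) (G : SimpleGraph V) (k : ℕ) (U : Finset V)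
    (o : Finset V → ℝ) (r : V → Finset V → Finset V → S) (a : V) : Finset V → S :=
  aug G (2 * k + 1) (nbr G a U) (linkO ν a o) (r a)

private theorem ha_isF (hr : IsRt ν G e M U k x r) {a : V} (h : a ∈ U) :
    IsF G e M (nbr G a U) (k + 1) (ha ν G k U o r a) := isD_aug (hr.isD a h) _

private theorem ga_ap (a : V) (σ : Finset V) :
    ga ν G e k U o r a σ = e a (ha ν G k U o r a σ) :=
  aug_map G (2 * k + 1) (nbr G a U) (linkO ν a o) (e a) (r a) σ

private theorem notMem_nbr (a : V) : a ∉ nbr G a U := by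
  intro h
  exact G.loopless.irrefl a (mem_nbr.1 h).2

private theorem r_off (hr : IsRt ν G e M U k x r) {a : V} (h : a ∈ U) (ρ σ : Finset V)
    (h1 : a ∈ ρ ∨ a ∈ σ) : r a ρ σ = 0 := by
  by_contra hne
  obtain ⟨h2, h3, -, -⟩ := (hr.isD a h).supp ρ σ hne
  rcases h1 with h1 | h1
  · exact notMem_nbr a (h3 (h2 h1))
  · exact notMem_nbr a (h3 h1)

private theorem ha_off (hr : IsRt ν G e M U k x r) {a : V} (h : a ∈ U) (σ : Finset V)
    (h1 : a ∈ σ) : ha ν G k U o r a σ = 0 := by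
  by_contra hne
  obtain ⟨h2, -, -⟩ := (ha_isF (o := o) hr h).supp σ hne
  exact notMem_nbr a (h2 h1)

private theorem cor1_supp (hr : IsRt ν G e M U k x r) (σ : Finset V)
    (hne : cor1 ν G b k U τ o r σ ≠ 0) : σ ⊆ U ∧ Cl G σ := by
  rw [cor1, Finset.sum_apply] at hne
  obtain ⟨a, ha1, h1⟩ := Finset.exists_ne_zero_of_sum_ne_zero hne
  rw [Pi.smul_apply] at h1
  have h2 : wedge ν a (ha ν G k U o r a) σ ≠ 0 := fun h => h1 (by
    change _ • wedge ν a (ha ν G k U o r a) σ = 0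
    rw [h, smul_zero])
  rw [wedge_ap] at h2
  split_ifs at h2 with h3
  · have h4 : ha ν G k U o r a (σ.erase a) ≠ 0 := fun h => h2 (by rw [h, smul_zero])
    obtain ⟨h5, h6, -⟩ := (ha_isF (o := o) hr ha1).supp _ h4
    obtain ⟨-, h7, h8⟩ := (cl_insert_iff (G := G) ha1).2 ⟨h5, h6⟩
    rw [insert_erase h3] at h7 h8
    exact ⟨h7, h8⟩
  · exact absurd rfl h2

private theorem pr_sum_left {ι : Type} (s : Finset ι) (f : ι → Finset V → Finset V → S)
    (c : Finset V → S) : pr β (∑ j ∈ s, f j) c = ∑ j ∈ s, pr β (f j) c := by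
  classical
  induction s using Finset.induction_on with
  | empty => simp [pr]
  | insert a s has ih => rw [sum_insert has, sum_insert has, pr_add_left, ih]

private theorem pr_sum_right {ι : Type} (s : Finset ι) (y : Finset V → Finset V → S)
    (f : ι → Finset V → S) : pr β y (∑ j ∈ s, f j) = ∑ j ∈ s, pr β y (f j) := by
  classical
  induction s using Finset.induction_on with
  | empty => simp [pr]
  | insert a s has ih => rw [sum_insert has, sum_insert has, pr_add_right, ih]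

/-- step 3 -/
private theorem step3 (hs : Sys ν G e ep b (2 * k + 2) U M β ε κ o)
    (hr : IsRt ν G e M U k x r) {X : Finset V → Finset V → S}
    (hX : IsD G e (2 * k + 2) M U (k + 1) X) :
    pr β (d1 ν X) (cor1 ν G b k U τ o r) =
      ∑ v ∈ U, wt b τ v * pr β (comp2 ν v X) (ha ν G k U o r v) := by
  rw [pr_d1_comp, ← sum_subset (subset_univ U)]
  · refine sum_congr rfl fun v hv => ?_
    have h1 : comp ν v (cor1 ν G b k U τ o r) =
        ∑ a ∈ U, wt b τ a • comp ν v (wedge ν a (ha ν G k U o r a)) := by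
      rw [cor1, map_sum]
      refine sum_congr rfl fun a _ => ?_
      rw [map_smul]
      rfl
    rw [h1, pr_sum_right, sum_eq_single v]
    · rw [pr_smul_right, comp_wedge_self ν v _ (fun σ h => ha_off hr hv σ h)]
    · intro a hau hav
      rw [pr_smul_right, comp_wedge ν hs.inj a v hav, pr_neg_right]
      have h2 : pr β (comp2 ν v X) (wedge ν a (comp ν v (ha ν G k U o r a))) = 0 := by
        refine sum_eq_zero fun σ _ => ?_
        have h3 := (isD_comp2 ν v hX).mem ∅ σ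
        rw [wedge_ap]
        split_ifs with h4
        · rw [map_smul, comp_ap]
          split_ifs with h5
          · rw [map_zero, smul_zero]
          · rw [map_smul, hs.orth hv h3.1 ((ha_isF hr hau).mem _) h3.2
              ((ha_isF hr hau).ker _ v (mem_insert_self _ _)), smul_zero, smul_zero]
        · rw [map_zero]
      rw [h2, neg_zero, mul_zero]
    · intro h
      exact absurd hv h
  · intro v _ hv
    refine sum_eq_zero fun σ _ => ?_
    have h1 : comp2 ν v X ∅ σ = 0 := by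
      rw [comp2_ap]
      split_ifs with h
      · rfl
      · have h2 : X (insert v ∅) (insert v σ) = 0 := by
          by_contra hne
          exact hv ((hX.supp _ _ hne).2.1 (mem_insert_self _ _))
        rw [h2, smul_zero]
    rw [h1, map_zero, LinearMap.zero_apply]

private theorem d2_empty (U : Finset V) (X : Finset V → Finset V → S) (hX : ∀ σ, X ∅ σ = 0)
    (σ : Finset V) : d2 ν G U X ∅ σ = 0 := by
  classical
  change (if σ ⊆ U ∧ Cl G σ then ∑ v ∈ σ \ ∅, sgn ν v σ • X ∅ (σ.erase v) else 0) = 0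
  split_ifs
  · exact sum_eq_zero fun v _ => by rw [hX, smul_zero]
  · rfl

private theorem pr_d2_empty (U : Finset V) (X : Finset V → Finset V → S) (hX : ∀ σ, X ∅ σ = 0)
    (c : Finset V → S) : pr β (d2 ν G U X) c = 0 :=
  sum_eq_zero fun σ _ => by rw [d2_empty U X hX, map_zero, LinearMap.zero_apply]

private theorem wedge2_empty (a : V) (Y : Finset V → Finset V → S) (σ : Finset V) :
    wedge2 ν a Y ∅ σ = 0 := by
  rw [wedge2_ap, if_neg]
  intro h
  exact absurd h.1 (notMem_empty a)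

/-- the double chain `(d1 + d2) (r a)` -/
private noncomputable def Yr (ν : V → ℕ) (G : SimpleGraph V) (U : Finset V)
    (r : V → Finset V → Finset V → S) (a : V) : Finset V → Finset V → S :=
  d1 ν (r a) + d2 ν G (nbr G a U) (r a)

/-- step 5, first part -/
private theorem step5a (hs : Sys ν G e ep b (2 * k + 2) U M β ε κ o)
    (hr : IsRt ν G e M U k x r) {v : V} (hv : v ∈ U) (h : Finset V → S) :
    pr β (d1 ν (comp2 ν v (cor2 ν b U τ r)) + d2 ν G (nbr G v U) (comp2 ν v (cor2 ν b U τ r))) h =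
      wt b τ v * pr β (Yr ν G U r v) h +
        ∑ a ∈ U, wt b τ a * pr β (comp2 ν v (r a)) (comp ν a h) := by
  have h1 : comp2 ν v (cor2 ν b U τ r) =
      ∑ a ∈ U, wt b τ a • comp2 ν v (wedge2 ν a (r a)) := by
    rw [cor2, map_sum]
    exact sum_congr rfl fun a _ => map_smul _ _ _
  have h2 : ∀ a ∈ U, pr β (d1 ν (comp2 ν v (wedge2 ν a (r a))) +
      d2 ν G (nbr G v U) (comp2 ν v (wedge2 ν a (r a)))) h =
      (if a = v then pr β (Yr ν G U r v) h else 0) + pr β (comp2 ν v (r a)) (comp ν a h) := by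
    intro a hau
    by_cases hav : a = v
    · subst hav
      have h3 := comp2_comp2_self (ν := ν) a (r a) fun ρ σ h => r_off hr hau ρ σ (Or.inr h)
      have h4 : pr β (0 : Finset V → Finset V → S) (comp ν a h) = 0 :=
        sum_eq_zero fun σ _ => by simp
      rw [comp2_wedge2_self a (r a) (r_off hr hau), if_pos rfl, h3, h4, add_zero, Yr]
    · rw [comp2_wedge2 hs.inj a v hav, if_neg hav, pr_add_left, pr_d1_wedge2,
        pr_d2_empty _ _ (wedge2_empty a _), add_zero, zero_add]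
  rw [h1, map_sum, map_sum, ← sum_add_distrib, pr_sum_left]
  have h3 : ∀ a ∈ U, pr β (d1 ν (wt b τ a • comp2 ν v (wedge2 ν a (r a))) +
      d2 ν G (nbr G v U) (wt b τ a • comp2 ν v (wedge2 ν a (r a)))) h =
      (if a = v then wt b τ v * pr β (Yr ν G U r v) h else 0) +
        wt b τ a * pr β (comp2 ν v (r a)) (comp ν a h) := by
    intro a hau
    rw [map_smul, map_smul, ← smul_add, pr_smul_left, h2 a hau, mul_add]
    congr 1
    split_ifs with h4
    · rw [h4]
    · rw [mul_zero]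
  rw [sum_congr rfl h3, sum_add_distrib, sum_ite_eq' U v, if_pos hv]

private theorem Yr_mem (hs : Sys ν G e ep b (2 * k + 2) U M β ε κ o)
    (hr : IsRt ν G e M U k x r) {v : V} (hv : v ∈ U) (ρ σ : Finset V) :
    Yr ν G U r v ρ σ ∈ M := by
  have h := (isD_d1 ν (hr.isD v hv)).add (isD_d2 ν (hr.isD v hv))
  exact h.mem ρ σ

/-- the form `β (u y) z` -/
private noncomputable def bu (e : V → S →ₗ[ℝ] S) (β : S →ₗ[ℝ] S →ₗ[ℝ] ℝ) (τ : Finset V) :
    S →ₗ[ℝ] S →ₗ[ℝ] ℝ := β.comp (usum e τ)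

private theorem bu_ap (y z : S) : bu e β τ y z = β (usum e τ y) z := rfl

/-- step 6 -/
private theorem step6 (hs : Sys ν G e ep b (2 * k + 2) U M β ε κ o)
    (hr : IsRt ν G e M U k x r) (hτ : τ ⊆ U) {v : V} (hv : v ∈ U) :
    pr β (fun ρ σ => usum e τ (comp2 ν v x ρ σ)) (ha ν G k U o r v) =
      -(wt b τ v * pr β (Yr ν G U r v) (ha ν G k U o r v)) +
        ε * pr (bu e β τ) (Yr ν G U r v) (ga ν G e k U o r v) := by
  have h1 : ∀ ρ σ, comp2 ν v x ρ σ = -e v (Yr ν G U r v ρ σ) := by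
    intro ρ σ
    rw [hr.eq v hv, Yr]
    change -(d1 ν (er e v r) ρ σ + d2 ν G (nbr G v U) (er e v r) ρ σ) =
      -e v (d1 ν (r v) ρ σ + d2 ν G (nbr G v U) (r v) ρ σ)
    rw [map_add, ← d1_map, ← d2_map]
    rfl
  rw [pr, pr, pr, mul_sum, mul_sum, ← sum_neg_distrib, ← sum_add_distrib]
  refine sum_congr rfl fun σ _ => ?_
  have h2 := Yr_mem hs hr hv ∅ σ
  have h3 := usum_comm hs hτ hv h2
  have h4 : usum e τ (comp2 ν v x ∅ σ) =
      e v (usum e τ (Yr ν G U r v ∅ σ)) - wt b τ v • Yr ν G U r v ∅ σ := by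
    rw [h1, map_neg, h3]
    abel
  change β (usum e τ (comp2 ν v x ∅ σ)) _ = _
  rw [h4, map_sub, LinearMap.sub_apply, map_smul, LinearMap.smul_apply, smul_eq_mul,
    hs.adj v hv _ (usum_mem hs hτ h2) _ ((ha_isF hr hv).mem σ), bu_ap, ga_ap]
  ring

/-- steps 4, 5 and 6 -/
private theorem step456 (hs : Sys ν G e ep b (2 * k + 2) U M β ε κ o)
    (hr : IsRt ν G e M U k x r) (hτ : τ ⊆ U) {v : V} (hv : v ∈ U) :
    pr β (comp2 ν v (xt ν G e b U τ x r)) (ha ν G k U o r v) =
      ε * pr (bu e β τ) (Yr ν G U r v) (ga ν G e k U o r v) +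
        ∑ a ∈ U, wt b τ a * pr β (comp2 ν v (r a)) (comp ν a (ha ν G k U o r v)) := by
  have h1 : comp2 ν v (xt ν G e b U τ x r) = (fun ρ σ => usum e τ (comp2 ν v x ρ σ)) +
      (d1 ν (comp2 ν v (cor2 ν b U τ r)) + d2 ν G (nbr G v U) (comp2 ν v (cor2 ν b U τ r))) := by
    rw [xt, map_sub, map_add, comp2_d1 ν hs.inj, comp2_d2 ν hs.inj G U v hv]
    have h2 : comp2 ν v (fun ρ σ => usum e τ (x ρ σ)) =
        fun ρ σ => usum e τ (comp2 ν v x ρ σ) := by
      funext ρ σ
      rw [comp2_ap, comp2_ap]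
      split_ifs
      · rw [map_zero]
      · rw [map_smul]
    rw [h2]
    abel
  rw [h1, pr_add_left, step6 hs hr hτ hv, step5a hs hr hv]
  ring

/-- step 7 -/
private theorem step7 (hs : Sys ν G e ep b (2 * k + 2) U M β ε κ o)
    (hx : IsRes ν G e (2 * k + 2) M U o (k + 1) c x) (hr : IsRt ν G e M U k x r)
    (hτ : τ ⊆ U) (hcl : Cl G τ) (hc : IsF G e M U (k + 1) c) :
    pr β (xt ν G e b U τ x r) (fun ρ => usum e τ (c ρ)) =
      ε * ∑ v ∈ U, wt b τ v * pr (bu e β τ) (d2 ν G (nbr G v U) (r v)) (ga ν G e k U o r v) := by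
  have hA : ∀ σ, cor2 ν b U τ r ∅ σ = 0 := by
    intro σ
    rw [cor2, Finset.sum_apply, Finset.sum_apply]
    refine sum_eq_zero fun a _ => ?_
    rw [Pi.smul_apply, Pi.smul_apply, wedge2_empty, smul_zero]
  have h1 : pr β (fun ρ σ => usum e τ (x ρ σ)) (fun ρ => usum e τ (c ρ)) = 0 := by
    refine sum_eq_zero fun σ _ => ?_
    change β (usum e τ (x ∅ σ)) (usum e τ (c σ)) = 0
    rw [usum_adj hs hτ (hx.isD.mem ∅ σ) (usum_mem hs hτ (hc.mem σ)),
      usum_sq hs hτ hcl (hc.mem σ), map_zero, mul_zero]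
  have h2 : pr β (d1 ν (cor2 ν b U τ r)) (fun ρ => usum e τ (c ρ)) =
      ∑ v ∈ U, wt b τ v * pr β (r v) (fun ρ => usum e τ (comp ν v c ρ)) := by
    have h3 : ∀ v, comp ν v (fun ρ => usum e τ (c ρ)) = fun ρ => usum e τ (comp ν v c ρ) := by
      intro v
      funext ρ
      rw [comp_ap, comp_ap]
      split_ifs
      · rw [map_zero]
      · rw [map_smul]
    rw [pr_d1_comp, ← sum_subset (subset_univ U)]
    · refine sum_congr rfl fun v hv => ?_
      rw [h3, ← pr_smul_left]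
      refine sum_congr rfl fun σ _ => ?_
      have h4 : comp2 ν v (cor2 ν b U τ r) ∅ σ = (wt b τ v • r v) ∅ σ := by
        rw [cor2, map_sum, Finset.sum_apply, Finset.sum_apply, sum_eq_single v]
        · rw [map_smul, comp2_wedge2_self v (r v) (r_off hr hv)]
        · intro a _ hav
          rw [map_smul, comp2_wedge2 hs.inj a v hav, Pi.smul_apply, Pi.smul_apply,
            wedge2_empty, smul_zero]
        · intro h
          exact absurd hv h
      rw [h4]
    · intro v _ hv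
      refine sum_eq_zero fun σ _ => ?_
      have h4 : comp ν v c σ = 0 := by
        rw [comp_ap]
        split_ifs with h
        · rfl
        · have h5 : c (insert v σ) = 0 := by
            by_contra hne
            exact hv ((hc.supp _ hne).1 (mem_insert_self _ _))
          rw [h5, smul_zero]
      rw [h3]
      change β (comp2 ν v (cor2 ν b U τ r) ∅ σ) (usum e τ (comp ν v c σ)) = 0
      rw [h4, map_zero, map_zero]
  rw [xt, pr_sub_left, h1, pr_add_left, h2, pr_d2_empty _ _ hA, add_zero, zero_sub,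
    ← sum_neg_distrib, mul_sum]
  refine sum_congr rfl fun v hv => ?_
  obtain ⟨h5, h6⟩ := isF_ga hs hx hr hv
  have h7 : pr β (r v) (fun ρ => usum e τ (comp ν v c ρ)) =
      -(ε * pr (bu e β τ) (r v) (bd ν (ga ν G e k U o r v))) := by
    rw [h6, pr, pr, mul_sum, ← sum_neg_distrib]
    refine sum_congr rfl fun σ _ => ?_
    change β (r v ∅ σ) (usum e τ (comp ν v c σ)) =
      -(ε * bu e β τ (r v ∅ σ) (-(comp ν v c σ)))
    have h8 : comp ν v c σ ∈ M := ((isF_comp ν v hc).mem σ).1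
    rw [bu_ap, map_neg, usum_adj hs hτ ((hr.isD v hv).mem _ _) h8]
    linear_combination -(β (r v ∅ σ) (usum e τ (comp ν v c σ))) * hs.ε_sq
  have h9 : pr (bu e β τ) (r v) (bd ν (ga ν G e k U o r v)) =
      pr (bu e β τ) (d2 ν G (nbr G v U) (r v)) (ga ν G e k U o r v) :=
    pr_bd_right (hr.isD v hv) fun σ h => ⟨(h5.supp σ h).1, (h5.supp σ h).2.1⟩
  rw [h7, h9]
  ring

/-- step 9 -/
private theorem step9 (hs : Sys ν G e ep b (2 * k + 2) U M β ε κ o)
    (hx : IsRes ν G e (2 * k + 2) M U o (k + 1) c x) (hr : IsRt ν G e M U k x r)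
    (hτ : τ ⊆ U) {β₁ : V → S →ₗ[ℝ] S →ₗ[ℝ] ℝ} (h₁ : ∀ a ∈ U, IsLF e M a β (β₁ a)) {v : V}
    (hv : v ∈ U) :
    pr (bu e β τ) (d1 ν (r v)) (ga ν G e k U o r v) =
      ∑ w ∈ U, wt b τ w * pr (β₁ w) (comp2 ν w (r v)) (comp ν w (ga ν G e k U o r v)) := by
  rw [pr_d1_comp, ← sum_subset (subset_univ U)]
  · refine sum_congr rfl fun w hw => ?_
    rw [pr, pr, mul_sum]
    refine sum_congr rfl fun σ _ => ?_
    have h1 := (isD_comp2 ν w (hr.isD v hv)).mem ∅ σ
    have h2 := (isF_comp ν w (isF_ga hs hx hr hv).1).mem σ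
    rw [bu_ap]
    exact lf_u hs hτ hw (h₁ w hw) h1.1 h1.2 h2.1.1 h2.2
  · intro w _ hw
    refine sum_eq_zero fun σ _ => ?_
    have h1 : comp2 ν w (r v) ∅ σ = 0 := by
      rw [comp2_ap]
      split_ifs with h
      · rfl
      · have h2 : r v (insert w ∅) (insert w σ) = 0 := by
          by_contra hne
          exact hw (nbr_subset G v U (((hr.isD v hv).supp _ _ hne).2.1 (mem_insert_self _ _)))
        rw [h2, smul_zero]
    rw [h1, map_zero, LinearMap.zero_apply]

/-- step 10 -/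
private theorem step10 (hs : Sys ν G e ep b (2 * k + 2) U M β ε κ o)
    (hr : IsRt ν G e M U k x r)
    {β₁ : V → S →ₗ[ℝ] S →ₗ[ℝ] ℝ} (h₁ : ∀ a ∈ U, IsLF e M a β (β₁ a)) {v a : V}
    (hv : v ∈ U) (hau : a ∈ U) :
    pr β (comp2 ν v (r a)) (comp ν a (ha ν G k U o r v)) =
      ε * pr (β₁ v) (comp2 ν v (r a)) (comp ν a (ga ν G e k U o r v)) := by
  rw [pr, pr, mul_sum]
  refine sum_congr rfl fun σ _ => ?_
  have h1 := (isD_comp2 ν v (hr.isD a hau)).mem ∅ σ
  have h2 := (isF_comp ν a (ha_isF (o := o) hr hv)).mem σ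
  rw [lf_h hs hv (h₁ v hv) h1.1 h1.2 h2.1]
  congr 2
  rw [comp_ap, comp_ap]
  split_ifs
  · rw [map_zero]
  · rw [map_smul, ga_ap]

/-- **The formula, first form.** The sum is over the ordered pairs of adjacent vertices. -/
theorem formula_ordered (hs : Sys ν G e ep b (2 * k + 2) U M β ε κ o)
    (hx : IsRes ν G e (2 * k + 2) M U o (k + 1) c x) (hr : IsRt ν G e M U k x r)
    (hτ : τ ⊆ U) (hcl : Cl G τ) (hc : IsF G e M U (k + 1) c) (hbd : bd ν c = 0)
    (β₁ : V → S →ₗ[ℝ] S →ₗ[ℝ] ℝ) (h₁ : ∀ a ∈ U, IsLF e M a β (β₁ a)) :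
    pr β (xt ν G e b U τ x r) (ct ν G e b k U τ o c r) =
      -ε * ∑ a ∈ U, ∑ a' ∈ nbr G a U, wt b τ a * wt b τ a' *
        pr (β₁ a') (comp2 ν a' (r a)) (gam ν G e k U o r a a') := by
  have hX := isRes_xt (b := b) hs hx hr hτ
  have h1 : pr β (xt ν G e b U τ x r) (bd ν (cor1 ν G b k U τ o r)) =
      ∑ v ∈ U, wt b τ v * pr β (comp2 ν v (xt ν G e b U τ x r)) (ha ν G k U o r v) := by
    rw [pr_bd_right hX.isD (cor1_supp hr), ← hX.closed, step3 hs hr hX.isD]
  rw [ct, pr_sub_right, h1, step7 hs hx hr hτ hcl hc]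
  have h2 : ∀ v ∈ U, wt b τ v * pr β (comp2 ν v (xt ν G e b U τ x r)) (ha ν G k U o r v) =
      ε * (wt b τ v *
        pr (bu e β τ) (d2 ν G (nbr G v U) (r v)) (ga ν G e k U o r v)) +
      (ε * ∑ w ∈ U, wt b τ v * wt b τ w *
        pr (β₁ w) (comp2 ν w (r v)) (comp ν w (ga ν G e k U o r v)) +
      ε * ∑ a ∈ U, wt b τ v * wt b τ a *
        pr (β₁ v) (comp2 ν v (r a)) (comp ν a (ga ν G e k U o r v))) := by
    intro v hv
    rw [step456 hs hr hτ hv, Yr, pr_add_left, step9 hs hx hr hτ h₁ hv]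
    have h3 : ∀ a ∈ U, wt b τ a * pr β (comp2 ν v (r a)) (comp ν a (ha ν G k U o r v)) =
        ε * (wt b τ a * pr (β₁ v) (comp2 ν v (r a)) (comp ν a (ga ν G e k U o r v))) := by
      intro a hau
      rw [step10 hs hr h₁ hv hau]
      ring
    rw [sum_congr rfl h3, ← mul_sum]
    have h4 : ∀ f : V → ℝ, ∑ w ∈ U, wt b τ v * wt b τ w * f w =
        wt b τ v * ∑ w ∈ U, wt b τ w * f w := by
      intro f
      rw [mul_sum]
      exact sum_congr rfl fun w _ => by ring
    rw [h4, h4]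
    ring
  rw [sum_congr rfl h2, sum_add_distrib, ← mul_sum, sum_add_distrib, ← mul_sum, ← mul_sum]
  have h5 : ∑ v ∈ U, ∑ a ∈ U, wt b τ v * wt b τ a *
        pr (β₁ v) (comp2 ν v (r a)) (comp ν a (ga ν G e k U o r v)) =
      ∑ a ∈ U, ∑ a' ∈ U, wt b τ a * wt b τ a' *
        pr (β₁ a') (comp2 ν a' (r a)) (comp ν a (ga ν G e k U o r a')) := by
    rw [sum_comm]
    refine sum_congr rfl fun a _ => sum_congr rfl fun a' _ => ?_
    ring
  have h6 : ∀ a ∈ U, ∑ a' ∈ nbr G a U, wt b τ a * wt b τ a' *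
        pr (β₁ a') (comp2 ν a' (r a)) (gam ν G e k U o r a a') =
      ∑ a' ∈ U, wt b τ a * wt b τ a' *
        pr (β₁ a') (comp2 ν a' (r a)) (gam ν G e k U o r a a') := by
    intro a hau
    refine sum_subset (nbr_subset G a U) fun a' _ h => ?_
    have h7 : pr (β₁ a') (comp2 ν a' (r a)) (gam ν G e k U o r a a') = 0 := by
      refine sum_eq_zero fun σ _ => ?_
      have h8 : comp2 ν a' (r a) ∅ σ = 0 := by
        rw [comp2_ap]
        split_ifs with h9
        · rfl
        · have h10 : r a (insert a' ∅) (insert a' σ) = 0 := by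
            by_contra hne
            exact h (((hr.isD a hau).supp _ _ hne).2.1 (mem_insert_self _ _))
          rw [h10, smul_zero]
      rw [h8, map_zero, LinearMap.zero_apply]
    rw [h7, mul_zero]
  rw [h5, sum_congr rfl h6]
  have h7 : ∑ a ∈ U, ∑ a' ∈ U, wt b τ a * wt b τ a' *
        pr (β₁ a') (comp2 ν a' (r a)) (gam ν G e k U o r a a') =
      ∑ a ∈ U, ∑ a' ∈ U, wt b τ a * wt b τ a' *
        pr (β₁ a') (comp2 ν a' (r a)) (comp ν a' (ga ν G e k U o r a)) +
      ∑ a ∈ U, ∑ a' ∈ U, wt b τ a * wt b τ a' *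
        pr (β₁ a') (comp2 ν a' (r a)) (comp ν a (ga ν G e k U o r a')) := by
    rw [← sum_add_distrib]
    refine sum_congr rfl fun a _ => ?_
    rw [← sum_add_distrib]
    refine sum_congr rfl fun a' _ => ?_
    rw [gam, pr_add_right]
    ring
  rw [h7]
  ring

end Pool.Agent.H85.Fold
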