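import Pool.Agent.H85.Fold.EvenB2
import Pool.Agent.H85.Fold.EvenB1

/-!
# Project FOLD: the even case, the formula for the form
-/

set_option autoImplicit false

open Finset

namespace Pool.Agent.H85.Fold

variable {V : Type} [DecidableEq V] [Fintype V] {S : Type} [AddCommGroup S] [Module ℝ S]
  {ν : V → ℕ} {G : SimpleGraph V} {e : V → S →ₗ[ℝ] S} {ep : Finset V → S →ₗ[ℝ] S}
  {b : V → V → ℝ} {k : ℕ} {U : Finset V} {M : Submodule ℝ S} {β : S →ₗ[ℝ] S →ₗ[ℝ] ℝ}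
  {ε κ : ℝ} {o : Finset V → ℝ} {τ : Finset V} {c : Finset V → S}
  {x : Finset V → Finset V → S} {r : V → Finset V → Finset V → S}

private theorem formula_step (hs : Sys ν G e ep b (2 * k + 2) U M β ε κ o)
    (hx : IsRes ν G e (2 * k + 2) M U o (k + 1) c x) (hr : IsRt ν G e M U k x r)
    (β₁ : V → S →ₗ[ℝ] S →ₗ[ℝ] ℝ) (h₁ : ∀ a ∈ U, IsLF e M a β (β₁ a))
    (β₂ : V → V → S →ₗ[ℝ] S →ₗ[ℝ] ℝ)
    (h₂ : ∀ a ∈ U, ∀ a' ∈ nbr G a U, IsLF e (Mk e M a) a' (β₁ a) (β₂ a a'))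
    {a a' : V} (ha : a ∈ U) (ha' : a' ∈ U) (haa : G.Adj a a') :
    pr (β₁ a') (comp2 ν a' (r a)) (gam ν G e k U o r a a') =
      - pr (β₂ a a') (comp2 ν a' (er e a r)) (gam ν G e k U o r a a') := by
  obtain ⟨hg, -⟩ := bd_gam hs hx hr ha ha' haa
  rw [pr, pr, ← Finset.sum_neg_distrib]
  refine Finset.sum_congr rfl fun σ _ => ?_
  have hgσ : gam ν G e k U o r a a' σ ∈ Mk e (Mk e M a) a' := hg.mem σ
  obtain ⟨⟨hg1, hg2⟩, hg3⟩ := hgσ
  have hg2' : e a (gam ν G e k U o r a a' σ) = 0 := hg2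
  have hg3' : e a' (gam ν G e k U o r a a' σ) = 0 := hg3
  have hD := hr.isD a ha
  have hy1 : comp2 ν a' (r a) ∅ σ ∈ M := by
    change (if a' ∈ (∅ : Finset V) ∨ a' ∈ σ then 0 else
      (sgn ν a' ∅ * sgn ν a' σ) • r a (insert a' ∅) (insert a' σ)) ∈ M
    split_ifs
    · exact M.zero_mem
    · exact M.smul_mem _ (hD.mem _ _)
  have hy2 : e a' (comp2 ν a' (r a) ∅ σ) = 0 := by
    change e a' (if a' ∈ (∅ : Finset V) ∨ a' ∈ σ then 0 else
      (sgn ν a' ∅ * sgn ν a' σ) • r a (insert a' ∅) (insert a' σ)) = 0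
    split_ifs
    · exact map_zero _
    · rw [map_smul, hD.ker _ _ a' (Finset.mem_insert_self _ _), smul_zero]
  have hy3 : e a (comp2 ν a' (r a) ∅ σ) = comp2 ν a' (er e a r) ∅ σ := by
    change e a (if a' ∈ (∅ : Finset V) ∨ a' ∈ σ then 0 else
      (sgn ν a' ∅ * sgn ν a' σ) • r a (insert a' ∅) (insert a' σ)) =
      (if a' ∈ (∅ : Finset V) ∨ a' ∈ σ then 0 else
      (sgn ν a' ∅ * sgn ν a' σ) • e a (r a (insert a' ∅) (insert a' σ)))
    split_ifs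
    · exact map_zero _
    · rw [map_smul]
  have han : a ∈ nbr G a' U := mem_nbr.2 ⟨ha, haa.symm⟩
  have han' : a' ∈ nbr G a U := mem_nbr.2 ⟨ha', haa⟩
  have e1 : β₂ a' a (e a (comp2 ν a' (r a) ∅ σ)) (gam ν G e k U o r a a' σ) =
      β₁ a' (comp2 ν a' (r a) ∅ σ) (gam ν G e k U o r a a' σ) :=
    h₂ a' ha' a han _ ⟨hy1, hy2⟩ _ ⟨hg1, hg3'⟩ hg2'
  rw [← e1, hy3]
  have hz : comp2 ν a' (er e a r) ∅ σ ∈ Mk e (Mk e M a) a' := by
    rw [← hy3]
    refine ⟨⟨hs.stable a ha _ hy1, ?_⟩, ?_⟩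
    · exact hs.sq ha hy1
    · change e a' (e a _) = 0
      rw [hs.anticomm ha' ha (Or.inr haa.symm) hy1, hy2, map_zero, neg_zero]
  rw [hs.lf_swap ha ha' haa (h₁ a ha) (h₁ a' ha') (h₂ a ha a' han') (h₂ a' ha' a han) hz
    ⟨⟨hg1, hg2⟩, hg3⟩, neg_neg]

private theorem nbr_sum_comm (f : V → V → ℝ) :
    ∑ a ∈ U, ∑ a' ∈ nbr G a U, f a a' = ∑ a ∈ U, ∑ a' ∈ nbr G a U, f a' a := by
  apply Finset.sum_comm'
  intro a a'
  rw [mem_nbr, mem_nbr]
  constructor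
  · rintro ⟨h1, h2, h3⟩
    exact ⟨⟨h1, h3.symm⟩, h2⟩
  · rintro ⟨⟨h1, h3⟩, h2⟩
    exact ⟨h1, h2, h3.symm⟩

private theorem pr_Rs (β' : S →ₗ[ℝ] S →ₗ[ℝ] ℝ) (a a' : V) (g : Finset V → S) :
    pr β' (Rs ν e k r a a') g = (-1) ^ k * pr β' (Rr ν e r a a') g := by
  rw [pr, pr, Finset.mul_sum]
  refine Finset.sum_congr rfl fun σ _ => ?_
  rw [Rs, Finset.card_empty, zero_add, map_smul, LinearMap.smul_apply, smul_eq_mul]

/-- **The formula.** -/
theorem formula (hs : Sys ν G e ep b (2 * k + 2) U M β ε κ o)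
    (hx : IsRes ν G e (2 * k + 2) M U o (k + 1) c x) (hr : IsRt ν G e M U k x r)
    (hτ : τ ⊆ U) (hcl : Cl G τ) (hc : IsF G e M U (k + 1) c) (hbd : bd ν c = 0)
    (β₁ : V → S →ₗ[ℝ] S →ₗ[ℝ] ℝ) (h₁ : ∀ a ∈ U, IsLF e M a β (β₁ a))
    (β₂ : V → V → S →ₗ[ℝ] S →ₗ[ℝ] ℝ)
    (h₂ : ∀ a ∈ U, ∀ a' ∈ nbr G a U, IsLF e (Mk e M a) a' (β₁ a) (β₂ a a')) :
    pr β (xt ν G e b U τ x r) (ct ν G e b k U τ o c r) =
      ε * (-1) ^ k / 2 * ∑ a ∈ U, ∑ a' ∈ nbr G a U, wt b τ a * wt b τ a' *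
        pr (β₂ a a') (Rs ν e k r a a') (gam ν G e k U o r a a') := by
  rw [formula_ordered hs hx hr hτ hcl hc hbd β₁ h₁]
  have hk : ((-1 : ℝ) ^ k) * (-1) ^ k = 1 := by
    rw [← mul_pow]
    norm_num
  have hsym : ∀ a a', gam ν G e k U o r a' a = gam ν G e k U o r a a' := fun a a' =>
    add_comm _ _
  set F : V → V → ℝ := fun a a' => wt b τ a * wt b τ a' *
    pr (β₁ a') (comp2 ν a' (r a)) (gam ν G e k U o r a a') with hF
  have h1 : ∑ a ∈ U, ∑ a' ∈ nbr G a U, (F a a' + F a' a) = - ((-1) ^ k *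
      ∑ a ∈ U, ∑ a' ∈ nbr G a U, wt b τ a * wt b τ a' *
        pr (β₂ a a') (Rs ν e k r a a') (gam ν G e k U o r a a')) := by
    rw [Finset.mul_sum, ← Finset.sum_neg_distrib]
    refine Finset.sum_congr rfl fun a ha => ?_
    rw [Finset.mul_sum, ← Finset.sum_neg_distrib]
    refine Finset.sum_congr rfl fun a' ha' => ?_
    obtain ⟨ha', haa⟩ := mem_nbr.1 ha'
    have han : a ∈ nbr G a' U := mem_nbr.2 ⟨ha, haa.symm⟩
    have e1 := formula_step hs hx hr β₁ h₁ β₂ h₂ ha ha' haa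
    -- the other order
    have e2 : pr (β₁ a) (comp2 ν a (r a')) (gam ν G e k U o r a' a) =
        pr (β₂ a a') (comp2 ν a (er e a' r)) (gam ν G e k U o r a a') := by
      obtain ⟨hg, -⟩ := bd_gam hs hx hr ha ha' haa
      rw [hsym, pr, pr]
      refine Finset.sum_congr rfl fun σ _ => ?_
      have hgσ : gam ν G e k U o r a a' σ ∈ Mk e (Mk e M a) a' := hg.mem σ
      obtain ⟨⟨hg1, hg2⟩, hg3⟩ := hgσ
      have hD := hr.isD a' ha'
      have hy1 : comp2 ν a (r a') ∅ σ ∈ M := by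
        change (if a ∈ (∅ : Finset V) ∨ a ∈ σ then 0 else
          (sgn ν a ∅ * sgn ν a σ) • r a' (insert a ∅) (insert a σ)) ∈ M
        split_ifs
        · exact M.zero_mem
        · exact M.smul_mem _ (hD.mem _ _)
      have hy2 : e a (comp2 ν a (r a') ∅ σ) = 0 := by
        change e a (if a ∈ (∅ : Finset V) ∨ a ∈ σ then 0 else
          (sgn ν a ∅ * sgn ν a σ) • r a' (insert a ∅) (insert a σ)) = 0
        split_ifs
        · exact map_zero _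
        · rw [map_smul, hD.ker _ _ a (Finset.mem_insert_self _ _), smul_zero]
      have hy3 : e a' (comp2 ν a (r a') ∅ σ) = comp2 ν a (er e a' r) ∅ σ := by
        change e a' (if a ∈ (∅ : Finset V) ∨ a ∈ σ then 0 else
          (sgn ν a ∅ * sgn ν a σ) • r a' (insert a ∅) (insert a σ)) =
          (if a ∈ (∅ : Finset V) ∨ a ∈ σ then 0 else
          (sgn ν a ∅ * sgn ν a σ) • e a' (r a' (insert a ∅) (insert a σ)))
        split_ifs
        · exact map_zero _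
        · rw [map_smul]
      rw [← hy3]
      exact (h₂ a ha a' (mem_nbr.2 ⟨ha', haa⟩) _ ⟨hy1, hy2⟩ _ ⟨hg1, hg2⟩ hg3).symm
    have e3 : pr (β₂ a a') (Rr ν e r a a') (gam ν G e k U o r a a') =
        pr (β₂ a a') (comp2 ν a' (er e a r)) (gam ν G e k U o r a a') -
        pr (β₂ a a') (comp2 ν a (er e a' r)) (gam ν G e k U o r a a') := by
      rw [Rr, pr_sub_left]
    rw [hF]
    change wt b τ a * wt b τ a' * pr (β₁ a') (comp2 ν a' (r a)) (gam ν G e k U o r a a') +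
      wt b τ a' * wt b τ a * pr (β₁ a) (comp2 ν a (r a')) (gam ν G e k U o r a' a) = _
    rw [e1, e2, pr_Rs, e3]
    linear_combination (wt b τ a * wt b τ a' *
      (pr (β₂ a a') (comp2 ν a' (er e a r)) (gam ν G e k U o r a a') -
        pr (β₂ a a') (comp2 ν a (er e a' r)) (gam ν G e k U o r a a'))) * hk
  have h2 : ∑ a ∈ U, ∑ a' ∈ nbr G a U, (F a a' + F a' a) =
      2 * ∑ a ∈ U, ∑ a' ∈ nbr G a U, F a a' := by
    have h3 := nbr_sum_comm (U := U) (G := G) F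
    have h4 : ∑ a ∈ U, ∑ a' ∈ nbr G a U, (F a a' + F a' a) =
        ∑ a ∈ U, ∑ a' ∈ nbr G a U, F a a' + ∑ a ∈ U, ∑ a' ∈ nbr G a U, F a' a := by
      rw [← Finset.sum_add_distrib]
      exact Finset.sum_congr rfl fun a _ => Finset.sum_add_distrib
    rw [h4, ← h3, two_mul]
  rw [h2] at h1
  change -ε * ∑ a ∈ U, ∑ a' ∈ nbr G a U, F a a' = _
  linear_combination (-ε / 2) * h1

end Pool.Agent.H85.Fold
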