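import Pool.Agent.H85.Fold.Pk

/-!
# Project FOLD: pushing cycles off sets in even complexes
-/

set_option autoImplicit false

open Finset

namespace Pool.Agent.H85.Fold

variable {V : Type} [DecidableEq V] [Fintype V] {S : Type} [AddCommGroup S] [Module ℝ S]
  {ν : V → ℕ} {G : SimpleGraph V} {e : V → S →ₗ[ℝ] S} {ep : Finset V → S →ₗ[ℝ] S}
  {b : V → V → ℝ} {n : ℕ} {U : Finset V} {M : Submodule ℝ S} {β : S →ₗ[ℝ] S →ₗ[ℝ] ℝ}
  {ε κ : ℝ} {o : Finset V → ℝ}

/-- the middle degree of the links of even complexes -/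
theorem push_even {k : ℕ} (hs : Sys ν G e ep b (2 * k + 2) U M β ε κ o)
    (hP : ∀ m, m ≤ 2 * k + 1 → Pk ν G e ep b m) {B : Finset V} (hB : B ⊆ U)
    {c : Finset V → S} (hc : IsF G e M U (k + 1) c) (hbd : bd ν c = 0)
    (g : V → Finset V → S)
    (hg : ∀ a ∈ B, IsF G e (Mk e M a) (nbr G a U) (k + 1) (g a) ∧ bd ν (g a) = -comp ν a c)
    (hγ : ∀ a ∈ B, ∀ a' ∈ B, G.Adj a a' → ∃ f,
      IsF G e (Mk e (Mk e M a) a') (nbr G a' (nbr G a U)) (k + 1) f ∧
        bd ν f = comp ν a' (g a) + comp ν a (g a')) :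
    ∃ y, IsF G e M U (k + 2) y ∧ IsF G e M (U \ B) (k + 1) (c - bd ν y) := by
  have hν := hs.inj
  have hs' : Sys ν G e ep b ((2 * k + 1) + 1) U M β ε κ o := hs
  induction B using Finset.induction_on with
  | empty =>
    exact ⟨0, IsF.zero, by simpa using hc⟩
  | insert a B' haB' ih =>
    have haU : a ∈ U := hB (Finset.mem_insert_self a B')
    have hB'U : B' ⊆ U := fun x hx => hB (Finset.mem_insert_of_mem hx)
    obtain ⟨y', hy', hc'⟩ := ih hB'U (fun x hx => hg x (Finset.mem_insert_of_mem hx))
      (fun x hx x' hx' => hγ x (Finset.mem_insert_of_mem hx) x' (Finset.mem_insert_of_mem hx'))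
    obtain ⟨hga, hgb⟩ := hg a (Finset.mem_insert_self a B')
    set c' : Finset V → S := c - bd ν y' with hc'def
    -- the chain in the link of `a`
    have hG : IsF G e (Mk e M a) (nbr G a U) (k + 1) (g a - comp ν a y') :=
      hga.sub (isF_comp ν a hy')
    have hcb : ∀ v, bd ν (comp ν v y') = -comp ν v (bd ν y') := by
      intro v
      rw [comp_bd ν hν v y', neg_neg]
    have hGb : bd ν (g a - comp ν a y') = -comp ν a c' := by
      rw [map_sub, hgb, hcb a, hc'def, map_sub]
      abel
    have hoff : ∀ v ∈ B', comp ν v c' = 0 := by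
      intro v hv
      funext σ
      show (if v ∈ σ then (0 : S) else sgn ν v σ • c' (insert v σ)) = 0
      by_cases h : v ∈ σ
      · simp [h]
      · rw [if_neg h]
        have h0 : c' (insert v σ) = 0 := by
          by_contra h1
          have h2 := (hc'.supp _ h1).1 (Finset.mem_insert_self v σ)
          exact (Finset.mem_sdiff.mp h2).2 hv
        rw [h0, smul_zero]
    have hsupp : ∀ σ, bd ν (g a - comp ν a y') σ ≠ 0 → Disjoint σ B' := by
      intro σ hσ
      rw [hGb] at hσ
      have h1 : c' (insert a σ) ≠ 0 := by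
        intro h0
        apply hσ
        show -(if a ∈ σ then (0 : S) else sgn ν a σ • c' (insert a σ)) = 0
        by_cases h : a ∈ σ
        · simp [h]
        · rw [if_neg h, h0, smul_zero, neg_zero]
      have h2 := (hc'.supp _ h1).1
      rw [Finset.disjoint_left]
      intro x hx hxB
      exact (Finset.mem_sdiff.mp (h2 (Finset.mem_insert_of_mem hx))).2 hxB
    -- components
    have hcomp : ∀ v ∈ B', v ∈ nbr G a U → ∃ f,
        IsF G e (Mk e (Mk e M a) v) (nbr G v (nbr G a U)) (k + 1) f ∧
          bd ν f = comp ν v (g a - comp ν a y') := by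
      intro v hv hva
      obtain ⟨hvU, hadj⟩ := mem_nbr.mp hva
      obtain ⟨hgv, hgvb⟩ := hg v (Finset.mem_insert_of_mem hv)
      obtain ⟨f0, hf0, hf0b⟩ := hγ a (Finset.mem_insert_self a B') v (Finset.mem_insert_of_mem hv)
        hadj
      have hh : IsF G e (Mk e M v) (nbr G v U) (k + 1) (g v - comp ν v y') :=
        hgv.sub (isF_comp ν v hy')
      have hhb : bd ν (g v - comp ν v y') = 0 := by
        have h1 : bd ν (g v - comp ν v y') = -comp ν v c' := by
          rw [map_sub, hgvb, hcb v, hc'def, map_sub]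
          abel
        rw [h1, hoff v hv, neg_zero]
      obtain ⟨βv, hβv⟩ := hs'.exists_lf hvU
      have hsv := hs'.link hvU hβv
      have hHV : HV ν G e (Mk e M v) (nbr G v U) (k + 1) :=
        (hP (2 * k + 1) le_rfl _ _ _ _ _ _ hsv).2.1 (k + 1) (by omega)
      obtain ⟨f', hf', hf'b⟩ := hHV _ hh hhb
      have hne : v ≠ a := fun h => haB' (h ▸ hv)
      refine ⟨f0 + comp ν a f', ?_, ?_⟩
      · refine hf0.add ?_
        have h1 := isF_comp ν a hf'
        have h2 : Mk e (Mk e M v) a = Mk e (Mk e M a) v := by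
          unfold Mk
          exact inf_right_comm _ _ _
        rw [h2, nbr_nbr G v a U] at h1
        exact h1
      · have h1 : comp ν a (g v - comp ν v y') = -bd ν (comp ν a f') := by
          rw [← hf'b, comp_bd ν hν a f']
        have h2 : comp ν v (comp ν a y') = -comp ν a (comp ν v y') := comp_comp ν hν v a hne y'
        have h3 : bd ν (comp ν a f') = -(comp ν a (g v) - comp ν a (comp ν v y')) := by
          rw [← map_sub, h1, neg_neg]
        rw [map_add, hf0b, h3, map_sub, h2]
        abel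
    obtain ⟨βa, hβa⟩ := hs'.exists_lf haU
    have hsa := hs'.link haU hβa
    obtain ⟨g', hg', hg'b⟩ := avoid hsa hP hG hsupp hcomp
    have hnb : nbr G a U \ B' = nbr G a (U \ B') := by
      ext x
      simp only [Finset.mem_sdiff, mem_nbr]
      tauto
    rw [hnb] at hg'
    have haY : a ∈ U \ B' := Finset.mem_sdiff.mpr ⟨haU, haB'⟩
    have hgc : bd ν (-g') = comp ν a c' := by
      rw [map_neg, hg'b, hGb, neg_neg]
    obtain ⟨y'', hy'', hcy⟩ := push_off hν haY hc' hg'.neg hgc
    refine ⟨y' - y'', hy'.sub (hy''.mono Finset.sdiff_subset), ?_⟩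
    have h1 : c - bd ν (y' - y'') = c' + bd ν y'' := by
      rw [map_sub, hc'def]
      abel
    have h2 : (U \ B').erase a = U \ insert a B' := by
      ext x
      simp only [Finset.mem_erase, Finset.mem_sdiff, Finset.mem_insert]
      tauto
    rw [h1, ← h2]
    exact hcy

end Pool.Agent.H85.Fold
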