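import Pool.Agent.H85.Fold.EvenB1
import Pool.Agent.H85.Fold.EvenB3
import Pool.Agent.H85.Fold.PkB
import Pool.Agent.H85.Fold.Flux

/-!
# Project FOLD: the form on the middle homology of an even complex is definite
-/

set_option autoImplicit false

open Finset

namespace Pool.Agent.H85.Fold

variable {V : Type} [DecidableEq V] [Fintype V] {S : Type} [AddCommGroup S] [Module ℝ S]
  {ν : V → ℕ} {G : SimpleGraph V} {e : V → S →ₗ[ℝ] S} {ep : Finset V → S →ₗ[ℝ] S}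
  {b : V → V → ℝ} {k : ℕ} {U : Finset V} {M : Submodule ℝ S} {β : S →ₗ[ℝ] S →ₗ[ℝ] ℝ}
  {ε κ : ℝ} {o : Finset V → ℝ}

private theorem evenC_sgk_sq {ε : ℝ} (hε : ε * ε = 1) (k : ℕ) :
    ∀ κ : ℝ, κ * κ = 1 → sgk ε κ k * sgk ε κ k = 1 := by
  induction k with
  | zero => intro κ hκ; exact hκ
  | succ k ih =>
    intro κ hκ
    have h1 := ih (-κ) (by rw [neg_mul_neg]; exact hκ)
    have h2 : ((-1 : ℝ) ^ k) * ((-1 : ℝ) ^ k) = 1 := by
      rw [← mul_pow]; norm_num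
    have h3 : sgk ε κ (k + 1) = ε * (-1) ^ k * sgk ε (-κ) k := rfl
    rw [h3]
    calc ε * (-1) ^ k * sgk ε (-κ) k * (ε * (-1) ^ k * sgk ε (-κ) k)
        = (ε * ε) * (((-1 : ℝ) ^ k) * ((-1 : ℝ) ^ k)) * (sgk ε (-κ) k * sgk ε (-κ) k) := by ring
      _ = 1 := by rw [hε, h2, h1]; norm_num

omit [DecidableEq V] [Fintype V] in
private theorem evenC_mem_nbr {a a' : V} : a' ∈ nbr G a U ↔ a' ∈ U ∧ G.Adj a a' := by
  classical
  simp [nbr]

/-- the sign of the form on the new cycles, and the case of zero -/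
theorem new_sign [FiniteDimensional ℝ S] (hs : Sys ν G e ep b (2 * k + 2) U M β ε κ o)
    (hP : ∀ m, m ≤ 2 * k + 1 → Pk ν G e ep b m) {τ : Finset V} (hτ : τ ∈ fac G (2 * k + 2) U)
    {c : Finset V → S} {x : Finset V → Finset V → S} {r : V → Finset V → Finset V → S}
    (hx : IsRes ν G e (2 * k + 2) M U o (k + 1) c x) (hr : IsRt ν G e M U k x r)
    (hc : IsF G e M U (k + 1) c) (hbd : bd ν c = 0) :
    0 ≤ sgk ε κ (k + 1) * pr β (xt ν G e b U τ x r) (ct ν G e b k U τ o c r) ∧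
      (pr β (xt ν G e b U τ x r) (ct ν G e b k U τ o c r) = 0 →
        ∃ y, IsF G e M U (k + 2) y ∧ bd ν y = c) := by
  classical
  have hτU : τ ⊆ U := by
    have h := hτ
    simp only [fac, mem_filter, mem_powerset] at h
    exact h.1
  have hτcl : Cl G τ := by
    have h := hτ
    simp only [fac, mem_filter, mem_powerset] at h
    exact h.2.1
  have hex1 : ∀ a, a ∈ U → ∃ β' : S →ₗ[ℝ] S →ₗ[ℝ] ℝ, IsLF e M a β β' :=
    fun a ha => hs.exists_lf ha
  choose! β₁ h₁ using hex1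
  have hlink : ∀ a ∈ U, Sys ν G e ep b (2 * k + 1) (nbr G a U) (Mk e M a) (β₁ a) (-ε)
      (κ * (-1) ^ (2 * k + 1)) (linkO ν a o) := fun a ha => hs.link ha (h₁ a ha)
  have hex2 : ∀ a, a ∈ U → ∀ a', a' ∈ nbr G a U → ∃ β' : S →ₗ[ℝ] S →ₗ[ℝ] ℝ,
      IsLF e (Mk e M a) a' (β₁ a) β' :=
    fun a ha a' ha' => (hlink a ha).exists_lf ha'
  choose! β₂ h₂ using hex2
  have hlink2 : ∀ a ∈ U, ∀ a' ∈ nbr G a U, Sys ν G e ep b (2 * k) (nbr G a' (nbr G a U))
      (Mk e (Mk e M a) a') (β₂ a a') (-(-ε)) (κ * (-1) ^ (2 * k + 1) * (-1) ^ (2 * k))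
      (linkO ν a' (linkO ν a o)) :=
    fun a ha a' ha' => (hlink a ha).link ha' (h₂ a ha a' ha')
  have hκ' : κ * (-1) ^ (2 * k + 1) * (-1) ^ (2 * k) = -κ := by
    have h2 : ((-1 : ℝ) ^ (2 * k)) = 1 := by rw [pow_mul]; norm_num
    rw [pow_succ, h2]; ring
  have hdef : ∀ a ∈ U, ∀ a' ∈ nbr G a U,
      0 ≤ sgk ε (-κ) k * pr (β₂ a a') (Rs ν e k r a a') (gam ν G e k U o r a a') ∧
      (pr (β₂ a a') (Rs ν e k r a a') (gam ν G e k U o r a a') = 0 →
        ∃ y, IsF G e (Mk e (Mk e M a) a') (nbr G a' (nbr G a U)) (k + 1) y ∧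
          bd ν y = gam ν G e k U o r a a') := by
    intro a ha a' ha'
    have haU := (evenC_mem_nbr.mp ha').1
    have hadj := (evenC_mem_nbr.mp ha').2
    have hg := bd_gam hs hx hr ha haU hadj
    have hR := isRes_Rs hs hx hr ha haU hadj
    have hsys := hlink2 a ha a' ha'
    rw [neg_neg, hκ'] at hsys
    exact (hP (2 * k) (by omega) _ _ _ _ _ _ hsys).2.2 k rfl _ _ hg.1 hg.2 hR
  have hform := formula (τ := τ) hs hx hr hτU hτcl hc hbd β₁ h₁ β₂ h₂
  obtain ⟨P, hPdef⟩ : ∃ P, P = pr β (xt ν G e b U τ x r) (ct ν G e b k U τ o c r) := ⟨_, rfl⟩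
  obtain ⟨s, hsdef⟩ : ∃ s, s = sgk ε (-κ) k := ⟨_, rfl⟩
  have hs2 : s * s = 1 := by
    rw [hsdef]
    exact evenC_sgk_sq hs.ε_sq k (-κ) (by rw [neg_mul_neg]; exact hs.κ_sq)
  have hw : ∀ a ∈ U, wt b τ a ≤ 0 := fun a ha => (row_facet hs hτ ha).1
  have hw' : ∀ a ∈ U, a ∉ τ → wt b τ a < 0 := fun a ha hn => (row_facet hs hτ ha).2 hn
  obtain ⟨T, hT⟩ : ∃ T : V → V → ℝ, T = fun a a' => wt b τ a * wt b τ a' *
      (s * pr (β₂ a a') (Rs ν e k r a a') (gam ν G e k U o r a a')) := ⟨_, rfl⟩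
  have hTnn : ∀ a ∈ U, ∀ a' ∈ nbr G a U, 0 ≤ T a a' := by
    intro a ha a' ha'
    have haU := (evenC_mem_nbr.mp ha').1
    rw [hT]
    apply mul_nonneg
    · exact mul_nonneg_of_nonpos_of_nonpos (hw a ha) (hw a' haU)
    · rw [hsdef]; exact (hdef a ha a' ha').1
  have hkey : sgk ε κ (k + 1) * P = 1 / 2 * ∑ a ∈ U, ∑ a' ∈ nbr G a U, T a a' := by
    have h3 : sgk ε κ (k + 1) = ε * (-1) ^ k * s := by rw [hsdef]; rfl
    have h4 : ((-1 : ℝ) ^ k) * ((-1 : ℝ) ^ k) = 1 := by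
      rw [← mul_pow]; norm_num
    have h5 : ∑ a ∈ U, ∑ a' ∈ nbr G a U, T a a' = s * ∑ a ∈ U, ∑ a' ∈ nbr G a U,
        wt b τ a * wt b τ a' *
          pr (β₂ a a') (Rs ν e k r a a') (gam ν G e k U o r a a') := by
      rw [mul_sum]
      apply sum_congr rfl
      intro a _
      rw [mul_sum]
      apply sum_congr rfl
      intro a' _
      rw [hT]
      ring
    obtain ⟨Z, hZ⟩ : ∃ Z, Z = ∑ a ∈ U, ∑ a' ∈ nbr G a U,
        wt b τ a * wt b τ a' *
          pr (β₂ a a') (Rs ν e k r a a') (gam ν G e k U o r a a') := ⟨_, rfl⟩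
    rw [← hZ] at h5 hform
    rw [h5, h3, hPdef, hform]
    calc ε * (-1) ^ k * s * (ε * (-1) ^ k / 2 * Z)
        = (ε * ε) * (((-1 : ℝ) ^ k) * ((-1 : ℝ) ^ k)) * (1 / 2 * (s * Z)) := by ring
      _ = 1 / 2 * (s * Z) := by rw [hs.ε_sq, h4]; ring
  rw [← hPdef]
  refine ⟨?_, ?_⟩
  · rw [hkey]
    apply mul_nonneg (by norm_num)
    exact sum_nonneg (fun a ha => sum_nonneg (fun a' ha' => hTnn a ha a' ha'))
  · intro hP0
    have hsum0 : ∑ a ∈ U, ∑ a' ∈ nbr G a U, T a a' = 0 := by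
      rw [hP0, mul_zero] at hkey
      linarith only [hkey]
    have h1 : ∀ a ∈ U, ∑ a' ∈ nbr G a U, T a a' = 0 :=
      (sum_eq_zero_iff_of_nonneg
        (fun a ha => sum_nonneg (fun a' ha' => hTnn a ha a' ha'))).mp hsum0
    have h2 : ∀ a ∈ U, ∀ a' ∈ nbr G a U, T a a' = 0 := fun a ha =>
      (sum_eq_zero_iff_of_nonneg (fun a' ha' => hTnn a ha a' ha')).mp (h1 a ha)
    have hbound : ∀ a ∈ U \ τ, ∀ a' ∈ U \ τ, G.Adj a a' → ∃ f,
        IsF G e (Mk e (Mk e M a) a') (nbr G a' (nbr G a U)) (k + 1) f ∧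
          bd ν f = comp ν a' (ga ν G e k U o r a) + comp ν a (ga ν G e k U o r a') := by
      intro a ha a' ha' hadj
      rw [mem_sdiff] at ha ha'
      have hmem : a' ∈ nbr G a U := evenC_mem_nbr.mpr ⟨ha'.1, hadj⟩
      have h3 := h2 a ha.1 a' hmem
      rw [hT] at h3
      have hw1 := hw' a ha.1 ha.2
      have hw2 := hw' a' ha'.1 ha'.2
      have hww : wt b τ a * wt b τ a' ≠ 0 := mul_ne_zero (ne_of_lt hw1) (ne_of_lt hw2)
      have h4 : s * pr (β₂ a a') (Rs ν e k r a a') (gam ν G e k U o r a a') = 0 :=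
        (mul_eq_zero.mp h3).resolve_left hww
      have hsne : s ≠ 0 := by
        intro h0
        rw [h0, mul_zero] at hs2
        exact zero_ne_one hs2
      have h5 := (mul_eq_zero.mp h4).resolve_left hsne
      exact (hdef a ha.1 a' hmem).2 h5
    obtain ⟨y, hy1, hy2⟩ := push_even hs hP (B := U \ τ) sdiff_subset hc hbd
      (fun a => ga ν G e k U o r a)
      (fun a ha => isF_ga hs hx hr (mem_sdiff.mp ha).1) hbound
    have hUB : U \ (U \ τ) = τ := by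
      rw [Finset.sdiff_sdiff_eq_self hτU]
    rw [hUB] at hy2
    have hbd2 : bd ν (c - bd ν y) = 0 := by
      rw [map_sub, hbd, bd_bd ν hs.inj, sub_zero]
    obtain ⟨y', hy1', hy2'⟩ := hs.simplex hτU hτcl (k + 1) (by omega) _ hy2 hbd2
    refine ⟨y + y', hy1.add (hy1'.mono hτU), ?_⟩
    rw [map_add, hy2']
    abel

/-- the form on the middle homology of a complex of type `0` -/
theorem definite_zero (hs : Sys ν G e ep b 0 U M β ε κ o) :
    Definite ν G e 0 U M β ε κ o := by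
  classical
  intro c x hc hbd hx
  have hcl0 : Cl G (∅ : Finset V) := by
    intro u hu
    exact absurd hu (notMem_empty u)
  have hc0 : ∀ σ, σ ≠ ∅ → c σ = 0 := by
    intro σ hσ
    by_contra h
    exact hσ (card_eq_zero.mp (hc.supp σ h).2.2)
  have hfac : fac G (2 * 0) U = {∅} := by
    ext σ
    simp only [fac, mem_filter, mem_powerset, mem_singleton]
    constructor
    · intro h
      exact card_eq_zero.mp h.2.2
    · intro h
      subst h
      exact ⟨empty_subset _, hcl0, rfl⟩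
  have haug : o ∅ • x ∅ ∅ = c ∅ := by
    have h := congrFun hx.aug_eq ∅
    have h2 : aug G (2 * 0) U o x ∅ = ∑ σ ∈ fac G (2 * 0) U, o σ • x ∅ σ := rfl
    rw [h2, hfac, sum_singleton] at h
    exact h
  have hpr : pr β x c = o ∅ * β (x ∅ ∅) (x ∅ ∅) := by
    unfold pr
    rw [sum_eq_single ∅]
    · rw [← haug, map_smul, smul_eq_mul]
    · intro σ _ hσ
      rw [hc0 σ hσ, map_zero]
    · intro h
      exact absurd (mem_univ _) h
  have hpos := hs.pos ∅ (empty_subset _) hcl0 rfl (x ∅ ∅) (hx.isD.mem ∅ ∅)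
  rw [hs.ep_nil] at hpos
  have hne : o ∅ ≠ 0 := hs.sphere.ne ∅ (empty_subset _) hcl0 rfl
  refine ⟨?_, ?_⟩
  · have h3 : sgk ε κ 0 = κ := rfl
    rw [h3, hpr, ← mul_assoc]
    exact hpos.1
  · intro h
    rw [hpr] at h
    have h4 := (mul_eq_zero.mp h).resolve_left hne
    have h5 := hpos.2 h4
    refine ⟨0, IsF.zero, ?_⟩
    rw [map_zero]
    funext σ
    by_cases hσ : σ = ∅
    · subst hσ
      rw [← haug, h5, smul_zero]
      rfl
    · rw [hc0 σ hσ]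
      rfl

end Pool.Agent.H85.Fold
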