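import Mathlib

/-!
# Project FOLD: linear relations
-/

set_option autoImplicit false

namespace Pool.Agent.H85.Fold

/-- A linear relation on the quotient `Z / B` which is defined everywhere and injective is
surjective and single-valued. -/
theorem rel_lemma {X : Type} [AddCommGroup X] [Module ℝ X] [FiniteDimensional ℝ X]
    (Z B : Submodule ℝ X) (hBZ : B ≤ Z) (Θ : Submodule ℝ (X × X))
    (hΘ : ∀ p ∈ Θ, p.1 ∈ Z ∧ p.2 ∈ Z) (hB : ∀ y ∈ B, ((0 : X), y) ∈ Θ)
    (full : ∀ x ∈ Z, ∃ y, (x, y) ∈ Θ) (inj : ∀ x y, (x, y) ∈ Θ → y ∈ B → x ∈ B) :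
    (∀ y ∈ Z, ∃ x, (x, y) ∈ Θ) ∧ ∀ x y, (x, y) ∈ Θ → x ∈ B → y ∈ B := by
  have _ := hBZ
  -- the two projections
  set f1 : Θ →ₗ[ℝ] X := (LinearMap.fst ℝ X X).domRestrict Θ with hf1
  set f2 : Θ →ₗ[ℝ] X := (LinearMap.snd ℝ X X).domRestrict Θ with hf2
  have hf1a : ∀ p : Θ, f1 p = (p : X × X).1 := fun p => rfl
  have hf2a : ∀ p : Θ, f2 p = (p : X × X).2 := fun p => rfl
  -- the kernels, as submodules of `X`
  set K1 : Submodule ℝ X := Submodule.comap (LinearMap.inl ℝ X X) Θ with hK1
  set K2 : Submodule ℝ X := Submodule.comap (LinearMap.inr ℝ X X) Θ with hK2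
  have mK1 : ∀ x, x ∈ K1 ↔ (x, (0 : X)) ∈ Θ := fun x => Iff.rfl
  have mK2 : ∀ y, y ∈ K2 ↔ ((0 : X), y) ∈ Θ := fun y => Iff.rfl
  have r1 : LinearMap.range f1 = Z := by
    apply le_antisymm
    · rintro _ ⟨p, rfl⟩
      exact (hΘ p p.2).1
    · intro x hx
      obtain ⟨y, hy⟩ := full x hx
      exact ⟨⟨(x, y), hy⟩, rfl⟩
  have r2 : LinearMap.range f2 ≤ Z := by
    rintro _ ⟨p, rfl⟩
    exact (hΘ p p.2).2
  have k1 : Module.finrank ℝ (LinearMap.ker f1) = Module.finrank ℝ K2 := by
    have e : (LinearMap.ker f1).map f2 = K2 := by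
      apply le_antisymm
      · rintro _ ⟨p, hp, rfl⟩
        have h0 : (p : X × X).1 = 0 := hp
        rw [mK2]
        have : ((0 : X), f2 p) = (p : X × X) := by
          rw [← h0]; rfl
        rw [this]; exact p.2
      · intro y hy
        exact ⟨⟨(0, y), hy⟩, rfl, rfl⟩
    rw [← e]
    symm
    have hinj : Function.Injective (f2.domRestrict (LinearMap.ker f1)) := by
      intro p q hpq
      have h0 : ((p : Θ) : X × X).1 = 0 := p.2
      have h0' : ((q : Θ) : X × X).1 = 0 := q.2
      have h1 : ((p : Θ) : X × X).2 = ((q : Θ) : X × X).2 := hpq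
      apply Subtype.ext
      apply Subtype.ext
      exact Prod.ext (h0.trans h0'.symm) h1
    rw [← LinearMap.range_domRestrict]
    exact LinearMap.finrank_range_of_inj hinj
  have k2 : Module.finrank ℝ (LinearMap.ker f2) = Module.finrank ℝ K1 := by
    have e : (LinearMap.ker f2).map f1 = K1 := by
      apply le_antisymm
      · rintro _ ⟨p, hp, rfl⟩
        have h0 : (p : X × X).2 = 0 := hp
        rw [mK1]
        have : (f1 p, (0 : X)) = (p : X × X) := by
          rw [← h0]; rfl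
        rw [this]; exact p.2
      · intro y hy
        exact ⟨⟨(y, 0), hy⟩, rfl, rfl⟩
    rw [← e]
    symm
    have hinj : Function.Injective (f1.domRestrict (LinearMap.ker f2)) := by
      intro p q hpq
      have h0 : ((p : Θ) : X × X).2 = 0 := p.2
      have h0' : ((q : Θ) : X × X).2 = 0 := q.2
      have h1 : ((p : Θ) : X × X).1 = ((q : Θ) : X × X).1 := hpq
      apply Subtype.ext
      apply Subtype.ext
      exact Prod.ext h1 (h0.trans h0'.symm)
    rw [← LinearMap.range_domRestrict]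
    exact LinearMap.finrank_range_of_inj hinj
  have c1 := LinearMap.finrank_range_add_finrank_ker f1
  have c2 := LinearMap.finrank_range_add_finrank_ker f2
  have hBK2 : B ≤ K2 := fun y hy => hB y hy
  have hK1B : K1 ≤ B := fun x hx => inj x 0 hx B.zero_mem
  have d1 : Module.finrank ℝ B ≤ Module.finrank ℝ K2 := Submodule.finrank_mono hBK2
  have d2 : Module.finrank ℝ K1 ≤ Module.finrank ℝ B := Submodule.finrank_mono hK1B
  have d3 : Module.finrank ℝ (LinearMap.range f2) ≤ Module.finrank ℝ Z :=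
    Submodule.finrank_mono r2
  rw [r1, k1] at c1
  rw [k2] at c2
  have e3 : Module.finrank ℝ (LinearMap.range f2) = Module.finrank ℝ Z := by omega
  have e2 : Module.finrank ℝ K1 = Module.finrank ℝ B := by omega
  have e1 : Module.finrank ℝ B = Module.finrank ℝ K2 := by omega
  have R2 : LinearMap.range f2 = Z := Submodule.eq_of_le_of_finrank_eq r2 e3
  have R1 : K1 = B := Submodule.eq_of_le_of_finrank_eq hK1B e2
  have R3 : B = K2 := Submodule.eq_of_le_of_finrank_eq hBK2 e1
  refine ⟨?_, ?_⟩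
  · intro y hy
    rw [← R2] at hy
    obtain ⟨p, hp⟩ := hy
    refine ⟨(p : X × X).1, ?_⟩
    have : ((p : X × X).1, y) = (p : X × X) := by
      rw [← hp]; rfl
    rw [this]; exact p.2
  · intro x y hxy hx
    rw [← R1, mK1] at hx
    have h := Θ.sub_mem hxy hx
    rw [R3, mK2]
    have e : (x, y) - (x, (0 : X)) = ((0 : X), y) := by simp
    rwa [e] at h

end Pool.Agent.H85.Fold
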