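import Pool.Agent.H85.Fold.EvenC
import Pool.Agent.H85.Fold.Rel

/-!
# Project FOLD: the form on the middle homology of an even complex is definite
-/

set_option autoImplicit false

open Finset

namespace Pool.Agent.H85.Fold

variable {V : Type} [DecidableEq V] [Fintype V] {S : Type} [AddCommGroup S] [Module ℝ S]
  {ν : V → ℕ} {G : SimpleGraph V} {e : V → S →ₗ[ℝ] S} {ep : Finset V → S →ₗ[ℝ] S}
  {b : V → V → ℝ} {k : ℕ} {U : Finset V} {M : Submodule ℝ S} {β : S →ₗ[ℝ] S →ₗ[ℝ] ℝ}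
  {ε κ : ℝ} {o : Finset V → ℝ}

/-- the form on the middle homology is definite -/
theorem definite_even [FiniteDimensional ℝ S] (hs : Sys ν G e ep b (2 * k + 2) U M β ε κ o)
    (hP : ∀ m, m ≤ 2 * k + 1 → Pk ν G e ep b m) :
    Definite ν G e (k + 1) U M β ε κ o := by
  classical
  obtain ⟨τ, hτU, hτcl, hτc, -⟩ := hs.sphere.pure ∅ (Finset.empty_subset _)
    (fun u hu => absurd hu (Finset.notMem_empty _))
  have hτ : τ ∈ fac G (2 * k + 2) U := by
    simp only [fac, Finset.mem_filter, Finset.mem_powerset]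
    exact ⟨hτU, hτcl, hτc⟩
  have key : ∀ (c c' : Finset V → S) (x x' : Finset V → Finset V → S)
      (r : V → Finset V → Finset V → S) (w : Finset V → S), IsF G e M U (k + 1) c →
      bd ν c = 0 → IsRes ν G e (2 * k + 2) M U o (k + 1) c x → IsRt ν G e M U k x r →
      IsF G e M U (k + 2) w → c' = ct ν G e b k U τ o c r + bd ν w →
      IsRes ν G e (2 * k + 2) M U o (k + 1) c' x' →
      0 ≤ sgk ε κ (k + 1) * pr β x' c' ∧
        (pr β x' c' = 0 → ∃ y, IsF G e M U (k + 2) y ∧ bd ν y = c) := by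
    intro c c' x x' r w hc hbd hx hr hw hc' hx'
    obtain ⟨y1, hy1, haug⟩ := exists_aug hs.sphere hw
    have h1 := isRes_xt (τ := τ) hs hx hr hτU
    have h2 : IsRes ν G e (2 * k + 2) M U o (k + 1) (bd ν w) (d1 ν y1 + d2 ν G U y1) := by
      have := isRes_d hs.inj hs.sphere (i := k + 1) hy1
      rwa [haug] at this
    have h3 := h1.add h2
    rw [← hc'] at h3
    obtain ⟨hcF, hcB⟩ := isF_ct (τ := τ) hs hx hr hτU hc hbd
    have hc'F : IsF G e M U (k + 1) c' := by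
      rw [hc']; exact hcF.add (isF_bd ν hw)
    have hc'B : bd ν c' = 0 := by
      rw [hc', map_add, hcB, bd_bd ν hs.inj, add_zero]
    have h4 : pr β x' c' = pr β (xt ν G e b U τ x r) (ct ν G e b k U τ o c r) := by
      rw [pr_congr hs hx' h3 hc'F hc'B, pr_add_left, pr_d hs hy1 hc'F hc'B, add_zero]
      conv_lhs => rw [hc']
      rw [pr_add_right, pr_bd hs h1.isD h1.closed hw, add_zero]
    rw [h4]
    exact new_sign hs hP hτ hx hr hc hbd
  let Z : Submodule ℝ (Finset V → S) :=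
    { carrier := {c | IsF G e M U (k + 1) c ∧ bd ν c = 0}
      add_mem' := fun {a a'} ha ha' => ⟨ha.1.add ha'.1, by rw [map_add, ha.2, ha'.2, add_zero]⟩
      zero_mem' := ⟨IsF.zero, map_zero _⟩
      smul_mem' := fun t a ha => ⟨ha.1.smul t, by rw [map_smul, ha.2, smul_zero]⟩ }
  let B : Submodule ℝ (Finset V → S) :=
    { carrier := {c | ∃ y, IsF G e M U (k + 2) y ∧ bd ν y = c}
      add_mem' := by
        rintro a a' ⟨y, hy, hya⟩ ⟨y', hy', hya'⟩
        exact ⟨y + y', hy.add hy', by rw [map_add, hya, hya']⟩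
      zero_mem' := ⟨0, IsF.zero, map_zero _⟩
      smul_mem' := by
        rintro t a ⟨y, hy, hya⟩
        exact ⟨t • y, hy.smul t, by rw [map_smul, hya]⟩ }
  let Θ : Submodule ℝ ((Finset V → S) × (Finset V → S)) :=
    { carrier := {p | ∃ x r w, IsF G e M U (k + 1) p.1 ∧ bd ν p.1 = 0 ∧
        IsRes ν G e (2 * k + 2) M U o (k + 1) p.1 x ∧ IsRt ν G e M U k x r ∧
        IsF G e M U (k + 2) w ∧ p.2 = ct ν G e b k U τ o p.1 r + bd ν w}
      add_mem' := by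
        rintro p p' ⟨x, r, w, h1, h2, h3, h4, h5, h6⟩ ⟨x', r', w', h1', h2', h3', h4', h5', h6'⟩
        refine ⟨x + x', r + r', w + w', h1.add h1', ?_, h3.add h3', h4.add h4', h5.add h5', ?_⟩
        · rw [Prod.fst_add, map_add, h2, h2', add_zero]
        · rw [Prod.snd_add, Prod.fst_add, ct_add, map_add, h6, h6']
          abel
      zero_mem' := by
        refine ⟨0, 0, 0, IsF.zero, map_zero _, ⟨IsD.zero, ?_, map_zero _⟩, isRt_zero, IsF.zero, ?_⟩
        · rw [map_zero, map_zero]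
        · rw [Prod.fst_zero, Prod.snd_zero, ct_zero, map_zero, add_zero]
      smul_mem' := by
        rintro t p ⟨x, r, w, h1, h2, h3, h4, h5, h6⟩
        refine ⟨t • x, t • r, t • w, h1.smul t, ?_, h3.smul t, h4.smul t, h5.smul t, ?_⟩
        · rw [Prod.smul_fst, map_smul, h2, smul_zero]
        · rw [Prod.smul_snd, Prod.smul_fst, ct_smul, map_smul, h6, smul_add] }
  have hBZ : B ≤ Z := by
    rintro c ⟨y, hy, rfl⟩
    exact ⟨isF_bd ν hy, bd_bd ν hs.inj y⟩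
  have hΘ : ∀ p ∈ Θ, p.1 ∈ Z ∧ p.2 ∈ Z := by
    rintro p ⟨x, r, w, h1, h2, h3, h4, h5, h6⟩
    refine ⟨⟨h1, h2⟩, ?_⟩
    obtain ⟨hcF, hcB⟩ := isF_ct (τ := τ) hs h3 h4 hτU h1 h2
    refine ⟨?_, ?_⟩
    · rw [h6]; exact hcF.add (isF_bd ν h5)
    · rw [h6, map_add, hcB, bd_bd ν hs.inj, add_zero]
  have hB : ∀ y ∈ B, ((0 : Finset V → S), y) ∈ Θ := by
    rintro c ⟨y, hy, rfl⟩
    refine ⟨0, 0, y, IsF.zero, map_zero _, ⟨IsD.zero, ?_, map_zero _⟩, isRt_zero, hy, ?_⟩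
    · rw [map_zero, map_zero]
    · rw [ct_zero, zero_add]
  have full : ∀ c ∈ Z, ∃ y, (c, y) ∈ Θ := by
    rintro c ⟨hc, hbd⟩
    obtain ⟨x, hx⟩ := exists_res hs.inj hs.sphere hc hbd
    have hL : ∀ a ∈ U, HV ν G e (Mk e M a) (nbr G a U) k := by
      intro a ha
      obtain ⟨β', hβ'⟩ := hs.exists_lf ha
      have hl := Sys.link (n := 2 * k + 1) hs ha hβ'
      exact (hP (2 * k + 1) le_rfl _ _ _ _ _ _ hl).2.1 k (by omega)
    obtain ⟨r, hr⟩ := exists_rt hs hx hL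
    exact ⟨ct ν G e b k U τ o c r + bd ν 0, x, r, 0, hc, hbd, hx, hr, IsF.zero, rfl⟩
  have inj : ∀ c c', (c, c') ∈ Θ → c' ∈ B → c ∈ B := by
    rintro c c' ⟨x, r, w, h1, h2, h3, h4, h5, h6⟩ ⟨y, hy, hyc⟩
    have hc'Z : c' ∈ Z := hBZ ⟨y, hy, hyc⟩
    obtain ⟨x', hx'⟩ := exists_res hs.inj hs.sphere hc'Z.1 hc'Z.2
    refine (key c c' x x' r w h1 h2 h3 h4 h5 h6 hx').2 ?_
    rw [← hyc]
    exact pr_bd hs hx'.isD hx'.closed hy
  obtain ⟨surj, single⟩ := rel_lemma Z B hBZ Θ hΘ hB full inj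
  intro c' x' hc' hbd' hx'
  obtain ⟨c, hcΘ⟩ := surj c' ⟨hc', hbd'⟩
  have hcΘ' := hcΘ
  obtain ⟨x, r, w, h1, h2, h3, h4, h5, h6⟩ := hcΘ'
  obtain ⟨hk1, hk2⟩ := key c c' x x' r w h1 h2 h3 h4 h5 h6 hx'
  exact ⟨hk1, fun h0 => single c c' hcΘ (hk2 h0)⟩

end Pool.Agent.H85.Fold
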