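import Pool.Agent.H85.Fold.Pair

/-!
# Project FOLD: the form on the middle homology of an even complex, definitions
-/

set_option autoImplicit false

open Finset

namespace Pool.Agent.H85.Fold

section

variable {V : Type} [DecidableEq V] [Fintype V] {S : Type} [AddCommGroup S] [Module ℝ S]

/-- the double chain `e a (r a)` -/
def er (e : V → S →ₗ[ℝ] S) (a : V) (r : V → Finset V → Finset V → S) (ρ σ : Finset V) : S :=
  e a (r a ρ σ)

/-- The data for a double chain `x` of type `k + 1` on a complex of type `2 k + 2`: the components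
of `x` in the links are `-(d1 + d2) (e a (r a))`. -/
structure IsRt (ν : V → ℕ) (G : SimpleGraph V) (e : V → S →ₗ[ℝ] S) (M : Submodule ℝ S)
    (U : Finset V) (k : ℕ) (x : Finset V → Finset V → S) (r : V → Finset V → Finset V → S) :
    Prop where
  isD : ∀ a ∈ U, IsD G e (2 * k + 1) M (nbr G a U) (k + 1) (r a)
  eq : ∀ a ∈ U, comp2 ν a x = -(d1 ν (er e a r) + d2 ν G (nbr G a U) (er e a r))

/-- the sum of the operators of the vertices of `τ` -/
noncomputable def usum (e : V → S →ₗ[ℝ] S) (τ : Finset V) : S →ₗ[ℝ] S := ∑ v ∈ τ, e v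

/-- the weights -/
def wt (b : V → V → ℝ) (τ : Finset V) (a : V) : ℝ := ∑ v ∈ τ, b v a

/-- the correction of the double chain -/
noncomputable def cor2 (ν : V → ℕ) (b : V → V → ℝ) (U τ : Finset V)
    (r : V → Finset V → Finset V → S) : Finset V → Finset V → S :=
  ∑ a ∈ U, wt b τ a • wedge2 ν a (r a)

/-- the correction of the chain -/
noncomputable def cor1 (ν : V → ℕ) (G : SimpleGraph V) (b : V → V → ℝ) (k : ℕ) (U τ : Finset V)
    (o : Finset V → ℝ) (r : V → Finset V → Finset V → S) : Finset V → S :=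
  ∑ a ∈ U, wt b τ a • wedge ν a (aug G (2 * k + 1) (nbr G a U) (linkO ν a o) (r a))

/-- the new double chain -/
noncomputable def xt (ν : V → ℕ) (G : SimpleGraph V) (e : V → S →ₗ[ℝ] S) (b : V → V → ℝ)
    (U τ : Finset V) (x : Finset V → Finset V → S) (r : V → Finset V → Finset V → S) :
    Finset V → Finset V → S :=
  (fun ρ σ => usum e τ (x ρ σ)) - (d1 ν (cor2 ν b U τ r) + d2 ν G U (cor2 ν b U τ r))

/-- the new chain -/
noncomputable def ct (ν : V → ℕ) (G : SimpleGraph V) (e : V → S →ₗ[ℝ] S) (b : V → V → ℝ)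
    (k : ℕ) (U τ : Finset V) (o : Finset V → ℝ) (c : Finset V → S)
    (r : V → Finset V → Finset V → S) : Finset V → S :=
  (fun ρ => usum e τ (c ρ)) - bd ν (cor1 ν G b k U τ o r)

/-- the chain `g a` of the link of `a` -/
noncomputable def ga (ν : V → ℕ) (G : SimpleGraph V) (e : V → S →ₗ[ℝ] S) (k : ℕ) (U : Finset V)
    (o : Finset V → ℝ) (r : V → Finset V → Finset V → S) (a : V) : Finset V → S :=
  aug G (2 * k + 1) (nbr G a U) (linkO ν a o) (er e a r)

/-- the cycle of the double link of `a` and `a'` -/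
noncomputable def gam (ν : V → ℕ) (G : SimpleGraph V) (e : V → S →ₗ[ℝ] S) (k : ℕ)
    (U : Finset V) (o : Finset V → ℝ) (r : V → Finset V → Finset V → S) (a a' : V) :
    Finset V → S :=
  comp ν a' (ga ν G e k U o r a) + comp ν a (ga ν G e k U o r a')

/-- the double chain of the double link of `a` and `a'` -/
def Rr (ν : V → ℕ) (e : V → S →ₗ[ℝ] S) (r : V → Finset V → Finset V → S) (a a' : V) :
    Finset V → Finset V → S :=
  comp2 ν a' (er e a r) - comp2 ν a (er e a' r)

/-- the resolution of `gam`, the double chain `Rr` with changed signs -/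
def Rs (ν : V → ℕ) (e : V → S →ₗ[ℝ] S) (k : ℕ) (r : V → Finset V → Finset V → S) (a a' : V)
    (ρ σ : Finset V) : S :=
  ((-1 : ℝ) ^ (ρ.card + k)) • Rr ν e r a a' ρ σ

end

end Pool.Agent.H85.Fold
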