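import Pool.Agent.H85.Fold.Arr

/-!
# Project FOLD: folding vectors with integer coordinates
-/

set_option autoImplicit false

open Finset

namespace Pool.Agent.H85.Fold

variable {V : Type} [DecidableEq V] [Fintype V]

/-- Folding vectors with integer coordinates. -/
structure IsFoldZ (G : SimpleGraph V) (n : ℕ) {m₁ m₂ : ℕ} (p : V → Fin m₁ → ℤ)
    (a : V → Fin m₂ → ℤ) : Prop where
  dim : Module.finrank ℝ (Submodule.span ℝ (Set.range fun v i => (p v i : ℝ))) ≤ n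
  zero : ∀ u v, u = v ∨ G.Adj u v → p u ⬝ᵥ p v = a u ⬝ᵥ a v
  neg : ∀ u v, u ≠ v → ¬ G.Adj u v → p u ⬝ᵥ p v < a u ⬝ᵥ a v

/-- the folding vectors of a simplicial arrangement -/
theorem IsArrangement.isFoldZ {G : SimpleGraph V} {n : ℕ} {m : ℕ} {h : Fin m → Fin n → ℤ}
    {r : V → Fin n → ℤ} (H : IsArrangement G n h r) :
    IsFoldZ G n (fun v i => h i ⬝ᵥ r v) (fun v i => |h i ⬝ᵥ r v|) := by
  refine ⟨?_, ?_, ?_⟩
  · set L : (Fin n → ℝ) →ₗ[ℝ] (Fin m → ℝ) :=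
      Matrix.mulVecLin (Matrix.of fun i j => (h i j : ℝ)) with hL
    have hsub : Submodule.span ℝ (Set.range fun v i => ((h i ⬝ᵥ r v : ℤ) : ℝ)) ≤
        LinearMap.range L := by
      rw [Submodule.span_le]
      rintro x ⟨v, rfl⟩
      refine ⟨fun j => (r v j : ℝ), ?_⟩
      funext i
      simp [hL, Matrix.mulVec, dotProduct]
    calc Module.finrank ℝ (Submodule.span ℝ (Set.range fun v i => ((h i ⬝ᵥ r v : ℤ) : ℝ)))
        ≤ Module.finrank ℝ (LinearMap.range L) := Submodule.finrank_mono hsub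
      _ ≤ Module.finrank ℝ (Fin n → ℝ) := LinearMap.finrank_range_le L
      _ = n := by simp
  · intro u v huv
    refine Finset.sum_congr rfl fun i _ => ?_
    have h0 : 0 ≤ (h i ⬝ᵥ r u) * (h i ⬝ᵥ r v) := by
      rcases huv with rfl | hadj
      · exact mul_self_nonneg _
      · exact ((H.adj u v).1 hadj).2 i
    show (h i ⬝ᵥ r u) * (h i ⬝ᵥ r v) = |h i ⬝ᵥ r u| * |h i ⬝ᵥ r v|
    rw [← abs_mul, abs_of_nonneg h0]
  · intro u v huv hadj
    have h1 : ∃ i, (h i ⬝ᵥ r u) * (h i ⬝ᵥ r v) < 0 := by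
      by_contra hcon
      push Not at hcon
      exact hadj ((H.adj u v).2 ⟨huv, hcon⟩)
    obtain ⟨i, hi⟩ := h1
    refine Finset.sum_lt_sum (fun j _ => ?_) ⟨i, Finset.mem_univ i, ?_⟩
    · show (h j ⬝ᵥ r u) * (h j ⬝ᵥ r v) ≤ |h j ⬝ᵥ r u| * |h j ⬝ᵥ r v|
      rw [← abs_mul]
      exact le_abs_self _
    · show (h i ⬝ᵥ r u) * (h i ⬝ᵥ r v) < |h i ⬝ᵥ r u| * |h i ⬝ᵥ r v|
      rw [← abs_mul, abs_of_neg hi]
      linarith

end Pool.Agent.H85.Fold
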