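import Pool.Agent.H85.Fold.ModDefs
import Pool.Agent.H85.Fold.TwC
import Pool.Agent.H85.Fold.SysFold
import Pool.Agent.H85.Fold.MainA
import Pool.Agent.H85.Fold.Cliff
import Pool.Agent.H85.Fold.FoldZ

/-!
# Project FOLD: integer involutions with exact twisted complexes
-/

set_option autoImplicit false

open Finset

namespace Pool.Agent.H85.Fold

/-- the real operator of an integer matrix -/
private noncomputable def op {D : Type} [Fintype D] [DecidableEq D] (M : Matrix D D ℤ) :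
    (D → ℝ) →ₗ[ℝ] (D → ℝ) := Matrix.toLin' ((Int.castRingHom ℝ).mapMatrix M)

section

variable {D : Type} [Fintype D] [DecidableEq D]

private theorem op_mul (M N : Matrix D D ℤ) (x : D → ℝ) : op (M * N) x = op M (op N x) := by
  unfold op
  rw [map_mul, Matrix.toLin'_mul]
  rfl

private theorem op_add (M N : Matrix D D ℤ) : op (M + N) = op M + op N := by
  unfold op
  rw [map_add, map_add]

private theorem op_neg (M : Matrix D D ℤ) : op (-M) = -op M := by
  unfold op
  rw [map_neg, map_neg]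

private theorem op_one (x : D → ℝ) : op (1 : Matrix D D ℤ) x = x := by
  unfold op
  rw [map_one, Matrix.toLin'_one]
  rfl

private theorem op_smul (k : ℤ) (M : Matrix D D ℤ) : op (k • M) = (k : ℝ) • op M := by
  unfold op
  rw [map_zsmul, map_zsmul]
  exact (Int.cast_smul_eq_zsmul ℝ k _).symm

private theorem op_sum {ι : Type} (s : Finset ι) (M : ι → Matrix D D ℤ) :
    op (∑ i ∈ s, M i) = ∑ i ∈ s, op (M i) := by
  unfold op
  rw [map_sum, map_sum]

private theorem op_inj {M N : Matrix D D ℤ} (h : ∀ x, op M x = op N x) : M = N := by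
  have h1 : op M = op N := LinearMap.ext h
  unfold op at h1
  have h2 := Matrix.toLin'.injective h1
  ext i j
  have h3 := congrFun (congrFun h2 i) j
  simpa using h3

private theorem op_mact (M : Matrix D D ℤ) (x : D → ℝ) : mact ℝ M x = op M x := rfl

private theorem op_anti {M N : Matrix D D ℤ} (h : M * N = -(N * M)) (x : D → ℝ) :
    op M (op N x) = -op N (op M x) := by
  rw [← op_mul, h, op_neg, LinearMap.neg_apply, op_mul]

/-- the dot product -/
private noncomputable def dotB (D : Type) [Fintype D] : (D → ℝ) →ₗ[ℝ] (D → ℝ) →ₗ[ℝ] ℝ :=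
  LinearMap.mk₂ ℝ (fun x y => x ⬝ᵥ y) (fun x y z => add_dotProduct x y z)
    (fun c x y => smul_dotProduct c x y) (fun x y z => dotProduct_add x y z)
    (fun c x y => dotProduct_smul c x y)

omit [DecidableEq D] in
private theorem dotB_apply (x y : D → ℝ) : dotB D x y = x ⬝ᵥ y := rfl

private theorem op_adj (M : Matrix D D ℤ) (x y : D → ℝ) :
    dotB D (op M x) y = dotB D x (op M.transpose y) := by
  simp only [dotB_apply, op, Matrix.toLin'_apply]
  have h1 : (Int.castRingHom ℝ).mapMatrix M.transpose =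
      ((Int.castRingHom ℝ).mapMatrix M).transpose := by
    ext i j
    simp
  rw [h1, Matrix.mulVec_transpose, dotProduct_comm, Matrix.dotProduct_mulVec, dotProduct_comm]

end

/-- the Clifford module -/
private theorem isClMod {m₁ m₂ : ℕ} {V' D : Type} [Fintype D] [DecidableEq D]
    (c : (Fin m₁ ⊕ Fin m₂) ⊕ V' → Matrix D D ℤ)
    (h1 : ∀ i, c (Sum.inl (Sum.inl i)) * c (Sum.inl (Sum.inl i)) = 1)
    (h2 : ∀ i, c (Sum.inl (Sum.inr i)) * c (Sum.inl (Sum.inr i)) = -1)
    (hanti : ∀ i j, i ≠ j → c i * c j = -(c j * c i))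
    (h3 : ∀ i, (c (Sum.inl (Sum.inl i))).transpose = c (Sum.inl (Sum.inl i)))
    (h4 : ∀ i, (c (Sum.inl (Sum.inr i))).transpose = -c (Sum.inl (Sum.inr i))) :
    IsClMod (dotB D) (fun i => op (c (Sum.inl (Sum.inl i))))
      (fun i => op (c (Sum.inl (Sum.inr i)))) where
  symm x y := dotProduct_comm x y
  pos x hx := by
    rw [dotB_apply]
    have h0 : (0 : ℝ) ≤ x ⬝ᵥ x := Finset.sum_nonneg fun i _ => mul_self_nonneg _
    rcases h0.lt_or_eq with h | h
    · exact h
    · exact absurd (dotProduct_self_eq_zero.1 h.symm) hx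
  γ_sq i x := by
    rw [← op_mul, h1, op_one]
  η_sq i x := by
    rw [← op_mul, h2, op_neg, LinearMap.neg_apply, op_one]
  γγ i j hij x := op_anti (hanti _ _ (by simpa using hij)) x
  ηη i j hij x := op_anti (hanti _ _ (by simpa using hij)) x
  γη i j x := op_anti (hanti _ _ (by simp)) x
  γ_adj i x y := by
    rw [op_adj, h3]
  η_adj i x y := by
    rw [op_adj, h4, op_neg, LinearMap.neg_apply, map_neg]

variable {V : Type} [DecidableEq V] [Fintype V]

/-- the twisted complexes are exact -/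
theorem exists_invol (G : SimpleGraph V) (n : ℕ) (hG : IsHomologySphere G n) {m₁ m₂ : ℕ}
    (p : V → Fin m₁ → ℤ) (a : V → Fin m₂ → ℤ) (hf : IsFoldZ G n p a) (ν : V → ℕ)
    (hν : Function.Injective ν) (i : ℕ) (hi : n < 2 * i) :
    ∃ (D : Type) (_ : Fintype D) (_ : DecidableEq D) (_ : Nonempty D)
      (A : V → Matrix D D ℤ), IsInvol G A ∧
        ∀ (Ω : Type) [Fintype Ω] (s : V → Ω → Ω), IsAct G s →
          TZ ℝ G A s ν i ≤ TB ℝ G A s ν i := by
  classical
  obtain ⟨o, ho⟩ := hG.isSphere ν hν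
  obtain ⟨D, iD1, iD2, iD3, c, hsq, hanti, htr⟩ :=
    exists_cliff ((Fin m₁ ⊕ Fin m₂) ⊕ (V ⊕ V)) (Sum.elim (Sum.elim (fun _ => true)
      (fun _ => false)) (Sum.elim (fun _ => true) (fun _ => false)))
  have s1 : ∀ i, c (Sum.inl (Sum.inl i)) * c (Sum.inl (Sum.inl i)) = 1 := fun i => by
    simpa using hsq (Sum.inl (Sum.inl i))
  have s2 : ∀ i, c (Sum.inl (Sum.inr i)) * c (Sum.inl (Sum.inr i)) = -1 := fun i => by
    simpa using hsq (Sum.inl (Sum.inr i))
  have s3 : ∀ v, c (Sum.inr (Sum.inl v)) * c (Sum.inr (Sum.inl v)) = 1 := fun i => by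
    simpa using hsq (Sum.inr (Sum.inl i))
  have s4 : ∀ v, c (Sum.inr (Sum.inr v)) * c (Sum.inr (Sum.inr v)) = -1 := fun i => by
    simpa using hsq (Sum.inr (Sum.inr i))
  have s5 : ∀ i, (c (Sum.inl (Sum.inl i))).transpose = c (Sum.inl (Sum.inl i)) := fun i => by
    simpa using htr (Sum.inl (Sum.inl i))
  have s6 : ∀ i, (c (Sum.inl (Sum.inr i))).transpose = -c (Sum.inl (Sum.inr i)) := fun i => by
    simpa using htr (Sum.inl (Sum.inr i))
  obtain ⟨γ, hγ⟩ : ∃ γ : Fin m₁ → (D → ℝ) →ₗ[ℝ] (D → ℝ),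
    γ = fun i => op (c (Sum.inl (Sum.inl i))) := ⟨_, rfl⟩
  obtain ⟨η, hη⟩ : ∃ η : Fin m₂ → (D → ℝ) →ₗ[ℝ] (D → ℝ),
    η = fun i => op (c (Sum.inl (Sum.inr i))) := ⟨_, rfl⟩
  have hc : IsClMod (dotB D) γ η := by
    rw [hγ, hη]
    exact isClMod c s1 s2 hanti s5 s6
  -- the folding vectors over the reals
  have hdot : ∀ {m : ℕ} (x y : Fin m → ℤ),
      (fun i => (x i : ℝ)) ⬝ᵥ (fun i => (y i : ℝ)) = ((x ⬝ᵥ y : ℤ) : ℝ) := by
    intro m x y
    simp [dotProduct]
  obtain ⟨pR, hpR⟩ : ∃ pR : V → Fin m₁ → ℝ, pR = fun v i => (p v i : ℝ) := ⟨_, rfl⟩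
  obtain ⟨aR, haR⟩ : ∃ aR : V → Fin m₂ → ℝ, aR = fun v i => (a v i : ℝ) := ⟨_, rfl⟩
  have hfold : IsFold G n pR aR := by
    refine ⟨?_, fun u v huv => ?_, fun u v h1 h2 => ?_⟩
    · rw [hpR]
      exact hf.dim
    · rw [hpR, haR]
      simp only
      rw [hdot, hdot, hf.zero u v huv]
    · rw [hpR, haR]
      simp only
      rw [hdot, hdot]
      exact_mod_cast hf.neg u v h1 h2
  obtain ⟨ep, β, ε, κ, hsys⟩ := exists_sys hν ho hfold hc
  have hHV : HV ν G (ev γ η pR aR) ⊤ univ i :=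
    ((pk_all ν G (ev γ η pR aR) ep _ n) univ ⊤ β ε κ o hsys).1 univ (subset_refl _) i hi
  -- the matrices
  obtain ⟨E, hE⟩ : ∃ E : V → Matrix D D ℤ, ∀ v, E v =
      ∑ i, p v i • c (Sum.inl (Sum.inl i)) + ∑ j, a v j • c (Sum.inl (Sum.inr j)) :=
    ⟨_, fun _ => rfl⟩
  obtain ⟨Gm, hGm⟩ : ∃ Gm : V → Matrix D D ℤ, ∀ v, Gm v = c (Sum.inr (Sum.inl v)) :=
    ⟨_, fun _ => rfl⟩
  obtain ⟨Cm, hCm⟩ : ∃ Cm : V → Matrix D D ℤ, ∀ v, Cm v = c (Sum.inr (Sum.inr v)) :=
    ⟨_, fun _ => rfl⟩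
  have hEop : ∀ v, ev γ η pR aR v = op (E v) := by
    intro v
    rw [hE, op_add, op_sum, op_sum, ev, lc, lc, hpR, haR, hγ, hη]
    simp only [op_smul]
  have eg : ∀ u v, E u * Gm v = -(Gm v * E u) := by
    intro u v
    rw [hE, hGm, add_mul, mul_add, neg_add, Finset.sum_mul, Finset.sum_mul, Finset.mul_sum,
      Finset.mul_sum, ← Finset.sum_neg_distrib, ← Finset.sum_neg_distrib]
    congr 1
    · refine Finset.sum_congr rfl fun i _ => ?_
      rw [smul_mul_assoc, mul_smul_comm, hanti _ _ (by simp), smul_neg]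
    · refine Finset.sum_congr rfl fun i _ => ?_
      rw [smul_mul_assoc, mul_smul_comm, hanti _ _ (by simp), smul_neg]
  have ec : ∀ u v, E u * Cm v = -(Cm v * E u) := by
    intro u v
    rw [hE, hCm, add_mul, mul_add, neg_add, Finset.sum_mul, Finset.sum_mul, Finset.mul_sum,
      Finset.mul_sum, ← Finset.sum_neg_distrib, ← Finset.sum_neg_distrib]
    congr 1
    · refine Finset.sum_congr rfl fun i _ => ?_
      rw [smul_mul_assoc, mul_smul_comm, hanti _ _ (by simp), smul_neg]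
    · refine Finset.sum_congr rfl fun i _ => ?_
      rw [smul_mul_assoc, mul_smul_comm, hanti _ _ (by simp), smul_neg]
  have hpert : IsPert G (ev γ η pR aR) (fun v => op (Gm v)) (fun v => op (Cm v)) := by
    refine ⟨?_, ?_, ?_, ?_, ?_, ?_, ?_, ?_, ?_, ?_⟩
    · intro v x
      have h1 := hc.ev_anti pR aR v v x
      rw [hfold.zero v v (Or.inl rfl), sub_self, mul_zero, zero_smul] at h1
      have h2 : (2 : ℝ) • ev γ η pR aR v (ev γ η pR aR v x) = 0 := by
        rw [two_smul]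
        exact h1
      exact (smul_eq_zero.1 h2).resolve_left two_ne_zero
    · intro u v huv x
      have h1 := hc.ev_anti pR aR u v x
      rw [hfold.zero u v (Or.inr huv), sub_self, mul_zero, zero_smul] at h1
      exact eq_neg_of_add_eq_zero_left h1
    · intro v x
      rw [← op_mul, hGm, s3, op_one]
    · intro v x
      rw [← op_mul, hCm, s4, op_neg, LinearMap.neg_apply, op_one]
    · intro u v huv x
      exact op_anti (by rw [hGm, hGm]; exact hanti _ _ (by simpa using huv)) x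
    · intro u v huv x
      exact op_anti (by rw [hCm, hCm]; exact hanti _ _ (by simpa using huv)) x
    · intro u v x
      rw [hEop]
      exact op_anti (eg u v) x
    · intro u v x
      rw [hEop]
      exact op_anti (ec u v) x
    · intro u v x
      exact op_anti (by rw [hGm, hCm]; exact hanti _ _ (by simp)) x
    · intro σ v hv hcl x hx
      obtain ⟨m, -, hm1, hm2⟩ := hsys.lift hv (subset_univ _) hcl (Submodule.mem_top (x := x)) hx
      exact ⟨m, hm1, hm2⟩
  obtain ⟨t₀, ht₀⟩ := tw_exact ν hν hpert i hHV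
  obtain ⟨t, ht⟩ : ∃ t : ℤ, t₀ ≤ t := ⟨⌈t₀⌉, Int.le_ceil t₀⟩
  obtain ⟨A, hA⟩ : ∃ A : V → Matrix D D ℤ, ∀ v, A v = (t • E v + Gm v) * Cm v :=
    ⟨_, fun _ => rfl⟩
  have hAt : ∀ v, op (A v) = At (ev γ η pR aR) (fun v => op (Gm v)) (fun v => op (Cm v)) t v := by
    intro v
    refine LinearMap.ext fun x => ?_
    rw [hA, op_mul, op_add, op_smul, ← hEop]
    rfl
  refine ⟨D, iD1, iD2, iD3, A, ⟨fun v => ?_, fun u v huv => ?_⟩, ?_⟩
  · refine op_inj fun x => ?_
    rw [op_mul, op_one, hAt]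
    exact hpert.At_sq t v x
  · refine op_inj fun x => ?_
    rw [op_mul, op_mul, hAt, hAt]
    exact hpert.At_comm t u v huv x
  · intro Ω _ s hs f hfZ
    obtain ⟨hf1, hf2⟩ := Submodule.mem_inf.1 hfZ
    have hbd : ∀ f' : Finset V → Ω → D → ℝ, bd ν f' = tdl ℝ ν f' := by
      intro f'
      funext τ ω
      simp only [bd, tdl, LinearMap.coe_mk, AddHom.coe_mk, Finset.sum_apply, Pi.smul_apply]
      refine Finset.sum_congr rfl fun v _ => ?_
      simp [sgn, Pool.Agent.H4.Singer.sg]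
    have htw : IsTw G (At (ev γ η pR aR) (fun v => op (Gm v)) (fun v => op (Cm v)) t) s i f := by
      refine ⟨hf1.1, fun σ v hv ω => ?_⟩
      rw [hf1.2 σ v hv ω, op_mact, hAt]
    obtain ⟨y, hy1, hy2⟩ := ht₀ t ht Ω s hs f htw (by rw [hbd]; exact LinearMap.mem_ker.1 hf2)
    refine ⟨y, ⟨hy1.supp, fun σ v hv ω => ?_⟩, ?_⟩
    · rw [hy1.tw σ v hv ω, op_mact, hAt]
    · rw [← hbd]
      exact hy2

end Pool.Agent.H85.Fold
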