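import Pool.Agent.H85.Fold.ModB
import Pool.Agent.H85.Fold.Invol

/-!
# Project FOLD: the main theorem
-/

set_option autoImplicit false

open Finset

namespace Pool.Agent.H85.Fold

open Pool.Agent.H4.Singer

variable {V : Type} [DecidableEq V] [Fintype V]

/-- **The main theorem.** -/
theorem main_fold (G : SimpleGraph V) (n : ℕ) (hG : IsHomologySphere G n) {m₁ m₂ : ℕ}
    (p : V → Fin m₁ → ℤ) (a : V → Fin m₂ → ℤ) (hf : IsFoldZ G n p a) (i : ℕ)
    (hi : n < 2 * i) : L2HomologyZero G i := by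
  intro ν hν z hz hdz ε hε
  obtain ⟨D, _, _, _, A, hA, h⟩ := exists_invol G n hG p a hf ν hν i hi
  exact l2_hodge G ν hν i (harm_of_exact G A hA ν hν i h) z hz hdz ε hε

end Pool.Agent.H85.Fold
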