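import Pool.Agent.H85.Fold.LinkS

/-!
# Project FOLD: links of systems
-/

set_option autoImplicit false

open Finset

namespace Pool.Agent.H85.Fold

variable {V : Type} [DecidableEq V] [Fintype V] {S : Type} [AddCommGroup S] [Module ℝ S]
  {ν : V → ℕ} {G : SimpleGraph V} {e : V → S →ₗ[ℝ] S} {ep : Finset V → S →ₗ[ℝ] S}
  {b : V → V → ℝ} {n : ℕ} {U : Finset V} {M : Submodule ℝ S} {β : S →ₗ[ℝ] S →ₗ[ℝ] ℝ}
  {ε κ : ℝ} {o : Finset V → ℝ}

omit [Fintype V] [DecidableEq V] in
private theorem link_cl_mono {σ τ : Finset V} (h : σ ⊆ τ) (hcl : Cl G τ) : Cl G σ :=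
  fun u hu v hv huv => hcl u (h hu) v (h hv) huv

omit [Fintype V] in
private theorem link_cl_insert_empty (v : V) : Cl G (insert v ∅) := by
  intro u hu w hw huw
  rw [Finset.mem_insert] at hu hw
  rcases hu with rfl | hu
  · rcases hw with rfl | hw
    · exact absurd rfl huw
    · exact absurd hw (Finset.notMem_empty _)
  · exact absurd hu (Finset.notMem_empty _)

omit [Fintype V] in
private theorem link_insert_empty_sub {v : V} (hv : v ∈ U) : insert v ∅ ⊆ U := by
  intro u hu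
  rw [Finset.mem_insert] at hu
  rcases hu with rfl | hu
  · exact hv
  · exact absurd hu (Finset.notMem_empty _)

omit [Fintype V] [DecidableEq V] in
private theorem link_mem_nbr {v u : V} : u ∈ nbr G v U ↔ u ∈ U ∧ G.Adj v u := by
  classical
  unfold nbr
  rw [Finset.mem_filter]

omit [Fintype V] [DecidableEq V] in
private theorem link_sgn_sq (v : V) (σ : Finset V) : sgn ν v σ * sgn ν v σ = 1 := by
  unfold sgn
  rw [← mul_pow]
  norm_num

/-- the operators of a clique anticommute -/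
theorem Sys.anticomm (hs : Sys ν G e ep b n U M β ε κ o) {u v : V} (hu : u ∈ U) (hv : v ∈ U)
    (huv : u = v ∨ G.Adj u v) {x : S} (hx : x ∈ M) : e u (e v x) = -e v (e u x) := by
  have h1 := hs.anti u hu v hv x hx
  rw [hs.b_zero u hu v hv huv, zero_smul] at h1
  exact eq_neg_of_add_eq_zero_left h1

theorem Sys.sq (hs : Sys ν G e ep b n U M β ε κ o) {v : V} (hv : v ∈ U) {x : S} (hx : x ∈ M) :
    e v (e v x) = 0 := by
  have h1 := hs.anti v hv v hv x hx
  rw [hs.b_zero v hv v hv (Or.inl rfl), zero_smul, ← two_smul ℝ] at h1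
  rcases smul_eq_zero.1 h1 with h | h
  · norm_num at h
  · exact h

/-- the operator `e v` maps the kernel of a clique onto the kernel of the clique with `v` -/
theorem Sys.lift (hs : Sys ν G e ep b n U M β ε κ o) {σ : Finset V} {v : V} (hv : v ∉ σ)
    (hσ : insert v σ ⊆ U) (hcl : Cl G (insert v σ)) {x : S} (hx : x ∈ M)
    (hk : ∀ u ∈ insert v σ, e u x = 0) :
    ∃ m ∈ M, (∀ u ∈ σ, e u m = 0) ∧ e v m = x := by
  obtain ⟨w, hwU, hwv, hna, hadj⟩ := hs.sphere.exists_ne hv hσ hcl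
  have hvU : v ∈ U := hσ (Finset.mem_insert_self _ _)
  have hb : b v w < 0 := hs.b_neg v hvU w hwU (Ne.symm hwv) hna
  refine ⟨(b v w)⁻¹ • e w x, M.smul_mem _ (hs.stable w hwU x hx), ?_, ?_⟩
  · intro u hu
    have huU : u ∈ U := hσ (Finset.mem_insert_of_mem hu)
    rw [map_smul, hs.anticomm huU hwU (Or.inr (hadj u hu)) hx,
      hk u (Finset.mem_insert_of_mem hu), map_zero, neg_zero, smul_zero]
  · have h1 := hs.anti v hvU w hwU x hx
    rw [hk v (Finset.mem_insert_self _ _), map_zero, add_zero] at h1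
    rw [map_smul, h1, smul_smul, inv_mul_cancel₀ hb.ne, one_smul]

private theorem Sys.lift0 (hs : Sys ν G e ep b n U M β ε κ o) {v : V} (hv : v ∈ U) {x : S}
    (hx : x ∈ M) (hk : e v x = 0) : ∃ m ∈ M, e v m = x := by
  obtain ⟨m, hm, _, h⟩ := hs.lift (σ := ∅) (Finset.notMem_empty v) (link_insert_empty_sub hv)
    (link_cl_insert_empty v) hx (fun u hu => by
      rw [Finset.mem_insert] at hu
      rcases hu with rfl | hu
      · exact hk
      · exact absurd hu (Finset.notMem_empty _))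
  exact ⟨m, hm, h⟩

/-- the kernel of `e v` is isotropic -/
theorem Sys.orth (hs : Sys ν G e ep b n U M β ε κ o) {v : V} (hv : v ∈ U) {x y : S} (hx : x ∈ M)
    (hy : y ∈ M) (hx0 : e v x = 0) (hy0 : e v y = 0) : β x y = 0 := by
  obtain ⟨m, hm, rfl⟩ := hs.lift0 hv hx hx0
  rw [hs.adj v hv m hm y hy, hy0, map_zero, mul_zero]

private theorem Sys.ep_insert' (hs : Sys ν G e ep b n U M β ε κ o) {v : V} {τ : Finset V}
    (hv : v ∉ τ) (hτ : insert v τ ⊆ U) (hcl : Cl G (insert v τ)) {x : S} (hx : x ∈ M) :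
    ep (insert v τ) x = sgn ν v τ • e v (ep τ x) := by
  rw [hs.ep_insert v τ hv hτ hcl x hx, smul_smul, link_sgn_sq, one_smul]

/-- the products of the operators preserve the module -/
theorem Sys.ep_mem (hs : Sys ν G e ep b n U M β ε κ o) {τ : Finset V} (hτ : τ ⊆ U)
    (hcl : Cl G τ) {x : S} (hx : x ∈ M) : ep τ x ∈ M := by
  induction τ using Finset.induction_on with
  | empty => rw [hs.ep_nil]; exact hx
  | insert v t hv ih =>
    rw [hs.ep_insert' hv hτ hcl hx]
    exact M.smul_mem _ (hs.stable v (hτ (Finset.mem_insert_self _ _)) _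
      (ih ((Finset.subset_insert _ _).trans hτ) (link_cl_mono (Finset.subset_insert _ _) hcl)))

/-- moving `e v` past a product -/
theorem Sys.ep_comm (hs : Sys ν G e ep b n U M β ε κ o) {τ : Finset V} {v : V} (hv : v ∉ τ)
    (hτ : insert v τ ⊆ U) (hcl : Cl G (insert v τ)) {x : S} (hx : x ∈ M) :
    ep τ (e v x) = (-1 : ℝ) ^ τ.card • e v (ep τ x) := by
  have hvU : v ∈ U := hτ (Finset.mem_insert_self _ _)
  induction τ using Finset.induction_on with
  | empty => rw [hs.ep_nil, hs.ep_nil, Finset.card_empty, pow_zero, one_smul]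
  | insert u t hu ih =>
    rw [Finset.mem_insert, not_or] at hv
    obtain ⟨hvu, hvt⟩ := hv
    have hsub : insert v t ⊆ insert v (insert u t) :=
      Finset.insert_subset_insert _ (Finset.subset_insert _ _)
    have hsub2 : insert u t ⊆ insert v (insert u t) := Finset.subset_insert _ _
    have hsub3 : t ⊆ insert v (insert u t) := (Finset.subset_insert _ _).trans hsub2
    have huU : u ∈ U := hτ (hsub2 (Finset.mem_insert_self _ _))
    have hadj : G.Adj u v := hcl u (hsub2 (Finset.mem_insert_self _ _)) v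
      (Finset.mem_insert_self _ _) (Ne.symm hvu)
    have hm : ep t x ∈ M := hs.ep_mem (hsub3.trans hτ) (link_cl_mono hsub3 hcl) hx
    rw [hs.ep_insert' hu (hsub2.trans hτ) (link_cl_mono hsub2 hcl) (hs.stable v hvU x hx),
      hs.ep_insert' hu (hsub2.trans hτ) (link_cl_mono hsub2 hcl) hx,
      ih hvt (hsub.trans hτ) (link_cl_mono hsub hcl), map_smul,
      hs.anticomm huU hvU (Or.inr hadj) hm, Finset.card_insert_of_notMem hu, map_smul,
      smul_neg, smul_neg, smul_smul, smul_smul, pow_succ, ← neg_smul]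
    congr 1
    ring

/-- the form on a link exists -/
theorem Sys.exists_lf (hs : Sys ν G e ep b n U M β ε κ o) {v : V} (hv : v ∈ U) :
    ∃ β' : S →ₗ[ℝ] S →ₗ[ℝ] ℝ, IsLF e M v β β' := by
  obtain ⟨w, hwU, hwv, hna, _⟩ := hs.sphere.exists_ne (Finset.notMem_empty v)
    (link_insert_empty_sub hv) (link_cl_insert_empty v)
  have hb : b v w < 0 := hs.b_neg v hv w hwU (Ne.symm hwv) hna
  refine ⟨(b v w)⁻¹ • (β ∘ₗ e w), fun m hm y hy hy0 => ?_⟩
  have h1 : e w (e v m) = b v w • m - e v (e w m) := by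
    have := hs.anti v hv w hwU m hm
    rw [← this]
    abel
  have h2 : β (e v (e w m)) y = 0 := by
    rw [hs.adj v hv (e w m) (hs.stable w hwU m hm) y hy, hy0, map_zero, mul_zero]
  rw [LinearMap.smul_apply, LinearMap.smul_apply, LinearMap.comp_apply, h1, map_sub,
    LinearMap.sub_apply, h2, sub_zero, map_smul, LinearMap.smul_apply, smul_smul,
    inv_mul_cancel₀ hb.ne, one_smul]

/-- the link of a system is a system -/
theorem Sys.link (hs : Sys ν G e ep b (n + 1) U M β ε κ o) {v : V} (hv : v ∈ U)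
    {β' : S →ₗ[ℝ] S →ₗ[ℝ] ℝ} (hβ' : IsLF e M v β β') :
    Sys ν G e ep b n (nbr G v U) (Mk e M v) β' (-ε) (κ * (-1) ^ n) (linkO ν v o) := by
  have hsub : nbr G v U ⊆ U := fun u hu => (link_mem_nbr.1 hu).1
  have hMk : ∀ {x : S}, x ∈ Mk e M v ↔ x ∈ M ∧ e v x = 0 := by
    intro x
    unfold Mk
    rw [Submodule.mem_inf, LinearMap.mem_ker]
  have hker : ∀ u ∈ nbr G v U, ∀ x ∈ M, e v x = 0 → e v (e u x) = 0 := by
    intro u hu x hx h0
    rw [hs.anticomm hv (hsub hu) (Or.inr (link_mem_nbr.1 hu).2) hx, h0, map_zero, neg_zero]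
  refine
    { inj := hs.inj
      ε_sq := by rw [neg_mul_neg]; exact hs.ε_sq
      κ_sq := ?_
      stable := ?_
      anti := ?_
      b_symm := hs.b_symm
      b_zero := fun u hu w hw h => hs.b_zero u (hsub hu) w (hsub hw) h
      b_neg := fun u hu w hw h h' => hs.b_neg u (hsub hu) w (hsub hw) h h'
      adj := ?_
      nondeg := ?_
      sphere := IsSphere.link hs.inj hs.sphere hv
      ep_nil := hs.ep_nil
      ep_insert := ?_
      pos := ?_ }
  · have h1 : ((-1 : ℝ) ^ n) * ((-1) ^ n) = 1 := by rw [← mul_pow]; norm_num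
    calc κ * (-1) ^ n * (κ * (-1) ^ n) = (κ * κ) * ((-1 : ℝ) ^ n * (-1) ^ n) := by ring
      _ = 1 := by rw [hs.κ_sq, h1, one_mul]
  · intro u hu x hx
    rw [hMk] at hx ⊢
    exact ⟨hs.stable u (hsub hu) x hx.1, hker u hu x hx.1 hx.2⟩
  · intro u hu w hw x hx
    exact hs.anti u (hsub hu) w (hsub hw) x (hMk.1 hx).1
  · intro u hu x hx y hy
    rw [hMk] at hx hy
    obtain ⟨m, hm, rfl⟩ := hs.lift0 hv hx.1 hx.2
    have huU := hsub hu
    have hadj := (link_mem_nbr.1 hu).2
    rw [hs.anticomm huU hv (Or.inr hadj.symm) hm, map_neg, LinearMap.neg_apply,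
      hβ' (e u m) (hs.stable u huU m hm) y hy.1 hy.2, hs.adj u huU m hm y hy.1,
      hβ' m hm (e u y) (hs.stable u huU y hy.1) (hker u hu y hy.1 hy.2)]
    ring
  · intro y hy hβy
    rw [hMk] at hy
    refine hs.nondeg y hy.1 fun m hm => ?_
    have h1 := hβy (e v m) (hMk.2 ⟨hs.stable v hv m hm, hs.sq hv hm⟩)
    rwa [hβ' m hm y hy.1 hy.2] at h1
  · intro w τ hw hτ hcl x hx
    exact hs.ep_insert w τ hw (hτ.trans hsub) hcl x (hMk.1 hx).1
  · intro τ hτ hcl hcard x hx
    rw [hMk] at hx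
    obtain ⟨m, hm, rfl⟩ := hs.lift0 hv hx.1 hx.2
    have hvτ : v ∉ τ := fun h => G.loopless.irrefl v (link_mem_nbr.1 (hτ h)).2
    have hτU : insert v τ ⊆ U := Finset.insert_subset hv (hτ.trans hsub)
    have hclv : Cl G (insert v τ) := by
      intro u hu w hw huw
      rw [Finset.mem_insert] at hu hw
      rcases hu with rfl | hu
      · rcases hw with rfl | hw
        · exact absurd rfl huw
        · exact (link_mem_nbr.1 (hτ hw)).2
      · rcases hw with rfl | hw
        · exact (link_mem_nbr.1 (hτ hu)).2.symm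
        · exact hcl u hu w hw huw
    have hcardv : (insert v τ).card = n + 1 := by
      rw [Finset.card_insert_of_notMem hvτ, hcard]
    have hmem : ep τ m ∈ M := hs.ep_mem (hτ.trans hsub) hcl hm
    have hep : ep τ (e v m) = ((-1 : ℝ) ^ n * sgn ν v τ) • ep (insert v τ) m := by
      rw [hs.ep_comm hvτ hτU hclv hm, hcard, hs.ep_insert v τ hvτ hτU hclv m hm, smul_smul]
    have hyM : ep τ (e v m) ∈ M := hs.ep_mem (hτ.trans hsub) hcl hx.1
    have hy0 : e v (ep τ (e v m)) = 0 := by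
      rw [hs.ep_comm hvτ hτU hclv hm, map_smul, hs.sq hv hmem, smul_zero]
    have hval : β' (e v m) (ep τ (e v m)) =
        ((-1 : ℝ) ^ n * sgn ν v τ) * β m (ep (insert v τ) m) := by
      rw [hβ' m hm _ hyM hy0, hep, map_smul, smul_eq_mul]
    obtain ⟨p1, p2⟩ := hs.pos (insert v τ) hτU hclv hcardv m hm
    have hnn : ((-1 : ℝ) ^ n) * ((-1) ^ n) = 1 := by rw [← mul_pow]; norm_num
    have hss := link_sgn_sq (ν := ν) v τ
    refine ⟨?_, fun h0 => ?_⟩
    · rw [hval]
      unfold linkO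
      calc (0 : ℝ) ≤ κ * o (insert v τ) * β m (ep (insert v τ) m) := p1
        _ = (((-1 : ℝ) ^ n) * ((-1) ^ n)) * (sgn ν v τ * sgn ν v τ) *
            (κ * o (insert v τ) * β m (ep (insert v τ) m)) := by rw [hnn, hss]; ring
        _ = _ := by ring
    · rw [hval] at h0
      have hne : (-1 : ℝ) ^ n * sgn ν v τ ≠ 0 := by
        intro h
        have : ((-1 : ℝ) ^ n * sgn ν v τ) * ((-1 : ℝ) ^ n * sgn ν v τ) = 1 := by
          calc _ = (((-1 : ℝ) ^ n) * ((-1) ^ n)) * (sgn ν v τ * sgn ν v τ) := by ring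
            _ = 1 := by rw [hnn, hss, one_mul]
        rw [h, mul_zero] at this
        exact zero_ne_one this
      rw [hep, p2 ((mul_eq_zero.1 h0).resolve_left hne), smul_zero]

/-- the two forms on a double link -/
theorem Sys.lf_swap (hs : Sys ν G e ep b n U M β ε κ o) {u v : V} (hu : u ∈ U) (hv : v ∈ U)
    (huv : G.Adj u v) {βu βv βuv βvu : S →ₗ[ℝ] S →ₗ[ℝ] ℝ} (h1 : IsLF e M u β βu)
    (h2 : IsLF e M v β βv) (h3 : IsLF e (Mk e M u) v βu βuv) (h4 : IsLF e (Mk e M v) u βv βvu)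
    {x y : S} (hx : x ∈ Mk e (Mk e M u) v) (hy : y ∈ Mk e (Mk e M u) v) :
    βuv x y = -βvu x y := by
  unfold Mk at hx hy
  rw [Submodule.mem_inf, Submodule.mem_inf, LinearMap.mem_ker, LinearMap.mem_ker] at hx hy
  obtain ⟨⟨hxM, hxu⟩, hxv⟩ := hx
  obtain ⟨⟨hyM, hyu⟩, hyv⟩ := hy
  have hne : v ≠ u := huv.ne.symm
  have hvs : v ∉ ({u} : Finset V) := by rwa [Finset.mem_singleton]
  have hsub : insert v ({u} : Finset V) ⊆ U := by
    intro w hw
    rw [Finset.mem_insert, Finset.mem_singleton] at hw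
    rcases hw with rfl | rfl
    · exact hv
    · exact hu
  have hcl : Cl G (insert v ({u} : Finset V)) := by
    intro a ha c hc hac
    rw [Finset.mem_insert, Finset.mem_singleton] at ha hc
    rcases ha with rfl | rfl
    · rcases hc with rfl | rfl
      · exact absurd rfl hac
      · exact huv.symm
    · rcases hc with rfl | rfl
      · exact huv
      · exact absurd rfl hac
  obtain ⟨m₁, hm₁, hk₁, rfl⟩ := hs.lift hvs hsub hcl hxM (fun w hw => by
    rw [Finset.mem_insert, Finset.mem_singleton] at hw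
    rcases hw with rfl | rfl
    · exact hxv
    · exact hxu)
  obtain ⟨m, hm, rfl⟩ := hs.lift0 hu hm₁ (hk₁ u (Finset.mem_singleton_self u))
  have mem : ∀ (w : V) (z : S), z ∈ M → e w z = 0 → z ∈ Mk e M w := by
    intro w z hz h0
    unfold Mk
    rw [Submodule.mem_inf, LinearMap.mem_ker]
    exact ⟨hz, h0⟩
  have e1 : βuv (e v (e u m)) y = β m y := by
    rw [h3 (e u m) (mem u _ hm₁ (hs.sq hu hm)) y (mem u y hyM hyu) hyv, h1 m hm y hyM hyu]
  have e2 : βvu (e v (e u m)) y = -β m y := by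
    rw [hs.anticomm hv hu (Or.inr huv.symm) hm, map_neg, LinearMap.neg_apply,
      h4 (e v m) (mem v _ (hs.stable v hv m hm) (hs.sq hv hm)) y (mem v y hyM hyv) hyu,
      h2 m hm y hyM hyv]
  rw [e1, e2, neg_neg]

end Pool.Agent.H85.Fold
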