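import Pool.Agent.H85.Fold.ModM
import Pool.Agent.H85.Fold.RankDrop

/-!
# Project FOLD: twisted homology modulo a prime
-/

set_option autoImplicit false

open Finset

namespace Pool.Agent.H85.Fold

variable {V D : Type} [DecidableEq V] [Fintype V] [Fintype D] [DecidableEq D]

/-- **Twisted homology modulo a prime.** -/
theorem tw_drop (G : SimpleGraph V) (A : V → Matrix D D ℤ) (hA : IsInvol G A) (ν : V → ℕ)
    (i : ℕ) :
    ∃ C : ℕ, 1 ≤ C ∧ ∀ (Ω : Type) [Fintype Ω] (s : V → Ω → Ω), IsAct G s →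
      TZ ℝ G A s ν i ≤ TB ℝ G A s ν i → ∀ (p : ℕ) [Fact p.Prime],
        p ^ (Module.finrank (ZMod p) (TZ (ZMod p) G A s ν i) -
          Module.finrank (ZMod p) (TB (ZMod p) G A s ν i)) ≤ C ^ Fintype.card Ω := by
  obtain ⟨C, R, hC1, H⟩ := exists_mats G A hA ν i
  refine ⟨C ^ (2 * R), Nat.one_le_pow _ _ hC1, ?_⟩
  intro Ω _ s hs hle p hp
  obtain ⟨m₁, n₁, m₂, n₂, _, _, _, _, A₁, A₂, hm1, hm2, h1, h2, hK, hR⟩ := H Ω s hs
  obtain ⟨a1, _⟩ := hK ℝ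
  obtain ⟨b1, b2⟩ := hK (ZMod p)
  have hmono : Module.finrank ℝ (TZ ℝ G A s ν i) ≤ Module.finrank ℝ (TB ℝ G A s ν i) :=
    Submodule.finrank_mono hle
  have d1 := rank_drop A₁ C hC1 h1 p
  have d2 := rank_drop A₂ C hC1 h2 p
  rw [hR] at hmono
  have hexp : Module.finrank (ZMod p) (TZ (ZMod p) G A s ν i) -
      Module.finrank (ZMod p) (TB (ZMod p) G A s ν i) ≤
      ((A₁.map (Int.cast : ℤ → ℝ)).rank - (A₁.map (Int.cast : ℤ → ZMod p)).rank) +
      ((A₂.map (Int.cast : ℤ → ℝ)).rank - (A₂.map (Int.cast : ℤ → ZMod p)).rank) := by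
    omega
  have hp1 : 1 ≤ p := hp.out.one_lt.le
  calc p ^ (Module.finrank (ZMod p) (TZ (ZMod p) G A s ν i) -
          Module.finrank (ZMod p) (TB (ZMod p) G A s ν i))
      ≤ p ^ (((A₁.map (Int.cast : ℤ → ℝ)).rank - (A₁.map (Int.cast : ℤ → ZMod p)).rank) +
        ((A₂.map (Int.cast : ℤ → ℝ)).rank - (A₂.map (Int.cast : ℤ → ZMod p)).rank)) :=
        Nat.pow_le_pow_right hp1 hexp
    _ = p ^ ((A₁.map (Int.cast : ℤ → ℝ)).rank - (A₁.map (Int.cast : ℤ → ZMod p)).rank) *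
        p ^ ((A₂.map (Int.cast : ℤ → ℝ)).rank - (A₂.map (Int.cast : ℤ → ZMod p)).rank) :=
        pow_add _ _ _
    _ ≤ C ^ Fintype.card m₁ * C ^ Fintype.card m₂ := Nat.mul_le_mul d1 d2
    _ ≤ C ^ (R * Fintype.card Ω) * C ^ (R * Fintype.card Ω) :=
        Nat.mul_le_mul (Nat.pow_le_pow_right hC1 hm1) (Nat.pow_le_pow_right hC1 hm2)
    _ = (C ^ (2 * R)) ^ Fintype.card Ω := by
        rw [← pow_add, ← pow_mul]
        congr 1
        ring

end Pool.Agent.H85.Fold
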