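import Pool.Agent.H85.Fold.ModDefs

/-!
# Project FOLD: trivialization of the coefficients
-/

set_option autoImplicit false

open Finset

namespace Pool.Agent.H85.Fold

open Pool.Agent.H4.Singer (ColGraph InvAct Zc Bc bet)

variable {V C D : Type} [DecidableEq V] [Fintype V] [DecidableEq C] [Fintype D] [DecidableEq D]

section Triv

variable {P : Type} [Group P] {K : Type} [Field K]

/-- the component `d` of the trivialized function -/
private def slc (r : P →* Matrix D D K) (d : D) (f : Finset V → P → D → K) : Finset V → P → K :=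
  fun σ x => (r x).mulVec (f σ x) d

omit [DecidableEq V] [Fintype V] in
private theorem mv_inv (r : P →* Matrix D D K) (x : P) (w : D → K) :
    (r x⁻¹).mulVec ((r x).mulVec w) = w := by
  rw [Matrix.mulVec_mulVec, ← map_mul, inv_mul_cancel, map_one, Matrix.one_mulVec]

omit [DecidableEq V] [Fintype V] in
private theorem mv_inv' (r : P →* Matrix D D K) (x : P) (w : D → K) :
    (r x).mulVec ((r x⁻¹).mulVec w) = w := by
  rw [Matrix.mulVec_mulVec, ← map_mul, mul_inv_cancel, map_one, Matrix.one_mulVec]

private theorem finrank_slc (r : P →* Matrix D D K) [Fintype P]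
    (S : Submodule K (Finset V → P → D → K)) (T : Submodule K (Finset V → P → K))
    (h : ∀ f, f ∈ S ↔ ∀ d, slc r d f ∈ T) :
    Module.finrank K S = Fintype.card D * Module.finrank K T := by
  have hs : ∀ (g : D → Finset V → P → K) (d : D),
      slc r d (fun σ x => (r x⁻¹).mulVec (fun d => g d σ x)) = g d := by
    intro g d
    funext σ x
    show (r x).mulVec ((r x⁻¹).mulVec (fun d => g d σ x)) d = g d σ x
    rw [mv_inv']
  let e : S ≃ₗ[K] (D → T) :=
    { toFun := fun f d => ⟨slc r d f.1, (h f.1).1 f.2 d⟩
      map_add' := fun f g => by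
        funext d
        apply Subtype.ext
        funext σ x
        show (r x).mulVec ((f.1 + g.1) σ x) d = (r x).mulVec (f.1 σ x) d +
          (r x).mulVec (g.1 σ x) d
        rw [Pi.add_apply, Pi.add_apply, Matrix.mulVec_add, Pi.add_apply]
      map_smul' := fun c f => by
        funext d
        apply Subtype.ext
        funext σ x
        show (r x).mulVec ((c • f.1) σ x) d = c • (r x).mulVec (f.1 σ x) d
        rw [Pi.smul_apply, Pi.smul_apply, Matrix.mulVec_smul, Pi.smul_apply]
      invFun := fun g => ⟨fun σ x => (r x⁻¹).mulVec (fun d => (g d).1 σ x),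
        (h _).2 fun d => by
          rw [hs (fun d => (g d).1) d]
          exact (g d).2⟩
      left_inv := fun f => by
        apply Subtype.ext
        funext σ x
        exact mv_inv r x (f.1 σ x)
      right_inv := fun g => by
        funext d
        apply Subtype.ext
        exact hs (fun d => (g d).1) d }
  rw [e.finrank_eq, Module.finrank_pi_fintype, Finset.sum_const, Finset.card_univ, smul_eq_mul]

private theorem slc_tdl (r : P →* Matrix D D K) (ν : V → ℕ) (d : D) (f : Finset V → P → D → K) :
    slc r d (tdl K ν f) = Pool.Agent.H4.Singer.dl K ν (slc r d f) := by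
  funext τ x
  show (r x).mulVec (∑ v ∈ τᶜ, (Pool.Agent.H4.Singer.sg ν v τ : K) • f (insert v τ) x) d =
    ∑ v ∈ τᶜ, (Pool.Agent.H4.Singer.sg ν v τ : K) * (r x).mulVec (f (insert v τ) x) d
  rw [Matrix.mulVec_sum, Finset.sum_apply]
  exact Finset.sum_congr rfl fun v _ => by
    rw [Matrix.mulVec_smul, Pi.smul_apply, smul_eq_mul]

end Triv

/-- **Trivialization.** If the finite group `P` acts on the coefficients, the twisted homology of
`P` is a sum of copies of the untwisted homology. -/
theorem tw_triv {G : SimpleGraph V} {Γ : ColGraph V C} (hG : ∀ u v, G.Adj u v ↔ Γ.adj u v)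
    (A : V → Matrix D D ℤ) (hA : IsInvol G A) {P : Type} [Group P] [Fintype P] (g : V → P)
    (XP : InvAct Γ P) (hXP : ∀ v x, XP.s v x = x * g v) (K : Type) [Field K]
    (r : P →* Matrix D D K) (hr : ∀ v, r (g v) = (A v).map (Int.cast : ℤ → K)) (ν : V → ℕ)
    (i : ℕ) :
    Module.finrank K (TZ K G A XP.s ν i) = Fintype.card D * Module.finrank K (Zc K XP ν i) ∧
      Module.finrank K (TB K G A XP.s ν i) =
        Fintype.card D * Module.finrank K (Bc K XP ν i) := by
  have hAA : ∀ v, ((A v).map (Int.cast : ℤ → K)) * ((A v).map (Int.cast : ℤ → K)) = 1 := by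
    intro v
    have h1 := congrArg (fun M : Matrix D D ℤ => M.map (Int.castRingHom K)) (hA.sq v)
    simp only [Matrix.map_mul] at h1
    rw [Matrix.map_one _ (map_zero _) (map_one _)] at h1
    exact h1
  have hgi : ∀ v, r (g v)⁻¹ = (A v).map (Int.cast : ℤ → K) := by
    intro v
    have h1 : r (g v)⁻¹ * r (g v) = 1 := by rw [← map_mul, inv_mul_cancel, map_one]
    calc r (g v)⁻¹ = r (g v)⁻¹ * (r (g v) * r (g v)) := by rw [hr, hAA, mul_one]
      _ = r (g v) := by rw [← mul_assoc, h1, one_mul]
      _ = _ := hr v
  have hCl : ∀ σ, Cl G σ ↔ Γ.Cl σ := by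
    intro σ
    constructor
    · intro h u hu v hv huv
      exact (hG u v).1 (h u hu v hv huv)
    · intro h u hu v hv huv
      exact (hG u v).2 (h u hu v hv huv)
  have hCh : ∀ j (f : Finset V → P → D → K), f ∈ TCh K G A XP.s j ↔
      ∀ d, slc r d f ∈ Pool.Agent.H4.Singer.Ch K XP j := by
    intro j f
    constructor
    · rintro ⟨h1, h2⟩ d
      refine ⟨fun σ x hne => ?_, fun σ v hv x => ?_⟩
      · have h3 : f σ x ≠ 0 := by
          intro h0
          apply hne
          show (r x).mulVec (f σ x) d = 0
          rw [h0, Matrix.mulVec_zero]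
          rfl
        exact ⟨(hCl σ).1 (h1 σ x h3).1, (h1 σ x h3).2⟩
      · show (r (XP.s v x)).mulVec (f σ (XP.s v x)) d = - (r x).mulVec (f σ x) d
        rw [h2 σ v hv x, hXP, map_mul, hr, mact, Matrix.mulVec_neg, Matrix.mulVec_mulVec,
          mul_assoc, hAA, mul_one]
        rfl
    · intro h
      refine ⟨fun σ x hne => ?_, fun σ v hv x => ?_⟩
      · have h3 : (r x).mulVec (f σ x) ≠ 0 := by
          intro h0
          apply hne
          have := mv_inv r x (f σ x)
          rw [h0, Matrix.mulVec_zero] at this
          exact this.symm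
        obtain ⟨d, hd⟩ := Function.ne_iff.1 h3
        obtain ⟨h4, h5⟩ := (h d).1 σ x hd
        exact ⟨(hCl σ).2 h4, h5⟩
      · have h3 : (r (XP.s v x)).mulVec (f σ (XP.s v x)) = - (r x).mulVec (f σ x) := by
          funext d
          exact (h d).2 σ v hv x
        have h4 := mv_inv r (XP.s v x) (f σ (XP.s v x))
        rw [h3, hXP, mul_inv_rev, map_mul, hgi, Matrix.mulVec_neg, ← Matrix.mulVec_mulVec,
          mv_inv] at h4
        rw [hXP]
        exact h4.symm
  constructor
  · refine finrank_slc r _ _ fun f => ?_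
    constructor
    · intro hf d
      refine ⟨(hCh i f).1 hf.1 d, ?_⟩
      show Pool.Agent.H4.Singer.dl K ν (slc r d f) = 0
      rw [← slc_tdl, show tdl K ν f = 0 from hf.2]
      funext σ x
      show (r x).mulVec 0 d = 0
      rw [Matrix.mulVec_zero]
      rfl
    · intro hf
      refine ⟨(hCh i f).2 fun d => (hf d).1, ?_⟩
      show tdl K ν f = 0
      funext σ x
      have h1 : (r x).mulVec (tdl K ν f σ x) = 0 := by
        funext d
        have h2 : Pool.Agent.H4.Singer.dl K ν (slc r d f) = 0 := (hf d).2
        rw [← slc_tdl] at h2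
        exact congrFun (congrFun h2 σ) x
      have h2 := mv_inv r x (tdl K ν f σ x)
      rw [h1, Matrix.mulVec_zero] at h2
      exact h2.symm
  · refine finrank_slc r _ _ fun f => ?_
    constructor
    · rintro ⟨k, hk, rfl⟩ d
      exact ⟨slc r d k, (hCh (i + 1) k).1 hk d, (slc_tdl r ν d k).symm⟩
    · intro hf
      choose k hk hk' using hf
      have hs : ∀ d : D, slc r d (fun σ x => (r x⁻¹).mulVec (fun d => k d σ x)) = k d := by
        intro d
        funext σ x
        show (r x).mulVec ((r x⁻¹).mulVec (fun d => k d σ x)) d = k d σ x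
        rw [mv_inv']
      refine ⟨fun σ x => (r x⁻¹).mulVec (fun d => k d σ x), (hCh (i + 1) _).2 fun d => ?_, ?_⟩
      · rw [hs]; exact hk d
      · funext σ x
        have h1 : (r x).mulVec (tdl K ν (fun σ x => (r x⁻¹).mulVec (fun d => k d σ x)) σ x) =
            (r x).mulVec (f σ x) := by
          funext d
          have h2 := slc_tdl r ν d (fun σ x => (r x⁻¹).mulVec (fun d => k d σ x))
          rw [hs, hk' d] at h2
          exact congrFun (congrFun h2 σ) x
        have h2 := congrArg (fun w => (r x⁻¹).mulVec w) h1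
        simp only [mv_inv] at h2
        exact h2

end Pool.Agent.H85.Fold
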