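import Pool.Agent.H85.Fold.ModA
import Pool.Agent.H85.Fold.Triv
import Pool.Agent.H85.Fold.Levels
import Pool.Agent.H4.Singer.Core

/-!
# Project FOLD: from twisted exactness to `ℓ²`-homology
-/

set_option autoImplicit false

open Finset Filter

namespace Pool.Agent.H85.Fold

open Pool.Agent.H4.Singer

variable {V D : Type} [DecidableEq V] [Fintype V] [Fintype D] [DecidableEq D]

/-- **From twisted exactness to harmonic chains.** -/
theorem harm_of_exact (G : SimpleGraph V) (A : V → Matrix D D ℤ) (hA : IsInvol G A)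
    [Nonempty D] (ν : V → ℕ) (hν : Function.Injective ν) (i : ℕ)
    (h : ∀ (Ω : Type) [Fintype Ω] (s : V → Ω → Ω), IsAct G s →
      TZ ℝ G A s ν i ≤ TB ℝ G A s ν i) :
    ∀ x : Finset V → RGrp G → ℂ, IsHarm G ν i x → x = 0 := by
  classical
  obtain ⟨C, hC1, hC⟩ := tw_drop G A hA ν i
  obtain ⟨q, P, grp, fin, π, XP, r, hq, hsep, hs, hr⟩ := exists_levels_p G A hA
  obtain ⟨k, n, M, hM, hdim⟩ := exists_harm_matrix G (selfCol G) (fun _ _ => Iff.rfl) ν hν i
  refine hM (l2ker_trivial π hsep M ?_)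
  intro η hη
  have hD : 1 ≤ Fintype.card D := Fintype.card_pos
  have hbd : ∀ j, 2 ≤ j →
      (bet ℂ (XP j) ν i : ℝ) ≤ Real.log C / Real.log j * Fintype.card (P j) := by
    intro j hj
    haveI : Fact (q j).Prime := ⟨(hq j).1⟩
    have h1 : bet ℂ (XP j) ν i ≤ bet (ZMod (q j)) (XP j) ν i :=
      bet_complex_le (XP j) ν hν i (ZMod (q j))
    have hact : IsAct G (XP j).s := ⟨(XP j).invol, (XP j).comm⟩
    obtain ⟨hZ, hB⟩ := tw_triv (G := G) (Γ := selfCol G) (fun _ _ => Iff.rfl) A hA
      (fun v => π j (gen G v)) (XP j) (fun v x => hs j v x) (ZMod (q j)) (r j) (hr j) ν i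
    have h2 := hC (P j) (XP j).s hact (h (P j) (XP j).s hact) (q j)
    rw [hZ, hB, ← Nat.mul_sub] at h2
    have h3 : (q j : ℝ) ^ (Fintype.card D * bet (ZMod (q j)) (XP j) ν i) ≤
        (C : ℝ) ^ Fintype.card (P j) := by exact_mod_cast h2
    have hj1 : (1 : ℝ) < j := by exact_mod_cast hj
    have hjq : (j : ℝ) ≤ q j := by exact_mod_cast (hq j).2
    have hlj : 0 < Real.log j := Real.log_pos hj1
    have hlq : Real.log j ≤ Real.log (q j) := Real.log_le_log (by linarith) hjq
    have hq0 : (0 : ℝ) < q j := by linarith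
    have h4 := Real.log_le_log (pow_pos hq0 _) h3
    rw [Real.log_pow, Real.log_pow] at h4
    push_cast at h4
    have h5 : (bet ℂ (XP j) ν i : ℝ) ≤ Fintype.card D * bet (ZMod (q j)) (XP j) ν i := by
      have : bet ℂ (XP j) ν i ≤ Fintype.card D * bet (ZMod (q j)) (XP j) ν i :=
        h1.trans (Nat.le_mul_of_pos_left _ hD)
      exact_mod_cast this
    have h6 : (bet ℂ (XP j) ν i : ℝ) * Real.log j ≤ Fintype.card (P j) * Real.log C := by
      refine le_trans ?_ h4
      exact mul_le_mul h5 hlq hlj.le (by positivity)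
    rw [div_mul_eq_mul_div, le_div_iff₀ hlj]
    linarith
  have hlim : Tendsto (fun j : ℕ => Real.log C / Real.log j) atTop (nhds 0) :=
    Tendsto.div_atTop tendsto_const_nhds
      (Real.tendsto_log_atTop.comp tendsto_natCast_atTop_atTop)
  filter_upwards [hlim.eventually (eventually_le_nhds hη), eventually_ge_atTop 2] with j hj hj2
  refine (hdim (P j) (π j) (XP j) (hs j)).trans ((hbd j hj2).trans ?_)
  exact mul_le_mul_of_nonneg_right hj (Nat.cast_nonneg _)

end Pool.Agent.H85.Fold
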