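import Pool.Agent.H85.Fold.TwDefs
import Pool.Agent.H4.Singer.ActBasic

/-!
# Project FOLD: twisted chains over arbitrary fields
-/

set_option autoImplicit false

open Finset

namespace Pool.Agent.H85.Fold

open Pool.Agent.H4.Singer (sg)

section

variable (K : Type) [Field K] {V D Ω : Type} [DecidableEq V] [Fintype V] [Fintype D]
  [DecidableEq D]

/-- the action of an integer matrix on vectors over `K` -/
def mact (M : Matrix D D ℤ) (x : D → K) : D → K := (M.map (Int.cast : ℤ → K)).mulVec x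

/-- twisted chains of degree `i` over `K` -/
def TCh (G : SimpleGraph V) (A : V → Matrix D D ℤ) (s : V → Ω → Ω) (i : ℕ) :
    Submodule K (Finset V → Ω → D → K) where
  carrier := {f | (∀ σ ω, f σ ω ≠ 0 → Cl G σ ∧ σ.card = i) ∧
    ∀ σ, ∀ v ∈ σ, ∀ ω, f σ (s v ω) = -mact K (A v) (f σ ω)}
  zero_mem' := by
    refine ⟨fun σ ω h => absurd rfl h, fun σ v _ ω => by simp [mact]⟩
  add_mem' := by
    rintro f g ⟨h1, h2⟩ ⟨h3, h4⟩
    refine ⟨fun σ ω h => ?_, fun σ v hv ω => ?_⟩
    · by_cases hf : f σ ω = 0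
      · by_cases hg : g σ ω = 0
        · exact absurd (by simp [hf, hg]) h
        · exact h3 σ ω hg
      · exact h1 σ ω hf
    · simp only [Pi.add_apply]
      rw [h2 σ v hv ω, h4 σ v hv ω]
      simp only [mact, Matrix.mulVec_add]
      abel
  smul_mem' := by
    rintro c f ⟨h1, h2⟩
    refine ⟨fun σ ω h => h1 σ ω ?_, fun σ v hv ω => ?_⟩
    · intro h0
      exact h (by simp [h0])
    · simp only [Pi.smul_apply]
      rw [h2 σ v hv ω]
      simp only [mact, Matrix.mulVec_smul, smul_neg]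

/-- the boundary operator -/
def tdl (ν : V → ℕ) : (Finset V → Ω → D → K) →ₗ[K] (Finset V → Ω → D → K) where
  toFun f τ ω := ∑ v ∈ τᶜ, (sg ν v τ : K) • f (insert v τ) ω
  map_add' f g := by
    funext τ ω
    simp [smul_add, Finset.sum_add_distrib]
  map_smul' c f := by
    funext τ ω
    simp only [Pi.smul_apply, RingHom.id_apply, Finset.smul_sum]
    exact Finset.sum_congr rfl fun v _ => by rw [smul_comm]

/-- cycles -/
def TZ (G : SimpleGraph V) (A : V → Matrix D D ℤ) (s : V → Ω → Ω) (ν : V → ℕ) (i : ℕ) :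
    Submodule K (Finset V → Ω → D → K) := TCh K G A s i ⊓ LinearMap.ker (tdl K ν)

/-- boundaries -/
def TB (G : SimpleGraph V) (A : V → Matrix D D ℤ) (s : V → Ω → Ω) (ν : V → ℕ) (i : ℕ) :
    Submodule K (Finset V → Ω → D → K) := (TCh K G A s (i + 1)).map (tdl K ν)

end

/-- commuting integer involutions -/
structure IsInvol {V D : Type} [Fintype D] [DecidableEq D] (G : SimpleGraph V)
    (A : V → Matrix D D ℤ) : Prop where
  sq : ∀ v, A v * A v = 1
  comm : ∀ u v, G.Adj u v → A u * A v = A v * A u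

end Pool.Agent.H85.Fold
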