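import Pool.Agent.H85.Fold.ModDefs

/-!
# Project FOLD: integer matrices for the twisted homology
-/

set_option autoImplicit false
set_option linter.unusedSectionVars false

open Finset

namespace Pool.Agent.H85.Fold

open Pool.Agent.H4.Singer (sg)

namespace ModM

/-! ## Matrices of natural families of linear maps -/

section Nat

variable {m n : Type} [Fintype n] [DecidableEq n]

/-- the matrix of a natural family of linear maps -/
theorem map_toMatrix (L : ∀ (R : Type) [CommRing R], (n → R) →ₗ[R] (m → R))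
    (hL : ∀ (R : Type) [CommRing R] (x : n → ℤ) (j : m),
      L R (fun k => (x k : R)) j = ((L ℤ x j : ℤ) : R)) (K : Type) [Field K] :
    (LinearMap.toMatrix' (L ℤ)).map (Int.cast : ℤ → K) = LinearMap.toMatrix' (L K) := by
  ext j k
  rw [Matrix.map_apply, LinearMap.toMatrix'_apply, LinearMap.toMatrix'_apply, ← hL]
  have h1 : (fun k' => (((Pi.single k 1 : n → ℤ) k' : ℤ) : K)) = Pi.single k 1 := by
    funext k'
    by_cases h : k' = k
    · simp [h]
    · simp [h]
  rw [h1]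

/-- the rank of the matrix of a natural family of linear maps -/
theorem rank_eq (L : ∀ (R : Type) [CommRing R], (n → R) →ₗ[R] (m → R))
    (hL : ∀ (R : Type) [CommRing R] (x : n → ℤ) (j : m),
      L R (fun k => (x k : R)) j = ((L ℤ x j : ℤ) : R)) (K : Type) [Field K] :
    ((LinearMap.toMatrix' (L ℤ)).map (Int.cast : ℤ → K)).rank =
      Module.finrank K (LinearMap.range (L K)) := by
  rw [map_toMatrix L hL K, Matrix.rank, ← Matrix.toLin'_apply', Matrix.toLin'_toMatrix']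

/-- a bound for the rows of a matrix -/
theorem row_bound (L : (n → ℤ) →ₗ[ℤ] (m → ℤ)) (C : ℤ)
    (h : ∀ x : n → ℤ, (∀ k, |x k| ≤ 1) → ∀ j, |L x j| ≤ C) (j : m) :
    ∑ k, |LinearMap.toMatrix' L j k| ≤ C := by
  set x : n → ℤ := fun k => if 0 ≤ LinearMap.toMatrix' L j k then 1 else -1 with hx
  have h1 : ∑ k, |LinearMap.toMatrix' L j k| = L x j := by
    have h2 : L x = (LinearMap.toMatrix' L).mulVec x := by
      rw [← Matrix.toLin'_apply, Matrix.toLin'_toMatrix']
    rw [h2]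
    simp only [Matrix.mulVec, dotProduct]
    refine Finset.sum_congr rfl fun k _ => ?_
    simp only [hx]
    split_ifs with h3
    · rw [abs_of_nonneg h3, mul_one]
    · rw [abs_of_neg (not_le.1 h3)]
      ring
  rw [h1]
  refine (le_abs_self _).trans (h x (fun k => ?_) j)
  simp only [hx]
  split_ifs <;> simp

end Nat

/-! ## The operators -/

section Ops

variable {V D Ω : Type} [DecidableEq V] [Fintype V] [Fintype D] [DecidableEq D]

/-- the action of an integer matrix -/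
def mac (R : Type) [CommRing R] (M : Matrix D D ℤ) : (D → R) →ₗ[R] (D → R) :=
  (M.map (Int.cast : ℤ → R)).mulVecLin

theorem mac_apply (R : Type) [CommRing R] (M : Matrix D D ℤ) (x : D → R) (d : D) :
    mac R M x d = ∑ d', (M d d' : R) * x d' := rfl

theorem mac_mul (R : Type) [CommRing R] (M N : Matrix D D ℤ) (x : D → R) :
    mac R M (mac R N x) = mac R (M * N) x := by
  simp only [mac, Matrix.mulVecLin_apply, Matrix.mulVec_mulVec]
  congr 1
  ext a b
  simp [Matrix.mul_apply]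

theorem mac_one (R : Type) [CommRing R] (x : D → R) : mac R (1 : Matrix D D ℤ) x = x := by
  simp only [mac, Matrix.mulVecLin_apply]
  have : (1 : Matrix D D ℤ).map (Int.cast : ℤ → R) = 1 := by
    ext a b
    by_cases h : a = b
    · subst h
      simp
    · simp [h]
  rw [this, Matrix.one_mulVec]

theorem mac_cast (R : Type) [CommRing R] (M : Matrix D D ℤ) (x : D → ℤ) (d : D) :
    mac R M (fun d => (x d : R)) d = ((mac ℤ M x d : ℤ) : R) := by
  simp [mac_apply]

/-- the operator `L + c A` -/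
def Lop (R : Type) [CommRing R] (M : Matrix D D ℤ) (t : Ω → Ω) (c : ℤ) :
    (Ω → D → R) →ₗ[R] (Ω → D → R) where
  toFun f ω := f (t ω) + (c : R) • mac R M (f ω)
  map_add' f g := by
    funext ω
    simp only [Pi.add_apply, map_add, smul_add]
    abel
  map_smul' r f := by
    funext ω
    simp only [Pi.smul_apply, map_smul, RingHom.id_apply, smul_add]
    rw [smul_comm]

theorem Lop_apply (R : Type) [CommRing R] (M : Matrix D D ℤ) (t : Ω → Ω) (c : ℤ)
    (f : Ω → D → R) (ω : Ω) : Lop R M t c f ω = f (t ω) + (c : R) • mac R M (f ω) := rfl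

theorem Lop_one (R : Type) [CommRing R] (M : Matrix D D ℤ) (t : Ω → Ω)
    (f : Ω → D → R) (ω : Ω) : Lop R M t 1 f ω = f (t ω) + mac R M (f ω) := by
  rw [Lop_apply, Int.cast_one, one_smul]

theorem Lop_neg (R : Type) [CommRing R] (M : Matrix D D ℤ) (t : Ω → Ω)
    (f : Ω → D → R) (ω : Ω) : Lop R M t (-1) f ω = f (t ω) - mac R M (f ω) := by
  rw [Lop_apply, Int.cast_neg, Int.cast_one, neg_one_smul, sub_eq_add_neg]

theorem Lop_cast (R : Type) [CommRing R] (M : Matrix D D ℤ) (t : Ω → Ω) (c : ℤ)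
    (f : Ω → D → ℤ) : Lop R M t c (fun ω d => (f ω d : R)) =
      fun ω d => ((Lop ℤ M t c f ω d : ℤ) : R) := by
  funext ω d
  simp only [Lop_apply, Pi.add_apply, Pi.smul_apply, smul_eq_mul, mac_cast]
  push_cast
  ring

theorem Lop_comm (R : Type) [CommRing R] (M N : Matrix D D ℤ) (t u : Ω → Ω) (c c' : ℤ)
    (hMN : M * N = N * M) (htu : ∀ ω, t (u ω) = u (t ω)) (f : Ω → D → R) :
    Lop R M t c (Lop R N u c' f) = Lop R N u c' (Lop R M t c f) := by
  funext ω
  simp only [Lop_apply, map_add, map_smul, smul_add, mac_mul, hMN, htu]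
  rw [smul_comm (c : R) (c' : R)]
  abel

theorem Lop_zero (R : Type) [CommRing R] (M : Matrix D D ℤ) (t : Ω → Ω)
    (hM : M * M = 1) (ht : ∀ ω, t (t ω) = ω) (f : Ω → D → R) :
    Lop R M t 1 (Lop R M t (-1) f) = 0 := by
  funext ω
  rw [Lop_one, Lop_neg, Lop_neg, ht, map_sub, mac_mul, hM, mac_one, Pi.zero_apply]
  abel

/-- the product of the operators `L - A` -/
def Bl (R : Type) [CommRing R] (A : V → Matrix D D ℤ) (s : V → Ω → Ω) :
    List V → ((Ω → D → R) →ₗ[R] (Ω → D → R))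
  | [] => LinearMap.id
  | v :: l => (Lop R (A v) (s v) (-1)).comp (Bl R A s l)

theorem Bl_cast (R : Type) [CommRing R] (A : V → Matrix D D ℤ) (s : V → Ω → Ω) (l : List V)
    (f : Ω → D → ℤ) : Bl R A s l (fun ω d => (f ω d : R)) =
      fun ω d => ((Bl ℤ A s l f ω d : ℤ) : R) := by
  induction l with
  | nil => rfl
  | cons v l ih =>
    simp only [Bl, LinearMap.comp_apply]
    rw [ih, Lop_cast]

theorem Bl_mem (R : Type) [CommRing R] {G : SimpleGraph V} {A : V → Matrix D D ℤ}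
    (hA : IsInvol G A) {s : V → Ω → Ω} (hs : IsAct G s) (l : List V)
    (hl : ∀ u ∈ l, ∀ v ∈ l, u ≠ v → G.Adj u v) (f : Ω → D → R) (v : V) (hv : v ∈ l) :
    Lop R (A v) (s v) 1 (Bl R A s l f) = 0 := by
  induction l with
  | nil => simp at hv
  | cons u l ih =>
    simp only [Bl, LinearMap.comp_apply]
    by_cases h : v = u
    · subst h
      exact Lop_zero R _ _ (hA.sq v) (hs.inv v) _
    · have hv' : v ∈ l := by
        rcases List.mem_cons.1 hv with h' | h'
        · exact absurd h' h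
        · exact h'
      have hadj : G.Adj v u := hl v hv u (List.mem_cons_self ..) h
      rw [Lop_comm R _ _ _ _ _ _ (hA.comm v u hadj) (hs.comm v u hadj), ih
        (fun a ha b hb => hl a (List.mem_cons_of_mem _ ha) b (List.mem_cons_of_mem _ hb)) hv',
        map_zero]

/-- real chains are in the image -/
theorem Bl_surj {G : SimpleGraph V} {A : V → Matrix D D ℤ}
    (hA : IsInvol G A) {s : V → Ω → Ω} (l : List V) (hnd : l.Nodup)
    (hl : ∀ u ∈ l, ∀ v ∈ l, u ≠ v → G.Adj u v) (f : Ω → D → ℝ)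
    (hf : ∀ v ∈ l, Lop ℝ (A v) (s v) 1 f = 0) : ∃ g : Ω → D → ℝ, Bl ℝ A s l g = f := by
  induction l generalizing f with
  | nil => exact ⟨f, rfl⟩
  | cons u l ih =>
    rw [List.nodup_cons] at hnd
    have hu := hf u (List.mem_cons_self ..)
    have hu' : ∀ ω, f (s u ω) = -mac ℝ (A u) (f ω) := by
      intro ω
      have h1 := congrFun hu ω
      rw [Lop_apply, Int.cast_one, one_smul, Pi.zero_apply] at h1
      exact eq_neg_of_add_eq_zero_left h1
    obtain ⟨g, hg⟩ := ih hnd.2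
      (fun a ha b hb => hl a (List.mem_cons_of_mem _ ha) b (List.mem_cons_of_mem _ hb))
      (fun ω => (-(1 / 2) : ℝ) • mac ℝ (A u) (f ω)) (by
        intro v hv
        have huv : v ≠ u := fun h => hnd.1 (h ▸ hv)
        have hadj : G.Adj v u := hl v (List.mem_cons_of_mem _ hv) u (List.mem_cons_self ..) huv
        funext ω
        have h1 := congrFun (hf v (List.mem_cons_of_mem _ hv)) ω
        rw [Lop_apply, Int.cast_one, one_smul, Pi.zero_apply] at h1
        rw [Lop_apply, Int.cast_one, one_smul, Pi.zero_apply, map_smul, mac_mul,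
          hA.comm v u hadj, ← mac_mul, ← smul_add, ← map_add, h1, map_zero, smul_zero])
    refine ⟨g, ?_⟩
    simp only [Bl, LinearMap.comp_apply]
    rw [hg]
    funext ω
    rw [Lop_apply, hu' ω]
    simp only [map_smul, map_neg, mac_mul, hA.sq, mac_one, Int.cast_neg, Int.cast_one]
    module

/-- the boundary operator over a ring -/
def tdR (R : Type) [CommRing R] (ν : V → ℕ) :
    (Finset V → Ω → D → R) →ₗ[R] (Finset V → Ω → D → R) where
  toFun f τ ω := ∑ v ∈ τᶜ, (sg ν v τ : R) • f (insert v τ) ω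
  map_add' f g := by
    funext τ ω
    simp [smul_add, Finset.sum_add_distrib]
  map_smul' c f := by
    funext τ ω
    simp only [Pi.smul_apply, RingHom.id_apply, Finset.smul_sum]
    exact Finset.sum_congr rfl fun v _ => by rw [smul_comm]

theorem tdR_apply (R : Type) [CommRing R] (ν : V → ℕ) (f : Finset V → Ω → D → R)
    (τ : Finset V) (ω : Ω) (d : D) :
    tdR R ν f τ ω d = ∑ v ∈ τᶜ, (sg ν v τ : R) * f (insert v τ) ω d := by
  simp [tdR]

theorem tdR_cast (R : Type) [CommRing R] (ν : V → ℕ) (f : Finset V → Ω → D → ℤ)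
    (τ : Finset V) (ω : Ω) (d : D) :
    tdR R ν (fun σ ω d => (f σ ω d : R)) τ ω d = ((tdR ℤ ν f τ ω d : ℤ) : R) := by
  simp [tdR_apply]

theorem tdR_eq (K : Type) [Field K] (ν : V → ℕ) :
    (tdR K ν : (Finset V → Ω → D → K) →ₗ[K] _) = tdl K ν := rfl

/-- currying -/
def cur (R : Type) [CommRing R] :
    ((Finset V × Ω × D) → R) ≃ₗ[R] (Finset V → Ω → D → R) where
  toFun x σ ω d := x (σ, ω, d)
  invFun f p := f p.1 p.2.1 p.2.2
  map_add' _ _ := rfl
  map_smul' _ _ := rfl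
  left_inv _ := rfl
  right_inv _ := rfl

open Classical in
/-- the equations of the cycles -/
noncomputable def Op1 (G : SimpleGraph V) (A : V → Matrix D D ℤ) (s : V → Ω → Ω) (ν : V → ℕ)
    (i : ℕ) (R : Type) [CommRing R] : ((Finset V × Ω × D) → R) →ₗ[R]
      (((Finset V × Ω × D) ⊕ (V × Finset V × Ω × D)) ⊕ (Finset V × Ω × D) → R) where
  toFun x := Sum.elim (Sum.elim (fun p => if Cl G p.1 ∧ p.1.card = i then 0 else x p)
    (fun q => if q.1 ∈ q.2.1 then
      Lop R (A q.1) (s q.1) 1 (cur R x q.2.1) q.2.2.1 q.2.2.2 else 0))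
    (fun p => tdR R ν (cur R x) p.1 p.2.1 p.2.2)
  map_add' x y := by
    funext j
    rcases j with (p | q) | p
    · by_cases h : Cl G p.1 ∧ p.1.card = i <;> simp [h]
    · by_cases h : q.1 ∈ q.2.1 <;> simp [h]
    · simp
  map_smul' r x := by
    funext j
    rcases j with (p | q) | p
    · by_cases h : Cl G p.1 ∧ p.1.card = i <;> simp [h]
    · by_cases h : q.1 ∈ q.2.1 <;> simp [h]
    · simp

open Classical in
/-- products of the operators, chain by chain -/
noncomputable def Bop (G : SimpleGraph V) (A : V → Matrix D D ℤ) (s : V → Ω → Ω)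
    (i : ℕ) (R : Type) [CommRing R] :
    (Finset V → Ω → D → R) →ₗ[R] (Finset V → Ω → D → R) :=
  LinearMap.pi fun σ => if Cl G σ ∧ σ.card = i + 1 then
    (Bl R A s σ.toList).comp (LinearMap.proj σ) else 0

theorem Bop_apply (G : SimpleGraph V) (A : V → Matrix D D ℤ) (s : V → Ω → Ω)
    (i : ℕ) (R : Type) [CommRing R] (f : Finset V → Ω → D → R) (σ : Finset V)
    (h : Cl G σ ∧ σ.card = i + 1) : Bop G A s i R f σ = Bl R A s σ.toList (f σ) := by
  simp [Bop, h]

theorem Bop_apply' (G : SimpleGraph V) (A : V → Matrix D D ℤ) (s : V → Ω → Ω)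
    (i : ℕ) (R : Type) [CommRing R] (f : Finset V → Ω → D → R) (σ : Finset V)
    (h : ¬ (Cl G σ ∧ σ.card = i + 1)) : Bop G A s i R f σ = 0 := by
  simp [Bop, h]

theorem Bop_cast (G : SimpleGraph V) (A : V → Matrix D D ℤ) (s : V → Ω → Ω)
    (i : ℕ) (R : Type) [CommRing R] (f : Finset V → Ω → D → ℤ) :
    Bop G A s i R (fun σ ω d => (f σ ω d : R)) =
      fun σ ω d => ((Bop G A s i ℤ f σ ω d : ℤ) : R) := by
  funext σ
  by_cases h : Cl G σ ∧ σ.card = i + 1
  · rw [Bop_apply _ _ _ _ _ _ _ h, Bop_apply _ _ _ _ _ _ _ h, Bl_cast]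
  · rw [Bop_apply' _ _ _ _ _ _ _ h, Bop_apply' _ _ _ _ _ _ _ h]
    funext ω d
    simp

/-- the boundaries -/
noncomputable def Op2 (G : SimpleGraph V) (A : V → Matrix D D ℤ) (s : V → Ω → Ω) (ν : V → ℕ)
    (i : ℕ) (R : Type) [CommRing R] : ((Finset V × Ω × D) → R) →ₗ[R]
      ((Finset V × Ω × D) → R) :=
  (cur R).symm.toLinearMap.comp ((tdR R ν).comp ((Bop G A s i R).comp (cur R).toLinearMap))

theorem Op2_apply (G : SimpleGraph V) (A : V → Matrix D D ℤ) (s : V → Ω → Ω) (ν : V → ℕ)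
    (i : ℕ) (R : Type) [CommRing R] (x : (Finset V × Ω × D) → R) (p : Finset V × Ω × D) :
    Op2 G A s ν i R x p = tdR R ν (Bop G A s i R (cur R x)) p.1 p.2.1 p.2.2 := rfl

theorem Op1_cast (G : SimpleGraph V) (A : V → Matrix D D ℤ) (s : V → Ω → Ω) (ν : V → ℕ)
    (i : ℕ) (R : Type) [CommRing R] (x : (Finset V × Ω × D) → ℤ)
    (j : ((Finset V × Ω × D) ⊕ (V × Finset V × Ω × D)) ⊕ (Finset V × Ω × D)) :
    Op1 G A s ν i R (fun k => (x k : R)) j = ((Op1 G A s ν i ℤ x j : ℤ) : R) := by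
  rcases j with (p | q) | p
  · by_cases h : Cl G p.1 ∧ p.1.card = i <;> simp [Op1, h]
  · by_cases h : q.1 ∈ q.2.1
    · simp only [Op1, LinearMap.coe_mk, AddHom.coe_mk, Sum.elim_inl, Sum.elim_inr, h, if_true]
      have := congrFun (congrFun (Lop_cast R (A q.1) (s q.1) 1 (cur ℤ x q.2.1)) q.2.2.1) q.2.2.2
      exact this
    · simp [Op1, h]
  · exact tdR_cast R ν (cur ℤ x) p.1 p.2.1 p.2.2

theorem Op2_cast (G : SimpleGraph V) (A : V → Matrix D D ℤ) (s : V → Ω → Ω) (ν : V → ℕ)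
    (i : ℕ) (R : Type) [CommRing R] (x : (Finset V × Ω × D) → ℤ) (p : Finset V × Ω × D) :
    Op2 G A s ν i R (fun k => (x k : R)) p = ((Op2 G A s ν i ℤ x p : ℤ) : R) := by
  rw [Op2_apply, Op2_apply]
  have h : cur R (fun k => (x k : R)) = fun σ ω d => ((cur ℤ x σ ω d : ℤ) : R) := rfl
  rw [h, Bop_cast, tdR_cast]

/-! ## Cycles and boundaries -/

theorem ker_Op1 (G : SimpleGraph V) (A : V → Matrix D D ℤ) (s : V → Ω → Ω) (ν : V → ℕ)
    (i : ℕ) (K : Type) [Field K] :
    (LinearMap.ker (Op1 G A s ν i K)).map (cur K).toLinearMap = TZ K G A s ν i := by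
  ext f
  constructor
  · rintro ⟨x, hx, rfl⟩
    have hx' : Op1 G A s ν i K x = 0 := hx
    refine ⟨⟨fun σ ω h => ?_, fun σ v hv ω => ?_⟩, ?_⟩
    · by_contra hc
      apply h
      funext d
      have h1 := congrFun hx' (Sum.inl (Sum.inl (σ, ω, d)))
      simp only [Op1, LinearMap.coe_mk, AddHom.coe_mk, Sum.elim_inl, Pi.zero_apply] at h1
      rw [if_neg hc] at h1
      exact h1
    · funext d
      have h1 := congrFun hx' (Sum.inl (Sum.inr (v, σ, ω, d)))
      simp only [Op1, LinearMap.coe_mk, AddHom.coe_mk, Sum.elim_inl, Sum.elim_inr,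
        Pi.zero_apply] at h1
      rw [if_pos hv, Lop_apply, Pi.add_apply, Int.cast_one, one_smul] at h1
      exact eq_neg_of_add_eq_zero_left h1
    · refine (LinearMap.mem_ker).2 ?_
      funext τ ω d
      exact congrFun hx' (Sum.inr (τ, ω, d))
  · rintro ⟨⟨h1, h2⟩, h3⟩
    refine ⟨(cur K).symm f, ?_, (cur K).apply_symm_apply f⟩
    refine (LinearMap.mem_ker).2 ?_
    funext j
    rcases j with (p | q) | p
    · simp only [Op1, LinearMap.coe_mk, AddHom.coe_mk, Sum.elim_inl, Pi.zero_apply]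
      split_ifs with h
      · rfl
      · by_contra hc
        exact h (h1 p.1 p.2.1 (fun h0 => hc (congrFun h0 p.2.2)))
    · simp only [Op1, LinearMap.coe_mk, AddHom.coe_mk, Sum.elim_inl, Sum.elim_inr,
        Pi.zero_apply]
      split_ifs with h
      · rw [Lop_apply, Pi.add_apply, Int.cast_one, one_smul]
        have := h2 q.2.1 q.1 h q.2.2.1
        have h4 := congrFun this q.2.2.2
        rw [Pi.neg_apply] at h4
        exact add_eq_zero_iff_eq_neg.2 h4
      · rfl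
    · have h4 : tdl K ν f = 0 := h3
      exact congrFun (congrFun (congrFun h4 p.1) p.2.1) p.2.2

theorem Bop_mem {G : SimpleGraph V} {A : V → Matrix D D ℤ} (hA : IsInvol G A)
    {s : V → Ω → Ω} (hs : IsAct G s) (i : ℕ) (K : Type) [Field K]
    (f : Finset V → Ω → D → K) : Bop G A s i K f ∈ TCh K G A s (i + 1) := by
  refine ⟨fun σ ω h => ?_, fun σ v hv ω => ?_⟩
  · by_contra hc
    apply h
    rw [Bop_apply' _ _ _ _ _ _ _ hc]
    rfl
  · by_cases hc : Cl G σ ∧ σ.card = i + 1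
    · rw [Bop_apply _ _ _ _ _ _ _ hc]
      have h1 := Bl_mem K hA hs σ.toList (fun a ha b hb hab =>
        hc.1 a (Finset.mem_toList.1 ha) b (Finset.mem_toList.1 hb) hab) (f σ) v
        (Finset.mem_toList.2 hv)
      have h2 := congrFun h1 ω
      rw [Lop_apply, Int.cast_one, one_smul, Pi.zero_apply] at h2
      exact eq_neg_of_add_eq_zero_left h2
    · rw [Bop_apply' _ _ _ _ _ _ _ hc]
      simp [mact]

theorem Bop_surj {G : SimpleGraph V} {A : V → Matrix D D ℤ} (hA : IsInvol G A)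
    {s : V → Ω → Ω} (i : ℕ)
    (f : Finset V → Ω → D → ℝ) (hf : f ∈ TCh ℝ G A s (i + 1)) :
    ∃ g, Bop G A s i ℝ g = f := by
  obtain ⟨h1, h2⟩ := hf
  have key : ∀ σ : Finset V, ∃ g : Ω → D → ℝ, (Cl G σ ∧ σ.card = i + 1) →
      Bl ℝ A s σ.toList g = f σ := by
    intro σ
    by_cases hc : Cl G σ ∧ σ.card = i + 1
    · obtain ⟨g, hg⟩ := Bl_surj hA σ.toList (Finset.nodup_toList σ) (fun a ha b hb hab =>
        hc.1 a (Finset.mem_toList.1 ha) b (Finset.mem_toList.1 hb) hab) (f σ) (by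
          intro v hv
          funext ω
          rw [Lop_apply, Int.cast_one, one_smul, Pi.zero_apply,
            h2 σ v (Finset.mem_toList.1 hv) ω]
          exact neg_add_cancel _)
      exact ⟨g, fun _ => hg⟩
    · exact ⟨0, fun h => absurd h hc⟩
  choose g hg using key
  refine ⟨g, ?_⟩
  funext σ
  by_cases hc : Cl G σ ∧ σ.card = i + 1
  · rw [Bop_apply _ _ _ _ _ _ _ hc, hg σ hc]
  · rw [Bop_apply' _ _ _ _ _ _ _ hc]
    funext ω
    by_contra h0
    exact hc (h1 σ ω (fun h => h0 h.symm))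

theorem range_Op2_le {G : SimpleGraph V} {A : V → Matrix D D ℤ} (hA : IsInvol G A)
    {s : V → Ω → Ω} (hs : IsAct G s) (ν : V → ℕ) (i : ℕ) (K : Type) [Field K] :
    (LinearMap.range (Op2 G A s ν i K)).map (cur K).toLinearMap ≤ TB K G A s ν i := by
  rintro _ ⟨_, ⟨x, rfl⟩, rfl⟩
  exact ⟨Bop G A s i K (cur K x), Bop_mem hA hs i K _, rfl⟩

theorem range_Op2_eq {G : SimpleGraph V} {A : V → Matrix D D ℤ} (hA : IsInvol G A)
    {s : V → Ω → Ω} (hs : IsAct G s) (ν : V → ℕ) (i : ℕ) :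
    (LinearMap.range (Op2 G A s ν i ℝ)).map (cur ℝ).toLinearMap = TB ℝ G A s ν i := by
  refine le_antisymm (range_Op2_le hA hs ν i ℝ) ?_
  rintro _ ⟨f, hf, rfl⟩
  obtain ⟨g, hg⟩ := Bop_surj hA i f hf
  refine ⟨Op2 G A s ν i ℝ ((cur ℝ).symm g), ⟨_, rfl⟩, ?_⟩
  rw [← hg]
  rfl

/-! ## Bounds -/

theorem mac_bound (M : Matrix D D ℤ) (x : D → ℤ) (B : ℤ) (hB : ∀ d, |x d| ≤ B) (d : D) :
    |mac ℤ M x d| ≤ (∑ e, ∑ d', |M e d'|) * B := by
  have hB0 : 0 ≤ B := (abs_nonneg _).trans (hB d)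
  rw [mac_apply]
  calc |∑ d', ((M d d' : ℤ) : ℤ) * x d'| ≤ ∑ d', |((M d d' : ℤ) : ℤ) * x d'| :=
        Finset.abs_sum_le_sum_abs _ _
    _ ≤ ∑ d', |M d d'| * B := by
        refine Finset.sum_le_sum fun d' _ => ?_
        rw [abs_mul]
        exact mul_le_mul_of_nonneg_left (hB d') (abs_nonneg _)
    _ = (∑ d', |M d d'|) * B := by rw [Finset.sum_mul]
    _ ≤ _ := by
        refine mul_le_mul_of_nonneg_right ?_ hB0
        exact Finset.single_le_sum (f := fun e => ∑ d', |M e d'|)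
          (fun e _ => Finset.sum_nonneg fun _ _ => abs_nonneg _) (Finset.mem_univ d)

/-- the bound for the matrices -/
def bdA (A : V → Matrix D D ℤ) : ℤ := ∑ v, ∑ e, ∑ d', |A v e d'|

omit [DecidableEq V] [DecidableEq D] in
theorem bdA_nonneg (A : V → Matrix D D ℤ) : 0 ≤ bdA A :=
  Finset.sum_nonneg fun _ _ => Finset.sum_nonneg fun _ _ => Finset.sum_nonneg fun _ _ =>
    abs_nonneg _

omit [DecidableEq V] [DecidableEq D] in
theorem le_bdA (A : V → Matrix D D ℤ) (v : V) : ∑ e, ∑ d', |A v e d'| ≤ bdA A :=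
  Finset.single_le_sum (f := fun v => ∑ e, ∑ d', |A v e d'|)
    (fun _ _ => Finset.sum_nonneg fun _ _ => Finset.sum_nonneg fun _ _ => abs_nonneg _)
    (Finset.mem_univ v)

theorem Lop_bound (A : V → Matrix D D ℤ) (v : V) (t : Ω → Ω) (c : ℤ) (hc : |c| = 1)
    (f : Ω → D → ℤ) (B : ℤ) (hB : ∀ ω d, |f ω d| ≤ B) (ω : Ω) (d : D) :
    |Lop ℤ (A v) t c f ω d| ≤ (1 + bdA A) * B := by
  have hB0 : 0 ≤ B := (abs_nonneg _).trans (hB ω d)
  rw [Lop_apply, Pi.add_apply, Pi.smul_apply, smul_eq_mul]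
  refine (abs_add_le _ _).trans ?_
  rw [abs_mul, Int.cast_id, hc, one_mul, add_mul, one_mul]
  refine add_le_add (hB _ _) ((mac_bound _ _ B (hB ω) d).trans ?_)
  exact mul_le_mul_of_nonneg_right (le_bdA A v) hB0

theorem Bl_bound (A : V → Matrix D D ℤ) (s : V → Ω → Ω) (l : List V)
    (f : Ω → D → ℤ) (B : ℤ) (hB : ∀ ω d, |f ω d| ≤ B) (ω : Ω) (d : D) :
    |Bl ℤ A s l f ω d| ≤ (1 + bdA A) ^ l.length * B := by
  induction l generalizing ω d with
  | nil => simpa [Bl] using hB ω d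
  | cons v l ih =>
    simp only [Bl, LinearMap.comp_apply, List.length_cons]
    refine (Lop_bound A v (s v) (-1) (by simp) _ _ ih ω d).trans (le_of_eq ?_)
    ring

theorem tdR_bound (ν : V → ℕ) (f : Finset V → Ω → D → ℤ) (B : ℤ)
    (hB : ∀ σ ω d, |f σ ω d| ≤ B) (τ : Finset V) (ω : Ω) (d : D) :
    |tdR ℤ ν f τ ω d| ≤ (Fintype.card V : ℤ) * B := by
  have hB0 : 0 ≤ B := (abs_nonneg _).trans (hB τ ω d)
  rw [tdR_apply]
  refine (Finset.abs_sum_le_sum_abs _ _).trans ?_
  calc ∑ v ∈ τᶜ, |((sg ν v τ : ℤ) : ℤ) * f (insert v τ) ω d| ≤ ∑ v ∈ τᶜ, B := by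
        refine Finset.sum_le_sum fun v _ => ?_
        rw [abs_mul]
        have : |sg ν v τ| = 1 := by
          unfold sg
          rw [abs_pow, abs_neg, abs_one, one_pow]
        rw [this, one_mul]
        exact hB _ _ _
    _ = (τᶜ.card : ℤ) * B := by rw [Finset.sum_const, nsmul_eq_mul]
    _ ≤ _ := by
        refine mul_le_mul_of_nonneg_right ?_ hB0
        exact_mod_cast Finset.card_le_univ _

theorem Bop_bound (G : SimpleGraph V) (A : V → Matrix D D ℤ) (s : V → Ω → Ω) (i : ℕ)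
    (f : Finset V → Ω → D → ℤ) (B : ℤ) (hB : ∀ σ ω d, |f σ ω d| ≤ B) (σ : Finset V) (ω : Ω)
    (d : D) : |Bop G A s i ℤ f σ ω d| ≤ (1 + bdA A) ^ (Fintype.card V) * B := by
  have hB0 : 0 ≤ B := (abs_nonneg _).trans (hB σ ω d)
  have h1 : 1 ≤ 1 + bdA A := by linarith [bdA_nonneg A]
  by_cases h : Cl G σ ∧ σ.card = i + 1
  · rw [Bop_apply _ _ _ _ _ _ _ h]
    refine (Bl_bound A s σ.toList (f σ) B (hB σ) ω d).trans ?_
    refine mul_le_mul_of_nonneg_right ?_ hB0
    refine pow_le_pow_right₀ h1 ?_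
    rw [Finset.length_toList]
    exact Finset.card_le_univ _
  · rw [Bop_apply' _ _ _ _ _ _ _ h]
    simp only [Pi.zero_apply, abs_zero]
    positivity

theorem Op2_bound (G : SimpleGraph V) (A : V → Matrix D D ℤ) (s : V → Ω → Ω) (ν : V → ℕ)
    (i : ℕ) (x : (Finset V × Ω × D) → ℤ) (hx : ∀ k, |x k| ≤ 1) (p : Finset V × Ω × D) :
    |Op2 G A s ν i ℤ x p| ≤ (Fintype.card V : ℤ) * (1 + bdA A) ^ (Fintype.card V) := by
  rw [Op2_apply]
  refine tdR_bound ν _ _ (fun σ ω d => ?_) _ _ _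
  refine (Bop_bound G A s i _ 1 (fun σ ω d => hx (σ, ω, d)) σ ω d).trans ?_
  rw [mul_one]

theorem Op1_bound (G : SimpleGraph V) (A : V → Matrix D D ℤ) (s : V → Ω → Ω) (ν : V → ℕ)
    (i : ℕ) (x : (Finset V × Ω × D) → ℤ) (hx : ∀ k, |x k| ≤ 1)
    (j : ((Finset V × Ω × D) ⊕ (V × Finset V × Ω × D)) ⊕ (Finset V × Ω × D)) :
    |Op1 G A s ν i ℤ x j| ≤ 1 + bdA A + (Fintype.card V : ℤ) := by
  have h0 := bdA_nonneg A
  have h1 : (0 : ℤ) ≤ (Fintype.card V : ℤ) := by positivity
  rcases j with (p | q) | p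
  · simp only [Op1, LinearMap.coe_mk, AddHom.coe_mk, Sum.elim_inl]
    split_ifs
    · simp only [abs_zero]
      linarith
    · linarith [hx p]
  · simp only [Op1, LinearMap.coe_mk, AddHom.coe_mk, Sum.elim_inl, Sum.elim_inr]
    split_ifs
    · have := Lop_bound A q.1 (s q.1) 1 (by simp) (cur ℤ x q.2.1) 1
        (fun ω d => hx (q.2.1, ω, d)) q.2.2.1 q.2.2.2
      linarith
    · simp only [abs_zero]
      linarith
  · have : |tdR ℤ ν (cur ℤ x) p.1 p.2.1 p.2.2| ≤ (Fintype.card V : ℤ) * 1 :=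
      tdR_bound ν (cur ℤ x) 1 (fun σ ω d => hx (σ, ω, d)) p.1 p.2.1 p.2.2
    have h2 : |Op1 G A s ν i ℤ x (Sum.inr p)| ≤ (Fintype.card V : ℤ) * 1 := this
    linarith

end Ops

end ModM

open ModM in
/-- The dimensions of the twisted cycles and boundaries are given by integer matrices which do not
depend on the field, with `|Ω|` times a constant rows, and rows of bounded `ℓ¹`-norm. -/
theorem exists_mats {V D : Type} [DecidableEq V] [Fintype V] [Fintype D] [DecidableEq D]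
    (G : SimpleGraph V) (A : V → Matrix D D ℤ) (hA : IsInvol G A) (ν : V → ℕ)
    (i : ℕ) :
    ∃ C R : ℕ, 1 ≤ C ∧ ∀ (Ω : Type) [Fintype Ω] (s : V → Ω → Ω), IsAct G s →
      ∃ (m₁ n₁ m₂ n₂ : Type) (_ : Fintype m₁) (_ : Fintype n₁) (_ : Fintype m₂)
        (_ : Fintype n₂) (A₁ : Matrix m₁ n₁ ℤ) (A₂ : Matrix m₂ n₂ ℤ),
        Fintype.card m₁ ≤ R * Fintype.card Ω ∧ Fintype.card m₂ ≤ R * Fintype.card Ω ∧
        (∀ j, ∑ k, |A₁ j k| ≤ (C : ℤ)) ∧ (∀ j, ∑ k, |A₂ j k| ≤ (C : ℤ)) ∧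
        (∀ (K : Type) [Field K],
          Module.finrank K (TZ K G A s ν i) + (A₁.map (Int.cast : ℤ → K)).rank =
            Fintype.card n₁ ∧
          (A₂.map (Int.cast : ℤ → K)).rank ≤ Module.finrank K (TB K G A s ν i)) ∧
        Module.finrank ℝ (TB ℝ G A s ν i) = (A₂.map (Int.cast : ℤ → ℝ)).rank := by
  classical
  have hnn := bdA_nonneg A
  have hC0 : 0 ≤ (Fintype.card V : ℤ) * (1 + bdA A) ^ (Fintype.card V) := by positivity
  have hC1 : 0 ≤ 1 + bdA A + (Fintype.card V : ℤ) := by positivity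
  refine ⟨((1 + bdA A + (Fintype.card V : ℤ)) +
    (Fintype.card V : ℤ) * (1 + bdA A) ^ (Fintype.card V)).toNat + 1,
    (Fintype.card (Finset V) * Fintype.card D) * (2 + Fintype.card V), by omega, ?_⟩
  intro Ω _ s hs
  have hcast : ((((1 + bdA A + (Fintype.card V : ℤ)) +
      (Fintype.card V : ℤ) * (1 + bdA A) ^ (Fintype.card V)).toNat + 1 : ℕ) : ℤ) =
      ((1 + bdA A + (Fintype.card V : ℤ)) +
      (Fintype.card V : ℤ) * (1 + bdA A) ^ (Fintype.card V)) + 1 := by
    rw [Nat.cast_add, Int.toNat_of_nonneg (by linarith), Nat.cast_one]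
  refine ⟨((Finset V × Ω × D) ⊕ (V × Finset V × Ω × D)) ⊕ (Finset V × Ω × D),
    Finset V × Ω × D, Finset V × Ω × D, Finset V × Ω × D, inferInstance, inferInstance,
    inferInstance, inferInstance, LinearMap.toMatrix' (Op1 G A s ν i ℤ),
    LinearMap.toMatrix' (Op2 G A s ν i ℤ), ?_, ?_, ?_, ?_, ?_, ?_⟩
  · simp only [Fintype.card_sum, Fintype.card_prod]
    apply le_of_eq
    ring
  · simp only [Fintype.card_prod]
    have : 1 ≤ 2 + Fintype.card V := by omega
    calc Fintype.card (Finset V) * (Fintype.card Ω * Fintype.card D)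
        = (Fintype.card (Finset V) * Fintype.card D) * 1 * Fintype.card Ω := by ring
      _ ≤ _ := by gcongr
  · intro j
    rw [hcast]
    refine (row_bound _ _ (fun x hx j => Op1_bound G A s ν i x hx j) j).trans ?_
    linarith
  · intro j
    rw [hcast]
    refine (row_bound _ _ (fun x hx j => Op2_bound G A s ν i x hx j) j).trans ?_
    linarith
  · intro K _
    refine ⟨?_, ?_⟩
    · rw [rank_eq (fun R _ => Op1 G A s ν i R) (fun R _ x j => Op1_cast G A s ν i R x j) K,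
        ← ker_Op1 G A s ν i K, LinearEquiv.finrank_map_eq, add_comm,
        LinearMap.finrank_range_add_finrank_ker, Module.finrank_fintype_fun_eq_card]
    · rw [rank_eq (fun R _ => Op2 G A s ν i R) (fun R _ x j => Op2_cast G A s ν i R x j) K,
        ← LinearEquiv.finrank_map_eq (cur K)]
      exact Submodule.finrank_mono (range_Op2_le hA hs ν i K)
  · rw [rank_eq (fun R _ => Op2 G A s ν i R) (fun R _ x j => Op2_cast G A s ν i R x j) ℝ,
      ← LinearEquiv.finrank_map_eq (cur ℝ), range_Op2_eq hA hs ν i]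

end Pool.Agent.H85.Fold
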