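import Pool.Agent.H85.Fold.Dual
import Pool.Agent.H85.Fold.Push

/-!
# Project FOLD: the induction hypothesis
-/

set_option autoImplicit false

open Finset

namespace Pool.Agent.H85.Fold

variable {V : Type} [DecidableEq V] [Fintype V] {S : Type} [AddCommGroup S] [Module ℝ S]

/-- The main statement for systems of type `n`: vanishing above the middle for all induced
subgraphs, vanishing outside the middle for the whole complex, and definiteness in the middle. -/
def Pk (ν : V → ℕ) (G : SimpleGraph V) (e : V → S →ₗ[ℝ] S) (ep : Finset V → S →ₗ[ℝ] S)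
    (b : V → V → ℝ) (n : ℕ) : Prop :=
  ∀ (U : Finset V) (M : Submodule ℝ S) (β : S →ₗ[ℝ] S →ₗ[ℝ] ℝ) (ε κ : ℝ) (o : Finset V → ℝ),
    Sys ν G e ep b n U M β ε κ o →
      (∀ Y ⊆ U, ∀ i, n < 2 * i → HV ν G e M Y i) ∧
      (∀ i, 2 * i ≠ n → HV ν G e M U i) ∧
      ∀ k, n = 2 * k → Definite ν G e k U M β ε κ o

variable {ν : V → ℕ} {G : SimpleGraph V} {e : V → S →ₗ[ℝ] S} {ep : Finset V → S →ₗ[ℝ] S}
  {b : V → V → ℝ} {n : ℕ} {U : Finset V} {M : Submodule ℝ S} {β : S →ₗ[ℝ] S →ₗ[ℝ] ℝ}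
  {ε κ : ℝ} {o : Finset V → ℝ}

/-- the vanishing for links -/
theorem link_hv (hs : Sys ν G e ep b n U M β ε κ o) (hP : ∀ m, m + 1 = n → Pk ν G e ep b m)
    {v : V} (hv : v ∈ U) {Z : Finset V} (hZ : Z ⊆ U) {i : ℕ} (hi : n ≤ 2 * i) :
    HV ν G e (Mk e M v) (nbr G v Z) i := by
  rcases n with _ | m
  · have h1 := hs.sphere.dim {v} (by simpa using hv)
      (fun a ha b hb hab => absurd ((Finset.mem_singleton.1 ha).trans
        (Finset.mem_singleton.1 hb).symm) hab)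
    simp at h1
  · obtain ⟨β', hβ'⟩ := hs.exists_lf hv
    have hl := hs.link hv hβ'
    refine (hP m rfl _ _ _ _ _ _ hl).1 (nbr G v Z) ?_ i (by omega)
    intro u hu
    rw [mem_nbr] at hu ⊢
    exact ⟨hZ hu.1, hu.2⟩

/-- replacing chains by chains on the support of the boundary -/
theorem fill_sub_sys (hs : Sys ν G e ep b n U M β ε κ o)
    (hP : ∀ m, m + 1 = n → Pk ν G e ep b m) {Y : Finset V} (hY : Y ⊆ U) {i : ℕ}
    (hi : n ≤ 2 * i) {y : Finset V → S} (hy : IsF G e M U (i + 1) y)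
    (hbd : ∀ σ, bd ν y σ ≠ 0 → σ ⊆ Y) :
    ∃ y', IsF G e M Y (i + 1) y' ∧ bd ν y' = bd ν y :=
  fill_sub hs.inj hY (fun _ hZ _ hv => link_hv hs hP (hZ hv) hZ hi) hy hbd

/-- in odd dimension a chain can be pushed off a set if its components bound -/
theorem avoid {k : ℕ} (hs : Sys ν G e ep b (2 * k + 1) U M β ε κ o)
    (hP : ∀ m, m ≤ 2 * k + 1 → Pk ν G e ep b m) {B : Finset V} {g : Finset V → S}
    (hg : IsF G e M U (k + 1) g) (hbd : ∀ σ, bd ν g σ ≠ 0 → Disjoint σ B)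
    (hB : ∀ v ∈ B, v ∈ U → ∃ f, IsF G e (Mk e M v) (nbr G v U) (k + 1) f ∧
      bd ν f = comp ν v g) :
    ∃ g', IsF G e M (U \ B) (k + 1) g' ∧ bd ν g' = bd ν g := by
  induction B using Finset.induction_on with
  | empty => exact ⟨g, by simpa using hg, rfl⟩
  | insert v B' hvB ih =>
    obtain ⟨g1, hg1, hb1⟩ := ih
      (fun σ hσ => (Finset.disjoint_insert_right.1 (hbd σ hσ)).2)
      (fun u hu huU => hB u (Finset.mem_insert_of_mem hu) huU)
    have hUB : U \ insert v B' = (U \ B').erase v := by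
      ext u
      simp only [Finset.mem_sdiff, Finset.mem_insert, Finset.mem_erase]
      tauto
    by_cases hvU : v ∈ U
    · have hg1U : IsF G e M U (k + 1) g1 := hg1.mono Finset.sdiff_subset
      have hcyc : bd ν (g1 - g) = 0 := by rw [map_sub, hb1, sub_self]
      obtain ⟨f1, hf1, hbf1⟩ := (hP (2 * k + 1) le_rfl _ _ _ _ _ _ hs).2.1 (k + 1)
        (by omega) (g1 - g) (hg1U.sub hg) hcyc
      obtain ⟨f, hf, hbf⟩ := hB v (Finset.mem_insert_self _ _) hvU
      have hf2 : IsF G e (Mk e M v) (nbr G v U) (k + 1) (f - comp ν v f1) :=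
        hf.sub (isF_comp ν v hf1)
      have hbf2 : bd ν (f - comp ν v f1) = comp ν v g1 := by
        have h1 := comp_bd ν hs.inj v f1
        rw [hbf1, map_sub] at h1
        rw [map_sub, hbf, ← neg_eq_iff_eq_neg.2 h1]
        abel
      have hvB2 : v ∈ U \ B' := Finset.mem_sdiff.2 ⟨hvU, hvB⟩
      have hcg1 : IsF G e (Mk e M v) (nbr G v (U \ B')) k (comp ν v g1) := isF_comp ν v hg1
      obtain ⟨β', hβ'⟩ := hs.exists_lf hvU
      have hl := hs.link hvU hβ'
      have hsub : nbr G v (U \ B') ⊆ nbr G v U := by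
        intro u hu
        rw [mem_nbr] at hu ⊢
        exact ⟨(Finset.mem_sdiff.1 hu.1).1, hu.2⟩
      obtain ⟨f3, hf3, hbf3⟩ := fill_sub_sys hl (fun m hm => hP m (by omega)) hsub
        (i := k) le_rfl hf2 (fun σ hσ => by
          rw [hbf2] at hσ
          exact (hcg1.supp σ hσ).1)
      rw [hbf2] at hbf3
      obtain ⟨y, hy, hgy⟩ := push_off hs.inj hvB2 hg1 hf3 hbf3
      refine ⟨g1 + bd ν y, ?_, ?_⟩
      · rw [hUB]; exact hgy
      · rw [map_add, bd_bd ν hs.inj, add_zero, hb1]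
    · refine ⟨g1, ?_, hb1⟩
      rw [hUB, Finset.erase_eq_of_notMem (fun h => hvU (Finset.mem_sdiff.1 h).1)]
      exact hg1

/-- vanishing above the middle for induced subgraphs, even complexes -/
theorem hv_even {k : ℕ} (hs : Sys ν G e ep b (2 * k) U M β ε κ o)
    (hP : ∀ m, m + 1 = 2 * k → Pk ν G e ep b m) {Y : Finset V} (hY : Y ⊆ U) {i : ℕ}
    (hi : k < i) : HV ν G e M Y i := by
  obtain ⟨i', rfl⟩ : ∃ i', i = i' + 1 := ⟨i - 1, by omega⟩
  exact hv_of_links hs.inj fun Z hZ v hv =>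
    link_hv hs hP (hY (hZ hv)) (hZ.trans hY) (by omega)

end Pool.Agent.H85.Fold
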