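import Pool.Agent.H85.Fold.Sgn

/-!
# Project FOLD: sorted lists of vertices
-/

set_option autoImplicit false

open Finset

namespace Pool.Agent.H85.Fold

variable {V : Type} [DecidableEq V] [Fintype V]

/-- `srt` sorts the finite sets of vertices: the list of the elements in the order of `ν` -/
structure IsSrt (ν : V → ℕ) (srt : Finset V → List V) : Prop where
  toFinset : ∀ τ, (srt τ).toFinset = τ
  nodup : ∀ τ, (srt τ).Nodup
  length : ∀ τ, (srt τ).length = τ.card
  nil : srt ∅ = []
  insert : ∀ v κ, v ∉ κ → ∃ l₁ l₂ : List V, srt κ = l₁ ++ l₂ ∧ srt (insert v κ) = l₁ ++ v :: l₂ ∧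
    sgn ν v κ = (-1) ^ l₁.length

theorem exists_srt (ν : V → ℕ) (hν : Function.Injective ν) : ∃ srt, IsSrt ν srt := by
  classical
  letI : LinearOrder V := LinearOrder.lift' ν hν
  have hle : ∀ a b : V, a ≤ b ↔ ν a ≤ ν b := fun a b => Iff.rfl
  have hpw : ∀ τ : Finset V, (τ.sort (fun a b => a ≤ b)).Pairwise (fun a b => a ≤ b) :=
    fun τ => Finset.pairwise_sort τ _
  refine ⟨fun τ => τ.sort (fun a b => a ≤ b), ⟨fun τ => ?_, fun τ => ?_, fun τ => ?_, ?_,
    fun v κ hv => ?_⟩⟩
  · ext x
    simp
  · exact Finset.sort_nodup τ _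
  · exact Finset.length_sort _
  · exact Finset.sort_empty _
  · refine ⟨(κ.filter fun u => ν u < ν v).sort (fun a b => a ≤ b),
      (κ.filter fun u => ¬ ν u < ν v).sort (fun a b => a ≤ b), ?_, ?_, ?_⟩
    · refine List.Perm.eq_of_pairwise (le := fun a b => a ≤ b)
        (fun a b _ _ h1 h2 => le_antisymm h1 h2) (hpw κ) ?_ ?_
      · rw [List.pairwise_append]
        refine ⟨hpw _, hpw _, fun a ha b hb => ?_⟩
        rw [Finset.mem_sort, Finset.mem_filter] at ha hb
        rw [hle]
        omega
      · rw [List.perm_ext_iff_of_nodup (Finset.sort_nodup κ _)]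
        · intro a
          simp only [List.mem_append, Finset.mem_sort, Finset.mem_filter]
          tauto
        · rw [List.nodup_append']
          refine ⟨Finset.sort_nodup _ _, Finset.sort_nodup _ _, ?_⟩
          intro a ha hb
          rw [Finset.mem_sort, Finset.mem_filter] at ha hb
          exact hb.2 ha.2
    · refine List.Perm.eq_of_pairwise (le := fun a b => a ≤ b)
        (fun a b _ _ h1 h2 => le_antisymm h1 h2) (hpw _) ?_ ?_
      · rw [List.pairwise_append]
        refine ⟨hpw _, ?_, fun a ha b hb => ?_⟩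
        · rw [List.pairwise_cons]
          refine ⟨fun b hb => ?_, hpw _⟩
          rw [Finset.mem_sort, Finset.mem_filter] at hb
          rw [hle]
          omega
        · rw [Finset.mem_sort, Finset.mem_filter] at ha
          rw [List.mem_cons, Finset.mem_sort, Finset.mem_filter] at hb
          rw [hle]
          rcases hb with rfl | hb
          · exact ha.2.le
          · omega
      · rw [List.perm_ext_iff_of_nodup (Finset.sort_nodup _ _)]
        · intro a
          simp only [List.mem_append, List.mem_cons, Finset.mem_sort, Finset.mem_filter,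
            Finset.mem_insert]
          tauto
        · rw [List.nodup_append', List.nodup_cons]
          refine ⟨Finset.sort_nodup _ _, ⟨?_, Finset.sort_nodup _ _⟩, ?_⟩
          · rw [Finset.mem_sort, Finset.mem_filter]
            exact fun h => hv h.1
          · intro a ha hb
            rw [Finset.mem_sort, Finset.mem_filter] at ha
            rw [List.mem_cons, Finset.mem_sort, Finset.mem_filter] at hb
            rcases hb with rfl | hb
            · exact hv ha.1
            · exact hb.2 ha.2
    · rw [Finset.length_sort]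
      rfl

/-- the product of the operators of a sorted list -/
noncomputable def epl {S : Type} [AddCommGroup S] [Module ℝ S] (e : V → S →ₗ[ℝ] S)
    (srt : Finset V → List V) (τ : Finset V) : S →ₗ[ℝ] S :=
  ((srt τ).map fun v => (e v : Module.End ℝ S)).prod

/-- inserting an operator in the product of a clique -/
theorem epl_insert {ν : V → ℕ} {srt : Finset V → List V} (hsrt : IsSrt ν srt)
    {S : Type} [AddCommGroup S] [Module ℝ S] (e : V → S →ₗ[ℝ] S) {v : V} {τ : Finset V}
    (hv : v ∉ τ) (hanti : ∀ u ∈ τ, ∀ x, e v (e u x) = -e u (e v x)) (x : S) :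
    e v (epl e srt τ x) = sgn ν v τ • epl e srt (insert v τ) x := by
  obtain ⟨l₁, l₂, h1, h2, h3⟩ := hsrt.insert v τ hv
  have hmem : ∀ u ∈ l₁, u ∈ τ := by
    intro u hu
    rw [← hsrt.toFinset τ, List.mem_toFinset, h1]
    exact List.mem_append_left _ hu
  have key : ∀ l : List V, (∀ u ∈ l, u ∈ τ) → ∀ y : S,
      e v ((l.map fun v => (e v : Module.End ℝ S)).prod y) =
        ((-1 : ℝ) ^ l.length) • (l.map fun v => (e v : Module.End ℝ S)).prod (e v y) := by
    intro l
    induction l with
    | nil =>
      intro _ y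
      simp
    | cons u l ih =>
      intro hl y
      rw [List.map_cons, List.prod_cons, Module.End.mul_apply, Module.End.mul_apply,
        hanti u (hl u List.mem_cons_self), ih (fun w hw => hl w (List.mem_cons_of_mem _ hw)),
        map_smul, List.length_cons, pow_succ, mul_neg_one, neg_smul]
  unfold epl
  rw [h1, h2, h3, List.map_append, List.prod_append, Module.End.mul_apply, key l₁ hmem,
    List.map_append, List.prod_append, Module.End.mul_apply, List.map_cons, List.prod_cons,
    Module.End.mul_apply]

/-- the determinant of the coordinates of the vectors of a list -/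
noncomputable def dtl {m : ℕ} (n : ℕ) (q : Fin n → Fin m → ℝ) (p : V → Fin m → ℝ)
    (l : List V) : ℝ :=
  if h : l.length = n then
    Matrix.det (fun i j : Fin n => p (l.get (Fin.cast h.symm i)) ⬝ᵥ q j) else 0

omit [DecidableEq V] [Fintype V] in
/-- adjacent transpositions -/
private theorem sorted_swap {m n : ℕ} (q : Fin n → Fin m → ℝ) (p : V → Fin m → ℝ)
    (l₁ l₂ : List V) (u v : V) :
    dtl n q p (l₁ ++ v :: u :: l₂) = -dtl n q p (l₁ ++ u :: v :: l₂) := by
  have hlen : (l₁ ++ v :: u :: l₂).length = (l₁ ++ u :: v :: l₂).length := by simp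
  unfold dtl
  by_cases h : (l₁ ++ v :: u :: l₂).length = n
  · have h' : (l₁ ++ u :: v :: l₂).length = n := hlen ▸ h
    rw [dif_pos h, dif_pos h']
    have hk : l₁.length + 1 < n := by
      rw [← h]
      simp
    have hab : (⟨l₁.length, by omega⟩ : Fin n) ≠ ⟨l₁.length + 1, hk⟩ := by
      intro h0
      have := congrArg Fin.val h0
      simp at this
    have hdet := Matrix.det_permute (Equiv.swap (⟨l₁.length, by omega⟩ : Fin n)
      ⟨l₁.length + 1, hk⟩)
      (fun i j : Fin n => p ((l₁ ++ u :: v :: l₂).get (Fin.cast h'.symm i)) ⬝ᵥ q j)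
    rw [Equiv.Perm.sign_swap hab] at hdet
    rw [show -Matrix.det (fun i j : Fin n =>
        p ((l₁ ++ u :: v :: l₂).get (Fin.cast h'.symm i)) ⬝ᵥ q j) =
        (((-1 : ℤˣ) : ℤ) : ℝ) * Matrix.det (fun i j : Fin n =>
        p ((l₁ ++ u :: v :: l₂).get (Fin.cast h'.symm i)) ⬝ᵥ q j) by simp, ← hdet]
    congr 1
    funext i j
    rw [Matrix.submatrix_apply, id]
    congr 2
    have hi := i.2
    rcases lt_trichotomy i.val l₁.length with h1 | h1 | h1
    · rw [Equiv.swap_apply_of_ne_of_ne (by intro h0; rw [h0] at h1; simp at h1)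
        (by intro h0; rw [h0] at h1; simp at h1)]
      simp [List.getElem_append_left h1]
    · have : i = ⟨l₁.length, by omega⟩ := Fin.ext h1
      rw [this, Equiv.swap_apply_left]
      simp [List.getElem_append_right]
    · by_cases h2 : i.val = l₁.length + 1
      · have : i = ⟨l₁.length + 1, hk⟩ := Fin.ext h2
        rw [this, Equiv.swap_apply_right]
        simp [List.getElem_append_right]
      · rw [Equiv.swap_apply_of_ne_of_ne (by intro h0; rw [h0] at h1; simp at h1)
          (by intro h0; rw [h0] at h2; simp at h2)]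
        obtain ⟨k, hk'⟩ : ∃ k, i.val = l₁.length + (k + 2) := ⟨i.val - l₁.length - 2, by omega⟩
        simp [hk', List.getElem_append_right]
  · have h' : ¬ (l₁ ++ u :: v :: l₂).length = n := hlen ▸ h
    rw [dif_neg h, dif_neg h', neg_zero]

omit [DecidableEq V] [Fintype V] in
private theorem sorted_move {m n : ℕ} (q : Fin n → Fin m → ℝ) (p : V → Fin m → ℝ) (v : V)
    (l₂ : List V) : ∀ l₁ l₀ : List V, dtl n q p (l₀ ++ v :: (l₁ ++ l₂)) =
      (-1) ^ l₁.length * dtl n q p (l₀ ++ (l₁ ++ v :: l₂)) := by
  intro l₁
  induction l₁ with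
  | nil =>
    intro l₀
    simp
  | cons u l ih =>
    intro l₀
    rw [List.cons_append, List.cons_append, sorted_swap]
    have h := ih (l₀ ++ [u])
    rw [List.append_assoc, List.append_assoc, List.singleton_append, List.singleton_append] at h
    rw [h, List.length_cons, pow_succ]
    ring

/-- inserting a vector in the determinant -/
theorem dtl_insert {ν : V → ℕ} {srt : Finset V → List V} (hsrt : IsSrt ν srt) {m n : ℕ}
    (q : Fin n → Fin m → ℝ) (p : V → Fin m → ℝ) {v : V} {κ : Finset V} (hv : v ∉ κ) :
    dtl n q p (v :: srt κ) = sgn ν v κ * dtl n q p (srt (insert v κ)) := by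
  obtain ⟨l₁, l₂, h1, h2, h3⟩ := hsrt.insert v κ hv
  rw [h1, h2, h3]
  have h := sorted_move q p v l₂ l₁ []
  rwa [List.nil_append, List.nil_append] at h

/-- the determinant as a function of the first vector -/
theorem dtl_cons {m n : ℕ} (q : Fin n → Fin m → ℝ) (p : V → Fin m → ℝ) (l : List V)
    (hl : l.length + 1 = n) :
    ∃ δ : (Fin m → ℝ) →ₗ[ℝ] ℝ, (∀ v, dtl n q p (v :: l) = δ (p v)) ∧ ∀ u ∈ l, δ (p u) = 0 := by
  subst hl
  let F : (Fin m → ℝ) →ₗ[ℝ] (Fin (l.length + 1) → ℝ) :=
    { toFun := fun x j => x ⬝ᵥ q j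
      map_add' := by
        intro x y
        funext j
        simp [add_dotProduct]
      map_smul' := by
        intro r x
        funext j
        simp [smul_dotProduct] }
  let M : Fin (l.length + 1) → Fin (l.length + 1) → ℝ :=
    fun i => F (Fin.cases (motive := fun _ => Fin m → ℝ) 0 (fun i' => p (l.get i')) i)
  let D := (Matrix.detRowAlternating (n := Fin (l.length + 1)) (R := ℝ)).toMultilinearMap
  refine ⟨(D.toLinearMap M 0).comp F, fun v => ?_, fun u hu => ?_⟩
  · unfold dtl
    rw [dif_pos (by simp)]
    show _ = Matrix.det (Function.update M 0 (F (p v)))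
    congr 1
    funext i j
    refine Fin.cases ?_ (fun i' => ?_) i
    · rw [Function.update_self]
      rfl
    · rw [Function.update_of_ne (Fin.succ_ne_zero i')]
      rfl
  · obtain ⟨i, rfl⟩ := List.get_of_mem hu
    show Matrix.det (Function.update M 0 (F (p (l.get i)))) = 0
    refine Matrix.det_zero_of_row_eq (i := 0) (j := i.succ) (Fin.succ_ne_zero i).symm ?_
    rw [Function.update_self, Function.update_of_ne (Fin.succ_ne_zero i)]
    rfl

end Pool.Agent.H85.Fold
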