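import Pool.Agent.H85.Fold.TwA

/-!
# Project FOLD: deforming chains with coefficients in kernels to twisted chains
-/

set_option autoImplicit false

open Finset

namespace Pool.Agent.H85.Fold

variable {V : Type} [DecidableEq V] [Fintype V] {S : Type} [NormedAddCommGroup S]
  [NormedSpace ℝ S] [FiniteDimensional ℝ S] {G : SimpleGraph V} {e g c : V → S →ₗ[ℝ] S}

/-- the common kernel -/
private def twK (e : V → S →ₗ[ℝ] S) (σ : Finset V) : Submodule ℝ S where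
  carrier := {y | ∀ v ∈ σ, e v y = 0}
  add_mem' := by
    intro a b ha hb v hv
    rw [map_add, ha v hv, hb v hv, add_zero]
  zero_mem' := fun v _ => map_zero _
  smul_mem' := by
    intro r a ha v hv
    rw [map_smul, ha v hv, smul_zero]

/-- a linear section of `e v ∘ c v` -/
private theorem twB_section (h : IsPert G e g c) {σ : Finset V} {v : V} (hv : v ∉ σ)
    (hcl : Cl G (insert v σ)) :
    ∃ D : S →ₗ[ℝ] S, (∀ x, ∀ u ∈ σ, e u (D x) = 0) ∧
      ∀ x, (∀ u ∈ insert v σ, e u x = 0) → e v (c v (D x)) = x := by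
  let E : twK e σ →ₗ[ℝ] S := ((e v).comp (c v)).comp (twK e σ).subtype
  obtain ⟨r, hr⟩ := LinearMap.exists_rightInverse_of_surjective E.rangeRestrict
    (LinearMap.range_rangeRestrict E)
  obtain ⟨D, hD⟩ := LinearMap.exists_extend r
  refine ⟨(twK e σ).subtype.comp D, fun x u hu => (D x).2 u hu, fun x hx => ?_⟩
  obtain ⟨m, hm1, hm2⟩ := h.lift σ v hv hcl x hx
  have hmem : x ∈ LinearMap.range E := by
    refine ⟨⟨-c v m, fun u hu => ?_⟩, ?_⟩
    · rw [map_neg, h.ec, hm1 u hu, map_zero, neg_zero, neg_zero]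
    · show e v (c v (-c v m)) = x
      rw [map_neg, h.c_sq, neg_neg, hm2]
  have h1 : D x = r ⟨x, hmem⟩ := by
    rw [← hD]
    rfl
  have h2 : E (r ⟨x, hmem⟩) = x := by
    have h3 := congrArg Subtype.val (LinearMap.congr_fun hr ⟨x, hmem⟩)
    exact h3
  have h4 : E (D x) = x := by rw [h1, h2]
  exact h4

/-- **Deformation for one simplex.** The constant does not depend on the finite set `Ω`. -/
theorem deform_simplex (h : IsPert G e g c) (σ : Finset V) (hσ : Cl G σ) :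
    ∃ C : ℝ, 0 ≤ C ∧ ∀ (Ω : Type) [Fintype Ω] (s : V → Ω → Ω), IsAct G s →
      ∀ δ : ℝ, 0 < δ → δ ≤ 1 → ∀ z : Ω → S, (∀ ω, ∀ v ∈ σ, e v (z ω) = 0) →
        ∃ z' : Ω → S, (∀ v ∈ σ, ∀ ω, z' (s v ω) = -At e g c δ⁻¹ v (z' ω)) ∧
          ‖z' - z‖ ≤ C * δ * ‖z‖ := by
  induction σ using Finset.induction_on with
  | empty =>
    refine ⟨0, le_rfl, fun Ω _ s _ δ _ _ z _ => ⟨z, fun v hv => absurd hv (Finset.notMem_empty v),
      ?_⟩⟩
    rw [sub_self, norm_zero, zero_mul, zero_mul]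
  | insert v σ hv ih =>
    have hcσ : Cl G σ := fun a ha b hb hab =>
      hσ a (Finset.mem_insert_of_mem ha) b (Finset.mem_insert_of_mem hb) hab
    obtain ⟨C, hC0, hC⟩ := ih hcσ
    obtain ⟨D, hD1, hD2⟩ := twB_section h hv hσ
    obtain ⟨CD, hCD0, hCD⟩ := exists_bound D
    obtain ⟨CE, hCE0, hCE⟩ := exists_bound ((e v).comp (c v))
    obtain ⟨Cg, hCg0, hCg⟩ := exists_bound ((g v).comp (c v))
    refine ⟨CE * C * CD + (Cg + 1) * (1 + C) * CD, by positivity, ?_⟩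
    intro Ω _ s hs δ hδ hδ1 z hz
    have hm : ∀ ω, ∀ u ∈ σ, e u (D (z ω)) = 0 := fun ω u hu => hD1 _ u hu
    obtain ⟨m', hm1, hm2⟩ := hC Ω s hs δ hδ hδ1 (fun ω => D (z ω)) hm
    have hmn : ‖(fun ω => D (z ω) : Ω → S)‖ ≤ CD * ‖z‖ := by
      refine (pi_norm_le_iff_of_nonneg (by positivity)).2 fun ω => ?_
      exact (hCD _).trans (mul_le_mul_of_nonneg_left (norm_le_pi_norm z ω) hCD0)
    have hmn' : ‖m'‖ ≤ (1 + C) * (CD * ‖z‖) := by
      have h1 : ‖m'‖ ≤ ‖m' - (fun ω => D (z ω))‖ + ‖(fun ω => D (z ω) : Ω → S)‖ := by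
        have := norm_add_le (m' - (fun ω => D (z ω))) (fun ω => D (z ω))
        rwa [sub_add_cancel] at this
      have h2 : C * δ * ‖(fun ω => D (z ω) : Ω → S)‖ ≤ C * (CD * ‖z‖) := by
        calc C * δ * ‖(fun ω => D (z ω) : Ω → S)‖ ≤ C * 1 * (CD * ‖z‖) := by
              gcongr
          _ = C * (CD * ‖z‖) := by ring
      calc ‖m'‖ ≤ C * (CD * ‖z‖) + CD * ‖z‖ := by linarith
        _ = (1 + C) * (CD * ‖z‖) := by ring
    have hAt : ∀ x, δ • At e g c δ⁻¹ v x = e v (c v x) + δ • g v (c v x) := by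
      intro x
      show δ • (δ⁻¹ • e v (c v x) + g v (c v x)) = _
      rw [smul_add, smul_smul, mul_inv_cancel₀ hδ.ne', one_smul]
    refine ⟨fun ω => δ • (At e g c δ⁻¹ v (m' ω) - m' (s v ω)), ?_, ?_⟩
    · intro u hu ω
      rcases Finset.mem_insert.1 hu with rfl | huσ
      · show δ • (At e g c δ⁻¹ u (m' (s u ω)) - m' (s u (s u ω))) =
          -At e g c δ⁻¹ u (δ • (At e g c δ⁻¹ u (m' ω) - m' (s u ω)))
        rw [hs.inv, map_smul, map_sub, h.At_sq, ← smul_neg, neg_sub]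
      · have huv : u ≠ v := fun h' => hv (h' ▸ huσ)
        have hadj : G.Adj v u := hσ v (Finset.mem_insert_self _ _) u hu (Ne.symm huv)
        show δ • (At e g c δ⁻¹ v (m' (s u ω)) - m' (s v (s u ω))) =
          -At e g c δ⁻¹ u (δ • (At e g c δ⁻¹ v (m' ω) - m' (s v ω)))
        rw [hs.comm v u hadj, hm1 u huσ ω, hm1 u huσ (s v ω), map_smul, map_sub, map_neg,
          h.At_comm δ⁻¹ v u hadj, ← smul_neg, neg_sub, sub_neg_eq_add]
        congr 1
        abel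
    · refine (pi_norm_le_iff_of_nonneg (by positivity)).2 fun ω => ?_
      have h1 : (fun ω => δ • (At e g c δ⁻¹ v (m' ω) - m' (s v ω))) ω - z ω =
          ((e v).comp (c v)) (m' ω - D (z ω)) +
            δ • (((g v).comp (c v)) (m' ω) - m' (s v ω)) := by
        show δ • (At e g c δ⁻¹ v (m' ω) - m' (s v ω)) - z ω =
          e v (c v (m' ω - D (z ω))) + δ • (g v (c v (m' ω)) - m' (s v ω))
        rw [smul_sub, hAt, map_sub, map_sub, hD2 (z ω) (hz ω), smul_sub]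
        abel
      rw [Pi.sub_apply, h1]
      have h2 : ‖((e v).comp (c v)) (m' ω - D (z ω))‖ ≤ CE * (C * δ * (CD * ‖z‖)) := by
        refine (hCE _).trans (mul_le_mul_of_nonneg_left ?_ hCE0)
        refine (norm_le_pi_norm (m' - fun ω => D (z ω)) ω).trans (hm2.trans ?_)
        gcongr
      have h3 : ‖((g v).comp (c v)) (m' ω) - m' (s v ω)‖ ≤ (Cg + 1) * ((1 + C) * (CD * ‖z‖)) := by
        refine (norm_sub_le _ _).trans ?_
        have h4 : ‖((g v).comp (c v)) (m' ω)‖ ≤ Cg * ((1 + C) * (CD * ‖z‖)) :=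
          (hCg _).trans (mul_le_mul_of_nonneg_left ((norm_le_pi_norm m' ω).trans hmn') hCg0)
        have h5 : ‖m' (s v ω)‖ ≤ (1 + C) * (CD * ‖z‖) := (norm_le_pi_norm m' _).trans hmn'
        linarith
      calc ‖((e v).comp (c v)) (m' ω - D (z ω)) +
              δ • (((g v).comp (c v)) (m' ω) - m' (s v ω))‖
          ≤ ‖((e v).comp (c v)) (m' ω - D (z ω))‖ +
              ‖δ • (((g v).comp (c v)) (m' ω) - m' (s v ω))‖ := norm_add_le _ _
        _ = ‖((e v).comp (c v)) (m' ω - D (z ω))‖ +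
              δ * ‖((g v).comp (c v)) (m' ω) - m' (s v ω)‖ := by
            rw [norm_smul, Real.norm_of_nonneg hδ.le]
        _ ≤ CE * (C * δ * (CD * ‖z‖)) + δ * ((Cg + 1) * ((1 + C) * (CD * ‖z‖))) :=
            add_le_add h2 (mul_le_mul_of_nonneg_left h3 hδ.le)
        _ = (CE * C * CD + (Cg + 1) * (1 + C) * CD) * δ * ‖z‖ := by ring

/-- **Deformation.** -/
theorem deform (h : IsPert G e g c) (i : ℕ) :
    ∃ C : ℝ, 0 ≤ C ∧ ∀ (Ω : Type) [Fintype Ω] (s : V → Ω → Ω), IsAct G s →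
      ∀ δ : ℝ, 0 < δ → δ ≤ 1 → ∀ z : Finset V → Ω → S,
        (∀ ω, IsF G e ⊤ univ i fun σ => z σ ω) →
        ∃ z', IsTw G (At e g c δ⁻¹) s i z' ∧ ‖z' - z‖ ≤ C * δ * ‖z‖ := by
  classical
  have hex : ∀ σ : Finset V, ∃ C : ℝ, 0 ≤ C ∧ (Cl G σ → ∀ (Ω : Type) [Fintype Ω]
      (s : V → Ω → Ω), IsAct G s →
      ∀ δ : ℝ, 0 < δ → δ ≤ 1 → ∀ z : Ω → S, (∀ ω, ∀ v ∈ σ, e v (z ω) = 0) →
        ∃ z' : Ω → S, (∀ v ∈ σ, ∀ ω, z' (s v ω) = -At e g c δ⁻¹ v (z' ω)) ∧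
          ‖z' - z‖ ≤ C * δ * ‖z‖) := by
    intro σ
    by_cases hσ : Cl G σ
    · obtain ⟨C, h1, h2⟩ := deform_simplex h σ hσ
      exact ⟨C, h1, fun _ => h2⟩
    · exact ⟨0, le_rfl, fun h' => absurd h' hσ⟩
  choose C hC0 hC using hex
  refine ⟨∑ σ, C σ, Finset.sum_nonneg fun σ _ => hC0 σ, ?_⟩
  intro Ω _ s hs δ hδ hδ1 z hz
  have hex2 : ∀ σ : Finset V, ∃ z' : Ω → S,
      ((¬ (Cl G σ ∧ σ.card = i)) → z' = 0) ∧
      (∀ v ∈ σ, ∀ ω, z' (s v ω) = -At e g c δ⁻¹ v (z' ω)) ∧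
      ‖z' - z σ‖ ≤ C σ * δ * ‖z σ‖ := by
    intro σ
    by_cases hσ : Cl G σ ∧ σ.card = i
    · obtain ⟨z', h1, h2⟩ := hC σ hσ.1 Ω s hs δ hδ hδ1 (z σ) (fun ω v hv => (hz ω).ker σ v hv)
      exact ⟨z', fun h' => absurd hσ h', h1, h2⟩
    · have hz0 : z σ = 0 := by
        funext ω
        by_contra hne
        exact hσ ((hz ω).supp σ hne).2
      refine ⟨0, fun _ => rfl, fun v _ ω => ?_, ?_⟩
      · show (0 : S) = -At e g c δ⁻¹ v 0
        rw [map_zero, neg_zero]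
      · rw [hz0, sub_zero, norm_zero, mul_zero]
  choose z' hz1 hz2 hz3 using hex2
  refine ⟨z', ⟨?_, hz2⟩, ?_⟩
  · intro σ ω hne
    by_contra hcon
    apply hne
    rw [hz1 σ hcon]
    rfl
  · have hsum : ∀ σ, C σ ≤ ∑ σ, C σ := fun σ =>
      Finset.single_le_sum (fun τ _ => hC0 τ) (Finset.mem_univ σ)
    have hS0 : 0 ≤ ∑ σ, C σ := Finset.sum_nonneg fun σ _ => hC0 σ
    refine (pi_norm_le_iff_of_nonneg (by positivity)).2 fun σ => ?_
    rw [Pi.sub_apply]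
    refine (hz3 σ).trans ?_
    have h1 : ‖z σ‖ ≤ ‖z‖ := norm_le_pi_norm z σ
    have h2 := hC0 σ
    have h3 := hsum σ
    gcongr

end Pool.Agent.H85.Fold
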