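import Pool.Agent.H85.Fold.Link

/-!
# Project FOLD: twisted chains, real coefficients
-/

set_option autoImplicit false

open Finset

namespace Pool.Agent.H85.Fold

section

variable {V : Type} [DecidableEq V] [Fintype V]

/-- a set with commuting involutions (an action of the right-angled Coxeter group) -/
structure IsAct (G : SimpleGraph V) {Ω : Type} (s : V → Ω → Ω) : Prop where
  inv : ∀ v ω, s v (s v ω) = ω
  comm : ∀ u v, G.Adj u v → ∀ ω, s u (s v ω) = s v (s u ω)

variable {S : Type} [AddCommGroup S] [Module ℝ S]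

/-- twisted chains of degree `i` -/
structure IsTw (G : SimpleGraph V) (A : V → S →ₗ[ℝ] S) {Ω : Type} (s : V → Ω → Ω) (i : ℕ)
    (f : Finset V → Ω → S) : Prop where
  supp : ∀ σ ω, f σ ω ≠ 0 → Cl G σ ∧ σ.card = i
  tw : ∀ σ, ∀ v ∈ σ, ∀ ω, f σ (s v ω) = -A v (f σ ω)

/-- The operators of the perturbation: `e v` as before, `g v` of square `1` and `c v` of square
`-1`, all anticommuting except the `e v` among themselves. -/
structure IsPert (G : SimpleGraph V) (e g c : V → S →ₗ[ℝ] S) : Prop where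
  e_sq : ∀ v x, e v (e v x) = 0
  ee : ∀ u v, G.Adj u v → ∀ x, e u (e v x) = -e v (e u x)
  g_sq : ∀ v x, g v (g v x) = x
  c_sq : ∀ v x, c v (c v x) = -x
  gg : ∀ u v, u ≠ v → ∀ x, g u (g v x) = -g v (g u x)
  cc : ∀ u v, u ≠ v → ∀ x, c u (c v x) = -c v (c u x)
  eg : ∀ u v x, e u (g v x) = -g v (e u x)
  ec : ∀ u v x, e u (c v x) = -c v (e u x)
  gc : ∀ u v x, g u (c v x) = -c v (g u x)
  lift : ∀ (σ : Finset V) (v : V), v ∉ σ → Cl G (insert v σ) → ∀ x : S,
    (∀ u ∈ insert v σ, e u x = 0) → ∃ m : S, (∀ u ∈ σ, e u m = 0) ∧ e v m = x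

/-- the involutions -/
noncomputable def At (e g c : V → S →ₗ[ℝ] S) (t : ℝ) (v : V) : S →ₗ[ℝ] S :=
  (t • e v + g v).comp (c v)

end

end Pool.Agent.H85.Fold
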