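import Pool.Agent.H85.Fold.Sorted
import Pool.Agent.H85.Fold.SignS

/-!
# Project FOLD: the folding vectors
-/

set_option autoImplicit false

open Finset

namespace Pool.Agent.H85.Fold

variable {V : Type} [DecidableEq V] [Fintype V]

/-- folding vectors of a graph, for complexes of dimension `n - 1` -/
structure IsFold (G : SimpleGraph V) (n : ℕ) {m₁ m₂ : ℕ} (p : V → Fin m₁ → ℝ)
    (a : V → Fin m₂ → ℝ) : Prop where
  dim : Module.finrank ℝ (Submodule.span ℝ (Set.range p)) ≤ n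
  zero : ∀ u v, u = v ∨ G.Adj u v → p u ⬝ᵥ p v = a u ⬝ᵥ a v
  neg : ∀ u v, u ≠ v → ¬ G.Adj u v → p u ⬝ᵥ p v < a u ⬝ᵥ a v

variable {ν : V → ℕ} {G : SimpleGraph V} {n m₁ m₂ : ℕ} {o : Finset V → ℝ}
  {p : V → Fin m₁ → ℝ} {a : V → Fin m₂ → ℝ}

omit [DecidableEq V] [Fintype V] in
private theorem memfac {U σ : Finset V} :
    σ ∈ fac G n U ↔ σ ⊆ U ∧ Cl G σ ∧ σ.card = n := by
  simp [fac]

omit [DecidableEq V] [Fintype V] in
private theorem dot_sum_sum {m : ℕ} (s t : Finset V) (c d : V → ℝ) (f : V → Fin m → ℝ) :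
    (∑ u ∈ s, c u • f u) ⬝ᵥ (∑ v ∈ t, d v • f v) =
      ∑ u ∈ s, ∑ v ∈ t, c u * d v * (f u ⬝ᵥ f v) := by
  rw [sum_dotProduct]
  refine Finset.sum_congr rfl fun u _ => ?_
  rw [dotProduct_sum]
  refine Finset.sum_congr rfl fun v _ => ?_
  rw [smul_dotProduct, dotProduct_smul, smul_eq_mul, smul_eq_mul, mul_assoc]

omit [DecidableEq V] [Fintype V] in
private theorem dot_sum_one {m : ℕ} (s : Finset V) (c : V → ℝ) (f : V → Fin m → ℝ)
    (x : Fin m → ℝ) : (∑ u ∈ s, c u • f u) ⬝ᵥ x = ∑ u ∈ s, c u * (f u ⬝ᵥ x) := by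
  rw [sum_dotProduct]
  refine Finset.sum_congr rfl fun u _ => ?_
  rw [smul_dotProduct, smul_eq_mul]

/-- the vectors of a facet are linearly independent -/
theorem fold_indep (hK : IsSphere ν G n univ o) (hf : IsFold G n p a) {τ : Finset V}
    (hτ : τ ∈ fac G n univ) (c : V → ℝ) (hc : ∑ v ∈ τ, c v • p v = 0) : ∀ v ∈ τ, c v = 0 := by
  obtain ⟨hτU, hcl, hcard⟩ := memfac.1 hτ
  have hy : ∑ v ∈ τ, c v • a v = 0 := by
    rw [← dotProduct_self_eq_zero, dot_sum_sum]
    have h0 : (∑ v ∈ τ, c v • p v) ⬝ᵥ (∑ v ∈ τ, c v • p v) = 0 := by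
      rw [hc, zero_dotProduct]
    rw [dot_sum_sum] at h0
    rw [← h0]
    refine Finset.sum_congr rfl fun u hu => Finset.sum_congr rfl fun v hv => ?_
    rw [hf.zero u v]
    by_cases huv : u = v
    · exact Or.inl huv
    · exact Or.inr (hcl u hu v hv huv)
  intro v0 hv0
  have hins : insert v0 (τ.erase v0) = τ := Finset.insert_erase hv0
  obtain ⟨w, -, hwv, hnadj, hw⟩ := hK.exists_ne (σ := τ.erase v0) (v := v0)
    (Finset.notMem_erase v0 τ) (by rw [hins]; exact hτU) (by rw [hins]; exact hcl)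
  have h1 : ∑ u ∈ τ, c u * (p u ⬝ᵥ p w) = 0 := by
    rw [← dot_sum_one, hc, zero_dotProduct]
  have h2 : ∑ u ∈ τ, c u * (a u ⬝ᵥ a w) = 0 := by
    rw [← dot_sum_one, hy, zero_dotProduct]
  have h3 : ∑ u ∈ τ, c u * (p u ⬝ᵥ p w - a u ⬝ᵥ a w) = 0 := by
    have : ∑ u ∈ τ, c u * (p u ⬝ᵥ p w - a u ⬝ᵥ a w) =
        ∑ u ∈ τ, c u * (p u ⬝ᵥ p w) - ∑ u ∈ τ, c u * (a u ⬝ᵥ a w) := by
      rw [← Finset.sum_sub_distrib]
      exact Finset.sum_congr rfl fun u _ => by ring
    rw [this, h1, h2, sub_zero]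
  rw [Finset.sum_eq_single_of_mem v0 hv0] at h3
  · rcases mul_eq_zero.1 h3 with h | h
    · exact h
    · have := hf.neg v0 w hwv.symm hnadj
      linarith
  · intro u hu huv
    rw [hf.zero u w (Or.inr (hw u (Finset.mem_erase.2 ⟨huv, hu⟩))), sub_self, mul_zero]

private theorem fold_li (hK : IsSphere ν G n univ o) (hf : IsFold G n p a) {τ : Finset V}
    (hτ : τ ∈ fac G n univ) : LinearIndependent ℝ (fun v : τ => p v) := by
  classical
  rw [Fintype.linearIndependent_iff]
  intro g hg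
  have h1 : ∑ v ∈ τ, (fun v : V => if h : v ∈ τ then g ⟨v, h⟩ else 0) v • p v = 0 := by
    rw [← hg, ← Finset.sum_coe_sort τ]
    exact Finset.sum_congr rfl fun v _ => by simp
  intro v
  have h2 := fold_indep hK hf hτ _ h1 v.1 v.2
  simpa using h2

private theorem fold_span_eq (hK : IsSphere ν G n univ o) (hf : IsFold G n p a) {τ : Finset V}
    (hτ : τ ∈ fac G n univ) :
    Submodule.span ℝ (Set.range (fun v : τ => p v)) = Submodule.span ℝ (Set.range p) ∧
      Module.finrank ℝ (Submodule.span ℝ (Set.range p)) = n := by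
  have hle : Submodule.span ℝ (Set.range (fun v : τ => p v)) ≤ Submodule.span ℝ (Set.range p) := by
    apply Submodule.span_mono
    rintro _ ⟨v, rfl⟩
    exact ⟨v, rfl⟩
  have hfr : Module.finrank ℝ (Submodule.span ℝ (Set.range (fun v : τ => p v))) = n := by
    rw [finrank_span_eq_card (fold_li hK hf hτ), Fintype.card_coe]
    exact (memfac.1 hτ).2.2
  have heq : Submodule.span ℝ (Set.range (fun v : τ => p v)) = Submodule.span ℝ (Set.range p) := by
    apply Submodule.eq_of_le_of_finrank_le hle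
    rw [hfr]
    exact hf.dim
  exact ⟨heq, by rw [← heq]; exact hfr⟩

/-- every vector is a combination of the vectors of a facet -/
theorem fold_span (hK : IsSphere ν G n univ o) (hf : IsFold G n p a) {τ : Finset V}
    (hτ : τ ∈ fac G n univ) (w : V) : ∃ c : V → ℝ, p w = ∑ v ∈ τ, c v • p v := by
  classical
  have hw : p w ∈ Submodule.span ℝ (Set.range (fun v : τ => p v)) := by
    rw [(fold_span_eq hK hf hτ).1]
    exact Submodule.subset_span ⟨w, rfl⟩
  obtain ⟨c, hc⟩ := (Submodule.mem_span_range_iff_exists_fun ℝ).1 hw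
  refine ⟨fun v => if h : v ∈ τ then c ⟨v, h⟩ else 0, ?_⟩
  rw [← hc, ← Finset.sum_coe_sort τ]
  exact Finset.sum_congr rfl fun v _ => by simp

/-- an orthonormal basis of the span -/
theorem fold_basis (hK : IsSphere ν G n univ o) (hf : IsFold G n p a) :
    ∃ q : Fin n → Fin m₁ → ℝ, (∀ i j, q i ⬝ᵥ q j = if i = j then 1 else 0) ∧
      ∀ v, p v = ∑ j, (p v ⬝ᵥ q j) • q j := by
  classical
  obtain ⟨τ, hτU, hcl, hcard, -⟩ := hK.pure ∅ (Finset.empty_subset _) (by intro u hu; simp at hu)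
  have hfr := (fold_span_eq hK hf (memfac.2 ⟨hτU, hcl, hcard⟩)).2
  set P := Submodule.span ℝ (Set.range p) with hP
  let L : (Fin m₁ → ℝ) ≃ₗ[ℝ] EuclideanSpace ℝ (Fin m₁) := (WithLp.linearEquiv 2 ℝ (Fin m₁ → ℝ)).symm
  let P' : Submodule ℝ (EuclideanSpace ℝ (Fin m₁)) := P.map (L : (Fin m₁ → ℝ) →ₗ[ℝ] _)
  have hfr' : Module.finrank ℝ P' = n := by
    rw [← hfr]
    exact LinearEquiv.finrank_map_eq L P
  let b0 := stdOrthonormalBasis ℝ P'
  let b : OrthonormalBasis (Fin n) ℝ P' := b0.reindex (finCongr hfr')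
  have hin : ∀ x y : Fin m₁ → ℝ, inner ℝ (L x) (L y) = y ⬝ᵥ x := by
    intro x y
    simp [L, EuclideanSpace.inner_eq_star_dotProduct]
  have hLs : ∀ z : EuclideanSpace ℝ (Fin m₁), L (L.symm z) = z := fun z => L.apply_symm_apply z
  refine ⟨fun i => L.symm (b i : EuclideanSpace ℝ (Fin m₁)), ?_, ?_⟩
  · intro i j
    rw [← hin, hLs, hLs]
    have := orthonormal_iff_ite.1 b.orthonormal j i
    rw [Submodule.coe_inner] at this
    rw [this]
    by_cases h : i = j
    · simp [h]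
    · simp [h, Ne.symm h]
  · intro v
    have hv : L (p v) ∈ P' := Submodule.mem_map_of_mem (Submodule.subset_span ⟨v, rfl⟩)
    have h1 := b.sum_repr' ⟨L (p v), hv⟩
    have h2 := congrArg (fun z : P' => L.symm (z : EuclideanSpace ℝ (Fin m₁))) h1
    simp only [Submodule.coe_sum, Submodule.coe_smul, map_sum, map_smul] at h2
    rw [L.symm_apply_apply] at h2
    conv_lhs => rw [← h2]
    refine Finset.sum_congr rfl fun j _ => ?_
    congr 1

/-- the vectors opposite to a ridge are on different sides -/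
theorem fold_opposite (hK : IsSphere ν G n univ o) (hf : IsFold G n p a) {κ : Finset V}
    {v w : V} (hvw : v ≠ w) (hv : v ∉ κ) (hw : w ∉ κ) (h1 : insert v κ ∈ fac G n univ)
    (h2 : insert w κ ∈ fac G n univ) (δ : (Fin m₁ → ℝ) →ₗ[ℝ] ℝ)
    (hδ : ∀ u ∈ κ, δ (p u) = 0) (hδv : δ (p v) ≠ 0) : δ (p v) * δ (p w) < 0 := by
  classical
  obtain ⟨-, hcl1, hcard1⟩ := memfac.1 h1
  obtain ⟨-, hcl2, hcard2⟩ := memfac.1 h2
  have hδw : δ (p w) ≠ 0 := by
    intro h
    obtain ⟨c, hc⟩ := fold_span hK hf h2 v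
    apply hδv
    rw [hc, map_sum]
    refine Finset.sum_eq_zero fun u hu => ?_
    rw [map_smul]
    rcases Finset.mem_insert.1 hu with rfl | hu
    · rw [h, smul_zero]
    · rw [hδ u hu, smul_zero]
  have hnadj : ¬ G.Adj v w := by
    intro hadj
    have hcl3 : Cl G (insert w (insert v κ)) := by
      intro u hu u' hu' huu'
      rcases Finset.mem_insert.1 hu with e | hu2
      · rcases Finset.mem_insert.1 hu' with e' | hu2'
        · exact absurd (e.trans e'.symm) huu'
        · rcases Finset.mem_insert.1 hu2' with e' | hu3'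
          · rw [e, e']
            exact hadj.symm
          · exact hcl2 _ (Finset.mem_insert.2 (Or.inl e)) _ (Finset.mem_insert_of_mem hu3') huu'
      · rcases Finset.mem_insert.1 hu' with e' | hu2'
        · rcases Finset.mem_insert.1 hu2 with e | hu3
          · rw [e, e']
            exact hadj
          · exact hcl2 _ (Finset.mem_insert_of_mem hu3) _ (Finset.mem_insert.2 (Or.inl e')) huu'
        · exact hcl1 _ hu2 _ hu2' huu'
    have hle := hK.dim _ (Finset.subset_univ _) hcl3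
    rw [Finset.card_insert_of_notMem, hcard1] at hle
    · omega
    · simp [hvw.symm, hw]
  have hB := hf.neg v w hvw hnadj
  rcases lt_or_gt_of_ne (mul_ne_zero hδv hδw) with h | hpos
  · exact h
  exfalso
  obtain ⟨c, hc⟩ := fold_span hK hf h1 w
  have hδc : δ (p w) = c v * δ (p v) := by
    rw [hc, map_sum, Finset.sum_insert hv, map_smul, smul_eq_mul, Finset.sum_eq_zero, add_zero]
    intro u hu
    rw [map_smul, hδ u hu, smul_zero]
  have hcv : 0 < c v := by
    rw [hδc] at hpos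
    have h3 : 0 < c v * (δ (p v) * δ (p v)) := by nlinarith
    exact pos_of_mul_pos_left h3 (mul_self_pos.2 hδv).le
  set T := insert w (insert v κ) with hT
  have hwT : w ∉ insert v κ := by simp [hvw.symm, hw]
  let c' : V → ℝ := fun u => if u = w then 1 else - c u
  have hc'w : c' w = 1 := by simp [c']
  have hc'u : ∀ u ∈ insert v κ, c' u = - c u := by
    intro u hu
    have : u ≠ w := by rintro rfl; exact hwT hu
    simp [c', this]
  have hsum : ∑ u ∈ T, c' u • p u = 0 := by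
    rw [hT, Finset.sum_insert hwT, hc'w, one_smul, hc, ← Finset.sum_add_distrib]
    refine Finset.sum_eq_zero fun u hu => ?_
    rw [hc'u u hu, neg_smul, add_neg_cancel]
  have hp0 : ∑ u ∈ T, ∑ u' ∈ T, c' u * c' u' * (p u ⬝ᵥ p u') = 0 := by
    rw [← dot_sum_sum, hsum, zero_dotProduct]
  have ha0 : 0 ≤ ∑ u ∈ T, ∑ u' ∈ T, c' u * c' u' * (a u ⬝ᵥ a u') := by
    rw [← dot_sum_sum]
    exact Finset.sum_nonneg fun i _ => mul_self_nonneg _
  have hdiff : ∑ u ∈ T, ∑ u' ∈ T, c' u * c' u' * (p u ⬝ᵥ p u' - a u ⬝ᵥ a u') ≤ 0 := by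
    have : ∑ u ∈ T, ∑ u' ∈ T, c' u * c' u' * (p u ⬝ᵥ p u' - a u ⬝ᵥ a u') =
        ∑ u ∈ T, ∑ u' ∈ T, c' u * c' u' * (p u ⬝ᵥ p u') -
          ∑ u ∈ T, ∑ u' ∈ T, c' u * c' u' * (a u ⬝ᵥ a u') := by
      rw [← Finset.sum_sub_distrib]
      refine Finset.sum_congr rfl fun u _ => ?_
      rw [← Finset.sum_sub_distrib]
      exact Finset.sum_congr rfl fun u' _ => by ring
    rw [this, hp0]
    linarith
  have hvT : v ∈ insert v κ := Finset.mem_insert_self _ _
  have hw1 : ∑ u' ∈ T, c' w * c' u' * (p w ⬝ᵥ p u' - a w ⬝ᵥ a u') =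
      c' w * c' v * (p w ⬝ᵥ p v - a w ⬝ᵥ a v) := by
    apply Finset.sum_eq_single_of_mem v (Finset.mem_insert_of_mem hvT)
    intro u' hu' hne
    rw [hf.zero w u', sub_self, mul_zero]
    rcases Finset.mem_insert.1 hu' with rfl | hu'
    · exact Or.inl rfl
    · rcases Finset.mem_insert.1 hu' with rfl | hu'
      · exact absurd rfl hne
      · refine Or.inr (hcl2 _ (Finset.mem_insert_self _ _) _ (Finset.mem_insert_of_mem hu') ?_)
        rintro rfl
        exact hw hu'
  have hv1 : ∑ u' ∈ T, c' v * c' u' * (p v ⬝ᵥ p u' - a v ⬝ᵥ a u') =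
      c' v * c' w * (p v ⬝ᵥ p w - a v ⬝ᵥ a w) := by
    apply Finset.sum_eq_single_of_mem w (Finset.mem_insert_self _ _)
    intro u' hu' hne
    rw [hf.zero v u', sub_self, mul_zero]
    rcases Finset.mem_insert.1 hu' with rfl | hu'
    · exact absurd rfl hne
    · rcases Finset.mem_insert.1 hu' with rfl | hu'
      · exact Or.inl rfl
      · refine Or.inr (hcl1 _ (Finset.mem_insert_self _ _) _ (Finset.mem_insert_of_mem hu') ?_)
        rintro rfl
        exact hv hu'
  have hκ1 : ∀ u ∈ κ, ∑ u' ∈ T, c' u * c' u' * (p u ⬝ᵥ p u' - a u ⬝ᵥ a u') = 0 := by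
    intro u hu
    refine Finset.sum_eq_zero fun u' hu' => ?_
    rw [hf.zero u u', sub_self, mul_zero]
    rcases Finset.mem_insert.1 hu' with rfl | hu'
    · refine Or.inr (hcl2 _ (Finset.mem_insert_of_mem hu) _ (Finset.mem_insert_self _ _) ?_)
      rintro rfl
      exact hw hu
    · by_cases huu : u = u'
      · exact Or.inl huu
      · exact Or.inr (hcl1 _ (Finset.mem_insert_of_mem hu) _ hu' huu)
  have htot : ∑ u ∈ T, ∑ u' ∈ T, c' u * c' u' * (p u ⬝ᵥ p u' - a u ⬝ᵥ a u') =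
      c' w * c' v * (p w ⬝ᵥ p v - a w ⬝ᵥ a v) + (c' v * c' w * (p v ⬝ᵥ p w - a v ⬝ᵥ a w) + 0) := by
    rw [← Finset.sum_eq_zero hκ1, ← hw1, ← hv1]
    conv_lhs => rw [hT, Finset.sum_insert hwT, Finset.sum_insert hv]
  rw [htot, hc'w, hc'u v hvT, dotProduct_comm (p w), dotProduct_comm (a w)] at hdiff
  nlinarith

/-- the determinants of the facets -/
theorem fold_dtl_ne (hK : IsSphere ν G n univ o) (hf : IsFold G n p a)
    {q : Fin n → Fin m₁ → ℝ} (hq : ∀ i j, q i ⬝ᵥ q j = if i = j then 1 else 0)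
    (hqp : ∀ v, p v = ∑ j, (p v ⬝ᵥ q j) • q j) {srt : Finset V → List V} (hsrt : IsSrt ν srt)
    {τ : Finset V} (hτ : τ ∈ fac G n univ) : dtl n q p (srt τ) ≠ 0 := by
  classical
  have _ := hq
  have hlen : (srt τ).length = n := by rw [hsrt.length]; exact (memfac.1 hτ).2.2
  set l := srt τ with hl
  intro h0
  rw [dtl, dif_pos hlen] at h0
  obtain ⟨x, hx0, hx⟩ := Matrix.exists_vecMul_eq_zero_iff.2 h0
  let f : Fin n → V := fun i => l.get (Fin.cast hlen.symm i)
  have hfinj : Function.Injective f := by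
    intro i j hij
    have := (hsrt.nodup τ).injective_get hij
    exact Fin.cast_injective _ this
  have hfmem : ∀ i, f i ∈ τ := by
    intro i
    have : f i ∈ l.toFinset := List.mem_toFinset.2 (List.get_mem _ _)
    rwa [hl, hsrt.toFinset] at this
  have hj : ∀ j, ∑ i, x i * (p (f i) ⬝ᵥ q j) = 0 := by
    intro j
    have := congrFun hx j
    simpa [Matrix.vecMul, dotProduct, f] using this
  have hsum : ∑ i, x i • p (f i) = 0 := by
    have : ∀ i, x i • p (f i) = ∑ j, (x i * (p (f i) ⬝ᵥ q j)) • q j := by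
      intro i
      conv_lhs => rw [hqp (f i)]
      rw [Finset.smul_sum]
      exact Finset.sum_congr rfl fun j _ => by rw [smul_smul]
    rw [Finset.sum_congr rfl fun i _ => this i, Finset.sum_comm]
    refine Finset.sum_eq_zero fun j _ => ?_
    rw [← Finset.sum_smul, hj j, zero_smul]
  let c : V → ℝ := fun u => ∑ i, if f i = u then x i else 0
  have hc : ∑ u ∈ τ, c u • p u = 0 := by
    rw [← hsum]
    have : ∀ u ∈ τ, c u • p u = ∑ i, if f i = u then x i • p (f i) else 0 := by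
      intro u _
      rw [Finset.sum_smul]
      refine Finset.sum_congr rfl fun i _ => ?_
      by_cases h : f i = u
      · simp [h]
      · simp [h]
    rw [Finset.sum_congr rfl this, Finset.sum_comm]
    refine Finset.sum_congr rfl fun i _ => ?_
    rw [Finset.sum_ite_eq, if_pos (hfmem i)]
  apply hx0
  funext i
  have h1 := fold_indep hK hf hτ c hc (f i) (hfmem i)
  have h2 : c (f i) = x i := by
    show ∑ j, (if f j = f i then x j else 0) = x i
    rw [Finset.sum_eq_single i]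
    · simp
    · intro j _ hji
      rw [if_neg]
      exact fun h => hji (hfinj h)
    · intro h
      exact absurd (Finset.mem_univ i) h
  rw [← h2, h1]
  rfl

/-- the determinants of the facets have the signs of the orientation -/
theorem fold_sign (hK : IsSphere ν G n univ o) (hf : IsFold G n p a)
    {q : Fin n → Fin m₁ → ℝ} (hq : ∀ i j, q i ⬝ᵥ q j = if i = j then 1 else 0)
    (hqp : ∀ v, p v = ∑ j, (p v ⬝ᵥ q j) • q j) {srt : Finset V → List V}
    (hsrt : IsSrt ν srt) :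
    ∃ s : ℝ, s * s = 1 ∧ ∀ τ ∈ fac G n univ, 0 < s * (o τ * dtl n q p (srt τ)) := by
  refine hK.sign (fun τ => dtl n q p (srt τ))
    (fun τ hτ => fold_dtl_ne hK hf hq hqp hsrt hτ) ?_
  intro κ v w hvw hv hw h1 h2
  have hlen : (srt κ).length + 1 = n := by
    rw [hsrt.length, ← Finset.card_insert_of_notMem hv]
    exact (memfac.1 h1).2.2
  obtain ⟨δ, hδ, hδ0⟩ := dtl_cons q p (srt κ) hlen
  have e1 : sgn ν v κ * dtl n q p (srt (insert v κ)) = δ (p v) := by
    rw [← dtl_insert hsrt q p hv, hδ]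
  have e2 : sgn ν w κ * dtl n q p (srt (insert w κ)) = δ (p w) := by
    rw [← dtl_insert hsrt q p hw, hδ]
  show (sgn ν v κ * dtl n q p (srt (insert v κ))) * (sgn ν w κ * dtl n q p (srt (insert w κ))) < 0
  rw [e1, e2]
  refine fold_opposite hK hf hvw hv hw h1 h2 δ ?_ ?_
  · intro u hu
    apply hδ0
    rw [← List.mem_toFinset, hsrt.toFinset]
    exact hu
  · rw [← e1]
    refine mul_ne_zero ?_ (fold_dtl_ne hK hf hq hqp hsrt h1)
    intro h
    have := sgn_sq ν v κ
    rw [h] at this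
    norm_num at this

end Pool.Agent.H85.Fold
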